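import Mathlib

set_option autoImplicit false

namespace H528Core

open Module LinearMap

abbrev K2 := ZMod 2

section lin
variable {A B C : Type} [AddCommGroup A] [Module K2 A] [AddCommGroup B] [Module K2 B]
  [AddCommGroup C] [Module K2 C]

lemma z2 {a b : A} (h : (1 : K2) • a = (1 : K2) • b) : a = b := by
  simpa using h

lemma aa (a : A) : a + a = 0 := ZModModule.add_self a

lemma finrank_map_inj (f : A →ₗ[K2] B) (hf : Function.Injective f) (S : Submodule K2 A) :
    finrank K2 (S.map f) = finrank K2 S :=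
  (Submodule.equivMapOfInjective f hf S).finrank_eq.symm

lemma ker_comp_dim [FiniteDimensional K2 A] (f : A →ₗ[K2] B) (g : B →ₗ[K2] C) :
    finrank K2 (ker (g ∘ₗ f)) = finrank K2 (ker f) + finrank K2 (range f ⊓ ker g : Submodule K2 B) := by
  have h := LinearMap.finrank_range_add_finrank_ker (f.domRestrict (ker (g ∘ₗ f)))
  have h1 : range (f.domRestrict (ker (g ∘ₗ f))) = range f ⊓ ker g := by
    ext b
    simp only [mem_range, Submodule.mem_inf, mem_ker]
    constructor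
    · rintro ⟨⟨a, ha⟩, rfl⟩
      exact ⟨⟨a, rfl⟩, by simpa using ha⟩
    · rintro ⟨⟨a, rfl⟩, ha⟩
      exact ⟨⟨a, by simpa using ha⟩, rfl⟩
  have h2 : (ker (f.domRestrict (ker (g ∘ₗ f)))).map (ker (g ∘ₗ f)).subtype = ker f := by
    ext a
    simp only [Submodule.mem_map, mem_ker]
    constructor
    · rintro ⟨⟨a, ha⟩, h, rfl⟩
      simpa using h
    · intro ha
      exact ⟨⟨a, by simp [ha]⟩, by simpa using ha, rfl⟩
  have h3 := finrank_map_inj (ker (g ∘ₗ f)).subtype (Submodule.injective_subtype _)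
    (ker (f.domRestrict (ker (g ∘ₗ f))))
  rw [h2] at h3
  rw [h1] at h
  omega

end lin

section shift
variable {A1 A2 A3 B1 B2 B3 C1 C2 : Type}
  [AddCommGroup A1] [Module K2 A1] [AddCommGroup A2] [Module K2 A2] [AddCommGroup A3] [Module K2 A3]
  [AddCommGroup B1] [Module K2 B1] [AddCommGroup B2] [Module K2 B2] [AddCommGroup B3] [Module K2 B3]
  [AddCommGroup C1] [Module K2 C1] [AddCommGroup C2] [Module K2 C2]

lemma shift [FiniteDimensional K2 B1]
    (a2 : A2 →ₗ[K2] A3) (b1 : B1 →ₗ[K2] B2) (b2 : B2 →ₗ[K2] B3) (c1 : C1 →ₗ[K2] C2)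
    (i1 : A1 →ₗ[K2] B1) (i2 : A2 →ₗ[K2] B2) (i3 : A3 →ₗ[K2] B3)
    (p1 : B1 →ₗ[K2] C1) (p2 : B2 →ₗ[K2] C2)
    (hi1 : Function.Injective i1) (hi2 : Function.Injective i2) (hi3 : Function.Injective i3)
    (hp1 : Function.Surjective p1) (e1 : ker p1 = range i1) (e2 : ker p2 = range i2)
    (s1 : c1 ∘ₗ p1 = p2 ∘ₗ b1) (s2 : b2 ∘ₗ i2 = i3 ∘ₗ a2) (ex : ker b2 = range b1) :
    finrank K2 (ker c1) + finrank K2 A1 = finrank K2 (ker b1) + finrank K2 (ker a2) := by
  have h1 := ker_comp_dim p1 c1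
  have h2 := ker_comp_dim b1 p2
  rw [s1, h2, range_eq_top.2 hp1, top_inf_eq, e1, LinearMap.finrank_range_of_inj hi1] at h1
  have h3 : range b1 ⊓ ker p2 = (ker a2).map i2 := by
    rw [← ex, e2]
    ext b
    simp only [Submodule.mem_inf, mem_ker, mem_range, Submodule.mem_map]
    constructor
    · rintro ⟨hb, a, rfl⟩
      refine ⟨a, hi3 ?_, rfl⟩
      have := LinearMap.congr_fun s2 a
      simp only [comp_apply] at this
      rw [← this, hb, map_zero]
    · rintro ⟨a, ha, rfl⟩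
      refine ⟨?_, a, rfl⟩
      have := LinearMap.congr_fun s2 a
      simp only [comp_apply] at this
      rw [this, ha, map_zero]
  rw [h3, finrank_map_inj i2 hi2] at h1
  omega

end shift

section cx
variable {V W : Type} [AddCommGroup V] [Module K2 V] [AddCommGroup W] [Module K2 W]

def mm (j : ℤ) : ℕ := if 0 ≤ j then j.toNat + 1 else (-j).toNat

def ext0 (n : ℕ) (l : ℤ) : (Fin n → V) →ₗ[K2] V :=
  if h : 0 ≤ l ∧ l < n then LinearMap.proj (⟨l.toNat, by omega⟩ : Fin n) else 0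

lemma ext0_fin (n : ℕ) (f : Fin n → V) (i : Fin n) : ext0 n ((i : ℕ) : ℤ) f = f i := by
  have h : 0 ≤ ((i : ℕ) : ℤ) ∧ ((i : ℕ) : ℤ) < n := ⟨by omega, by have := i.2; omega⟩
  simp [ext0, h]

lemma ext0_out (n : ℕ) (f : Fin n → V) (l : ℤ) (h : l < 0 ∨ (n : ℤ) ≤ l) : ext0 n l f = 0 := by
  have h' : ¬ (0 ≤ l ∧ l < n) := by omega
  simp [ext0, h']

lemma ext0_seq (n : ℕ) (G : ℤ → V) (l : ℤ) (h : 0 ≤ l ∧ l < n) :
    ext0 n l (fun i : Fin n => G ((i : ℕ) : ℤ)) = G l := by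
  simp only [ext0, h, and_self, dite_true, proj_apply]
  congr 1
  omega

lemma ext0_nat (φ : V →ₗ[K2] W) (n : ℕ) (l : ℤ) (f : Fin n → V) :
    ext0 n l (φ.compLeft (Fin n) f) = φ (ext0 n l f) := by
  unfold ext0
  split_ifs <;> simp

def DE (x y : V →ₗ[K2] V) (j : ℤ) (n : ℕ) (l : ℤ) : (Fin n → V) →ₗ[K2] V :=
  if 0 ≤ j then x ∘ₗ ext0 n l + y ∘ₗ ext0 n (l - 1)
  else if j = -1 then x ∘ₗ y ∘ₗ ext0 n l else x ∘ₗ ext0 n l + y ∘ₗ ext0 n (l + 1)

lemma DE_pos (x y : V →ₗ[K2] V) {j : ℤ} (hj : 0 ≤ j) (n : ℕ) (l : ℤ) (f : Fin n → V) :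
    DE x y j n l f = x (ext0 n l f) + y (ext0 n (l - 1) f) := by simp [DE, hj]

lemma DE_mid (x y : V →ₗ[K2] V) {j : ℤ} (hj : j = -1) (n : ℕ) (l : ℤ) (f : Fin n → V) :
    DE x y j n l f = x (y (ext0 n l f)) := by simp [DE, hj]

lemma DE_neg (x y : V →ₗ[K2] V) {j : ℤ} (hj : j < -1) (n : ℕ) (l : ℤ) (f : Fin n → V) :
    DE x y j n l f = x (ext0 n l f) + y (ext0 n (l + 1) f) := by
  have h1 : ¬ 0 ≤ j := by omega
  have h2 : ¬ j = -1 := by omega
  simp [DE, h1, h2]

def DD (x y : V →ₗ[K2] V) (j : ℤ) : (Fin (mm j) → V) →ₗ[K2] (Fin (mm (j + 1)) → V) :=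
  LinearMap.pi fun i => DE x y j (mm j) ((i : ℕ) : ℤ)

lemma DD_apply (x y : V →ₗ[K2] V) (j : ℤ) (f : Fin (mm j) → V) (i : Fin (mm (j + 1))) :
    DD x y j f i = DE x y j (mm j) ((i : ℕ) : ℤ) f := rfl

lemma ext0_DD (x y : V →ₗ[K2] V) (j : ℤ) (f : Fin (mm j) → V) (l : ℤ)
    (h : 0 ≤ l ∧ l < mm (j + 1)) : ext0 _ l (DD x y j f) = DE x y j (mm j) l f :=
  ext0_seq (mm (j + 1)) (fun l => DE x y j (mm j) l f) l h

lemma DD_nat (x y : V →ₗ[K2] V) (x' y' : W →ₗ[K2] W) (φ : V →ₗ[K2] W)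
    (hx : ∀ v, φ (x v) = x' (φ v)) (hy : ∀ v, φ (y v) = y' (φ v)) (j : ℤ) :
    DD x' y' j ∘ₗ φ.compLeft _ = φ.compLeft _ ∘ₗ DD x y j := by
  refine LinearMap.ext fun f => funext fun i => ?_
  simp only [comp_apply, DD_apply, compLeft_apply, Function.comp, DE]
  split_ifs <;> simp [ext0_nat, hx, hy]

/-- the square-zero commuting relations -/
structure Rel (x y : V →ₗ[K2] V) : Prop where
  xx : ∀ v, x (x v) = 0
  yy : ∀ v, y (y v) = 0
  yx : ∀ v, y (x v) = x (y v)

lemma mm_nonneg {j : ℤ} (h : 0 ≤ j) : (mm j : ℤ) = j + 1 := by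
  simp only [mm, h, if_true]; omega

lemma mm_neg {j : ℤ} (h : j < 0) : (mm j : ℤ) = -j := by
  have : ¬ 0 ≤ j := by omega
  simp only [mm, this, if_false]; omega

lemma DD_DD (x y : V →ₗ[K2] V) (h : Rel x y) (j : ℤ) (f : Fin (mm j) → V) :
    DD x y (j + 1) (DD x y j f) = 0 := by
  funext i
  have hi : ((i : ℕ) : ℤ) < mm (j + 1 + 1) := by have := i.2; omega
  have hi0 : 0 ≤ ((i : ℕ) : ℤ) := by omega
  rw [DD_apply]
  generalize ((i : ℕ) : ℤ) = l at hi hi0
  rcases le_or_gt 0 j with hj | hj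
  · have key : ∀ l : ℤ, ext0 _ l (DD x y j f) = x (ext0 _ l f) + y (ext0 _ (l - 1) f) := by
      intro l
      have e1 := mm_nonneg hj
      have e2 := mm_nonneg (show 0 ≤ j + 1 by omega)
      by_cases hl : 0 ≤ l ∧ l < mm (j + 1)
      · rw [ext0_DD _ _ _ _ _ hl]; simp [DE, hj]
      · rw [ext0_out _ _ l (by omega), ext0_out _ _ l (by omega), ext0_out _ _ (l - 1) (by omega)]
        simp
    have hj' : 0 ≤ j + 1 := by omega
    rw [DE_pos x y hj', key, key]
    simp [h.xx, h.yy, h.yx, aa]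
  · rcases eq_or_ne j (-1) with rfl | h1
    · have key : ∀ l : ℤ, ext0 _ l (DD x y (-1) f) = x (y (ext0 _ l f)) := by
        intro l
        have e1 : (mm (-1) : ℤ) = 1 := rfl
        have e2 : (mm (-1 + 1) : ℤ) = 1 := rfl
        by_cases hl : 0 ≤ l ∧ l < mm (-1 + 1)
        · rw [ext0_DD _ _ _ _ _ hl]; simp [DE]
        · rw [ext0_out _ _ l (by omega), ext0_out _ _ l (by omega)]
          simp
      have hj' : (0 : ℤ) ≤ -1 + 1 := by omega
      rw [DE_pos x y hj', key, key]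
      simp [h.xx, h.yy, h.yx]
    · have hj0 : ¬ 0 ≤ j := by omega
      have e2 := mm_neg (show j + 1 < 0 by omega)
      have key : ∀ l : ℤ, 0 ≤ l → l < -j - 1 →
          ext0 _ l (DD x y j f) = x (ext0 _ l f) + y (ext0 _ (l + 1) f) := by
        intro l h0 hl
        rw [ext0_DD _ _ _ _ _ ⟨h0, by omega⟩]; simp [DE, hj0, h1]
      have hj' : ¬ 0 ≤ j + 1 := by omega
      rcases eq_or_ne (j + 1) (-1) with h2 | h2
      · have e3 := mm_nonneg (show 0 ≤ j + 1 + 1 by omega)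
        rw [DE_mid x y h2, key l hi0 (by omega)]
        simp [h.xx, h.yy, h.yx]
      · have e3 := mm_neg (show j + 1 + 1 < 0 by omega)
        rw [DE_neg x y (show j + 1 < -1 by omega), key l hi0 (by omega), key (l + 1) (by omega) (by omega)]
        simp [h.xx, h.yy, h.yx, aa]

/-- acyclicity conditions -/
structure Acyc (x y : V →ₗ[K2] V) : Prop where
  kx : ∀ v, x v = 0 → ∃ w, x w = v
  ky : ∀ v, y v = 0 → ∃ w, y w = v
  kxy : ∀ v, x v = 0 → y v = 0 → ∃ w, x (y w) = v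
  ks : ∀ v, x (y v) = 0 → ∃ w w', x w + y w' = v

lemma seqP (x y : V →ₗ[K2] V) (h : Rel x y) (kx : ∀ v, x v = 0 → ∃ w, x w = v)
    (e : ℕ → V) (n : ℕ) (g0 : V) (h0 : x (e 0 + y g0) = 0)
    (he : ∀ i, i < n → x (e (i + 1)) + y (e i) = 0) :
    ∃ G : ℕ → V, G 0 = g0 ∧ ∀ i, i ≤ n → x (G (i + 1)) = e i + y (G i) := by
  classical
  have : ∀ v : V, ∃ w, x v = 0 → x w = v := fun v => by
    by_cases hv : x v = 0
    · obtain ⟨w, hw⟩ := kx v hv; exact ⟨w, fun _ => hw⟩
    · exact ⟨0, fun h => absurd h hv⟩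
  choose s hs using this
  let G : ℕ → V := fun i => Nat.rec g0 (fun i g => s (e i + y g)) i
  have hG : ∀ i, G (i + 1) = s (e i + y (G i)) := fun i => rfl
  have key : ∀ i, i ≤ n → x (e i + y (G i)) = 0 := by
    intro i
    induction i with
    | zero => intro _; exact h0
    | succ i ih =>
      intro hi
      have h1 := hs _ (ih (by omega))
      rw [← hG] at h1
      have h2 := he i (by omega)
      rw [map_add, ← h.yx, h1, map_add, h.yy, add_zero, h2]
  exact ⟨G, rfl, fun i hi => by rw [hG]; exact hs _ (key i hi)⟩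

lemma DD_exact (x y : V →ₗ[K2] V) (h : Rel x y) (ha : Acyc x y) (j : ℤ) :
    ker (DD x y (j + 1)) = range (DD x y j) := by
  apply le_antisymm
  swap
  · rintro _ ⟨f, rfl⟩; exact DD_DD x y h j f
  intro f hf
  rw [mem_ker] at hf
  have hf' : ∀ l : ℤ, 0 ≤ l → l < mm (j + 1 + 1) → DE x y (j + 1) (mm (j + 1)) l f = 0 := by
    intro l h0 hl
    rw [← ext0_DD x y (j + 1) f l ⟨h0, hl⟩, hf, map_zero]
  rcases le_or_gt 0 j with hj | hj
  · obtain ⟨n, rfl⟩ := Int.eq_ofNat_of_zero_le hj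
    have e1 := mm_nonneg hj
    have e2 := mm_nonneg (show 0 ≤ (n : ℤ) + 1 by omega)
    have e3 := mm_nonneg (show 0 ≤ (n : ℤ) + 1 + 1 by omega)
    have hj' : 0 ≤ (n : ℤ) + 1 := by omega
    have hf2 : ∀ l : ℤ, 0 ≤ l → l ≤ n + 2 → x (ext0 _ l f) + y (ext0 _ (l - 1) f) = 0 := by
      intro l h0 hl
      have := hf' l h0 (by omega)
      simpa [DE, hj'] using this
    obtain ⟨G, hG0, hG⟩ := seqP x y h ha.kx (fun i => ext0 _ (i : ℤ) f) (n + 1) 0
      (by have := hf2 0 le_rfl (by omega)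
          rw [ext0_out _ _ (0 - 1) (by omega)] at this
          simpa using this)
      (by intro i hi
          have := hf2 ((i : ℤ) + 1) (by omega) (by omega)
          simpa using this)
    have r1 : x (ext0 _ ((n : ℤ) + 1) f + y (G (n + 1))) = 0 := by
      have := hG (n + 1) le_rfl
      push_cast at this
      rw [← this, h.xx]
    have r2 : y (ext0 _ ((n : ℤ) + 1) f + y (G (n + 1))) = 0 := by
      have := hf2 ((n : ℤ) + 2) (by omega) le_rfl
      rw [ext0_out _ _ ((n : ℤ) + 2) (by omega), show (n : ℤ) + 2 - 1 = n + 1 by ring] at this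
      simpa [h.yy] using this
    obtain ⟨w, hw⟩ := ha.kxy _ r1 r2
    let G' : ℤ → V := fun l => G (l + 1).toNat + if l = n then x w else 0
    refine ⟨fun i => G' ((i : ℕ) : ℤ), ?_⟩
    funext i
    have hi : ((i : ℕ) : ℤ) < mm ((n : ℤ) + 1) := by have := i.2; omega
    rw [DD_apply, ← ext0_fin _ f i]
    obtain ⟨i, hi'⟩ := i
    rw [DE_pos x y hj]
    simp only at hi ⊢
    have hx' : ∀ l : ℤ, x (G' l) = x (G (l + 1).toNat) := by
      intro l; simp only [G']; split_ifs <;> simp [h.xx]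
    by_cases c1 : i ≤ n
    · rw [ext0_seq (mm n) G' i ⟨by omega, by omega⟩, hx', show ((i : ℤ) + 1).toNat = i + 1 by omega,
        hG i (by omega)]
      by_cases c2 : i = 0
      · subst c2
        rw [ext0_out (mm n) _ (((0 : ℕ) : ℤ) - 1) (by omega), hG0]; simp
      · rw [ext0_seq (mm n) G' (i - 1) ⟨by omega, by omega⟩]
        have : ¬ ((i : ℤ) - 1 = n) := by omega
        simp only [G', this, if_false, add_zero, show ((i : ℤ) - 1 + 1).toNat = i by omega]
        rw [add_assoc, aa, add_zero]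
    · have c2 : i = n + 1 := by omega
      subst c2
      rw [ext0_out (mm n) _ ((n + 1 : ℕ) : ℤ) (by omega),
        ext0_seq (mm n) G' (((n + 1 : ℕ) : ℤ) - 1) ⟨by omega, by omega⟩]
      have : ((n + 1 : ℕ) : ℤ) - 1 = n := by omega
      simp only [G', this, if_true, show ((n : ℤ) + 1).toNat = n + 1 by omega, map_add, map_zero,
        zero_add, h.yx, hw]
      push_cast
      rw [add_comm (ext0 _ _ f), ← add_assoc, aa, zero_add]
  · rcases eq_or_ne j (-1) with rfl | h1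
    · have e1 : (mm (-1) : ℤ) = 1 := rfl
      have e2 : (mm (-1 + 1) : ℤ) = 1 := rfl
      have e3 : (mm (-1 + 1 + 1) : ℤ) = 2 := rfl
      have a0 := hf' 0 le_rfl (by omega)
      have a1 := hf' 1 (by omega) (by omega)
      have hj' : (0 : ℤ) ≤ -1 + 1 := by omega
      rw [DE_pos x y hj'] at a0 a1
      rw [ext0_out _ f (0 - 1) (by omega), map_zero, add_zero] at a0
      rw [ext0_out _ f 1 (by omega), map_zero, zero_add, sub_self] at a1
      obtain ⟨w, hw⟩ := ha.kxy _ a0 a1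
      refine ⟨fun _ => w, ?_⟩
      funext i
      have hi : ((i : ℕ) : ℤ) = 0 := by have := i.2; omega
      rw [DD_apply, ← ext0_fin _ f i, hi, ← hw]
      have := ext0_seq (mm (-1)) (fun _ => w) 0 ⟨le_rfl, by omega⟩
      simp [DE, this]
    · obtain ⟨n, hn⟩ : ∃ n : ℕ, j = -(n : ℤ) - 2 := ⟨(-j - 2).toNat, by omega⟩
      have e1 := mm_neg hj
      have e2 := mm_neg (show j + 1 < 0 by omega)
      have hj0 : ¬ 0 ≤ j := by omega
      have hj' : ¬ 0 ≤ j + 1 := by omega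
      have hf2 : ∀ l : ℤ, 0 ≤ l → l < n → x (ext0 _ l f) + y (ext0 _ (l + 1) f) = 0 := by
        intro l h0 hl
        have e3 := mm_neg (show j + 1 + 1 < 0 by omega)
        have := hf' l h0 (by omega)
        have h2 : ¬ (j + 1 = -1) := by omega
        simpa [DE, hj', h2] using this
      have hs : x (y (ext0 _ 0 f)) = 0 := by
        rcases Nat.eq_zero_or_pos n with c | c
        · have h2 : j + 1 = -1 := by omega
          have e3 := mm_nonneg (show 0 ≤ j + 1 + 1 by omega)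
          have := hf' 0 le_rfl (by omega)
          simpa only [DE, hj', if_false, if_pos h2, comp_apply] using this
        · have := congrArg y (hf2 0 le_rfl (by omega))
          simpa [h.yy, h.yx] using this
      obtain ⟨w, w', hw⟩ := ha.ks _ hs
      obtain ⟨G, hG0, hG⟩ := seqP y x ⟨h.yy, h.xx, fun v => (h.yx v).symm⟩ ha.ky
        (fun i => ext0 _ (i : ℤ) f) n w
        (by simp only [Nat.cast_zero, ← hw, map_add, h.yy, add_zero, aa])
        (by intro i hi
            have := hf2 (i : ℤ) (by omega) (by omega)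
            rw [add_comm] at this
            simpa using this)
      let G' : ℤ → V := fun l => G l.toNat
      refine ⟨fun i => G' ((i : ℕ) : ℤ), ?_⟩
      funext i
      have hi : ((i : ℕ) : ℤ) < mm (j + 1) := by have := i.2; omega
      rw [DD_apply, ← ext0_fin _ f i]
      obtain ⟨i, hi'⟩ := i
      rw [DE_neg x y (show j < -1 by omega)]
      simp only at hi ⊢
      rw [ext0_seq (mm j) G' i ⟨by omega, by omega⟩, ext0_seq (mm j) G' (i + 1) ⟨by omega, by omega⟩]
      simp only [G', show ((i : ℤ) + 1).toNat = i + 1 by omega, Int.toNat_natCast]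
      rw [hG i (by omega), add_comm (ext0 _ _ f), ← add_assoc, aa, zero_add]

end cx

end H528Core
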