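import Pool.Agent.H528Z.Core1

set_option autoImplicit false
set_option linter.unnecessarySeqFocus false
set_option linter.unusedSimpArgs false

namespace H528Core

open Module LinearMap

variable {V W : Type} [AddCommGroup V] [Module K2 V] [AddCommGroup W] [Module K2 W]

noncomputable def kap (x y : V →ₗ[K2] V) (j : ℤ) : ℕ := finrank K2 (ker (DD x y j))

lemma DD_nat' (x y : V →ₗ[K2] V) (x' y' : W →ₗ[K2] W) (φ : V →ₗ[K2] W)
    (hx : ∀ v, φ (x v) = x' (φ v)) (hy : ∀ v, φ (y v) = y' (φ v)) (j : ℤ) (f : Fin (mm j) → V) :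
    DD x' y' j (φ.compLeft _ f) = φ.compLeft _ (DD x y j f) :=
  LinearMap.congr_fun (DD_nat x y x' y' φ hx hy j) f

def kerMap (x y : V →ₗ[K2] V) (x' y' : W →ₗ[K2] W) (φ : V →ₗ[K2] W)
    (hx : ∀ v, φ (x v) = x' (φ v)) (hy : ∀ v, φ (y v) = y' (φ v)) (j : ℤ) :
    ker (DD x y j) →ₗ[K2] ker (DD x' y' j) :=
  (φ.compLeft _).restrict (by
    intro f hf
    rw [mem_ker] at hf ⊢
    rw [DD_nat' x y x' y' φ hx hy, hf, map_zero])

lemma kerMap_val (x y : V →ₗ[K2] V) (x' y' : W →ₗ[K2] W) (φ : V →ₗ[K2] W)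
    (hx : ∀ v, φ (x v) = x' (φ v)) (hy : ∀ v, φ (y v) = y' (φ v)) (j : ℤ)
    (f : ker (DD x y j)) (i : Fin (mm j)) :
    (kerMap x y x' y' φ hx hy j f : Fin (mm j) → W) i = φ ((f : Fin (mm j) → V) i) := rfl

lemma kap_equiv (x y : V →ₗ[K2] V) (x' y' : W →ₗ[K2] W) (φ : V ≃ₗ[K2] W)
    (hx : ∀ v, φ (x v) = x' (φ v)) (hy : ∀ v, φ (y v) = y' (φ v)) (j : ℤ) :
    kap x y j = kap x' y' j := by
  have hx' : ∀ v, φ.symm (x' v) = x (φ.symm v) := fun v => φ.injective (by simp [hx])
  have hy' : ∀ v, φ.symm (y' v) = y (φ.symm v) := fun v => φ.injective (by simp [hy])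
  refine (LinearEquiv.ofLinearMap (kerMap x y x' y' φ.toLinearMap hx hy j)
    (kerMap x' y' x y φ.symm.toLinearMap hx' hy' j) ?_ ?_).finrank_eq
  · ext f i; simp [kerMap_val]
  · ext f i; simp [kerMap_val]

lemma kap_prod [FiniteDimensional K2 V] [FiniteDimensional K2 W]
    (x y : V →ₗ[K2] V) (x' y' : W →ₗ[K2] W) (j : ℤ) :
    kap (x.prodMap x') (y.prodMap y') j = kap x y j + kap x' y' j := by
  unfold kap
  rw [← Module.finrank_prod]
  refine (LinearEquiv.ofLinearMap
    ((kerMap _ _ x y (LinearMap.fst K2 V W) (fun _ => rfl) (fun _ => rfl) j).prod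
      (kerMap _ _ x' y' (LinearMap.snd K2 V W) (fun _ => rfl) (fun _ => rfl) j))
    ((kerMap x y _ _ (LinearMap.inl K2 V W) (fun _ => by simp) (fun _ => by simp) j).coprod
      (kerMap x' y' _ _ (LinearMap.inr K2 V W) (fun _ => by simp) (fun _ => by simp) j))
      ?_ ?_).finrank_eq
  · refine LinearMap.ext fun ⟨f, g⟩ => ?_
    refine Prod.ext ?_ ?_
    · ext i; exact add_zero _
    · ext i; exact zero_add _
  · ext f i
    · exact add_zero _
    · exact zero_add _

lemma compLeft_inj (φ : V →ₗ[K2] W) (h : Function.Injective φ) (n : ℕ) :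
    Function.Injective (φ.compLeft (Fin n)) := by
  intro f g hfg
  funext i
  exact h (congr_fun hfg i)

lemma compLeft_surj (φ : V →ₗ[K2] W) (h : Function.Surjective φ) (n : ℕ) :
    Function.Surjective (φ.compLeft (Fin n)) := by
  intro g
  choose f hf using fun i => h (g i)
  exact ⟨f, funext hf⟩

lemma compLeft_ex {U : Type} [AddCommGroup U] [Module K2 U] (i : U →ₗ[K2] V) (p : V →ₗ[K2] W)
    (h : ker p = range i) (n : ℕ) : ker (p.compLeft (Fin n)) = range (i.compLeft (Fin n)) := by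
  ext f
  simp only [mem_ker, mem_range]
  constructor
  · intro hf
    have : ∀ l, ∃ u, i u = f l := fun l => by
      have : f l ∈ ker p := congr_fun hf l
      rwa [h] at this
    choose g hg using this
    exact ⟨g, funext hg⟩
  · rintro ⟨g, rfl⟩
    funext l
    have : i (g l) ∈ ker p := by rw [h]; exact ⟨_, rfl⟩
    exact this

lemma finrank_fn [FiniteDimensional K2 V] (n : ℕ) : finrank K2 (Fin n → V) = n * finrank K2 V := by
  rw [Module.finrank_pi_fintype]; simp

lemma kap_shift {U : Type} [AddCommGroup U] [Module K2 U] [FiniteDimensional K2 U]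
    [FiniteDimensional K2 V]
    (xu yu : U →ₗ[K2] U) (x y : V →ₗ[K2] V) (x' y' : W →ₗ[K2] W)
    (i : U →ₗ[K2] V) (p : V →ₗ[K2] W)
    (hix : ∀ v, i (xu v) = x (i v)) (hiy : ∀ v, i (yu v) = y (i v))
    (hpx : ∀ v, p (x v) = x' (p v)) (hpy : ∀ v, p (y v) = y' (p v))
    (hi : Function.Injective i) (hp : Function.Surjective p) (e : ker p = range i)
    (h : Rel x y) (ha : Acyc x y) (j : ℤ) :
    kap x' y' j + mm j * finrank K2 U = kap x y j + kap xu yu (j + 1) := by
  rw [← finrank_fn]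
  exact shift (DD xu yu (j + 1)) (DD x y j) (DD x y (j + 1)) (DD x' y' j)
    (i.compLeft _) (i.compLeft _) (i.compLeft _) (p.compLeft _) (p.compLeft _)
    (compLeft_inj i hi _) (compLeft_inj i hi _) (compLeft_inj i hi _) (compLeft_surj p hp _)
    (compLeft_ex i p e _) (compLeft_ex i p e _) (DD_nat x y x' y' p hpx hpy j)
    (DD_nat xu yu x y i hix hiy (j + 1)) (DD_exact x y h ha j)

lemma acyc_dim [FiniteDimensional K2 V] (x y : V →ₗ[K2] V) (h : Rel x y)
    (kx : ∀ v, x v = 0 → ∃ w, x w = v) (kxy : ∀ v, x v = 0 → y v = 0 → ∃ w, x (y w) = v) :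
    finrank K2 V = 4 * finrank K2 (range (x ∘ₗ y)) := by
  have e1 : ker x = range x := by
    ext v
    exact ⟨fun hv => kx v hv, by rintro ⟨w, rfl⟩; exact h.xx w⟩
  have e0 : y ∘ₗ x = x ∘ₗ y := LinearMap.ext h.yx
  have e2 : range x ⊓ ker y = range (x ∘ₗ y) := by
    ext v
    simp only [Submodule.mem_inf, mem_range, mem_ker, comp_apply]
    constructor
    · rintro ⟨⟨w, rfl⟩, hv⟩
      exact kxy _ (h.xx w) hv
    · rintro ⟨w, rfl⟩
      exact ⟨⟨_, rfl⟩, by rw [h.yx, h.yy, map_zero]⟩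
  have h1 := ker_comp_dim x y
  rw [e0, e2] at h1
  have h2 := LinearMap.finrank_range_add_finrank_ker x
  have h3 := LinearMap.finrank_range_add_finrank_ker (x ∘ₗ y)
  rw [← e1] at h2
  omega

lemma kap_mid [FiniteDimensional K2 V] (x y : V →ₗ[K2] V) :
    kap x y (-1) + finrank K2 (range (x ∘ₗ y)) = finrank K2 V := by
  have h3 := LinearMap.finrank_range_add_finrank_ker (x ∘ₗ y)
  have e1 : (mm (-1) : ℤ) = 1 := rfl
  have e2 : (mm (-1 + 1) : ℤ) = 1 := rfl
  have : kap x y (-1) = finrank K2 (ker (x ∘ₗ y)) := by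
    unfold kap
    have hinj : Function.Injective (ext0 (V := V) (mm (-1)) 0) := by
      intro f g hfg
      funext i
      have hi : ((i : ℕ) : ℤ) = 0 := by have := i.2; omega
      rw [← ext0_fin _ f i, ← ext0_fin _ g i, hi, hfg]
    rw [← finrank_map_inj _ hinj]
    suffices hh : Submodule.map (ext0 (mm (-1)) 0) (DD x y (-1)).ker = (x ∘ₗ y).ker by rw [hh]
    ext v
    simp only [Submodule.mem_map, mem_ker, comp_apply]
    constructor
    · rintro ⟨f, hf, rfl⟩
      rw [← DE_mid x y rfl, ← ext0_DD x y (-1) f 0 ⟨le_rfl, by omega⟩, hf, map_zero]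
    · intro hv
      have := ext0_seq (mm (-1)) (fun _ => v) 0 ⟨le_rfl, by omega⟩
      refine ⟨fun _ => v, ?_, this⟩
      funext i
      have hi : ((i : ℕ) : ℤ) = 0 := by have := i.2; omega
      rw [DD_apply, hi, DE_mid x y rfl, this, hv]; rfl
  omega

def uu (j : ℤ) : ℤ := 2 * |j| + 1

lemma uu_add (j : ℤ) : uu j + uu (j + 1) = 4 * mm j := by
  unfold uu
  rcases le_or_gt 0 j with hj | hj
  · rw [mm_nonneg hj, abs_of_nonneg hj, abs_of_nonneg (by omega)]; ring
  · rw [mm_neg hj, abs_of_neg hj, abs_of_nonpos (by omega)]; ring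

noncomputable def qq (x y : V →ₗ[K2] V) (j : ℤ) : ℤ := 4 * kap x y j - uu j * finrank K2 V

lemma qq_acyc [FiniteDimensional K2 V] (x y : V →ₗ[K2] V) (h : Rel x y) (ha : Acyc x y) (j : ℤ) :
    qq x y j = 0 := by
  have step : ∀ j : ℤ, qq x y (j + 1) = - qq x y j := by
    intro j
    have h1 := LinearMap.finrank_range_add_finrank_ker (DD x y j)
    rw [← DD_exact x y h ha j, finrank_fn] at h1
    have h2 : (kap x y (j + 1) : ℤ) + kap x y j = mm j * finrank K2 V := by exact_mod_cast h1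
    unfold qq
    linear_combination 4 * h2 - (finrank K2 V : ℤ) * uu_add j
  have base : qq x y (-1) = 0 := by
    have h1 := kap_mid x y
    have h2 := acyc_dim x y h ha.kx ha.kxy
    have : uu (-1) = 3 := rfl
    unfold qq
    rw [this]; omega
  induction j using Int.induction_on with
  | zero => have := step (-1); rw [base] at this; simpa using this
  | succ i ih => rw [step, ih]; simp
  | pred i ih =>
    have := step (-(i : ℤ) - 1)
    rw [sub_add_cancel, ih] at this
    omega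

section T
variable (x y : V →ₗ[K2] V)

def xT : (V × V × V × V) →ₗ[K2] (V × V × V × V) where
  toFun v := (x v.1, x v.2.1 + (x v.1 + v.1), x v.2.2.1, x v.2.2.2 + (x v.2.2.1 + v.2.2.1))
  map_add' v w := by ext <;> simp <;> abel
  map_smul' c v := by ext <;> simp

def yT : (V × V × V × V) →ₗ[K2] (V × V × V × V) where
  toFun v := (y v.1, y v.2.1, y v.2.2.1 + (y v.1 + v.1), y v.2.2.2 + (y v.2.1 + v.2.1))
  map_add' v w := by ext <;> simp <;> abel
  map_smul' c v := by ext <;> simp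

def xA : (V × V × V) →ₗ[K2] (V × V × V) where
  toFun v := (x v.1, x v.2.1, x v.2.2 + (x v.2.1 + v.2.1))
  map_add' v w := by ext <;> simp <;> abel
  map_smul' c v := by ext <;> simp

def yA : (V × V × V) →ₗ[K2] (V × V × V) where
  toFun v := (y v.1, y v.2.1, y v.2.2 + (y v.1 + v.1))
  map_add' v w := by ext <;> simp <;> abel
  map_smul' c v := by ext <;> simp

def xB : (V × V × V) →ₗ[K2] (V × V × V) where
  toFun v := (x v.1, x v.2.1 + (x v.1 + v.1), x v.2.2)
  map_add' v w := by ext <;> simp <;> abel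
  map_smul' c v := by ext <;> simp

def yB : (V × V × V) →ₗ[K2] (V × V × V) where
  toFun v := (y v.1, y v.2.1, y v.2.2 + (y v.1 + v.1))
  map_add' v w := by ext <;> simp <;> abel
  map_smul' c v := by ext <;> simp

lemma xT_apply (v : V × V × V × V) : xT x v =
  (x v.1, x v.2.1 + (x v.1 + v.1), x v.2.2.1, x v.2.2.2 + (x v.2.2.1 + v.2.2.1)) := rfl
lemma yT_apply (v : V × V × V × V) : yT y v =
  (y v.1, y v.2.1, y v.2.2.1 + (y v.1 + v.1), y v.2.2.2 + (y v.2.1 + v.2.1)) := rfl
lemma xA_apply (v : V × V × V) : xA x v = (x v.1, x v.2.1, x v.2.2 + (x v.2.1 + v.2.1)) := rfl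
lemma yA_apply (v : V × V × V) : yA y v = (y v.1, y v.2.1, y v.2.2 + (y v.1 + v.1)) := rfl
lemma xB_apply (v : V × V × V) : xB x v = (x v.1, x v.2.1 + (x v.1 + v.1), x v.2.2) := rfl
lemma yB_apply (v : V × V × V) : yB y v = (y v.1, y v.2.1, y v.2.2 + (y v.1 + v.1)) := rfl

variable {x y}

lemma rel_T (h : Rel x y) : Rel (xT x) (yT y) := by
  refine ⟨fun v => ?_, fun v => ?_, fun v => ?_⟩ <;> ext <;>
    simp only [xT_apply, yT_apply, map_add, h.xx, h.yy, h.yx, map_zero, Prod.fst_zero,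
      Prod.snd_zero] <;> apply z2 <;> match_scalars <;> decide

lemma eq_of_add {a b : V} (h : a + b = 0) : b = a := by
  have := aa a
  rw [← h] at this
  exact (add_left_cancel this).symm

lemma acyc_T (h : Rel x y) : Acyc (xT x) (yT y) := by
  refine ⟨?_, ?_, ?_, ?_⟩
  · rintro ⟨v0, v1, v2, v3⟩ hv
    simp only [xT_apply, Prod.mk_eq_zero] at hv
    obtain ⟨a0, a1, a2, a3⟩ := hv
    rw [a0, zero_add] at a1
    rw [a2, zero_add] at a3
    obtain rfl := eq_of_add a1
    obtain rfl := eq_of_add a3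
    refine ⟨(x v1 + v1, 0, x v3 + v3, 0), ?_⟩
    ext <;> simp only [xT_apply, map_add, h.xx, map_zero] <;> apply z2 <;> match_scalars <;> decide
  · rintro ⟨v0, v1, v2, v3⟩ hv
    simp only [yT_apply, Prod.mk_eq_zero] at hv
    obtain ⟨a0, a1, a2, a3⟩ := hv
    rw [a0, zero_add] at a2
    rw [a1, zero_add] at a3
    obtain rfl := eq_of_add a2
    obtain rfl := eq_of_add a3
    refine ⟨(y v2 + v2, y v3 + v3, 0, 0), ?_⟩
    ext <;> simp only [yT_apply, map_add, h.yy, map_zero] <;> apply z2 <;> match_scalars <;> decide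
  · rintro ⟨v0, v1, v2, v3⟩ hv hw
    simp only [xT_apply, yT_apply, Prod.mk_eq_zero] at hv hw
    obtain ⟨a0, a1, a2, a3⟩ := hv
    obtain ⟨b0, b1, b2, b3⟩ := hw
    rw [a0, zero_add] at a1
    rw [a2, zero_add] at a3
    rw [b1, zero_add] at b3
    obtain rfl := eq_of_add a1
    obtain rfl := eq_of_add a3
    obtain rfl := eq_of_add b3
    refine ⟨(x (y v3) + x v3 + y v3 + v3, 0, 0, 0), ?_⟩
    ext <;> simp only [xT_apply, yT_apply, map_add, h.xx, h.yy, h.yx, map_zero] <;> apply z2 <;>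
      match_scalars <;> decide
  · rintro ⟨v0, v1, v2, v3⟩ hv
    simp only [xT_apply, yT_apply, Prod.mk_eq_zero] at hv
    obtain ⟨-, -, -, a3⟩ := hv
    have b3 := congrArg (fun v => x (y v) + x v + y v + v) a3
    simp only [map_add, h.xx, h.yy, h.yx, map_zero, add_zero, zero_add] at b3
    have e : v0 = x (y v3) + x v1 + y v2 := by
      symm
      apply eq_of_add
      rw [← b3]
      apply z2; match_scalars <;> decide
    subst e
    refine ⟨(x v1 + v1, 0, x v3 + v3, 0), (y (v2 + x v3) + (v2 + x v3), 0, 0, 0), ?_⟩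
    ext <;> simp only [xT_apply, yT_apply, map_add, h.xx, h.yy, h.yx, map_zero, Prod.fst_add,
      Prod.snd_add] <;> apply z2 <;> match_scalars <;> decide

lemma fr3 [FiniteDimensional K2 V] : finrank K2 (V × V × V) = 3 * finrank K2 V := by
  simp only [Module.finrank_prod]; ring

lemma fr4 [FiniteDimensional K2 V] : finrank K2 (V × V × V × V) = 4 * finrank K2 V := by
  simp only [Module.finrank_prod]; ring

lemma qq_A [FiniteDimensional K2 V] (h : Rel x y) (j : ℤ) :
    qq (xA x) (yA y) (j + 1) = qq x y j := by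
  have h1 := kap_shift (xA x) (yA y) (xT x) (yT y) x y (LinearMap.inr K2 V (V × V × V))
    (LinearMap.fst K2 V (V × V × V))
    (fun v => by ext <;> simp [xA_apply, xT_apply]) (fun v => by ext <;> simp [yA_apply, yT_apply])
    (fun v => rfl) (fun v => rfl) LinearMap.inr_injective LinearMap.fst_surjective
    (by rw [LinearMap.ker_fst]) (rel_T h) (acyc_T h) j
  have h2 := qq_acyc _ _ (rel_T h) (acyc_T h) j
  unfold qq at h2 ⊢
  rw [fr3] at h1 ⊢
  rw [fr4] at h2
  have h1' := congrArg (fun n : ℕ => (n : ℤ)) h1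
  push_cast at h1' h2 ⊢
  linear_combination (-4) * h1' - h2 - 3 * (finrank K2 V : ℤ) * uu_add j

def iB : V →ₗ[K2] V × V × V × V where
  toFun v := (0, 0, 0, v)
  map_add' v w := by simp
  map_smul' c v := by simp

def pB : (V × V × V × V) →ₗ[K2] V × V × V where
  toFun v := (v.1, v.2.1, v.2.2.1)
  map_add' v w := by simp
  map_smul' c v := by simp

lemma qq_B [FiniteDimensional K2 V] (h : Rel x y) (j : ℤ) :
    qq (xB x) (yB y) j = qq x y (j + 1) := by
  have h1 := kap_shift x y (xT x) (yT y) (xB x) (yB y) iB pB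
    (fun v => by ext <;> simp [iB, xT_apply]) (fun v => by ext <;> simp [iB, yT_apply])
    (fun v => rfl) (fun v => rfl) (fun v w hv => by simpa [iB] using hv)
    (fun v => ⟨(v.1, v.2.1, v.2.2, 0), rfl⟩)
    (by
      ext ⟨v0, v1, v2, v3⟩
      simp only [mem_ker, mem_range, iB, pB, coe_mk, AddHom.coe_mk, Prod.mk_eq_zero, Prod.mk.injEq]
      constructor
      · rintro ⟨rfl, rfl, rfl⟩; exact ⟨v3, rfl, rfl, rfl, rfl⟩
      · rintro ⟨w, rfl, rfl, rfl, -⟩; exact ⟨rfl, rfl, rfl⟩) (rel_T h) (acyc_T h) j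
  have h2 := qq_acyc _ _ (rel_T h) (acyc_T h) j
  unfold qq at h2 ⊢
  rw [fr3]
  rw [fr4] at h2
  have h1' := congrArg (fun n : ℕ => (n : ℤ)) h1
  push_cast at h1' h2 ⊢
  linear_combination 4 * h1' + h2 + (finrank K2 V : ℤ) * uu_add j

lemma qq_prod [FiniteDimensional K2 V] [FiniteDimensional K2 W]
    (x y : V →ₗ[K2] V) (x' y' : W →ₗ[K2] W) (j : ℤ) :
    qq (x.prodMap x') (y.prodMap y') j = qq x y j + qq x' y' j := by
  unfold qq
  rw [kap_prod, Module.finrank_prod]
  push_cast; ring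

lemma qq_equiv (x y : V →ₗ[K2] V) (x' y' : W →ₗ[K2] W) (φ : V ≃ₗ[K2] W)
    (hx : ∀ v, φ (x v) = x' (φ v)) (hy : ∀ v, φ (y v) = y' (φ v)) (j : ℤ) :
    qq x y j = qq x' y' j := by
  unfold qq
  rw [kap_equiv x y x' y' φ hx hy, φ.finrank_eq]

lemma qq_step [FiniteDimensional K2 V] (h : Rel x y) (j : ℤ) :
    qq ((xA x).prodMap ((xB x).prodMap (x.prodMap x)))
      ((yA y).prodMap ((yB y).prodMap (y.prodMap y))) j
      = qq x y (j - 1) + 2 * qq x y j + qq x y (j + 1) := by
  rw [qq_prod, qq_prod, qq_prod, qq_B h, ← qq_A h (j - 1), sub_add_cancel]; ring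

lemma qq_triv (x y : V →ₗ[K2] V) [FiniteDimensional K2 V] (hx : x = 0) (hy : y = 0)
    (hV : finrank K2 V = 1) (j : ℤ) : qq x y j = uu (j + 1) := by
  subst hx hy
  have : DD (0 : V →ₗ[K2] V) 0 j = 0 := by
    refine LinearMap.ext fun f => funext fun i => ?_
    rw [DD_apply]; unfold DE; split_ifs <;> simp
  unfold qq kap
  rw [this, ker_zero, finrank_top, finrank_fn, hV]
  push_cast
  linear_combination - uu_add j

end T

end H528Core
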