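import Pool.Agent.H528Z.Core2

set_option autoImplicit false
set_option linter.unnecessarySeqFocus false
set_option linter.unusedSimpArgs false

namespace H528Core

open Module CategoryTheory CategoryTheory.MonoidalCategory CategoryTheory.Limits

abbrev GG := Multiplicative (ZMod 2 × ZMod 2)

def g1 : GG := Multiplicative.ofAdd (1, 0)
def g2 : GG := Multiplicative.ofAdd (0, 1)

lemma g_cases (g : GG) : g = 1 ∨ g = g1 ∨ g = g2 ∨ g = g1 * g2 := by
  revert g; decide

section mk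
variable {V : Type} [AddCommGroup V] [Module K2 V]

lemma pw (a : Module.End K2 V) (ha : a * a = 1) (s t : ZMod 2) :
    a ^ (s + t).val = a ^ s.val * a ^ t.val := by
  have h0 : (0 : ZMod 2).val = 0 := rfl
  have h1 : (1 : ZMod 2).val = 1 := rfl
  have h2 : (1 + 1 : ZMod 2) = 0 := rfl
  have hs : s = 0 ∨ s = 1 := by revert s; decide
  have ht : t = 0 ∨ t = 1 := by revert t; decide
  rcases hs with rfl | rfl <;> rcases ht with rfl | rfl <;> simp [h0, h1, h2, ha]

lemma sq1 (x : V →ₗ[K2] V) (hx : ∀ v, x (x v) = 0) :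
    ((x + 1 : Module.End K2 V) * (x + 1)) = 1 := by
  ext v
  simp only [Module.End.mul_apply, LinearMap.add_apply, Module.End.one_apply, map_add, hx]
  apply z2; match_scalars <;> decide

lemma comm1 (x y : V →ₗ[K2] V) (h : Rel x y) :
    Commute (x + 1 : Module.End K2 V) (y + 1) := by
  ext v
  simp only [Module.End.mul_apply, LinearMap.add_apply, Module.End.one_apply, map_add, h.yx]
  abel

def rho (x y : V →ₗ[K2] V) (h : Rel x y) : Representation K2 GG V where
  toFun g := (x + 1 : Module.End K2 V) ^ (Multiplicative.toAdd g).1.val *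
    (y + 1 : Module.End K2 V) ^ (Multiplicative.toAdd g).2.val
  map_one' := by simp
  map_mul' g g' := by
    simp only [toAdd_mul, Prod.fst_add, Prod.snd_add, pw _ (sq1 x h.xx), pw _ (sq1 y h.yy)]
    have := ((comm1 x y h).pow_pow (Multiplicative.toAdd g').1.val (Multiplicative.toAdd g).2.val).eq
    simp only [mul_assoc]
    congr 1
    rw [← mul_assoc, this, mul_assoc]

lemma rho_g1 (x y : V →ₗ[K2] V) (h : Rel x y) (v : V) : rho x y h g1 v = x v + v := by
  have h1 : (1 : ZMod 2).val = 1 := rfl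
  simp [rho, g1, h1]

lemma rho_g2 (x y : V →ₗ[K2] V) (h : Rel x y) (v : V) : rho x y h g2 v = y v + v := by
  have h1 : (1 : ZMod 2).val = 1 := rfl
  simp [rho, g2, h1]

end mk

abbrev RR := Rep.{0} K2 GG

def xx (X : RR) : X.V →ₗ[K2] X.V := X.ρ g1 + LinearMap.id
def yy (X : RR) : X.V →ₗ[K2] X.V := X.ρ g2 + LinearMap.id

lemma xx_apply (X : RR) (v : X.V) : xx X v = X.ρ g1 v + v := rfl
lemma yy_apply (X : RR) (v : X.V) : yy X v = X.ρ g2 v + v := rfl

lemma rho1 (X : RR) (v : X.V) : X.ρ g1 v = xx X v + v := by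
  rw [xx_apply, add_assoc, aa, add_zero]
lemma rho2 (X : RR) (v : X.V) : X.ρ g2 v = yy X v + v := by
  rw [yy_apply, add_assoc, aa, add_zero]

lemma rho_mul (X : RR) (g h : GG) (v : X.V) : X.ρ (g * h) v = X.ρ g (X.ρ h v) := by
  simp

lemma rel_rep (X : RR) : Rel (xx X) (yy X) := by
  have e1 : g1 * g1 = 1 := by decide
  have e2 : g2 * g2 = 1 := by decide
  have e3 : g2 * g1 = g1 * g2 := mul_comm _ _
  refine ⟨fun v => ?_, fun v => ?_, fun v => ?_⟩
  · simp only [xx_apply, map_add, ← rho_mul, e1, map_one, Module.End.one_apply]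
    apply z2; match_scalars <;> decide
  · simp only [yy_apply, map_add, ← rho_mul, e2, map_one, Module.End.one_apply]
    apply z2; match_scalars <;> decide
  · simp only [xx_apply, yy_apply, map_add, ← rho_mul, e3]
    abel

lemma hom_xx {X Y : RR} (f : X ⟶ Y) (v : X.V) : f.hom (xx X v) = xx Y (f.hom v) := by
  rw [xx_apply, xx_apply, map_add, Rep.hom_comm_apply]
lemma hom_yy {X Y : RR} (f : X ⟶ Y) (v : X.V) : f.hom (yy X v) = yy Y (f.hom v) := by
  rw [yy_apply, yy_apply, map_add, Rep.hom_comm_apply]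

def mkHom {X Y : RR} (φ : X.V →ₗ[K2] Y.V) (hx : ∀ v, φ (xx X v) = xx Y (φ v))
    (hy : ∀ v, φ (yy X v) = yy Y (φ v)) : X ⟶ Y :=
  Rep.ofHom ⟨φ, fun g => by
    have h1 : ∀ v, φ (X.ρ g1 v) = Y.ρ g1 (φ v) := fun v => by rw [rho1, rho1, map_add, hx]
    have h2 : ∀ v, φ (X.ρ g2 v) = Y.ρ g2 (φ v) := fun v => by rw [rho2, rho2, map_add, hy]
    refine LinearMap.ext fun v => ?_
    rcases g_cases g with rfl | rfl | rfl | rfl
    · simp
    · exact h1 v
    · exact h2 v
    · simp only [LinearMap.comp_apply, rho_mul, h1, h2]⟩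

lemma mkHom_apply {X Y : RR} (φ : X.V →ₗ[K2] Y.V) (hx : ∀ v, φ (xx X v) = xx Y (φ v))
    (hy : ∀ v, φ (yy X v) = yy Y (φ v)) (v : X.V) : (mkHom φ hx hy).hom v = φ v := rfl

lemma hom_ext' {X Y : RR} {f g : X ⟶ Y} (h : ∀ v, f.hom v = g.hom v) : f = g := by
  ext v; exact h v

section free
variable (W : Type) [AddCommGroup W] [Module K2 W]

lemma rel0 : Rel (0 : W →ₗ[K2] W) 0 := ⟨fun _ => rfl, fun _ => rfl, fun _ => rfl⟩

abbrev FF : RR := Rep.of (rho (xT (0 : W →ₗ[K2] W)) (yT 0) (rel_T (rel0 W)))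

lemma xx_FF (v : W × W × W × W) : xx (FF W) v = (0, v.1, 0, v.2.2.1) := by
  change rho (xT (0 : W →ₗ[K2] W)) (yT 0) (rel_T (rel0 W)) g1 v + v = _
  rw [rho_g1, add_assoc, aa, add_zero]
  simp [xT_apply]

lemma yy_FF (v : W × W × W × W) : yy (FF W) v = (0, 0, v.1, v.2.1) := by
  change rho (xT (0 : W →ₗ[K2] W)) (yT 0) (rel_T (rel0 W)) g2 v + v = _
  rw [rho_g2, add_assoc, aa, add_zero]
  simp [yT_apply]

variable {W}

def univL {Y : RR} (t : W →ₗ[K2] Y.V) : (W × W × W × W) →ₗ[K2] Y.V where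
  toFun v := t v.1 + xx Y (t v.2.1) + yy Y (t v.2.2.1) + xx Y (yy Y (t v.2.2.2))
  map_add' v w := by simp only [Prod.fst_add, Prod.snd_add, map_add]; abel
  map_smul' c v := by simp

lemma univL_apply {Y : RR} (t : W →ₗ[K2] Y.V) (v : W × W × W × W) :
  univL t v = t v.1 + xx Y (t v.2.1) + yy Y (t v.2.2.1) + xx Y (yy Y (t v.2.2.2)) := rfl

def univ {Y : RR} (t : W →ₗ[K2] Y.V) : FF W ⟶ Y :=
  mkHom (X := FF W) (univL t)
    (fun v => by
      rw [xx_FF]
      erw [univL_apply, univL_apply]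
      simp [(rel_rep Y).xx])
    (fun v => by
      rw [yy_FF]
      erw [univL_apply, univL_apply]
      simp [(rel_rep Y).yy, (rel_rep Y).yx])

lemma univ_apply {Y : RR} (t : W →ₗ[K2] Y.V) (v : W × W × W × W) :
  (univ t).hom v = t v.1 + xx Y (t v.2.1) + yy Y (t v.2.2.1) + xx Y (yy Y (t v.2.2.2)) := rfl

def inF : W →ₗ[K2] (FF W).V := LinearMap.inl K2 W (W × W × W)

lemma FF_decomp (v : W × W × W × W) :
    (v : (FF W).V) = inF v.1 + xx (FF W) (inF v.2.1) + yy (FF W) (inF v.2.2.1)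
      + xx (FF W) (yy (FF W) (inF v.2.2.2)) := by
  erw [xx_FF, xx_FF, yy_FF, yy_FF]
  change v = ((v.1, 0, 0, 0) : W × W × W × W) + (0, v.2.1, 0, 0) + (0, 0, v.2.2.1, 0)
    + (0, 0, 0, v.2.2.2)
  simp

lemma proj_FF : Projective (FF W) := by
  constructor
  intro E Z f e he
  have hs : Function.Surjective e.hom := (Rep.epi_iff_surjective e).1 he
  obtain ⟨t, ht⟩ := Module.projective_lifting_property e.hom.toLinearMap
    (f.hom.toLinearMap ∘ₗ inF) hs
  refine ⟨univ t, hom_ext' fun v => ?_⟩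
  have ht' : ∀ w, e.hom (t w) = f.hom (inF w) := fun w => LinearMap.congr_fun ht w
  change e.hom ((univ t).hom v) = f.hom v
  erw [univ_apply]
  conv_rhs => erw [FF_decomp v]
  simp only [map_add, hom_xx, hom_yy, ht']
  rw [hom_xx f, hom_xx f, hom_yy f, hom_yy f]

lemma acyc_FF_kx (v : (FF W).V) (hv : xx (FF W) v = 0) : ∃ w, xx (FF W) w = v := by
  obtain ⟨v0, v1, v2, v3⟩ := v
  erw [xx_FF] at hv
  have hv' : ((0, v0, 0, v2) : W × W × W × W) = 0 := hv
  simp only [Prod.mk_eq_zero, true_and] at hv'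
  obtain ⟨rfl, rfl⟩ := hv'
  exact ⟨(v1, 0, v3, 0), by erw [xx_FF]⟩

lemma acyc_FF_kxy (v : (FF W).V) (hv : xx (FF W) v = 0) (hw : yy (FF W) v = 0) :
    ∃ w, xx (FF W) (yy (FF W) w) = v := by
  obtain ⟨v0, v1, v2, v3⟩ := v
  erw [xx_FF] at hv
  erw [yy_FF] at hw
  have hv' : ((0, v0, 0, v2) : W × W × W × W) = 0 := hv
  have hw' : ((0, 0, v0, v1) : W × W × W × W) = 0 := hw
  simp only [Prod.mk_eq_zero, true_and] at hv' hw'
  obtain ⟨rfl, rfl⟩ := hv'
  obtain ⟨-, rfl⟩ := hw'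
  exact ⟨(v3, 0, 0, 0), by erw [yy_FF, xx_FF]⟩

end free

noncomputable def rk (X : RR) : ℕ := finrank K2 (LinearMap.range (xx X ∘ₗ yy X))

lemma proj_dim (P : RR) [FiniteDimensional K2 P.V] (hP : Projective P) :
    finrank K2 P.V = 4 * rk P := by
  let r : FF P.V ⟶ P := univ LinearMap.id
  have : Epi r := (Rep.epi_iff_surjective r).2 fun v => ⟨(v, 0, 0, 0), by
    erw [univ_apply]; simp⟩
  let s : P ⟶ FF P.V := Projective.factorThru (𝟙 P) r
  have hs : ∀ v, r.hom (s.hom v) = v := fun v => by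
    have := congrArg (fun f : P ⟶ P => f.hom v) (Projective.factorThru_comp (𝟙 P) r)
    exact this
  refine acyc_dim _ _ (rel_rep P) (fun v hv => ?_) (fun v hv hw => ?_)
  · obtain ⟨w, hw⟩ := acyc_FF_kx (s.hom v) (by rw [← hom_xx, hv, map_zero])
    exact ⟨r.hom w, by rw [← hom_xx, hw, hs]⟩
  · obtain ⟨w, hw⟩ := acyc_FF_kxy (s.hom v) (by rw [← hom_xx, hv, map_zero])
      (by rw [← hom_yy, hw, map_zero])
    exact ⟨r.hom w, by rw [← hom_yy, ← hom_xx, hw, hs]⟩

lemma rk_le {P X : RR} [FiniteDimensional K2 X.V] (f : P ⟶ X) (hf : Function.Injective f.hom) :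
    rk P ≤ rk X := by
  unfold rk
  rw [← finrank_map_inj f.hom.toLinearMap hf]
  apply Submodule.finrank_mono
  rintro _ ⟨_, ⟨v, rfl⟩, rfl⟩
  exact ⟨f.hom v, by
    change xx X (yy X (f.hom v)) = f.hom (xx P (yy P v))
    rw [hom_xx, hom_yy]⟩

noncomputable def bipEquiv {X N P : RR} (e : X ≅ N ⊞ P) : X.V ≃ₗ[K2] N.V × P.V :=
  LinearEquiv.ofLinearMap
    ((e.hom ≫ biprod.fst).hom.toLinearMap.prod (e.hom ≫ biprod.snd).hom.toLinearMap)
    ((biprod.inl ≫ e.inv).hom.toLinearMap.coprod (biprod.inr ≫ e.inv).hom.toLinearMap)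
    (by
      refine LinearMap.ext fun ⟨n, p⟩ => ?_
      have h1 : ((biprod.inl ≫ e.inv) ≫ e.hom ≫ biprod.fst : N ⟶ N) = 𝟙 _ := by simp
      have h2 : ((biprod.inr ≫ e.inv) ≫ e.hom ≫ biprod.fst : P ⟶ N) = 0 := by simp
      have h3 : ((biprod.inl ≫ e.inv) ≫ e.hom ≫ biprod.snd : N ⟶ P) = 0 := by simp
      have h4 : ((biprod.inr ≫ e.inv) ≫ e.hom ≫ biprod.snd : P ⟶ P) = 𝟙 _ := by simp
      have a1 : (e.hom ≫ biprod.fst).hom ((biprod.inl ≫ e.inv).hom n) = n :=
        congrArg (fun f : N ⟶ N => f.hom n) h1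
      have a2 : (e.hom ≫ biprod.fst).hom ((biprod.inr ≫ e.inv).hom p) = 0 :=
        congrArg (fun f : P ⟶ N => f.hom p) h2
      have a3 : (e.hom ≫ biprod.snd).hom ((biprod.inl ≫ e.inv).hom n) = 0 :=
        congrArg (fun f : N ⟶ P => f.hom n) h3
      have a4 : (e.hom ≫ biprod.snd).hom ((biprod.inr ≫ e.inv).hom p) = p :=
        congrArg (fun f : P ⟶ P => f.hom p) h4
      change ((e.hom ≫ biprod.fst).hom ((biprod.inl ≫ e.inv).hom n + (biprod.inr ≫ e.inv).hom p),
        (e.hom ≫ biprod.snd).hom ((biprod.inl ≫ e.inv).hom n + (biprod.inr ≫ e.inv).hom p))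
        = (n, p)
      rw [map_add, map_add, a1, a2, a3, a4, add_zero, zero_add])
    (by
      refine LinearMap.ext fun v => ?_
      have h : (e.hom ≫ biprod.fst) ≫ (biprod.inl ≫ e.inv) + (e.hom ≫ biprod.snd) ≫
          (biprod.inr ≫ e.inv) = 𝟙 X := by
        have : (e.hom ≫ biprod.fst) ≫ (biprod.inl ≫ e.inv) + (e.hom ≫ biprod.snd) ≫
          (biprod.inr ≫ e.inv) = e.hom ≫ (biprod.fst ≫ biprod.inl + biprod.snd ≫ biprod.inr)
            ≫ e.inv := by simp only [Preadditive.add_comp, Preadditive.comp_add, Category.assoc]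
        rw [this, biprod.total]; simp
      exact congrArg (fun f : X ⟶ X => f.hom v) h)

lemma bip_dim {X N P : RR} [FiniteDimensional K2 X.V] (e : X ≅ N ⊞ P) :
    FiniteDimensional K2 P.V ∧ finrank K2 X.V = finrank K2 N.V + finrank K2 P.V := by
  have h := bipEquiv e
  have : FiniteDimensional K2 (N.V × P.V) := h.finiteDimensional
  have h1 : FiniteDimensional K2 N.V :=
    Module.Finite.of_surjective (LinearMap.fst K2 N.V P.V) LinearMap.fst_surjective
  have h2 : FiniteDimensional K2 P.V :=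
    Module.Finite.of_surjective (LinearMap.snd K2 N.V P.V) LinearMap.snd_surjective
  exact ⟨h2, by rw [h.finrank_eq, Module.finrank_prod]⟩

lemma lower {X N P : RR} [FiniteDimensional K2 X.V] (hP : Projective P) (e : X ≅ N ⊞ P) :
    finrank K2 X.V ≤ finrank K2 N.V + 4 * rk X := by
  obtain ⟨h1, h2⟩ := bip_dim e
  have h3 := proj_dim P hP
  have h4 : rk P ≤ rk X := rk_le (biprod.inr ≫ e.inv)
    ((Rep.mono_iff_injective _).1 inferInstance)
  omega

lemma upper (X : RR) [FiniteDimensional K2 X.V] :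
    ∃ N P : RR, Projective P ∧ Nonempty (X ≅ N ⊞ P) ∧
      finrank K2 N.V + 4 * rk X = finrank K2 X.V := by
  have hR := rel_rep X
  let W := LinearMap.range (xx X ∘ₗ yy X)
  obtain ⟨t, ht⟩ := Module.projective_lifting_property (xx X ∘ₗ yy X).rangeRestrict
    (LinearMap.id : W →ₗ[K2] W) (LinearMap.surjective_rangeRestrict _)
  have ht' : ∀ w : W, xx X (yy X (t w)) = w := fun w =>
    congrArg Subtype.val (LinearMap.congr_fun ht w)
  have hinj : LinearMap.ker (univL t) = ⊥ := by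
    rw [LinearMap.ker_eq_bot']
    rintro ⟨w0, w1, w2, w3⟩ hw
    rw [univL_apply] at hw
    have a0 := congrArg (fun v => xx X (yy X v)) hw
    simp only [map_add, hR.xx, hR.yy, hR.yx, map_zero, add_zero] at a0
    rw [ht'] at a0
    obtain rfl : w0 = 0 := Subtype.ext a0
    have a1 := congrArg (fun v => yy X v) hw
    simp only [map_add, hR.xx, hR.yy, hR.yx, map_zero, add_zero, zero_add] at a1
    rw [ht'] at a1
    obtain rfl : w1 = 0 := Subtype.ext a1
    have a2 := congrArg (fun v => xx X v) hw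
    simp only [map_add, hR.xx, hR.yy, hR.yx, map_zero, add_zero, zero_add] at a2
    rw [ht'] at a2
    obtain rfl : w2 = 0 := Subtype.ext a2
    simp only [map_zero, add_zero, zero_add] at hw
    rw [ht'] at hw
    obtain rfl : w3 = 0 := Subtype.ext hw
    rfl
  obtain ⟨L, hL⟩ := LinearMap.exists_leftInverse_of_injective _ hinj
  let lam : X.V →ₗ[K2] W :=
    LinearMap.snd K2 W W ∘ₗ LinearMap.snd K2 W (W × W) ∘ₗ LinearMap.snd K2 W (W × W × W) ∘ₗ L
  have hlam : ∀ v : W × W × W × W, lam ((univ t).hom v) = v.2.2.2 := fun v => by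
    have : L (univL t v) = v := LinearMap.congr_fun hL v
    change (L (univL t v)).2.2.2 = _
    rw [this]
  let ψL : X.V →ₗ[K2] (W × W × W × W) :=
    (lam ∘ₗ xx X ∘ₗ yy X).prod ((lam ∘ₗ yy X).prod ((lam ∘ₗ xx X).prod lam))
  have hψL : ∀ v, ψL v = (lam (xx X (yy X v)), lam (yy X v), lam (xx X v), lam v) := fun v => rfl
  let ψ : X ⟶ FF W := mkHom (Y := FF W) ψL
    (fun v => by erw [xx_FF, hψL, hψL]; simp [hR.xx, hR.yx])
    (fun v => by erw [yy_FF, hψL, hψL]; simp [hR.yy, hR.yx])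
  have hsec : univ t ≫ ψ = 𝟙 (FF W) := by
    refine hom_ext' fun v => ?_
    change ψL ((univ t).hom v) = v
    rw [hψL, ← hom_yy, ← hom_xx, ← hom_xx]
    erw [hlam, hlam, hlam, hlam, yy_FF, xx_FF, xx_FF]
  let S := ShortComplex.mk (kernel.ι ψ) ψ (by simp)
  have hS : S.Exact := ShortComplex.exact_of_f_is_kernel _ (kernelIsKernel ψ)
  have e : X ≅ kernel ψ ⊞ FF W :=
    (ShortComplex.Splitting.ofExactOfSection S hS (univ t) hsec
      (inferInstanceAs (Mono (kernel.ι ψ)))).isoBinaryBiproduct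
  refine ⟨kernel ψ, FF W, proj_FF, ⟨e⟩, ?_⟩
  rw [(bip_dim e).2]
  congr 1
  exact fr4.symm

lemma core_dim (X : RR) [FiniteDimensional K2 X.V] :
    ((sInf {d : ℕ | ∃ N P' : RR, Projective P' ∧ Nonempty (X ≅ N ⊞ P') ∧
      finrank K2 N.V = d} : ℕ) : ℤ) = qq (xx X) (yy X) (-1) := by
  obtain ⟨N, P, hP, he, hd⟩ := upper X
  have : IsLeast {d : ℕ | ∃ N P' : RR, Projective P' ∧ Nonempty (X ≅ N ⊞ P') ∧
      finrank K2 N.V = d} (finrank K2 N.V) := by
    refine ⟨⟨N, P, hP, he, rfl⟩, ?_⟩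
    rintro d ⟨N', P', hP', ⟨e'⟩, rfl⟩
    have := lower hP' e'
    omega
  rw [this.csInf_eq]
  have h1 := kap_mid (xx X) (yy X)
  have h2 : uu (-1) = 3 := rfl
  unfold qq
  unfold rk at hd
  rw [h2]
  omega

end H528Core
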