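import Pool.Agent.H528Z.Core3

set_option autoImplicit false
set_option linter.unnecessarySeqFocus false
set_option linter.unusedSimpArgs false

namespace H528Core

open Module CategoryTheory CategoryTheory.MonoidalCategory CategoryTheory.Limits

section tens
variable {V : Type} [AddCommGroup V] [Module K2 V]

abbrev E8 (V : Type) := (V × V × V) × (V × V × V) × V × V

def xM (x : V →ₗ[K2] V) : E8 V →ₗ[K2] E8 V := (xA x).prodMap ((xB x).prodMap (x.prodMap x))
def yM (y : V →ₗ[K2] V) : E8 V →ₗ[K2] E8 V := (yA y).prodMap ((yB y).prodMap (y.prodMap y))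

lemma xM_apply (x : V →ₗ[K2] V) (v : E8 V) : xM x v =
    ((x v.1.1, x v.1.2.1, x v.1.2.2 + (x v.1.2.1 + v.1.2.1)),
      (x v.2.1.1, x v.2.1.2.1 + (x v.2.1.1 + v.2.1.1), x v.2.1.2.2), x v.2.2.1, x v.2.2.2) := rfl

lemma yM_apply (y : V →ₗ[K2] V) (v : E8 V) : yM y v =
    ((y v.1.1, y v.1.2.1, y v.1.2.2 + (y v.1.1 + v.1.1)),
      (y v.2.1.1, y v.2.1.2.1, y v.2.1.2.2 + (y v.2.1.1 + v.2.1.1)), y v.2.2.1, y v.2.2.2) := rfl

lemma rel_M : Rel (xM (0 : K2 →ₗ[K2] K2)) (yM 0) := by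
  refine ⟨fun v => ?_, fun v => ?_, fun v => ?_⟩ <;> simp [xM_apply, yM_apply]

noncomputable def e3 (V : Type) [AddCommGroup V] [Module K2 V] :
    TensorProduct K2 V (K2 × K2 × K2) ≃ₗ[K2] V × V × V :=
  (TensorProduct.prodRight K2 K2 V K2 (K2 × K2)).trans
    ((TensorProduct.rid K2 V).prodCongr
      ((TensorProduct.prodRight K2 K2 V K2 K2).trans
        ((TensorProduct.rid K2 V).prodCongr (TensorProduct.rid K2 V))))

noncomputable def e8 (V : Type) [AddCommGroup V] [Module K2 V] :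
    TensorProduct K2 V (E8 K2) ≃ₗ[K2] E8 V :=
  (TensorProduct.prodRight K2 K2 V _ _).trans
    ((e3 V).prodCongr ((TensorProduct.prodRight K2 K2 V _ _).trans
      ((e3 V).prodCongr ((TensorProduct.prodRight K2 K2 V K2 K2).trans
        ((TensorProduct.rid K2 V).prodCongr (TensorProduct.rid K2 V))))))

lemma e8_tmul (v : V) (m : E8 K2) : e8 V (v ⊗ₜ m) =
    ((m.1.1 • v, m.1.2.1 • v, m.1.2.2 • v), (m.2.1.1 • v, m.2.1.2.1 • v, m.2.1.2.2 • v),
      m.2.2.1 • v, m.2.2.2 • v) := by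
  simp [e8, e3]

end tens

abbrev MM : RR := Rep.of (rho (xM (0 : K2 →ₗ[K2] K2)) (yM 0) rel_M)

lemma two0 : (2 : K2) = 0 := rfl

lemma tens_x (X : RR) (v : TensorProduct K2 X.V (E8 K2)) :
    e8 X.V (xx (X ⊗ MM) v) = xM (xx X) (e8 X.V v) := by
  induction v using TensorProduct.induction_on with
  | zero =>
    have : xx (X ⊗ MM) (0 : TensorProduct K2 X.V (E8 K2)) = (0 : TensorProduct K2 X.V (E8 K2)) :=
      (xx (X ⊗ MM)).map_zero
    rw [this, map_zero, map_zero]
  | add a b ha hb =>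
    have : xx (X ⊗ MM) (a + b : TensorProduct K2 X.V (E8 K2)) =
      (xx (X ⊗ MM) a + xx (X ⊗ MM) b : TensorProduct K2 X.V (E8 K2)) := (xx (X ⊗ MM)).map_add a b
    rw [this, map_add, ha, hb, map_add, map_add]
  | tmul v m =>
    change e8 X.V ((X.ρ g1 v) ⊗ₜ (rho (xM (0 : K2 →ₗ[K2] K2)) (yM 0) rel_M g1 m) + v ⊗ₜ m) = _
    rw [map_add, rho_g1, e8_tmul, e8_tmul, rho1, xM_apply, xM_apply]
    ext <;> simp only [Prod.fst_add, Prod.snd_add, LinearMap.zero_apply, zero_add, map_smul] <;>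
      match_scalars <;> ring_nf <;> simp [two0]

lemma tens_y (X : RR) (v : TensorProduct K2 X.V (E8 K2)) :
    e8 X.V (yy (X ⊗ MM) v) = yM (yy X) (e8 X.V v) := by
  induction v using TensorProduct.induction_on with
  | zero =>
    have : yy (X ⊗ MM) (0 : TensorProduct K2 X.V (E8 K2)) = (0 : TensorProduct K2 X.V (E8 K2)) :=
      (yy (X ⊗ MM)).map_zero
    rw [this, map_zero, map_zero]
  | add a b ha hb =>
    have : yy (X ⊗ MM) (a + b : TensorProduct K2 X.V (E8 K2)) =
      (yy (X ⊗ MM) a + yy (X ⊗ MM) b : TensorProduct K2 X.V (E8 K2)) := (yy (X ⊗ MM)).map_add a b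
    rw [this, map_add, ha, hb, map_add, map_add]
  | tmul v m =>
    change e8 X.V ((X.ρ g2 v) ⊗ₜ (rho (xM (0 : K2 →ₗ[K2] K2)) (yM 0) rel_M g2 m) + v ⊗ₜ m) = _
    rw [map_add, rho_g2, e8_tmul, e8_tmul, rho2, yM_apply, yM_apply]
    ext <;> simp only [Prod.fst_add, Prod.snd_add, LinearMap.zero_apply, zero_add, map_smul] <;>
      match_scalars <;> ring_nf <;> simp [two0]

lemma qq_tens (X : RR) [FiniteDimensional K2 X.V] (j : ℤ) :
    qq (xx (X ⊗ MM)) (yy (X ⊗ MM)) j =
      qq (xx X) (yy X) (j - 1) + 2 * qq (xx X) (yy X) j + qq (xx X) (yy X) (j + 1) := by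
  rw [← qq_step (rel_rep X) j]
  exact qq_equiv (xx (X ⊗ MM)) (yy (X ⊗ MM)) (xM (xx X)) (yM (yy X)) (e8 X.V) (tens_x X)
    (tens_y X) j

noncomputable def pw' (n : ℕ) : RR := (fun X : RR => X ⊗ MM)^[n] (𝟙_ RR)

lemma pw_succ (n : ℕ) : pw' (n + 1) = pw' n ⊗ MM := Function.iterate_succ_apply' _ _ _

instance pw_fin (n : ℕ) : FiniteDimensional K2 (pw' n).V := by
  induction n with
  | zero => exact inferInstanceAs (FiniteDimensional K2 K2)
  | succ n ih =>
    rw [pw_succ]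
    exact inferInstanceAs (FiniteDimensional K2 (TensorProduct K2 (pw' n).V (E8 K2)))

noncomputable def QQ (n : ℕ) (j : ℤ) : ℤ := qq (xx (pw' n)) (yy (pw' n)) (j - 1)

lemma QQ_zero (j : ℤ) : QQ 0 j = 2 * |j| + 1 := by
  unfold QQ
  rw [qq_triv (xx (pw' 0)) (yy (pw' 0)) (LinearMap.ext fun v => aa (A := K2) v)
    (LinearMap.ext fun v => aa (A := K2) v) (Module.finrank_self K2), sub_add_cancel]
  rfl

lemma QQ_succ (n : ℕ) (j : ℤ) : QQ (n + 1) j = QQ n (j - 1) + 2 * QQ n j + QQ n (j + 1) := by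
  unfold QQ
  rw [pw_succ, qq_tens, sub_add_cancel, add_sub_cancel_right]

def ch (n : ℕ) (j : ℤ) : ℤ := if 0 ≤ j then (n.choose j.toNat : ℤ) else 0

lemma ch_succ (n : ℕ) (j : ℤ) : ch (n + 1) (j + 1) = ch n j + ch n (j + 1) := by
  unfold ch
  rcases lt_trichotomy j (-1) with h | rfl | h
  · rw [if_neg (by omega), if_neg (by omega), if_neg (by omega)]; rfl
  · simp
  · obtain ⟨m, rfl⟩ := Int.eq_ofNat_of_zero_le (show 0 ≤ j by omega)
    rw [if_pos (by omega), if_pos (by omega), if_pos (by omega),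
      show ((m : ℤ) + 1).toNat = m + 1 by omega, Int.toNat_natCast, Nat.choose_succ_succ]
    push_cast; rfl

lemma QQ_dd (n : ℕ) (j : ℤ) :
    QQ n (j - 1) - 2 * QQ n j + QQ n (j + 1) = 4 * ch (2 * n) (n + j) := by
  induction n generalizing j with
  | zero =>
    simp only [QQ_zero, ch, mul_zero, Nat.cast_zero, zero_add]
    rcases lt_trichotomy j 0 with h | rfl | h
    · rw [if_neg (by omega), abs_of_neg h, abs_of_neg (by omega), abs_of_nonpos (by omega)]; ring
    · simp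
    · rw [if_pos (by omega), abs_of_pos h, abs_of_nonneg (by omega), abs_of_pos (by omega),
        Nat.choose_eq_zero_of_lt (by omega)]
      push_cast; ring
  | succ n ih =>
    have h1 := ih (j - 1)
    have h2 := ih j
    have h3 := ih (j + 1)
    have c1 := ch_succ (2 * n + 1) (n + j)
    have c2 := ch_succ (2 * n) (n + j)
    have c3 := ch_succ (2 * n) (n + j - 1)
    rw [sub_add_cancel] at c3 h1
    rw [add_sub_cancel_right] at h3
    rw [QQ_succ, QQ_succ, QQ_succ, sub_add_cancel, add_sub_cancel_right,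
      show 2 * (n + 1) = 2 * n + 1 + 1 by ring, show ((n + 1 : ℕ) : ℤ) + j = n + j + 1 by push_cast; ring,
      c1, c2, c3]
    rw [show (n : ℤ) + (j - 1) = n + j - 1 by ring] at h1
    rw [show (n : ℤ) + (j + 1) = n + j + 1 by ring] at h3
    linear_combination h1 + 2 * h2 + h3

lemma QQ_rec (n : ℕ) : QQ (n + 1) 0 = 4 * QQ n 0 + 4 * (n.centralBinom : ℤ) := by
  have h := QQ_dd n 0
  have : ch (2 * n) (n + 0) = (n.centralBinom : ℤ) := by
    simp [ch, Nat.centralBinom]
  rw [QQ_succ, ← this]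
  linear_combination h

open PowerSeries in
lemma cb_sq : (PowerSeries.mk fun n : ℕ => (n.centralBinom : ℚ)) ^ 2 * (1 - C 4 * X) = 1 := by
  set g : ℚ⟦X⟧ := PowerSeries.mk fun n : ℕ => (n.centralBinom : ℚ) with hg
  have ode : (1 - C 4 * X) * d⁄dX ℚ g = C 2 * g := by
    ext n
    have h := congrArg (fun m : ℕ => (m : ℚ)) (Nat.succ_mul_centralBinom_succ n)
    push_cast at h
    rw [sub_mul, one_mul, mul_assoc, map_sub, coeff_C_mul, coeff_C_mul, coeff_derivative]
    cases n with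
    | zero => simp [hg, Nat.centralBinom]
    | succ n =>
      rw [coeff_succ_X_mul, coeff_derivative]
      simp only [hg, coeff_mk]
      push_cast at h ⊢
      linear_combination h
  apply derivative.ext
  · rw [Derivation.leibniz, Derivation.leibniz_pow, map_sub, Derivation.leibniz]
    simp only [derivative_C, derivative_X, derivative_one, smul_eq_mul, nsmul_eq_mul]
    have e4 : (C 4 : ℚ⟦X⟧) = 4 := map_ofNat C 4
    have e2 : (C 2 : ℚ⟦X⟧) = 2 := map_ofNat C 2
    rw [e4, e2] at ode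
    rw [e4]
    push_cast
    linear_combination (2 * g) * ode
  · have : constantCoeff g = 1 := by
      rw [← coeff_zero_eq_constantCoeff_apply, hg, coeff_mk]; simp
    simp [this]

open PowerSeries in
lemma not_rat (c : ℕ → ℚ) (h0 : c 0 = 1) (hc : ∀ n, c (n + 1) = 4 * c n + 4 * (n.centralBinom : ℚ))
    (P Q : Polynomial ℚ) (hQ : Q ≠ 0) (h : (Q : ℚ⟦X⟧) * PowerSeries.mk c = P) : False := by
  set g : ℚ⟦X⟧ := PowerSeries.mk fun n : ℕ => (n.centralBinom : ℚ) with hg
  have h1 : (1 - C 4 * X) * PowerSeries.mk c = 1 + C 4 * (X * g) := by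
    ext n
    rw [sub_mul, one_mul, mul_assoc, map_sub, map_add, coeff_C_mul, coeff_C_mul]
    cases n with
    | zero => simp [h0]
    | succ n =>
      rw [coeff_succ_X_mul, coeff_succ_X_mul]
      simp only [hg, coeff_mk, coeff_one, hc]
      simp
  have h2 : g ^ 2 * (1 - C 4 * X) = 1 := cb_sq
  let L : Polynomial ℚ := 1 - Polynomial.C 4 * Polynomial.X
  have hL : (L : ℚ⟦X⟧) = 1 - C 4 * X := by simp [L]
  have h3 : ((L * P - Q) ^ 2 * L : Polynomial ℚ) = (Polynomial.C 4 * Polynomial.X * Q) ^ 2 := by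
    apply Polynomial.coe_injective ℚ
    simp only [Polynomial.coe_mul, Polynomial.coe_pow, Polynomial.coe_sub, hL, Polynomial.coe_C,
      Polynomial.coe_X]
    rw [← h]
    have : (1 - C 4 * X) * ((Q : ℚ⟦X⟧) * PowerSeries.mk c) - (Q : ℚ⟦X⟧)
        = C 4 * X * (Q : ℚ⟦X⟧) * g := by
      linear_combination (Q : ℚ⟦X⟧) * h1
    rw [this]
    linear_combination (C 4 * X * (Q : ℚ⟦X⟧)) ^ 2 * h2
  have hL1 : L.natDegree = 1 := by
    simp only [L]; compute_degree!
  have hL0 : L ≠ 0 := by intro h; rw [h] at hL1; simp at hL1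
  have hR : (Polynomial.C 4 * Polynomial.X * Q : Polynomial ℚ) ≠ 0 := by
    simp [hQ]
  have hR2 : L * P - Q ≠ 0 := by
    intro h0
    rw [h0] at h3
    exact pow_ne_zero 2 hR (by simpa using h3.symm)
  have := congrArg Polynomial.natDegree h3
  rw [Polynomial.natDegree_mul (pow_ne_zero 2 hR2) hL0, Polynomial.natDegree_pow,
    Polynomial.natDegree_pow, hL1] at this
  omega

end H528Core
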