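import Mathlib

set_option autoImplicit false
set_option linter.unusedSectionVars false
set_option linter.dupNamespace false

open Finset

namespace Pool.Agent.H528Z.Dom

theorem sum_prod_ite {ι : Type} [Fintype ι] [DecidableEq ι] (f g : ι → ℝ) :
    ∑ S : Finset ι, ∏ i, (if i ∈ S then f i else g i) = ∏ i, (f i + g i) := by
  rw [Fintype.prod_add]
  refine Finset.sum_congr rfl fun S _ => ?_
  rw [← Finset.prod_mul_prod_compl S]
  congr 1
  · exact Finset.prod_congr rfl fun i hi => by rw [if_pos hi]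
  · exact Finset.prod_congr rfl fun i hi => by rw [if_neg (Finset.mem_compl.1 hi)]

theorem sum_disjSum {ι κ : Type} [Fintype ι] [Fintype κ] (F : Finset (ι ⊕ κ) → ℝ) :
    ∑ S, F S = ∑ A : Finset ι, ∑ B : Finset κ, F (A.disjSum B) := by
  rw [← Fintype.sum_prod_type']
  refine (Fintype.sum_equiv (Finset.sumEquiv (α := ι) (β := κ)).symm.toEquiv _ _ ?_).symm
  rintro ⟨A, B⟩
  rfl

theorem pow_card_eq {ι : Type} [Fintype ι] (x : ℝ) (P : ι → Prop) [DecidablePred P] :
    x ^ (univ.filter P).card = ∏ i, if P i then x else 1 := by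
  rw [Finset.prod_ite]
  simp

theorem pow_card_mem {ι : Type} [Fintype ι] [DecidableEq ι] (x : ℝ) (S : Finset ι) :
    x ^ S.card = ∏ i, if i ∈ S then x else 1 := by
  rw [← pow_card_eq]
  simp

variable {α β γ : Type} [Fintype α] [Fintype β] [Fintype γ] [DecidableEq α] [DecidableEq β]
  [DecidableEq γ]

/-- number of missing vertices of the first kind -/
def aa (U : Finset (α ⊕ β ⊕ β)) : ℕ := (univ.filter fun i : α => Sum.inl i ∉ U).card

/-- number of missing pairs -/
def bb (U : Finset (α ⊕ β ⊕ β)) : ℕ :=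
  (univ.filter fun j : β => Sum.inr (Sum.inl j) ∉ U ∧ Sum.inr (Sum.inr j) ∉ U).card

theorem Z0 (x q z : ℝ) :
    ∑ U : Finset (α ⊕ β ⊕ β), x ^ U.card * q ^ aa U * z ^ bb U =
      (x + q) ^ Fintype.card α * (z + 2 * x + x ^ 2) ^ Fintype.card β := by
  have h1 : ∑ A : Finset α, ∏ i, (if i ∈ A then x else q) = (x + q) ^ Fintype.card α := by
    rw [sum_prod_ite]
    simp
  have h2 : ∑ B : Finset β, ∑ B' : Finset β,
      ∏ j, (if j ∈ B' then (if j ∈ B then x * x else x) else (if j ∈ B then x else z))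
      = (z + 2 * x + x ^ 2) ^ Fintype.card β := by
    have : ∀ B : Finset β, ∑ B' : Finset β,
        ∏ j, (if j ∈ B' then (if j ∈ B then x * x else x) else (if j ∈ B then x else z))
        = ∏ j, (if j ∈ B then x * x + x else x + z) := by
      intro B
      rw [sum_prod_ite]
      refine Finset.prod_congr rfl fun j _ => ?_
      split_ifs <;> rfl
    simp only [this]
    rw [sum_prod_ite]
    simp only [prod_const, card_univ]
    congr 1
    ring
  rw [← h1, ← h2, sum_disjSum, Finset.sum_mul]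
  refine Finset.sum_congr rfl fun A _ => ?_
  rw [sum_disjSum, Finset.mul_sum]
  refine Finset.sum_congr rfl fun B _ => ?_
  rw [Finset.mul_sum]
  refine Finset.sum_congr rfl fun B' _ => ?_
  rw [card_disjSum, card_disjSum, pow_add, pow_add, pow_card_mem x A, pow_card_mem x B,
    pow_card_mem x B']
  unfold aa bb
  rw [pow_card_eq, pow_card_eq]
  have e1 : ∏ i, (if i ∈ A then x else q) = (∏ i, if i ∈ A then x else 1) *
      ∏ i : α, if (Sum.inl i : α ⊕ β ⊕ β) ∉ A.disjSum (B.disjSum B') then q else 1 := by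
    rw [← Finset.prod_mul_distrib]
    refine Finset.prod_congr rfl fun i _ => ?_
    by_cases h : i ∈ A <;> simp [h]
  have e2 : ∏ j, (if j ∈ B' then (if j ∈ B then x * x else x) else (if j ∈ B then x else z)) =
      ((∏ j, if j ∈ B then x else 1) * ∏ j, if j ∈ B' then x else 1) *
      ∏ j : β, if (Sum.inr (Sum.inl j) : α ⊕ β ⊕ β) ∉ A.disjSum (B.disjSum B') ∧
        (Sum.inr (Sum.inr j) : α ⊕ β ⊕ β) ∉ A.disjSum (B.disjSum B') then z else 1 := by
    rw [← Finset.prod_mul_distrib, ← Finset.prod_mul_distrib]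
    refine Finset.prod_congr rfl fun j _ => ?_
    by_cases h : j ∈ B <;> by_cases h' : j ∈ B' <;> simp [h, h']
  rw [e1, e2]
  ring

/-- the clause `c` is hit by `U` -/
def hit (U : Finset (α ⊕ β ⊕ β)) (c : α × β) : Prop :=
  Sum.inl c.1 ∈ U ∨ Sum.inr (Sum.inl c.2) ∈ U ∨ Sum.inr (Sum.inr c.2) ∈ U

instance (U : Finset (α ⊕ β ⊕ β)) : DecidablePred (hit U) := fun c => by
  unfold hit; infer_instance

theorem sum_hit (x : ℝ) (U : Finset (α ⊕ β ⊕ β)) :
    ∑ c : α × β, (x + if hit U c then 1 else 0) =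
      (Fintype.card α : ℝ) * Fintype.card β * (1 + x) - aa U * bb U := by
  have e : ∀ c : α × β, (x + if hit U c then (1 : ℝ) else 0) = (1 + x) -
      (if Sum.inl c.1 ∉ U then (1 : ℝ) else 0) *
        (if (Sum.inr (Sum.inl c.2) ∉ U ∧ Sum.inr (Sum.inr c.2) ∉ U) then (1 : ℝ) else 0) := by
    intro c
    unfold hit
    by_cases h1 : Sum.inl c.1 ∈ U <;> by_cases h2 : Sum.inr (Sum.inl c.2) ∈ U <;>
      by_cases h3 : Sum.inr (Sum.inr c.2) ∈ U <;> simp [h1, h2, h3] <;> ring
  simp only [e]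
  rw [Finset.sum_sub_distrib, Fintype.sum_prod_type' (fun (i : α) (j : β) =>
    (if Sum.inl i ∉ U then (1 : ℝ) else 0) *
        (if (Sum.inr (Sum.inl j) ∉ U ∧ Sum.inr (Sum.inr j) ∉ U) then (1 : ℝ) else 0)),
    ← Finset.sum_mul_sum]
  unfold aa bb
  simp only [sum_const, card_univ, Fintype.card_prod, nsmul_eq_mul, Nat.cast_mul, sum_boole]

theorem sum_fT (x : ℝ) (U : Finset (α ⊕ β ⊕ β)) :
    ∑ f : γ → α × β, ∑ T : Finset γ,
      ∏ e, (if e ∈ T then x else if hit U (f e) then (1 : ℝ) else 0) =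
      ((Fintype.card α : ℝ) * Fintype.card β * (1 + x) - aa U * bb U) ^ Fintype.card γ := by
  simp only [sum_prod_ite]
  rw [← sum_hit, ← Finset.card_univ, ← Finset.prod_const, Finset.prod_univ_sum]
  simp

/-- incidence of core vertices and clauses -/
def inc (c : α × β) (u : α ⊕ β ⊕ β) : Prop :=
  u = Sum.inl c.1 ∨ u = Sum.inr (Sum.inl c.2) ∨ u = Sum.inr (Sum.inr c.2)

/-- the split graph -/
def G (f : γ → α × β) : SimpleGraph ((α ⊕ β ⊕ β) ⊕ γ) where
  Adj v w := match v, w with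
    | .inl u, .inl u' => u ≠ u'
    | .inl u, .inr e => inc (f e) u
    | .inr e, .inl u => inc (f e) u
    | .inr _, .inr _ => False
  symm := ⟨by
    rintro (u | e) (u' | e') h
    · exact Ne.symm h
    · exact h
    · exact h
    · exact h⟩
  loopless := ⟨by
    rintro (u | e) h
    · exact h rfl
    · exact h⟩

/-- dominating sets -/
def Dom (f : γ → α × β) (S : Finset ((α ⊕ β ⊕ β) ⊕ γ)) : Prop :=
  ∀ v, v ∈ S ∨ ∃ u ∈ S, (G f).Adj v u

omit [Fintype α] [Fintype β] [Fintype γ] [DecidableEq α] [DecidableEq β] [DecidableEq γ] in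
theorem dom_hit {f : γ → α × β} {U : Finset (α ⊕ β ⊕ β)} {T : Finset γ}
    (h : Dom f (U.disjSum T)) (e : γ) (he : e ∉ T) : hit U (f e) := by
  rcases h (.inr e) with h | ⟨u, hu, h⟩
  · exact absurd (by simpa using h) he
  · rcases u with u | e'
    · have hu' : u ∈ U := by simpa using hu
      rcases h with rfl | rfl | rfl
      · exact Or.inl hu'
      · exact Or.inr (Or.inl hu')
      · exact Or.inr (Or.inr hu')
    · exact h.elim

omit [Fintype α] [Fintype β] [Fintype γ] [DecidableEq γ] in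
theorem dom_of_hit {f : γ → α × β} {U : Finset (α ⊕ β ⊕ β)} (T : Finset γ) (c : α × β)
    (h : ∀ c, hit U c) : Dom f (U.disjSum T) := by
  have hex : ∀ c, ∃ u ∈ U, inc c u := by
    intro c
    rcases h c with h | h | h
    · exact ⟨_, h, Or.inl rfl⟩
    · exact ⟨_, h, Or.inr (Or.inl rfl)⟩
    · exact ⟨_, h, Or.inr (Or.inr rfl)⟩
  rintro (u | e)
  · by_cases hu : u ∈ U
    · exact Or.inl (by simpa using hu)
    · obtain ⟨w, hw, _⟩ := hex c
      refine Or.inr ⟨.inl w, by simpa using hw, ?_⟩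
      rintro rfl
      exact hu hw
  · obtain ⟨w, hw, h'⟩ := hex (f e)
    exact Or.inr ⟨.inl w, by simpa using hw, h'⟩

omit [Fintype γ] [DecidableEq γ] in
theorem hit_of_zero {U : Finset (α ⊕ β ⊕ β)} (h : aa U = 0 ∨ bb U = 0) (c : α × β) : hit U c := by
  by_contra hc
  unfold hit at hc
  push Not at hc
  rcases h with h | h
  · unfold aa at h
    rw [Finset.card_eq_zero, Finset.filter_eq_empty_iff] at h
    exact h (mem_univ c.1) hc.1
  · unfold bb at h
    rw [Finset.card_eq_zero, Finset.filter_eq_empty_iff] at h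
    exact h (mem_univ c.2) hc.2

open Classical in
/-- number of dominating sets of size `j` -/
noncomputable def D (f : γ → α × β) (j : ℕ) : ℕ :=
  (univ.filter fun S : Finset ((α ⊕ β ⊕ β) ⊕ γ) => S.card = j ∧ Dom f S).card

open Classical in
theorem upper_U (j : ℕ) (U : Finset (α ⊕ β ⊕ β)) {x : ℝ} (hx : 0 < x) :
    ∑ f : γ → α × β, ∑ T : Finset γ,
      (if (U.disjSum T).card = j ∧ Dom f (U.disjSum T) then (1 : ℝ) else 0) ≤
      x ^ U.card / x ^ j *
        ((Fintype.card α : ℝ) * Fintype.card β * (1 + x) - aa U * bb U) ^ Fintype.card γ := by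
  rw [← sum_fT, Finset.mul_sum]
  refine Finset.sum_le_sum fun f _ => ?_
  rw [Finset.mul_sum]
  refine Finset.sum_le_sum fun T _ => ?_
  split_ifs with h
  · have : ∏ e, (if e ∈ T then x else if hit U (f e) then (1 : ℝ) else 0) = x ^ T.card := by
      rw [pow_card_mem]
      refine Finset.prod_congr rfl fun e _ => ?_
      by_cases he : e ∈ T
      · simp [he]
      · simp [he, dom_hit h.2 e he]
    rw [this, ← h.1, card_disjSum, pow_add]
    apply le_of_eq
    field_simp
  · refine mul_nonneg (by positivity) (Finset.prod_nonneg fun e _ => ?_)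
    split_ifs <;> positivity

open Classical in
theorem sum_D (j : ℕ) : ∑ f : γ → α × β, (D f j : ℝ) =
    ∑ U : Finset (α ⊕ β ⊕ β), ∑ f : γ → α × β, ∑ T : Finset γ,
      (if (U.disjSum T).card = j ∧ Dom f (U.disjSum T) then (1 : ℝ) else 0) := by
  rw [Finset.sum_comm]
  refine Finset.sum_congr rfl fun f _ => ?_
  unfold D
  rw [← sum_disjSum (fun S => if S.card = j ∧ Dom f S then (1 : ℝ) else 0), sum_boole]

theorem Z1 (x q z : ℝ) :
    ∑ U : Finset (α ⊕ β ⊕ β), ∑ T : Finset γ, x ^ (U.disjSum T).card * q ^ aa U * z ^ bb U =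
      (x + q) ^ Fintype.card α * (z + 2 * x + x ^ 2) ^ Fintype.card β *
        (1 + x) ^ Fintype.card γ := by
  have h : ∑ T : Finset γ, x ^ T.card = (1 + x) ^ Fintype.card γ := by
    simp only [pow_card_mem]
    rw [sum_prod_ite]
    simp [add_comm]
  rw [← Z0, ← h, Finset.sum_mul]
  refine Finset.sum_congr rfl fun U _ => ?_
  rw [Finset.mul_sum]
  refine Finset.sum_congr rfl fun T _ => ?_
  rw [card_disjSum, pow_add]
  ring

open Classical in
/-- lower bound for a tail -/
theorem lower_tail (f : γ → α × β) (c : α × β) (j : ℕ) (P : ℕ → Prop) {x q z : ℝ} (hx : 0 < x)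
    (hP : ∀ i, ¬ P i → x ^ j ≤ x ^ i) (hqz : (q = 0 ∧ z = 1) ∨ (q = 1 ∧ z = 0)) :
    (1 + q) ^ Fintype.card α * (z + 3) ^ Fintype.card β * 2 ^ Fintype.card γ -
      (x + q) ^ Fintype.card α * (z + 2 * x + x ^ 2) ^ Fintype.card β *
        (1 + x) ^ Fintype.card γ / x ^ j ≤
      ((univ.filter fun S : Finset ((α ⊕ β ⊕ β) ⊕ γ) => P S.card ∧ Dom f S).card : ℝ) := by
  have e1 := Z1 (α := α) (β := β) (γ := γ) 1 q z
  have e0 : z + 2 * 1 + 1 ^ 2 = z + 3 := by ring
  have e0' : (1 : ℝ) + 1 = 2 := by norm_num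
  rw [e0, e0'] at e1
  rw [← e1, ← Z1, ← sum_boole,
    sum_disjSum (fun S : Finset ((α ⊕ β ⊕ β) ⊕ γ) => if P S.card ∧ Dom f S then (1 : ℝ) else 0),
    Finset.sum_div, ← Finset.sum_sub_distrib]
  refine Finset.sum_le_sum fun U _ => ?_
  rw [Finset.sum_div, ← Finset.sum_sub_distrib]
  refine Finset.sum_le_sum fun T _ => ?_
  have hw : q ^ aa U * z ^ bb U = 0 ∨ (q ^ aa U * z ^ bb U = 1 ∧ (aa U = 0 ∨ bb U = 0)) := by
    rcases hqz with ⟨rfl, rfl⟩ | ⟨rfl, rfl⟩
    · by_cases h : aa U = 0 <;> simp [h]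
    · by_cases h : bb U = 0 <;> simp [h]
  rw [mul_assoc, mul_assoc]
  rcases hw with hw | ⟨hw, h0⟩
  · rw [hw]
    split_ifs <;> simp
  · rw [hw]
    have hd : Dom f (U.disjSum T) := dom_of_hit T c (hit_of_zero h0)
    by_cases hp : P (U.disjSum T).card
    · rw [if_pos ⟨hp, hd⟩]
      have : 0 ≤ x ^ (U.disjSum T).card * 1 / x ^ j := by positivity
      simp only [one_pow]
      linarith
    · rw [if_neg fun h => hp h.1]
      have : 1 ≤ x ^ (U.disjSum T).card * 1 / x ^ j := by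
        rw [mul_one, le_div_iff₀ (by positivity), one_mul]
        exact hP _ hp
      simp only [one_pow]
      linarith

open Classical in
theorem tail_le (f : γ → α × β) (j : ℕ) (P : ℕ → Prop) (h : ∀ i, P i → D f i ≤ D f j) :
    (univ.filter fun S : Finset ((α ⊕ β ⊕ β) ⊕ γ) => P S.card ∧ Dom f S).card ≤
      (Fintype.card ((α ⊕ β ⊕ β) ⊕ γ) + 1) * D f j := by
  rw [Finset.card_eq_sum_card_fiberwise (f := fun S : Finset ((α ⊕ β ⊕ β) ⊕ γ) => S.card)
    (t := range (Fintype.card ((α ⊕ β ⊕ β) ⊕ γ) + 1))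
    (fun S _ => by
      simp only [coe_range, Set.mem_Iio]
      exact Nat.lt_succ_of_le S.card_le_univ)]
  refine (Finset.sum_le_card_nsmul _ _ (D f j) fun i _ => ?_).trans (by simp)
  by_cases hp : P i
  · refine le_trans ?_ (h i hp)
    unfold D
    refine Finset.card_le_card fun S hS => ?_
    simp only [mem_filter, mem_univ, true_and] at hS ⊢
    exact ⟨hS.2, hS.1.2⟩
  · rw [Finset.card_eq_zero.2]
    · exact Nat.zero_le _
    · rw [Finset.filter_eq_empty_iff]
      intro S hS hi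
      simp only [mem_filter, mem_univ, true_and] at hS
      exact hp (hi ▸ hS.1)

end Pool.Agent.H528Z.Dom
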