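import Pool.Agent.H528Z.Dom1

set_option autoImplicit false
set_option linter.unusedSectionVars false

open Finset

namespace Pool.Agent.H528Z.Dom

theorem pen {P x ab q : ℝ} {m a : ℕ} (hP : 0 < P) (hx : 0 < x) (hab : ab ≤ P) {s : ℝ}
    (h : s * a ≤ m * (ab / (P * (1 + x)))) (hq : Real.exp (-s) ≤ q) :
    (P * (1 + x) - ab) ^ m ≤ (P * (1 + x)) ^ m * q ^ a := by
  have hpos : 0 < P * (1 + x) := by positivity
  have e : P * (1 + x) - ab = P * (1 + x) * (1 - ab / (P * (1 + x))) := by field_simp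
  rw [e, mul_pow]
  refine mul_le_mul_of_nonneg_left ?_ (by positivity)
  have h0 : 0 ≤ 1 - ab / (P * (1 + x)) := by
    rw [sub_nonneg, div_le_one hpos]
    nlinarith
  calc (1 - ab / (P * (1 + x))) ^ m ≤ (Real.exp (-(ab / (P * (1 + x))))) ^ m :=
        pow_le_pow_left₀ h0 (Real.one_sub_le_exp_neg _) m
    _ = Real.exp (-(m * (ab / (P * (1 + x))))) := by
        rw [← Real.exp_nat_mul]
        congr 1
        ring
    _ ≤ Real.exp (a * (-s)) := Real.exp_le_exp.2 (by linarith)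
    _ = Real.exp (-s) ^ a := Real.exp_nat_mul _ _
    _ ≤ q ^ a := pow_le_pow_left₀ (Real.exp_pos _).le hq a

theorem exp_bound (k : ℕ) {q : ℝ} (h : 1 ≤ q * 2.7 ^ k) : Real.exp (-(k : ℝ)) ≤ q := by
  have h1 : (2.7 : ℝ) ≤ Real.exp 1 := by
    have := Real.exp_one_gt_d9
    linarith
  have h2 : (2.7 : ℝ) ^ k ≤ Real.exp k := by
    have := pow_le_pow_left₀ (by norm_num) h1 k
    rwa [← Real.exp_nat_mul, mul_one] at this
  have hq : 0 < q := by
    by_contra hq
    have : q * 2.7 ^ k ≤ 0 := mul_nonpos_of_nonpos_of_nonneg (not_lt.1 hq) (by positivity)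
    linarith
  rw [Real.exp_neg, inv_le_iff_one_le_mul₀ (Real.exp_pos _)]
  nlinarith

variable {α β γ : Type} [Fintype α] [Fintype β] [Fintype γ] [DecidableEq α] [DecidableEq β]
  [DecidableEq γ]

theorem aa_le (U : Finset (α ⊕ β ⊕ β)) : aa U ≤ Fintype.card α := card_filter_le _ _

theorem bb_le (U : Finset (α ⊕ β ⊕ β)) : bb U ≤ Fintype.card β := card_filter_le _ _

/-- first tilt -/
noncomputable def x1 : ℝ := 1601 / 1600
/-- second tilt -/
noncomputable def x2 : ℝ := 1599 / 1600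
/-- first penalty -/
noncomputable def q1 : ℝ := 1 / 1000000
/-- second penalty -/
noncomputable def q2 : ℝ := 1 / 100000
/-- third tilt -/
noncomputable def y3 : ℝ := 1 / 10

theorem upper (n : ℕ) (hn : 0 < n) (hα : Fintype.card α = 127 * n) (hβ : Fintype.card β = 306 * n)
    (hγ : Fintype.card γ = 127000 * n) (j : ℕ) :
    ∑ f : γ → α × β, (D f j : ℝ) ≤
      ((Fintype.card α : ℝ) * Fintype.card β) ^ Fintype.card γ *
       ((x1 + q1) ^ Fintype.card α * (1 + 2 * x1 + x1 ^ 2) ^ Fintype.card β *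
          (1 + x1) ^ Fintype.card γ / x1 ^ j +
        (x2 + 1) ^ Fintype.card α * (q2 + 2 * x2 + x2 ^ 2) ^ Fintype.card β *
          (1 + x2) ^ Fintype.card γ / x2 ^ j +
        (1 + y3) ^ Fintype.card α * (y3 + 2 * 1 + 1 ^ 2) ^ Fintype.card β *
          2 ^ Fintype.card γ / y3 ^ (8 * n) / y3 ^ (12 * n)) := by
  classical
  rw [sum_D, ← Z0, ← Z0, ← Z0]
  simp only [Finset.sum_mul, Finset.sum_div, ← Finset.sum_add_distrib, Finset.mul_sum]
  refine Finset.sum_le_sum fun U _ => ?_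
  have hn' : (0 : ℝ) < n := by exact_mod_cast hn
  have hx1 : 0 < x1 := by unfold x1; norm_num
  have hx2 : 0 < x2 := by unfold x2; norm_num
  have hq1 : 0 < q1 := by unfold q1; norm_num
  have hq2 : 0 < q2 := by unfold q2; norm_num
  have hy3 : 0 < y3 := by unfold y3; norm_num
  set P : ℝ := (Fintype.card α : ℝ) * Fintype.card β with hP
  have hP' : P = 38862 * n ^ 2 := by
    rw [hP, hα, hβ]
    push_cast
    ring
  have hPpos : 0 < P := by rw [hP']; positivity
  have hab : (aa U : ℝ) * bb U ≤ P := by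
    rw [hP]
    exact mul_le_mul (by exact_mod_cast aa_le U) (by exact_mod_cast bb_le U) (by positivity)
      (by positivity)
  have hm : (Fintype.card γ : ℝ) = 127000 * n := by rw [hγ]; push_cast; ring
  have w1 : 0 ≤ x1 ^ U.card * q1 ^ aa U * 1 ^ bb U * (1 + x1) ^ Fintype.card γ / x1 ^ j := by
    positivity
  have w2 : 0 ≤ x2 ^ U.card * 1 ^ aa U * q2 ^ bb U * (1 + x2) ^ Fintype.card γ / x2 ^ j := by
    positivity
  have w3 : 0 ≤ 1 ^ U.card * y3 ^ aa U * y3 ^ bb U * 2 ^ Fintype.card γ / y3 ^ (8 * n) /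
      y3 ^ (12 * n) := by positivity
  have hPm : 0 ≤ P ^ Fintype.card γ := by positivity
  by_cases hb : 12 * n ≤ bb U
  · refine (upper_U j U hx1).trans ?_
    have hb' : (12 : ℝ) * n ≤ bb U := by exact_mod_cast hb
    have h1 := pen (m := Fintype.card γ) (a := aa U) hPpos hx1 hab (s := (14 : ℕ)) (q := q1)
      (by
        rw [hm, ← mul_div_assoc, le_div_iff₀ (by positivity), hP']
        unfold x1
        have ha : (0 : ℝ) ≤ aa U := by positivity
        have : (aa U : ℝ) * n * (12 * n) ≤ aa U * n * bb U :=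
          mul_le_mul_of_nonneg_left hb' (by positivity)
        have h2 : (0 : ℝ) ≤ aa U * n * n := by positivity
        push_cast
        nlinarith)
      (exp_bound 14 (by unfold q1; norm_num))
    refine (mul_le_mul_of_nonneg_left h1 (by positivity)).trans ?_
    refine le_trans (le_of_eq ?_) (mul_le_mul_of_nonneg_left
      (le_add_of_le_of_nonneg (le_add_of_nonneg_right w2) w3) hPm)
    rw [mul_pow]
    ring
  by_cases ha : 8 * n ≤ aa U
  · refine (upper_U j U hx2).trans ?_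
    have ha' : (8 : ℝ) * n ≤ aa U := by exact_mod_cast ha
    have h1 := pen (m := Fintype.card γ) (a := bb U) hPpos hx2 hab (s := (12 : ℕ)) (q := q2)
      (by
        rw [hm, ← mul_div_assoc, le_div_iff₀ (by positivity), hP']
        unfold x2
        have ha : (0 : ℝ) ≤ bb U := by positivity
        have : (bb U : ℝ) * n * (8 * n) ≤ bb U * n * aa U :=
          mul_le_mul_of_nonneg_left ha' (by positivity)
        have h2 : (0 : ℝ) ≤ bb U * n * n := by positivity
        push_cast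
        nlinarith)
      (exp_bound 12 (by unfold q2; norm_num))
    refine (mul_le_mul_of_nonneg_left h1 (by positivity)).trans ?_
    refine le_trans (le_of_eq ?_) (mul_le_mul_of_nonneg_left
      (le_add_of_le_of_nonneg (le_add_of_nonneg_left w1) w3) hPm)
    rw [mul_pow]
    ring
  · refine (upper_U j U one_pos).trans ?_
    refine le_trans ?_ (mul_le_mul_of_nonneg_left
      (le_add_of_nonneg_left (add_nonneg w1 w2)) hPm)
    have hy : y3 ≤ 1 := by unfold y3; norm_num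
    have e1 : y3 ^ (8 * n) ≤ y3 ^ aa U := pow_le_pow_of_le_one hy3.le hy (by omega)
    have e2 : y3 ^ (12 * n) ≤ y3 ^ bb U := pow_le_pow_of_le_one hy3.le hy (by omega)
    have e3 : (P * (1 + 1) - aa U * bb U) ^ Fintype.card γ ≤ (P * 2) ^ Fintype.card γ := by
      refine pow_le_pow_left₀ (by linarith) ?_ _
      have : (0 : ℝ) ≤ aa U * bb U := by positivity
      linarith
    simp only [one_pow, div_one, one_mul]
    refine e3.trans ?_
    rw [mul_pow]
    refine mul_le_mul_of_nonneg_left ?_ hPm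
    rw [div_div, le_div_iff₀ (by positivity), mul_comm]
    refine mul_le_mul_of_nonneg_right ?_ (by positivity)
    exact mul_le_mul e1 e2 (by positivity) (by positivity)

/-- the smaller phase weight -/
noncomputable def Φ : ℝ := 2 ^ 127 * 3 ^ 306 * 2 ^ 127000

theorem num1 : (x1 + q1) ^ 127 * (1 + 2 * x1 + x1 ^ 2) ^ 306 * (1 + x1) ^ 127000 / x1 ^ 63952
    ≤ Φ / (251 / 250) := by
  have h : ((1601 / 1600 + 1 / 1000000 : ℚ)) ^ 127 *
      (1 + 2 * (1601 / 1600) + (1601 / 1600) ^ 2) ^ 306 * (1 + 1601 / 1600) ^ 127000 /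
      (1601 / 1600) ^ 63952 ≤ 2 ^ 127 * 3 ^ 306 * 2 ^ 127000 / (251 / 250) := by
    decide +kernel
  have h' := (Rat.cast_le (K := ℝ)).2 h
  simp only [Rat.cast_div, Rat.cast_mul, Rat.cast_pow, Rat.cast_add, Rat.cast_ofNat,
    Rat.cast_one] at h'
  exact h'

theorem num2 : (x2 + 1) ^ 127 * (q2 + 2 * x2 + x2 ^ 2) ^ 306 * (1 + x2) ^ 127000 / x2 ^ 63952
    ≤ Φ / (251 / 250) := by
  have h : ((1599 / 1600 + 1 : ℚ)) ^ 127 *
      (1 / 100000 + 2 * (1599 / 1600) + (1599 / 1600) ^ 2) ^ 306 * (1 + 1599 / 1600) ^ 127000 /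
      (1599 / 1600) ^ 63952 ≤ 2 ^ 127 * 3 ^ 306 * 2 ^ 127000 / (251 / 250) := by
    decide +kernel
  have h' := (Rat.cast_le (K := ℝ)).2 h
  simp only [Rat.cast_div, Rat.cast_mul, Rat.cast_pow, Rat.cast_add, Rat.cast_ofNat,
    Rat.cast_one] at h'
  exact h'

theorem num3 : (1 + y3) ^ 127 * (y3 + 2 * 1 + 1 ^ 2) ^ 306 * 2 ^ 127000 / y3 ^ 8 / y3 ^ 12
    ≤ Φ / (251 / 250) := by
  have h : ((1 + 1 / 10 : ℚ)) ^ 127 *
      (1 / 10 + 2 * 1 + 1 ^ 2) ^ 306 * 2 ^ 127000 /
      (1 / 10) ^ 8 / (1 / 10) ^ 12 ≤ 2 ^ 127 * 3 ^ 306 * 2 ^ 127000 / (251 / 250) := by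
    decide +kernel
  have h' := (Rat.cast_le (K := ℝ)).2 h
  simp only [Rat.cast_div, Rat.cast_mul, Rat.cast_pow, Rat.cast_add, Rat.cast_ofNat,
    Rat.cast_one] at h'
  exact h'

theorem num4 : Φ ≤ (1 + 0) ^ 127 * (1 + 3) ^ 306 * 2 ^ 127000 := by
  have h : (2 ^ 127 * 3 ^ 306 * 2 ^ 127000 : ℚ) ≤
      (1 + 0) ^ 127 * (1 + 3) ^ 306 * 2 ^ 127000 := by
    decide +kernel
  have h' := (Rat.cast_le (K := ℝ)).2 h
  simp only [Rat.cast_mul, Rat.cast_pow, Rat.cast_add, Rat.cast_ofNat,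
    Rat.cast_one, Rat.cast_zero] at h'
  exact h'

end Pool.Agent.H528Z.Dom
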