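import Pool.Agent.H528Z.Dom2

set_option autoImplicit false
set_option linter.unusedSectionVars false

open Finset

namespace Pool.Agent.H528Z.Dom

theorem pw (a b c d : ℝ) (i j k l n : ℕ) :
    a ^ (i * n) * b ^ (j * n) * c ^ (k * n) / d ^ (l * n) = (a ^ i * b ^ j * c ^ k / d ^ l) ^ n := by
  simp only [pow_mul, mul_pow, div_pow]

theorem pw' (a b c d : ℝ) (i j k l l' n : ℕ) :
    a ^ (i * n) * b ^ (j * n) * c ^ (k * n) / d ^ (l * n) / d ^ (l' * n) =
      (a ^ i * b ^ j * c ^ k / d ^ l / d ^ l') ^ n := by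
  simp only [pow_mul, mul_pow, div_pow]

theorem pw'' (a b c : ℝ) (i j k n : ℕ) :
    a ^ (i * n) * b ^ (j * n) * c ^ (k * n) = (a ^ i * b ^ j * c ^ k) ^ n := by
  simp only [pow_mul, mul_pow]

variable {α β γ : Type} [Fintype α] [Fintype β] [Fintype γ] [DecidableEq α] [DecidableEq β]
  [DecidableEq γ]

theorem main (n : ℕ) (hn : 0 < n) (hα : Fintype.card α = 127 * n) (hβ : Fintype.card β = 306 * n)
    (hγ : Fintype.card γ = 127000 * n)
    (H : ∀ f : γ → α × β, ∃ k : ℕ, (∀ i j, i ≤ j → j ≤ k → D f i ≤ D f j) ∧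
      (∀ i j, k ≤ i → i ≤ j → D f j ≤ D f i)) :
    ((251 : ℝ) / 250) ^ n - 1 ≤ (127739 * n + 1) * 3 := by
  classical
  have hx1 : 1 ≤ x1 := by unfold x1; norm_num
  have hx1' : 0 < x1 := by linarith
  have hx2 : 0 < x2 := by unfold x2; norm_num
  have hx2' : x2 ≤ 1 := by unfold x2; norm_num
  have hq1 : 0 < q1 := by unfold q1; norm_num
  have hq2 : 0 < q2 := by unfold q2; norm_num
  have hy3 : 0 < y3 := by unfold y3; norm_num
  have hΦ : 0 < Φ := by unfold Φ; positivity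
  set R : ℝ := Φ / (251 / 250) with hR
  have hRpos : 0 < R := by positivity
  have hΦR : Φ ^ n = (251 / 250) ^ n * R ^ n := by
    rw [← mul_pow, hR, mul_div_cancel₀ _ (by norm_num)]
  have hne : Nonempty (α × β) := by
    rw [← Fintype.card_pos_iff, Fintype.card_prod, hα, hβ]
    positivity
  obtain ⟨c⟩ := hne
  have up := upper n hn hα hβ hγ (63952 * n)
  have b1 := pow_le_pow_left₀ (by positivity) num1 n
  have b2 := pow_le_pow_left₀ (by positivity) num2 n
  have b3 := pow_le_pow_left₀ (by positivity) num3 n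
  have b4 := pow_le_pow_left₀ hΦ.le num4 n
  rw [← pw] at b1 b2
  rw [← pw'] at b3
  rw [← pw''] at b4
  rw [← hα, ← hβ, ← hγ, ← hR] at b1 b2 b3
  rw [← hα, ← hβ, ← hγ] at b4
  have b5 : Φ ^ n = (1 + 1) ^ Fintype.card α * (0 + 3) ^ Fintype.card β * 2 ^ Fintype.card γ := by
    rw [hα, hβ, hγ, pw'', one_add_one_eq_two, zero_add]
    rfl
  have up2 : ∑ f : γ → α × β, (D f (63952 * n) : ℝ) ≤ ∑ _f : γ → α × β, 3 * R ^ n := by
    refine up.trans ?_
    simp only [sum_const, card_univ, Fintype.card_fun, Fintype.card_prod, nsmul_eq_mul,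
      Nat.cast_pow, Nat.cast_mul]
    refine mul_le_mul_of_nonneg_left ?_ (by positivity)
    linarith
  obtain ⟨f, _, hf⟩ := Finset.exists_le_of_sum_le ⟨fun _ => c, mem_univ _⟩ up2
  obtain ⟨k, h1, h2⟩ := H f
  have hN : Fintype.card ((α ⊕ β ⊕ β) ⊕ γ) = 127739 * n := by
    simp only [Fintype.card_sum, hα, hβ, hγ]
    ring
  have key : Φ ^ n - R ^ n ≤ (127739 * n + 1) * (D f (63952 * n) : ℝ) := by
    rcases le_total (63952 * n) k with hk | hk
    · have t := tail_le f (63952 * n) (fun i => i ≤ 63952 * n) (fun i hi => h1 i _ hi hk)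
      have l := lower_tail f c (63952 * n) (fun i => i ≤ 63952 * n) (x := x1) (q := 0) (z := 1)
        hx1' (fun i hi => pow_le_pow_right₀ hx1 (by omega)) (Or.inl ⟨rfl, rfl⟩)
      rw [hN] at t
      have t0 := (Nat.cast_le (α := ℝ)).2 t
      rw [Nat.cast_mul, Nat.cast_add, Nat.cast_mul, Nat.cast_ofNat, Nat.cast_one] at t0
      have t' := l.trans (by convert t0)
      have m1 : (x1 + 0) ^ Fintype.card α * (1 + 2 * x1 + x1 ^ 2) ^ Fintype.card β *
          (1 + x1) ^ Fintype.card γ / x1 ^ (63952 * n) ≤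
          (x1 + q1) ^ Fintype.card α * (1 + 2 * x1 + x1 ^ 2) ^ Fintype.card β *
          (1 + x1) ^ Fintype.card γ / x1 ^ (63952 * n) := by
        gcongr
      exact le_trans (sub_le_sub b4 (m1.trans b1)) t'
    · have t := tail_le f (63952 * n) (fun i => 63952 * n ≤ i) (fun i hi => h2 _ i hk hi)
      have l := lower_tail f c (63952 * n) (fun i => 63952 * n ≤ i) (x := x2) (q := 1) (z := 0)
        hx2 (fun i hi => pow_le_pow_of_le_one hx2.le hx2' (by omega)) (Or.inr ⟨rfl, rfl⟩)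
      rw [hN] at t
      have t0 := (Nat.cast_le (α := ℝ)).2 t
      rw [Nat.cast_mul, Nat.cast_add, Nat.cast_mul, Nat.cast_ofNat, Nat.cast_one] at t0
      have t' := l.trans (by convert t0)
      have m1 : (x2 + 1) ^ Fintype.card α * (0 + 2 * x2 + x2 ^ 2) ^ Fintype.card β *
          (1 + x2) ^ Fintype.card γ / x2 ^ (63952 * n) ≤
          (x2 + 1) ^ Fintype.card α * (q2 + 2 * x2 + x2 ^ 2) ^ Fintype.card β *
          (1 + x2) ^ Fintype.card γ / x2 ^ (63952 * n) := by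
        gcongr
      exact le_trans (sub_le_sub b5.le (m1.trans b2)) t'
  have hRn : 0 < R ^ n := by positivity
  have k2 : (127739 * n + 1) * (D f (63952 * n) : ℝ) ≤ (127739 * n + 1) * (3 * R ^ n) :=
    mul_le_mul_of_nonneg_left hf (by positivity)
  rw [hΦR] at key
  refine le_of_mul_le_mul_right ?_ hRn
  nlinarith

theorem big (n : ℕ) (hn : n = 250 * 40) :
    ¬ ((251 : ℝ) / 250) ^ n - 1 ≤ (127739 * n + 1) * 3 := by
  have h1 : (2 : ℝ) ≤ (251 / 250) ^ 250 := by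
    have := one_add_mul_le_pow (a := (1 / 250 : ℝ)) (by norm_num) 250
    calc (2 : ℝ) = 1 + ((250 : ℕ) : ℝ) * (1 / 250) := by norm_num
      _ ≤ (1 + 1 / 250) ^ 250 := this
      _ = (251 / 250) ^ 250 := by congr 1; norm_num
  have h2 : (2 : ℝ) ^ 40 ≤ (251 / 250) ^ n := by
    rw [hn, pow_mul]
    exact pow_le_pow_left₀ (by norm_num) h1 40
  have h3 : (n : ℝ) = 10000 := by rw [hn]; norm_num
  rw [h3]
  intro h
  have h4 : (2 : ℝ) ^ 40 = 1099511627776 := by norm_num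
  linarith

theorem D_eq (f : γ → α × β) (i : ℕ) :
    {S : Finset ((α ⊕ β ⊕ β) ⊕ γ) | S.card = i ∧ ∀ v, v ∈ S ∨ ∃ u ∈ S, (G f).Adj v u}.ncard
      = D f i := by
  classical
  unfold D
  rw [← Set.ncard_coe_finset]
  congr 1
  ext S
  simp [Dom]

theorem final : ¬ (∀ (V : Type) [Fintype V] (G : SimpleGraph V),
      ∃ k : ℕ,
        (∀ i j : ℕ, i ≤ j → j ≤ k →
          {S : Finset V | S.card = i ∧ ∀ v : V, v ∈ S ∨ ∃ u ∈ S, G.Adj v u}.ncard ≤
          {S : Finset V | S.card = j ∧ ∀ v : V, v ∈ S ∨ ∃ u ∈ S, G.Adj v u}.ncard) ∧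
        (∀ i j : ℕ, k ≤ i → i ≤ j →
          {S : Finset V | S.card = j ∧ ∀ v : V, v ∈ S ∨ ∃ u ∈ S, G.Adj v u}.ncard ≤
          {S : Finset V | S.card = i ∧ ∀ v : V, v ∈ S ∨ ∃ u ∈ S, G.Adj v u}.ncard)) := by
  intro H
  obtain ⟨n, hn⟩ : ∃ n : ℕ, n = 250 * 40 := ⟨_, rfl⟩
  refine big n hn (main (α := Fin (127 * n)) (β := Fin (306 * n)) (γ := Fin (127000 * n)) n
    (by omega) (Fintype.card_fin _) (Fintype.card_fin _) (Fintype.card_fin _) fun f => ?_)
  obtain ⟨k, h1, h2⟩ := H _ (G f)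
  simp only [D_eq] at h1 h2
  exact ⟨k, h1, h2⟩

end Pool.Agent.H528Z.Dom
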