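import Mathlib

/-!
Riemannian metrics on domains of `ℝ^n` in coordinates: curvature, the Gauss-Bonnet curvature `L₂`,
asymptotic flatness and the Gauss-Bonnet-Chern mass.
-/

set_option autoImplicit false

open scoped ContDiff ENNReal
open MeasureTheory Filter Topology

namespace H528GBC

/-- Euclidean space `ℝ^n`. -/
abbrev E (n : ℕ) : Type := EuclideanSpace ℝ (Fin n)

variable {n : ℕ}

/-- The derivative `∂_i f` of the function `f` in the `i`-th coordinate direction. -/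
noncomputable def pd (i : Fin n) (f : E n → ℝ) (x : E n) : ℝ :=
  fderiv ℝ f x (EuclideanSpace.single i 1)

/-- The data of a metric at a point from which its curvature is computed: `gi i j = g^{ij}`,
`d1 k i j = ∂_k g_{ij}` and `d2 l k i j = ∂_l ∂_k g_{ij}`. -/
structure Jet (n : ℕ) where
  gi : Fin n → Fin n → ℝ
  d1 : Fin n → Fin n → Fin n → ℝ
  d2 : Fin n → Fin n → Fin n → Fin n → ℝ

/-- The inverse matrix and the first and second derivatives at `x` of the metric `g_{ij}`. -/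
noncomputable def jet (g : E n → Matrix (Fin n) (Fin n) ℝ) (x : E n) : Jet n where
  gi i j := (g x)⁻¹ i j
  d1 k i j := pd k (fun y => g y i j) x
  d2 l k i j := pd l (pd k (fun y => g y i j)) x

namespace Jet
variable (J : Jet n)

/-- Christoffel symbols of the first kind `Γ_{m,ij}`. -/
noncomputable def chr (m i j : Fin n) : ℝ := (J.d1 i j m + J.d1 j i m - J.d1 m i j) / 2

/-- The Riemann tensor `R_{ijkl}`, with the sign for which `R_{ijij}` is the sectional curvature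
(times the squared area) of the `(i, j)`-plane. -/
noncomputable def riem (i j k l : Fin n) : ℝ :=
  (J.d2 j k i l + J.d2 i l j k - J.d2 j l i k - J.d2 i k j l) / 2 +
    ∑ a, ∑ b, J.gi a b * (J.chr a j k * J.chr b i l - J.chr a j l * J.chr b i k)

/-- The Ricci tensor `R_{jl} = g^{ik} R_{ijkl}`. -/
noncomputable def ric (j l : Fin n) : ℝ := ∑ i, ∑ k, J.gi i k * J.riem i j k l

/-- The scalar curvature `R = g^{jl} R_{jl}`. -/
noncomputable def scal : ℝ := ∑ j, ∑ l, J.gi j l * J.ric j l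

/-- `R^{ijkl}`. -/
noncomputable def riemUp (i j k l : Fin n) : ℝ :=
  ∑ a, ∑ b, ∑ c, ∑ d, J.gi i a * J.gi j b * J.gi k c * J.gi l d * J.riem a b c d

/-- `R^{jk}`. -/
noncomputable def ricUp (j k : Fin n) : ℝ := ∑ a, ∑ b, J.gi j a * J.gi k b * J.ric a b

/-- The tensor `P^{ijkl}`. -/
noncomputable def P (i j k l : Fin n) : ℝ :=
  J.riemUp i j k l + J.ricUp j k * J.gi i l - J.ricUp j l * J.gi i k - J.ricUp i k * J.gi j l
    + J.ricUp i l * J.gi j k + J.scal / 2 * (J.gi i k * J.gi j l - J.gi i l * J.gi j k)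

/-- The Gauss-Bonnet curvature `L₂ = P^{ijkl} R_{ijkl}`. -/
noncomputable def L2 : ℝ := ∑ i, ∑ j, ∑ k, ∑ l, J.P i j k l * J.riem i j k l

/-- The integrand `P^{ijkl} ∂_l g_{jk} ν_i` of the mass. -/
noncomputable def flux (ν : Fin n → ℝ) : ℝ := ∑ i, ∑ j, ∑ k, ∑ l, J.P i j k l * (J.d1 l j k * ν i)

end Jet

/-- `g` is a smooth Riemannian metric on the open set `U`: smooth coefficients, and `g x` is a
symmetric positive definite matrix. -/
def IsMetricOn (U : Set (E n)) (g : E n → Matrix (Fin n) (Fin n) ℝ) : Prop :=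
  (∀ i j, ContDiffOn ℝ ∞ (fun y => g y i j) U) ∧ ∀ x ∈ U, (g x).PosDef

/-- The scalar product `g_x(v, w) = g_{ij}(x) v^i w^j`. -/
noncomputable def form (g : E n → Matrix (Fin n) (Fin n) ℝ) (x v w : E n) : ℝ :=
  ∑ i, ∑ j, g x i j * v i * w j

/-- The Riemannian distance in the manifold `(D, g)`: the infimum of the `g`-lengths of the `C¹`
paths in `D` from `x` to `y`. -/
noncomputable def rdist (D : Set (E n)) (g : E n → Matrix (Fin n) (Fin n) ℝ) (x y : E n) : ℝ≥0∞ :=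
  ⨅ (γ : ℝ → E n) (_ : ContDiffOn ℝ 1 γ (Set.Icc 0 1)) (_ : ∀ t ∈ Set.Icc (0 : ℝ) 1, γ t ∈ D)
    (_ : γ 0 = x) (_ : γ 1 = y),
    ∫⁻ t in Set.Icc (0 : ℝ) 1, ENNReal.ofReal √(form g (γ t) (deriv γ t) (deriv γ t))

/-- `(D, g)` is complete: every sequence in `D` that is Cauchy for the Riemannian distance converges
to a point of `D`. -/
def CompleteOn (D : Set (E n)) (g : E n → Matrix (Fin n) (Fin n) ℝ) : Prop :=
  ∀ u : ℕ → E n, (∀ k, u k ∈ D) →
    (∀ ε : ℝ≥0∞, 0 < ε → ∃ N, ∀ k ≥ N, ∀ l ≥ N, rdist D g (u k) (u l) < ε) →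
    ∃ x ∈ D, Tendsto u atTop (𝓝 x)

/-- `g` is asymptotically flat of order `τ` in the coordinates of `ℝ^n`. -/
def AsympFlat (g : E n → Matrix (Fin n) (Fin n) ℝ) (τ : ℝ) : Prop :=
  ∃ C R : ℝ, ∀ x : E n, R ≤ ‖x‖ → ∀ i j k l,
    |g x i j - (1 : Matrix (Fin n) (Fin n) ℝ) i j| ≤ C * ‖x‖ ^ (-τ) ∧
    |(jet g x).d1 k i j| ≤ C * ‖x‖ ^ (-τ - 1) ∧ |(jet g x).d2 l k i j| ≤ C * ‖x‖ ^ (-τ - 2)

/-- `L₂` is integrable on `D` for the Riemannian volume `√(det g) dx`. -/
def L2Integrable (D : Set (E n)) (g : E n → Matrix (Fin n) (Fin n) ℝ) : Prop :=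
  IntegrableOn (fun x => (jet g x).L2 * √(g x).det) D

/-- The area `ω_{n-1}` of the unit sphere of `ℝ^n`. -/
noncomputable def omega (n : ℕ) : ℝ := (volume : Measure (E n)).toSphere.real Set.univ

/-- The Gauss-Bonnet-Chern mass of `g` exists and is `m`:
`(n-4)! / (2 (n-1)! ω_{n-1}) ∫_{S_r} P^{ijkl} ∂_l g_{jk} ν_i dS → m` as `r → ∞`; the integral
over `S_r` is written as `r^(n-1)` times an integral over the unit sphere. -/
def HasMass (g : E n → Matrix (Fin n) (Fin n) ℝ) (m : ℝ) : Prop :=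
  Tendsto (fun r : ℝ => ((n - 4).factorial : ℝ) / (2 * ((n - 1).factorial : ℝ) * omega n) *
    (r ^ (n - 1) * ∫ u : Metric.sphere (0 : E n) 1, (jet g (r • u.1)).flux (fun i => u.1 i)
      ∂(volume : Measure (E n)).toSphere)) atTop (𝓝 m)

/-- `(ℝ^n, g)` is isometric to Euclidean `ℝ^n`. -/
def IsometricToEuclidean (g : E n → Matrix (Fin n) (Fin n) ℝ) : Prop :=
  ∃ F : E n ≃ E n, ContDiff ℝ ∞ F ∧ ContDiff ℝ ∞ F.symm ∧
    ∀ x v w, form g x v w = inner ℝ (fderiv ℝ F x v) (fderiv ℝ F x w)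

end H528GBC
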