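import Pool.Agent.H528Z.GbcFlux

set_option autoImplicit false
set_option linter.unusedSimpArgs false
set_option linter.unnecessarySeqFocus false
set_option linter.unusedTactic false
set_option linter.unreachableTactic false
set_option linter.unusedVariables false

namespace H528GBC

def ex1 : Fam := ⟨1, 0, 6, 10, 4, 4, 4⟩

lemma ex1_ok : ex1.Ok := by constructor <;> norm_num [ex1]

lemma ex1_pos (σ : ℝ) (h1 : 1 ≤ σ) : 0 < σ^4 + 6*σ^2 - 6 ∧ 0 < σ^4 + 10*σ^2 - 10 := by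
  obtain ⟨w, hw, rfl⟩ : ∃ w, 0 ≤ w ∧ σ = 1 + w := ⟨σ - 1, by linarith, by ring⟩
  refine ⟨?_, ?_⟩
  · have : (1+w)^4 + 6*(1+w)^2 - 6 = w^4 + 4*w^3 + 12*w^2 + 16*w + 1 := by ring
    rw [this]; positivity
  · have : (1+w)^4 + 10*(1+w)^2 - 10 = w^4 + 4*w^3 + 16*w^2 + 24*w + 1 := by ring
    rw [this]; positivity

lemma ex1_vals (r σ u v : ℝ) (hσ : √(ex1.κ + r ^ 2) = σ) (h1 : 1 ≤ σ)
    (hu : u = σ^4 + 6*σ^2 - 6) (hv : v = σ^4 + 10*σ^2 - 10) :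
    (std (ex1.par (r ^ 2)) r).L2 = (61440*σ^18 + 539520*σ^16 + 261120*σ^14 + 13445760*σ^12 +
      5126400*σ^10 - 204307200*σ^8 + 490752000*σ^6 - 513216000*σ^4 + 259200000*σ^2 - 51840000) /
      (σ^8 * u^3 * v^2) ∧
    (std (ex1.par (r ^ 2)) r).scal = (80*σ^16 + 2080*σ^14 + 10960*σ^12 - 27040*σ^10 - 130080*σ^8
      + 576000*σ^6 - 864000*σ^4 + 576000*σ^2 - 144000) / (σ^4 * u^2 * v^2) ∧
    r ^ 5 * (std (ex1.par (r ^ 2)) r).flux (dl0 0) = (-2400*σ^10 + 40320*σ^8 - 135360*σ^6 +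
      188160*σ^4 - 119520*σ^2 + 28800) / (σ^2 * u^2 * v) := by
  have hs : r ^ 2 = σ ^ 2 - 1 := by
    rw [← hσ, Real.sq_sqrt (add_nonneg ex1_ok.hκ (sq_nonneg r))]; simp [ex1]
  have r4 : r ^ 4 = (σ ^ 2 - 1) ^ 2 := by rw [← hs]; ring
  have r6 : r ^ 6 = (σ ^ 2 - 1) ^ 3 := by rw [← hs]; ring
  have hσ0 : σ ≠ 0 := by linarith
  obtain ⟨pu, pv⟩ := ex1_pos σ h1
  rw [← hu] at pu
  have nu := pu.ne'
  rw [← hv] at pv
  have nv := pv.ne'
  have ea := ex1_ok.par_a r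
  have eb := ex1_ok.par_b r
  have eG : ex1.G (r ^ 2) = (1) := by
    simp only [Fam.G, Fam.t0, ph, hσ]; norm_num [ex1]
    try field_simp
  have eG1 : (ex1.par (r ^ 2)).G1 = (0) := by
    simp only [Fam.par, Fam.A, Fam.C, Fam.t0, Fam.t1, Fam.t2, ph, hσ]; norm_num [ex1]
    try (field_simp; try ring)
  have eG2 : (ex1.par (r ^ 2)).G2 = (0) := by
    simp only [Fam.par, Fam.A, Fam.C, Fam.t0, Fam.t1, Fam.t2, ph, hσ]; norm_num [ex1]
    try (field_simp; try ring)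
  have eA : (ex1.par (r ^ 2)).A = (6) / (σ^4) := by
    simp only [Fam.par, Fam.A, Fam.C, Fam.t0, Fam.t1, Fam.t2, ph, hσ]; norm_num [ex1]
    try (field_simp; try ring)
  have eA1 : (ex1.par (r ^ 2)).A1 = (-12) / (σ^6) := by
    simp only [Fam.par, Fam.A, Fam.C, Fam.t0, Fam.t1, Fam.t2, ph, hσ]; norm_num [ex1]
    try (field_simp; try ring)
  have eA2 : (ex1.par (r ^ 2)).A2 = (36) / (σ^8) := by
    simp only [Fam.par, Fam.A, Fam.C, Fam.t0, Fam.t1, Fam.t2, ph, hσ]; norm_num [ex1]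
    try (field_simp; try ring)
  have eC : (ex1.par (r ^ 2)).C = (10) / (σ^4) := by
    simp only [Fam.par, Fam.A, Fam.C, Fam.t0, Fam.t1, Fam.t2, ph, hσ]; norm_num [ex1]
    try (field_simp; try ring)
  have eC1 : (ex1.par (r ^ 2)).C1 = (-20) / (σ^6) := by
    simp only [Fam.par, Fam.A, Fam.C, Fam.t0, Fam.t1, Fam.t2, ph, hσ]; norm_num [ex1]
    try (field_simp; try ring)
  have eC2 : (ex1.par (r ^ 2)).C2 = (60) / (σ^8) := by
    simp only [Fam.par, Fam.A, Fam.C, Fam.t0, Fam.t1, Fam.t2, ph, hσ]; norm_num [ex1]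
    try (field_simp; try ring)
  have eA' : ex1.A (r ^ 2) = _ := eA
  have eC' : ex1.C (r ^ 2) = _ := eC
  have ec : (ex1.par (r ^ 2)).c = (1) := by
    change (ex1.G (r ^ 2))⁻¹ = _
    refine inv_eq_of_mul_eq_one_right ?_
    rw [eG]; field_simp
    try (subst hu hv; ring)
  replace ea : (ex1.par (r ^ 2)).a r = (σ^4) / (u) := by
    rw [ea]; refine inv_eq_of_mul_eq_one_right ?_
    rw [eG, eA', hs]; field_simp; subst hu hv; ring
  replace eb : (ex1.par (r ^ 2)).b r = (σ^4) / (v) := by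
    rw [eb]; refine inv_eq_of_mul_eq_one_right ?_
    rw [eG, eC', hs]; field_simp; subst hu hv; ring
  generalize ex1.par (r ^ 2) = p at *
  have ek1 : p.k1 r = (-16*σ^12 - 8*σ^10 + 1200*σ^8 - 80*σ^6 - 5920*σ^4 + 7200*σ^2 - 2400) /
      (σ^8 * u * v) := by
    simp only [Par.k1, ea, eb, ec, eG1, eG2, eA, eA1, eA2, eC, eC1, eC2, hs, r4, r6]
    field_simp
    try (subst hu hv; ring)
  have ek2 : p.k2 r = (-6*σ^2 + 12) / (σ^2 * u) := by
    simp only [Par.k2, ea, eb, ec, eG1, eG2, eA, eA1, eA2, eC, eC1, eC2, hs, r4, r6]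
    field_simp
    try (subst hu hv; ring)
  have ek3 : p.k3 r = (26*σ^8 + 200*σ^6 + 380*σ^4 - 1200*σ^2 + 600) / (σ^8 * u) := by
    simp only [Par.k3, ea, eb, ec, eG1, eG2, eA, eA1, eA2, eC, eC1, eC2, hs, r4, r6]
    field_simp
    try (subst hu hv; ring)
  have ek4 : p.k4 r = (10*σ^2 - 20) / (σ^6) := by
    simp only [Par.k4, ea, eb, ec, eG1, eG2, eA, eA1, eA2, eC, eC1, eC2, hs, r4, r6]
    field_simp
    try (subst hu hv; ring)
  have ek5 : p.k5 r = (6) / (u) := by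
    simp only [Par.k5, ea, eb, ec, eG1, eG2, eA, eA1, eA2, eC, eC1, eC2, hs, r4, r6]
    field_simp
    try (subst hu hv; ring)
  have ek6 : p.k6 r = (-10) / (σ^4) := by
    simp only [Par.k6, ea, eb, ec, eG1, eG2, eA, eA1, eA2, eC, eC1, eC2, hs, r4, r6]
    field_simp
    try (subst hu hv; ring)
  rw [std_L2, std_scal, flux5]
  simp only [ea, eb, ec, eG1, eG2, eA, eA1, eA2, eC, eC1, eC2, hs, ek1, ek2, ek3, ek4, ek5, ek6]
  refine ⟨?_, ?_, ?_⟩ <;> (field_simp; subst hu hv; ring)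

noncomputable def ex1L (σ : ℝ) : ℝ := (61440*σ^18 + 539520*σ^16 + 261120*σ^14 + 13445760*σ^12 +
    5126400*σ^10 - 204307200*σ^8 + 490752000*σ^6 - 513216000*σ^4 + 259200000*σ^2 - 51840000) /
    (σ^8 * (σ^4 + 6*σ^2 - 6)^3 * (σ^4 + 10*σ^2 - 10)^2)

noncomputable def ex1S (σ : ℝ) : ℝ := (80*σ^16 + 2080*σ^14 + 10960*σ^12 - 27040*σ^10 -
    130080*σ^8 + 576000*σ^6 - 864000*σ^4 + 576000*σ^2 - 144000) / (σ^4 * (σ^4 + 6*σ^2 - 6)^2 *
    (σ^4 + 10*σ^2 - 10)^2)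

lemma ex1L_pos (σ : ℝ) (h1 : 1 ≤ σ) : 0 < ex1L σ := by
  obtain ⟨pu, pv⟩ := ex1_pos σ h1
  refine div_pos ?_ (by positivity)
  obtain ⟨w, hw, rfl⟩ : ∃ w, 0 ≤ w ∧ σ = 1 + w := ⟨σ - 1, by linarith, by ring⟩
  have : 61440*(1+w)^18 + 539520*(1+w)^16 + 261120*(1+w)^14 + 13445760*(1+w)^12 +
      5126400*(1+w)^10 - 204307200*(1+w)^8 + 490752000*(1+w)^6 - 513216000*(1+w)^4 +
      259200000*(1+w)^2 - 51840000 = 61440*w^18 + 1105920*w^17 + 9939840*w^16 + 58767360*w^15 +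
      253009920*w^14 + 832204800*w^13 + 2159706240*w^12 + 4568286720*w^11 + 8162895360*w^10 +
      12691415040*w^9 + 17098289280*w^8 + 18653291520*w^7 + 14515768320*w^6 + 6850007040*w^5 +
      1710069120*w^4 + 341521920*w^3 + 36595200*w^2 + 1597440*w + 23040 := by ring
  rw [this]; positivity

lemma ex1S_pos (σ : ℝ) (h1 : 1 ≤ σ) : 0 ≤ ex1S σ := by
  obtain ⟨pu, pv⟩ := ex1_pos σ h1
  refine div_nonneg ?_ (by positivity)
  obtain ⟨w, hw, rfl⟩ : ∃ w, 0 ≤ w ∧ σ = 1 + w := ⟨σ - 1, by linarith, by ring⟩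
  have : 80*(1+w)^16 + 2080*(1+w)^14 + 10960*(1+w)^12 - 27040*(1+w)^10 - 130080*(1+w)^8 +
      576000*(1+w)^6 - 864000*(1+w)^4 + 576000*(1+w)^2 - 144000 = 80*w^16 + 1280*w^15 +
      11680*w^14 + 73920*w^13 + 345840*w^12 + 1238080*w^11 + 3419040*w^10 + 7220160*w^9 +
      11354160*w^8 + 12448640*w^7 + 8269280*w^6 + 2551360*w^5 + 644880*w^4 + 747840*w^3 +
      95200*w^2 + 2880*w := by ring
  rw [this]; positivity

lemma ex1L_bd (σ : ℝ) (h1 : 1 ≤ σ) : |ex1L σ| * σ ^ 7 ≤ 32768 := by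
  rw [abs_of_pos (ex1L_pos σ h1), ex1L, div_mul_eq_mul_div]
  obtain ⟨pu, pv⟩ := ex1_pos σ h1
  rw [div_le_iff₀ (by positivity), ← sub_nonneg]
  obtain ⟨w, hw, rfl⟩ : ∃ w, 0 ≤ w ∧ σ = 1 + w := ⟨σ - 1, by linarith, by ring⟩
  refine le_of_le_of_eq (?_ : 0 ≤ 32768*w^28 + 917504*w^27 + 13631488*w^26 + 139661312*w^25 +
      1091440640*w^24 + 6855754880*w^23 + 35699713920*w^22 + 157135263360*w^21 +
      591956530560*w^20 + 1923326854400*w^19 + 5412072824064*w^18 + 13206079999232*w^17 +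
      27909103477504*w^16 + 50900941497856*w^15 + 79645167577600*w^14 + 106038706125312*w^13 +
      118844057673216*w^12 + 110628784357632*w^11 + 84133490545408*w^10 + 51219285500160*w^9 +
      24328301600512*w^8 + 8719875034496*w^7 + 2255415105152*w^6 + 396353222528*w^5 +
      43866760320*w^4 + 2850673152*w^3 + 99588096*w^2 + 1649152*w + 9728) (by ring)
  positivity

lemma ex1L_meas : Measurable ex1L := by unfold ex1L; fun_prop

noncomputable def ex1F (t : ℝ) : ℝ := (28800*t^14 - 119520*t^12 + 188160*t^10 - 135360*t^8 +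
    40320*t^6 - 2400*t^4) / ((-6*t^4 + 6*t^2 + 1)^2 * (-10*t^4 + 10*t^2 + 1)^1)

lemma ex1F_zero : ex1F 0 = 0 := by norm_num [ex1F]

lemma ex1F_cont : ContinuousAt ex1F 0 := by
  unfold ex1F
  exact ContinuousAt.div (by fun_prop) (by fun_prop) (by norm_num)

lemma ex1_mass : HasMass ex1.gm (ex1F 0 / 120) := by
  refine ex1_ok.hasMass ex1F_cont fun r hr => ?_
  have h1 : 1 ≤ √(ex1.κ + r ^ 2) := Real.one_le_sqrt.2 (by have := ex1_ok.hκ; nlinarith)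
  generalize hσ : √(ex1.κ + r ^ 2) = σ at *
  obtain ⟨pu, pv⟩ := ex1_pos σ h1
  rw [(ex1_vals r σ _ _ hσ h1 rfl rfl).2.2, ex1F]
  have hσ0 : σ ≠ 0 := by linarith
  have eu : -6*σ⁻¹^4 + 6*σ⁻¹^2 + 1 = (σ^4 + 6*σ^2 - 6) / σ^4 := by field_simp; ring
  have ev : -10*σ⁻¹^4 + 10*σ⁻¹^2 + 1 = (σ^4 + 10*σ^2 - 10) / σ^4 := by field_simp; ring
  rw [eu, ev]
  generalize σ^4 + 6*σ^2 - 6 = u at *
  have nu := pu.ne'
  generalize σ^4 + 10*σ^2 - 10 = v at *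
  have nv := pv.ne'
  field_simp
  try ring

lemma ex1_eval (x : E 6) (hx : 1 ≤ ex1.κ + ss x) :
    (jet ex1.gm x).L2 = ex1L √(ex1.κ + ss x) ∧ (jet ex1.gm x).scal = ex1S √(ex1.κ + ss x) := by
  have h := ex1_ok.eval' (x := x) (by linarith)
  have h' := ex1_vals ‖x‖ _ _ _ rfl (Real.one_le_sqrt.2 (by rwa [← ss_eq])) rfl rfl
  rw [h.1, h.2, h'.1, h'.2.1, ss_eq]
  exact ⟨rfl, rfl⟩

end H528GBC
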