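import Pool.Agent.H528Z.GbcFlux

set_option autoImplicit false
set_option linter.unusedSimpArgs false
set_option linter.unnecessarySeqFocus false
set_option linter.unusedTactic false
set_option linter.unreachableTactic false
set_option linter.unusedVariables false

namespace H528GBC

def ex2 : Fam := ⟨1, 0, 10, 5, 4, 4, 3⟩

lemma ex2_ok : ex2.Ok := by constructor <;> norm_num [ex2]

lemma ex2_pos (σ : ℝ) (h1 : 1 ≤ σ) : 0 < σ^4 + 10*σ^2 - 10 ∧ 0 < σ^3 + 5*σ^2 - 5 := by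
  obtain ⟨w, hw, rfl⟩ : ∃ w, 0 ≤ w ∧ σ = 1 + w := ⟨σ - 1, by linarith, by ring⟩
  refine ⟨?_, ?_⟩
  · have : (1+w)^4 + 10*(1+w)^2 - 10 = w^4 + 4*w^3 + 16*w^2 + 24*w + 1 := by ring
    rw [this]; positivity
  · have : (1+w)^3 + 5*(1+w)^2 - 5 = w^3 + 8*w^2 + 13*w + 1 := by ring
    rw [this]; positivity

lemma ex2_vals (r σ u v : ℝ) (hσ : √(ex2.κ + r ^ 2) = σ) (h1 : 1 ≤ σ)
    (hu : u = σ^4 + 10*σ^2 - 10) (hv : v = σ^3 + 5*σ^2 - 5) :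
    (std (ex2.par (r ^ 2)) r).L2 = (1500*σ^17 + 600*σ^16 - 56700*σ^15 + 263400*σ^14 +
      1520100*σ^13 + 5148000*σ^12 - 3634500*σ^11 - 5187000*σ^10 + 8658000*σ^9 - 46290000*σ^8 -
      16110000*σ^7 + 131610000*σ^6 + 13650000*σ^5 - 145500000*σ^4 - 4050000*σ^3 + 75000000*σ^2 -
      15000000) / (σ^6 * u^3 * v^2) ∧
    (std (ex2.par (r ^ 2)) r).scal = ((25/2)*σ^13 + 335*σ^12 + (4025/2)*σ^11 + 9675*σ^10 +
      (60775/2)*σ^9 - 58550*σ^8 - (190975/2)*σ^7 + 188450*σ^6 + 94500*σ^5 - 290000*σ^4 -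
      31125*σ^3 + 200000*σ^2 - 50000) / (σ^3 * u^2 * v^2) ∧
    r ^ 5 * (std (ex2.par (r ^ 2)) r).flux (dl0 0) = (-150*σ^12 + 2850*σ^10 + 7200*σ^9 +
      2850*σ^8 - 30600*σ^7 - 33150*σ^6 + 48600*σ^5 + 56100*σ^4 - 34200*σ^3 - 37500*σ^2 + 9000*σ
      + 9000) / (σ^1 * u^2 * v) := by
  have hs : r ^ 2 = σ ^ 2 - 1 := by
    rw [← hσ, Real.sq_sqrt (add_nonneg ex2_ok.hκ (sq_nonneg r))]; simp [ex2]
  have r4 : r ^ 4 = (σ ^ 2 - 1) ^ 2 := by rw [← hs]; ring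
  have r6 : r ^ 6 = (σ ^ 2 - 1) ^ 3 := by rw [← hs]; ring
  have hσ0 : σ ≠ 0 := by linarith
  obtain ⟨pu, pv⟩ := ex2_pos σ h1
  rw [← hu] at pu
  have nu := pu.ne'
  rw [← hv] at pv
  have nv := pv.ne'
  have ea := ex2_ok.par_a r
  have eb := ex2_ok.par_b r
  have eG : ex2.G (r ^ 2) = (1) := by
    simp only [Fam.G, Fam.t0, ph, hσ]; norm_num [ex2]
    try field_simp
  have eG1 : (ex2.par (r ^ 2)).G1 = (0) := by
    simp only [Fam.par, Fam.A, Fam.C, Fam.t0, Fam.t1, Fam.t2, ph, hσ]; norm_num [ex2]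
    try (field_simp; try ring)
  have eG2 : (ex2.par (r ^ 2)).G2 = (0) := by
    simp only [Fam.par, Fam.A, Fam.C, Fam.t0, Fam.t1, Fam.t2, ph, hσ]; norm_num [ex2]
    try (field_simp; try ring)
  have eA : (ex2.par (r ^ 2)).A = (10) / (σ^4) := by
    simp only [Fam.par, Fam.A, Fam.C, Fam.t0, Fam.t1, Fam.t2, ph, hσ]; norm_num [ex2]
    try (field_simp; try ring)
  have eA1 : (ex2.par (r ^ 2)).A1 = (-20) / (σ^6) := by
    simp only [Fam.par, Fam.A, Fam.C, Fam.t0, Fam.t1, Fam.t2, ph, hσ]; norm_num [ex2]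
    try (field_simp; try ring)
  have eA2 : (ex2.par (r ^ 2)).A2 = (60) / (σ^8) := by
    simp only [Fam.par, Fam.A, Fam.C, Fam.t0, Fam.t1, Fam.t2, ph, hσ]; norm_num [ex2]
    try (field_simp; try ring)
  have eC : (ex2.par (r ^ 2)).C = (5) / (σ^3) := by
    simp only [Fam.par, Fam.A, Fam.C, Fam.t0, Fam.t1, Fam.t2, ph, hσ]; norm_num [ex2]
    try (field_simp; try ring)
  have eC1 : (ex2.par (r ^ 2)).C1 = (-(15/2)) / (σ^5) := by
    simp only [Fam.par, Fam.A, Fam.C, Fam.t0, Fam.t1, Fam.t2, ph, hσ]; norm_num [ex2]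
    try (field_simp; try ring)
  have eC2 : (ex2.par (r ^ 2)).C2 = ((75/4)) / (σ^7) := by
    simp only [Fam.par, Fam.A, Fam.C, Fam.t0, Fam.t1, Fam.t2, ph, hσ]; norm_num [ex2]
    try (field_simp; try ring)
  have eA' : ex2.A (r ^ 2) = _ := eA
  have eC' : ex2.C (r ^ 2) = _ := eC
  have ec : (ex2.par (r ^ 2)).c = (1) := by
    change (ex2.G (r ^ 2))⁻¹ = _
    refine inv_eq_of_mul_eq_one_right ?_
    rw [eG]; field_simp
    try (subst hu hv; ring)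
  replace ea : (ex2.par (r ^ 2)).a r = (σ^4) / (u) := by
    rw [ea]; refine inv_eq_of_mul_eq_one_right ?_
    rw [eG, eA', hs]; field_simp; subst hu hv; ring
  replace eb : (ex2.par (r ^ 2)).b r = (σ^3) / (v) := by
    rw [eb]; refine inv_eq_of_mul_eq_one_right ?_
    rw [eG, eC', hs]; field_simp; subst hu hv; ring
  generalize ex2.par (r ^ 2) = p at *
  have ek1 : p.k1 r = (-(15/4)*σ^10 - (105/2)*σ^9 + (105/4)*σ^8 + (675/2)*σ^7 + (2175/4)*σ^6 -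
      525*σ^5 - (6975/4)*σ^4 + 225*σ^3 + 1750*σ^2 - (1125/2)) / (σ^7 * u * v) := by
    simp only [Par.k1, ea, eb, ec, eG1, eG2, eA, eA1, eA2, eC, eC1, eC2, hs, r4, r6]
    field_simp
    try (subst hu hv; ring)
  have ek2 : p.k2 r = (-10*σ^2 + 20) / (σ^2 * u) := by
    simp only [Par.k2, ea, eb, ec, eG1, eG2, eA, eA1, eA2, eC, eC1, eC2, hs, r4, r6]
    field_simp
    try (subst hu hv; ring)
  have ek3 : p.k3 r = ((15/2)*σ^7 + 35*σ^6 + (185/2)*σ^5 + 225*σ^4 - 100*σ^3 - 500*σ^2 + 250) /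
      (σ^6 * u) := by
    simp only [Par.k3, ea, eb, ec, eG1, eG2, eA, eA1, eA2, eC, eC1, eC2, hs, r4, r6]
    field_simp
    try (subst hu hv; ring)
  have ek4 : p.k4 r = ((5/2)*σ^2 - (15/2)) / (σ^5) := by
    simp only [Par.k4, ea, eb, ec, eG1, eG2, eA, eA1, eA2, eC, eC1, eC2, hs, r4, r6]
    field_simp
    try (subst hu hv; ring)
  have ek5 : p.k5 r = (10) / (u) := by
    simp only [Par.k5, ea, eb, ec, eG1, eG2, eA, eA1, eA2, eC, eC1, eC2, hs, r4, r6]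
    field_simp
    try (subst hu hv; ring)
  have ek6 : p.k6 r = (-5) / (σ^3) := by
    simp only [Par.k6, ea, eb, ec, eG1, eG2, eA, eA1, eA2, eC, eC1, eC2, hs, r4, r6]
    field_simp
    try (subst hu hv; ring)
  rw [std_L2, std_scal, flux5]
  simp only [ea, eb, ec, eG1, eG2, eA, eA1, eA2, eC, eC1, eC2, hs, ek1, ek2, ek3, ek4, ek5, ek6]
  refine ⟨?_, ?_, ?_⟩ <;> (field_simp; subst hu hv; ring)

noncomputable def ex2L (σ : ℝ) : ℝ := (1500*σ^17 + 600*σ^16 - 56700*σ^15 + 263400*σ^14 +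
    1520100*σ^13 + 5148000*σ^12 - 3634500*σ^11 - 5187000*σ^10 + 8658000*σ^9 - 46290000*σ^8 -
    16110000*σ^7 + 131610000*σ^6 + 13650000*σ^5 - 145500000*σ^4 - 4050000*σ^3 + 75000000*σ^2 -
    15000000) / (σ^6 * (σ^4 + 10*σ^2 - 10)^3 * (σ^3 + 5*σ^2 - 5)^2)

noncomputable def ex2S (σ : ℝ) : ℝ := ((25/2)*σ^13 + 335*σ^12 + (4025/2)*σ^11 + 9675*σ^10 +
    (60775/2)*σ^9 - 58550*σ^8 - (190975/2)*σ^7 + 188450*σ^6 + 94500*σ^5 - 290000*σ^4 - 31125*σ^3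
    + 200000*σ^2 - 50000) / (σ^3 * (σ^4 + 10*σ^2 - 10)^2 * (σ^3 + 5*σ^2 - 5)^2)

lemma ex2L_pos (σ : ℝ) (h1 : 1 ≤ σ) : 0 < ex2L σ := by
  obtain ⟨pu, pv⟩ := ex2_pos σ h1
  refine div_pos ?_ (by positivity)
  obtain ⟨w, hw, rfl⟩ : ∃ w, 0 ≤ w ∧ σ = 1 + w := ⟨σ - 1, by linarith, by ring⟩
  have : 1500*(1+w)^17 + 600*(1+w)^16 - 56700*(1+w)^15 + 263400*(1+w)^14 + 1520100*(1+w)^13 +
      5148000*(1+w)^12 - 3634500*(1+w)^11 - 5187000*(1+w)^10 + 8658000*(1+w)^9 -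
      46290000*(1+w)^8 - 16110000*(1+w)^7 + 131610000*(1+w)^6 + 13650000*(1+w)^5 -
      145500000*(1+w)^4 - 4050000*(1+w)^3 + 75000000*(1+w)^2 - 15000000 = 1500*w^17 + 26100*w^16
      + 156900*w^15 + 504900*w^14 + 3160200*w^13 + 33454200*w^12 + 216376200*w^11 +
      856720200*w^10 + 2263194300*w^9 + 4173465900*w^8 + 5364300900*w^7 + 4577402100*w^6 +
      2379949200*w^5 + 721064400*w^4 + 170443200*w^3 + 21073200*w^2 + 1152000*w + 23400 := by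
      ring
  rw [this]; positivity

lemma ex2S_pos (σ : ℝ) (h1 : 1 ≤ σ) : 0 < ex2S σ := by
  obtain ⟨pu, pv⟩ := ex2_pos σ h1
  refine div_pos ?_ (by positivity)
  obtain ⟨w, hw, rfl⟩ : ∃ w, 0 ≤ w ∧ σ = 1 + w := ⟨σ - 1, by linarith, by ring⟩
  have : (25/2)*(1+w)^13 + 335*(1+w)^12 + (4025/2)*(1+w)^11 + 9675*(1+w)^10 + (60775/2)*(1+w)^9
      - 58550*(1+w)^8 - (190975/2)*(1+w)^7 + 188450*(1+w)^6 + 94500*(1+w)^5 - 290000*(1+w)^4 -
      31125*(1+w)^3 + 200000*(1+w)^2 - 50000 = (25/2)*w^13 + (995/2)*w^12 + (14015/2)*w^11 +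
      (114995/2)*w^10 + (640925/2)*w^9 + (2328575/2)*w^8 + (5283915/2)*w^7 + (7451405/2)*w^6 +
      3419270*w^5 + 2268150*w^4 + 1024900*w^3 + 156835*w^2 + 9570*w + 210 := by ring
  rw [this]; positivity

lemma ex2L_bd (σ : ℝ) (h1 : 1 ≤ σ) : |ex2L σ| * σ ^ 7 ≤ 32768 := by
  rw [abs_of_pos (ex2L_pos σ h1), ex2L, div_mul_eq_mul_div]
  obtain ⟨pu, pv⟩ := ex2_pos σ h1
  rw [div_le_iff₀ (by positivity), ← sub_nonneg]
  obtain ⟨w, hw, rfl⟩ : ∃ w, 0 ≤ w ∧ σ = 1 + w := ⟨σ - 1, by linarith, by ring⟩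
  refine le_of_le_of_eq (?_ : 0 ≤ 31268*w^24 + 1077512*w^23 + 18011748*w^22 + 196173672*w^21 +
      1565218168*w^20 + 9707125672*w^19 + 48437229448*w^18 + 198620457992*w^17 +
      677377589088*w^16 + 1930983451872*w^15 + 4598165332408*w^14 + 9095036564272*w^13 +
      14793062743488*w^12 + 19511126499232*w^11 + 20506417138608*w^10 + 16811942177872*w^9 +
      10468698827748*w^8 + 4781645139992*w^7 + 1527594188388*w^6 + 319674839272*w^5 +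
      40428327368*w^4 + 2944777912*w^3 + 115730248*w^2 + 2092072*w + 9368) (by ring)
  positivity

lemma ex2L_meas : Measurable ex2L := by unfold ex2L; fun_prop

noncomputable def ex2F (t : ℝ) : ℝ := (9000*t^12 + 9000*t^11 - 37500*t^10 - 34200*t^9 +
    56100*t^8 + 48600*t^7 - 33150*t^6 - 30600*t^5 + 2850*t^4 + 7200*t^3 + 2850*t^2 - 150) /
    ((-10*t^4 + 10*t^2 + 1)^2 * (-5*t^3 + 5*t + 1)^1)

lemma ex2F_zero : ex2F 0 = -150 := by norm_num [ex2F]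

lemma ex2F_cont : ContinuousAt ex2F 0 := by
  unfold ex2F
  exact ContinuousAt.div (by fun_prop) (by fun_prop) (by norm_num)

lemma ex2_mass : HasMass ex2.gm (ex2F 0 / 120) := by
  refine ex2_ok.hasMass ex2F_cont fun r hr => ?_
  have h1 : 1 ≤ √(ex2.κ + r ^ 2) := Real.one_le_sqrt.2 (by have := ex2_ok.hκ; nlinarith)
  generalize hσ : √(ex2.κ + r ^ 2) = σ at *
  obtain ⟨pu, pv⟩ := ex2_pos σ h1
  rw [(ex2_vals r σ _ _ hσ h1 rfl rfl).2.2, ex2F]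
  have hσ0 : σ ≠ 0 := by linarith
  have eu : -10*σ⁻¹^4 + 10*σ⁻¹^2 + 1 = (σ^4 + 10*σ^2 - 10) / σ^4 := by field_simp; ring
  have ev : -5*σ⁻¹^3 + 5*σ⁻¹ + 1 = (σ^3 + 5*σ^2 - 5) / σ^3 := by field_simp; ring
  rw [eu, ev]
  generalize σ^4 + 10*σ^2 - 10 = u at *
  have nu := pu.ne'
  generalize σ^3 + 5*σ^2 - 5 = v at *
  have nv := pv.ne'
  field_simp
  try ring

lemma ex2_eval (x : E 6) (hx : 1 ≤ ex2.κ + ss x) :
    (jet ex2.gm x).L2 = ex2L √(ex2.κ + ss x) ∧ (jet ex2.gm x).scal = ex2S √(ex2.κ + ss x) := by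
  have h := ex2_ok.eval' (x := x) (by linarith)
  have h' := ex2_vals ‖x‖ _ _ _ rfl (Real.one_le_sqrt.2 (by rwa [← ss_eq])) rfl rfl
  rw [h.1, h.2, h'.1, h'.2.1, ss_eq]
  exact ⟨rfl, rfl⟩

end H528GBC
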