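import Pool.Agent.H528Z.GbcSum

set_option autoImplicit false
set_option linter.unusedSimpArgs false
set_option linter.unnecessarySeqFocus false
set_option linter.unusedTactic false
set_option linter.unreachableTactic false

open scoped ContDiff
open Filter Topology

namespace H528GBC

def dot (u v : V 6) : ℝ := ∑ i, u i * v i
def Jv (u : V 6) : V 6 := fun i => ∑ k, u k * jm0 k i

lemma dl0_eq (i j : Fin 6) : dl0 i j = if i = j then 1 else 0 := by
  fin_cases i <;> fin_cases j <;> rfl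

lemma Jv_eq (u : V 6) : Jv u 0 = -u 1 ∧ Jv u 1 = u 0 ∧ Jv u 2 = -u 3 ∧ Jv u 3 = u 2 ∧
    Jv u 4 = -u 5 ∧ Jv u 5 = u 4 := by
  simp [Jv, Fin.sum_univ_six, tabj]

lemma dot_comm (u v : V 6) : dot u v = dot v u := by simp [dot, mul_comm]
lemma dJr (u v : V 6) : dot u (Jv v) = -dot (Jv u) v := by
  simp only [dot, Fin.sum_univ_six, Jv_eq]; ring
lemma dJJ (u v : V 6) : dot (Jv (Jv u)) v = -dot u v := by
  simp only [dot, Fin.sum_univ_six, Jv_eq]; ring
lemma dJJJ (u v : V 6) : dot (Jv (Jv (Jv u))) v = -dot (Jv u) v := dJJ _ _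
lemma dJs (u : V 6) : dot (Jv u) u = 0 := by
  simp only [dot, Fin.sum_univ_six, Jv_eq]; ring
lemma dot_ee (u : V 6) (i : Fin 6) : dot u (ee i) = u i := by simp [dot, ee, Pi.single_apply]
lemma ee_apply (i j : Fin 6) : ee i j = dl0 i j := by simp [ee, dl0_eq, Pi.single_apply, eq_comm]
lemma Jv_ee (k i : Fin 6) : Jv (ee k) i = jm0 k i := by simp [Jv, ee, Pi.single_apply]

lemma lin_r (u : V 6) : Lin (fun v => dot u v) := fun v => by
  simp only [dot_ee]; simp [dot, mul_comm]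
lemma lin_l (u : V 6) : Lin (fun v => dot v u) := by simpa only [dot_comm u] using lin_r u
lemma lin_J (u : V 6) : Lin (fun v => dot (Jv v) u) := by
  have : (fun v => dot (Jv v) u) = fun v => (-1) * dot v (Jv u) := by
    funext v; rw [dJr]; ring
  rw [this]; exact (lin_l _).mull _

noncomputable def WJ (p : Par) (x : V 6) : VJet 6 where
  Gi u v := p.c * dot u v + p.pa * dot x u * dot x v + p.pb * dot (Jv x) u * dot (Jv x) v
  D1 k i j := 2 * p.G1 * dot x k * dot i j + 2 * p.A1 * dot x k * dot x i * dot x j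
    + p.A * (dot k i * dot x j + dot x i * dot k j) + 2 * p.C1 * dot x k * dot (Jv x) i * dot (Jv x) j
    + p.C * (dot (Jv k) i * dot (Jv x) j + dot (Jv x) i * dot (Jv k) j)
  D2 l k i j := 4 * p.G2 * dot x l * dot x k * dot i j + 2 * p.G1 * dot l k * dot i j
    + 4 * p.A2 * dot x l * dot x k * dot x i * dot x j
    + 2 * p.A1 * (dot l k * dot x i * dot x j + dot x k * dot l i * dot x j
      + dot x k * dot x i * dot l j)
    + 2 * p.A1 * dot x l * (dot k i * dot x j + dot x i * dot k j)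
    + p.A * (dot k i * dot l j + dot l i * dot k j)
    + 4 * p.C2 * dot x l * dot x k * dot (Jv x) i * dot (Jv x) j
    + 2 * p.C1 * (dot l k * dot (Jv x) i * dot (Jv x) j + dot x k * dot (Jv l) i * dot (Jv x) j
      + dot x k * dot (Jv x) i * dot (Jv l) j)
    + 2 * p.C1 * dot x l * (dot (Jv k) i * dot (Jv x) j + dot (Jv x) i * dot (Jv k) j)
    + p.C * (dot (Jv k) i * dot (Jv l) j + dot (Jv l) i * dot (Jv k) j)
  hG := by
    constructor <;> intros <;>
      repeat' (first | exact lin_r _ | exact lin_l _ | exact lin_J _ | apply Lin.add | apply Lin.mulr | apply Lin.mull)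
  h1 := by
    constructor <;> intros <;>
      repeat' (first | exact lin_r _ | exact lin_l _ | exact lin_J _ | apply Lin.add | apply Lin.mulr | apply Lin.mull)
  h2 := by
    constructor <;> intros <;>
      repeat' (first | exact lin_r _ | exact lin_l _ | exact lin_J _ | apply Lin.add | apply Lin.mulr | apply Lin.mull)

lemma WJ_fr (p : Par) (x : V 6) (q : Fin 6 → V 6) : (WJ p x).fr q =
    mkJet p (fun i => dot x (q i)) (fun i => dot (Jv x) (q i)) (fun i j => dot (q i) (q j))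
      (fun k i => dot (Jv (q k)) (q i)) := rfl

lemma WJ_ee (p : Par) (x : V 6) : (WJ p x).fr ee = mkJet p x (Jv x) dl0 jm0 := by
  rw [WJ_fr]; simp only [dot_ee, ee_apply, Jv_ee]

lemma exists_perp (a b c d : V 6) :
    ∃ w : V 6, dot w w = 1 ∧ dot a w = 0 ∧ dot b w = 0 ∧ dot c w = 0 ∧ dot d w = 0 := by
  let M : Matrix (Fin 4) (Fin 6) ℝ := Matrix.of ![a, b, c, d]
  have h : LinearMap.ker (Matrix.toLin' M) ≠ ⊥ :=
    LinearMap.ker_ne_bot_of_finrank_lt (by simp)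
  obtain ⟨v, hv, hv0⟩ := Submodule.exists_mem_ne_zero_of_ne_bot h
  have hv' : M.mulVec v = 0 := by simpa using hv
  have h0 : dot a v = 0 := congrFun hv' 0
  have h1 : dot b v = 0 := congrFun hv' 1
  have h2 : dot c v = 0 := congrFun hv' 2
  have h3 : dot d v = 0 := congrFun hv' 3
  have hp : 0 < dot v v := by
    have : 0 ≤ dot v v := Finset.sum_nonneg fun i _ => mul_self_nonneg _
    refine lt_of_le_of_ne this fun h => hv0 ?_
    funext i
    have := (Finset.sum_eq_zero_iff_of_nonneg (fun i _ => mul_self_nonneg (v i))).1 h.symm i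
      (Finset.mem_univ _)
    exact mul_self_eq_zero.1 this
  have key : ∀ z : V 6, dot z (fun i => (√(dot v v))⁻¹ * v i) = (√(dot v v))⁻¹ * dot z v := by
    intro z; simp only [dot, Finset.mul_sum]
    exact Finset.sum_congr rfl fun i _ => by ring
  refine ⟨fun i => (√(dot v v))⁻¹ * v i, ?_, by rw [key, h0, mul_zero], by rw [key, h1, mul_zero],
    by rw [key, h2, mul_zero], by rw [key, h3, mul_zero]⟩
  rw [key, dot_comm (fun i => (√(dot v v))⁻¹ * v i) v, key, ← mul_assoc, ← mul_inv, Real.mul_self_sqrt hp.le, inv_mul_cancel₀ hp.ne']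

lemma exists_frame (u : V 6) (hu : dot u u = 1) : ∃ q : Fin 6 → V 6, Frame q ∧ q 0 = u ∧
    q 1 = Jv u ∧ (∀ i j, dot (q i) (q j) = dl0 i j) ∧ ∀ k i, dot (Jv (q k)) (q i) = jm0 k i := by
  obtain ⟨v, hv, a1, a2, -, -⟩ := exists_perp u (Jv u) u u
  obtain ⟨w, hw, b1, b2, b3, b4⟩ := exists_perp u (Jv u) v (Jv v)
  have a1' : dot v u = 0 := by rw [dot_comm, a1]
  have a2' : dot (Jv v) u = 0 := by rw [dot_comm, dJr, a2, neg_zero]
  have b1' : dot w u = 0 := by rw [dot_comm, b1]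
  have b2' : dot (Jv w) u = 0 := by rw [dot_comm, dJr, b2, neg_zero]
  have b3' : dot w v = 0 := by rw [dot_comm, b3]
  have b4' : dot (Jv w) v = 0 := by rw [dot_comm, dJr, b4, neg_zero]
  have hg : ∀ i j, dot (![u, Jv u, v, Jv v, w, Jv w] i) (![u, Jv u, v, Jv v, w, Jv w] j) = dl0 i j := by
    intro i j
    fin_cases i <;> fin_cases j <;>
      simp [dl0, dJr, dJJ, dJs, hu, hv, hw, a1, a2, b1, b2, b3, b4, a1', a2', b1', b2', b3', b4']
  refine ⟨![u, Jv u, v, Jv v, w, Jv w], ?_, rfl, rfl, hg, ?_⟩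
  · let Q : Matrix (Fin 6) (Fin 6) ℝ := Matrix.of ![u, Jv u, v, Jv v, w, Jv w]
    have h1 : Q * Q.transpose = 1 := by
      ext i j
      rw [Matrix.one_apply, ← dl0_eq, ← hg]; rfl
    have h2 := mul_eq_one_comm.1 h1
    intro a b
    rw [← Matrix.one_apply, ← h2]; rfl
  · intro i j
    fin_cases i <;> fin_cases j <;>
      simp [jm0, dJr, dJJ, dJs, hu, hv, hw, a1, a2, b1, b2, b3, b4, a1', a2', b1', b2', b3', b4']

lemma dot_smul (r : ℝ) (u v : V 6) : dot (fun i => r * u i) v = r * dot u v := by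
  simp only [dot, Finset.mul_sum, mul_assoc]

lemma Jv_smul (r : ℝ) (u : V 6) : Jv (fun i => r * u i) = fun i => r * Jv u i := by
  funext i; simp only [Jv, Finset.mul_sum, mul_assoc]

lemma eval_std (p : Par) (r : ℝ) (u : V 6) (hu : dot u u = 1) :
    (mkJet p (fun i => r * u i) (Jv fun i => r * u i) dl0 jm0).L2 = (std p r).L2 ∧
    (mkJet p (fun i => r * u i) (Jv fun i => r * u i) dl0 jm0).scal = (std p r).scal ∧
    (mkJet p (fun i => r * u i) (Jv fun i => r * u i) dl0 jm0).flux u = (std p r).flux (dl0 0) := by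
  obtain ⟨q, hq, h0, h1, hg, hj⟩ := exists_frame u hu
  have e : (WJ p (fun i => r * u i)).fr q = std p r := by
    rw [WJ_fr]
    simp only [hg, hj, Jv_smul, dot_smul]
    rw [← h1, ← h0]
    simp only [hg, std]
    congr 1 <;> funext i <;> fin_cases i <;> simp [xs0, ys0, dl0]
  rw [← WJ_ee, ← e]
  refine ⟨((WJ p _).L2_fr hq).symm, ((WJ p _).scal_fr' hq).symm, ?_⟩
  have := (WJ p (fun i => r * u i)).flux_fr hq (lin_r u)
  simp only [dot_ee] at this
  rw [← this]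
  congr 1
  funext i
  rw [← hg, h0]

/-! ### calculus -/

def HasPD (f : E 6 → ℝ) (x : E 6) (v : Fin 6 → ℝ) : Prop :=
  ∃ L : E 6 →L[ℝ] ℝ, HasFDerivAt f L x ∧ ∀ k, L (EuclideanSpace.single k 1) = v k

namespace HasPD
variable {f g : E 6 → ℝ} {x : E 6} {u v : Fin 6 → ℝ}

lemma pd_eq (h : HasPD f x u) (k : Fin 6) : pd k f x = u k := by
  obtain ⟨L, hL, h⟩ := h
  rw [pd, hL.fderiv, h]

lemma add (hf : HasPD f x u) (hg : HasPD g x v) :
    HasPD (fun y => f y + g y) x (fun k => u k + v k) := by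
  obtain ⟨L, hL, h⟩ := hf
  obtain ⟨M, hM, h'⟩ := hg
  exact ⟨L + M, hL.add hM, fun k => by simp [h, h']⟩

lemma mul (hf : HasPD f x u) (hg : HasPD g x v) :
    HasPD (fun y => f y * g y) x (fun k => u k * g x + f x * v k) := by
  obtain ⟨L, hL, h⟩ := hf
  obtain ⟨M, hM, h'⟩ := hg
  exact ⟨_, hL.mul hM, fun k => by simp [h, h']; ring⟩

lemma const (c : ℝ) : HasPD (fun _ => c) x (fun _ => 0) :=
  ⟨0, hasFDerivAt_const c x, fun _ => rfl⟩

lemma coord (i : Fin 6) : HasPD (fun y => y i) x (fun k => dl0 k i) :=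
  ⟨EuclideanSpace.proj i, (EuclideanSpace.proj i : E 6 →L[ℝ] ℝ).hasFDerivAt, fun k => by
    simp [dl0_eq, eq_comm]⟩

lemma congr (hf : HasPD f x u) (h : ∀ k, u k = v k) : HasPD f x v := by
  rwa [show v = u from funext fun k => (h k).symm]

lemma sum {F : Fin 6 → E 6 → ℝ} {U : Fin 6 → Fin 6 → ℝ} (h : ∀ i, HasPD (F i) x (U i)) :
    HasPD (fun y => ∑ i, F i y) x (fun k => ∑ i, U i k) := by
  simp only [Fin.sum_univ_six]
  exact (((((h 0).add (h 1)).add (h 2)).add (h 3)).add (h 4)).add (h 5)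

lemma J (i : Fin 6) : HasPD (fun y => Jv (fun k => y k) i) x (fun k => jm0 k i) :=
  (HasPD.sum fun l => (coord l).mul (const (jm0 l i))).congr fun k => by
    simp [dl0_eq]

end HasPD

def ss (x : E 6) : ℝ := dot (fun i => x i) (fun i => x i)

lemma ss_eq (x : E 6) : ss x = ‖x‖ ^ 2 := by
  rw [EuclideanSpace.norm_sq_eq]; simp [ss, dot, sq]

lemma HasPD.comp_ss {φ : ℝ → ℝ} {φ' : ℝ} {x : E 6} (h : HasDerivAt φ φ' (ss x)) :
    HasPD (fun y => φ (ss y)) x (fun k => φ' * (2 * x k)) := by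
  have h1 : HasPD ss x (fun k => 2 * x k) :=
    (HasPD.sum fun l => (HasPD.coord l).mul (HasPD.coord l)).congr fun k => by
      simp [dl0_eq, Finset.sum_add_distrib]; ring
  obtain ⟨L, hL, h'⟩ := h1
  exact ⟨_, h.comp_hasFDerivAt x hL, fun k => by simp [h']⟩

noncomputable def ph (κ : ℝ) (m : ℕ) (s : ℝ) : ℝ := ((√(κ + s)) ^ m)⁻¹

lemma ph_deriv (κ : ℝ) (m : ℕ) {s : ℝ} (h : 0 < κ + s) :
    HasDerivAt (ph κ m) (-(m / 2) * ph κ (m + 2) s) s := by
  have hp : 0 < √(κ + s) := Real.sqrt_pos.2 h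
  have h1 : HasDerivAt (fun s => √(κ + s)) (1 / (2 * √(κ + s))) s := by
    simpa using ((hasDerivAt_id s).const_add κ).sqrt h.ne'
  have h2 := (h1.fun_pow m).fun_inv (pow_ne_zero m hp.ne')
  refine HasDerivAt.congr_deriv h2 ?_
  unfold ph
  rcases m with _ | m
  · simp
  · simp only [Nat.add_sub_cancel]
    field_simp
    ring

structure Fam where
  κ : ℝ
  g0 : ℝ
  a0 : ℝ
  c0 : ℝ
  mG : ℕ
  mA : ℕ
  mC : ℕ

namespace Fam
variable (F : Fam)

noncomputable def t0 (c : ℝ) (m : ℕ) (s : ℝ) : ℝ := c * ph F.κ m s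
noncomputable def t1 (c : ℝ) (m : ℕ) (s : ℝ) : ℝ := c * (-(m / 2) * ph F.κ (m + 2) s)
noncomputable def t2 (c : ℝ) (m : ℕ) (s : ℝ) : ℝ :=
  c * (-(m / 2) * (-((m + 2 : ℕ) / 2) * ph F.κ (m + 2 + 2) s))

lemma t0_deriv (c : ℝ) (m : ℕ) {s : ℝ} (h : 0 < F.κ + s) : HasDerivAt (F.t0 c m) (F.t1 c m s) s :=
  (ph_deriv F.κ m h).const_mul c

lemma t1_deriv (c : ℝ) (m : ℕ) {s : ℝ} (h : 0 < F.κ + s) : HasDerivAt (F.t1 c m) (F.t2 c m s) s :=
  ((ph_deriv F.κ (m + 2) h).const_mul _).const_mul c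

noncomputable def G (s : ℝ) : ℝ := 1 + F.t0 F.g0 F.mG s
noncomputable def A (s : ℝ) : ℝ := F.t0 F.a0 F.mA s
noncomputable def C (s : ℝ) : ℝ := F.t0 F.c0 F.mC s

noncomputable def gm (x : E 6) : Matrix (Fin 6) (Fin 6) ℝ := Matrix.of fun i j =>
  F.G (ss x) * dl0 i j + F.A (ss x) * x i * x j
    + F.C (ss x) * Jv (fun k => x k) i * Jv (fun k => x k) j

noncomputable def par (s : ℝ) : Par where
  G1 := F.t1 F.g0 F.mG s
  G2 := F.t2 F.g0 F.mG s
  A := F.A s
  A1 := F.t1 F.a0 F.mA s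
  A2 := F.t2 F.a0 F.mA s
  C := F.C s
  C1 := F.t1 F.c0 F.mC s
  C2 := F.t2 F.c0 F.mC s
  c := (F.G s)⁻¹
  pa := - F.A s / (F.G s * (F.G s + s * F.A s))
  pb := - F.C s / (F.G s * (F.G s + s * F.C s))

noncomputable def jj (x : E 6) : Jet 6 :=
  mkJet (F.par (ss x)) (fun i => x i) (Jv fun i => x i) dl0 jm0

lemma d1_eq {x : E 6} (h : 0 < F.κ + ss x) (k i j : Fin 6) :
    pd k (fun y => F.gm y i j) x = (F.jj x).d1 k i j := by
  have hG : HasPD (fun y => F.G (ss y)) x _ :=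
    HasPD.comp_ss ((F.t0_deriv F.g0 F.mG h).const_add 1)
  have hA : HasPD (fun y => F.A (ss y)) x _ := HasPD.comp_ss (F.t0_deriv F.a0 F.mA h)
  have hC : HasPD (fun y => F.C (ss y)) x _ := HasPD.comp_ss (F.t0_deriv F.c0 F.mC h)
  have := (((hG.mul (HasPD.const (dl0 i j))).add
    ((hA.mul (HasPD.coord i)).mul (HasPD.coord j))).add
    ((hC.mul (HasPD.J i)).mul (HasPD.J j))).pd_eq k
  refine this.trans ?_
  simp only [jj, mkJet, par]
  ring

lemma cont_ss : Continuous ss := by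
  have : ss = fun x => ‖x‖ ^ 2 := funext ss_eq
  rw [this]; fun_prop

lemma d2_eq {x : E 6} (h : 0 < F.κ + ss x) (l k i j : Fin 6) :
    pd l (pd k (fun y => F.gm y i j)) x = (F.jj x).d2 l k i j := by
  have ev : pd k (fun y => F.gm y i j) =ᶠ[𝓝 x] fun y => (F.jj y).d1 k i j := by
    have : ∀ᶠ y in 𝓝 x, 0 < F.κ + ss y :=
      (continuous_const.add cont_ss).continuousAt.eventually (lt_mem_nhds h)
    exact this.mono fun y hy => F.d1_eq hy k i j
  have e1 : pd l (pd k (fun y => F.gm y i j)) x = pd l (fun y => (F.jj y).d1 k i j) x := by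
    unfold pd at ev ⊢
    rw [ev.fderiv_eq]
  rw [e1]
  have hG : HasPD (fun y => F.t1 F.g0 F.mG (ss y)) x _ := HasPD.comp_ss (F.t1_deriv F.g0 F.mG h)
  have hA : HasPD (fun y => F.A (ss y)) x _ := HasPD.comp_ss (F.t0_deriv F.a0 F.mA h)
  have hC : HasPD (fun y => F.C (ss y)) x _ := HasPD.comp_ss (F.t0_deriv F.c0 F.mC h)
  have hA1 : HasPD (fun y => F.t1 F.a0 F.mA (ss y)) x _ := HasPD.comp_ss (F.t1_deriv F.a0 F.mA h)
  have hC1 : HasPD (fun y => F.t1 F.c0 F.mC (ss y)) x _ := HasPD.comp_ss (F.t1_deriv F.c0 F.mC h)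
  have c2 : HasPD (fun _ => (2 : ℝ)) x _ := HasPD.const 2
  have := ((((((c2.mul hG).mul (HasPD.coord k)).mul (HasPD.const (dl0 i j))).add
    ((((c2.mul hA1).mul (HasPD.coord k)).mul (HasPD.coord i)).mul (HasPD.coord j))).add
    (hA.mul (((HasPD.const (dl0 k i)).mul (HasPD.coord j)).add
      ((HasPD.coord i).mul (HasPD.const (dl0 k j)))))).add
    ((((c2.mul hC1).mul (HasPD.coord k)).mul (HasPD.J i)).mul (HasPD.J j))).add
    (hC.mul (((HasPD.const (jm0 k i)).mul (HasPD.J j)).add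
      ((HasPD.J i).mul (HasPD.const (jm0 k j))))) |>.pd_eq l
  refine this.trans ?_
  simp only [jj, mkJet, par]
  ring

structure Ok : Prop where
  hκ : 0 ≤ F.κ
  hg : 0 ≤ F.g0
  ha : 0 ≤ F.a0
  hc : 0 ≤ F.c0

variable {F}

lemma ph_nonneg (κ : ℝ) (m : ℕ) (s : ℝ) : 0 ≤ ph κ m s := by unfold ph; positivity

lemma Ok.G_ge (h : F.Ok) (s : ℝ) : 1 ≤ F.G s := by
  have := mul_nonneg h.hg (ph_nonneg F.κ F.mG s)
  unfold G t0; linarith
lemma Ok.A_ge (h : F.Ok) (s : ℝ) : 0 ≤ F.A s := mul_nonneg h.ha (ph_nonneg _ _ _)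
lemma Ok.C_ge (h : F.Ok) (s : ℝ) : 0 ≤ F.C s := mul_nonneg h.hc (ph_nonneg _ _ _)

lemma ss_nonneg (x : E 6) : 0 ≤ ss x := by rw [ss_eq]; positivity

lemma Ok.gi_eq (h : F.Ok) (x : E 6) (i j : Fin 6) : (F.gm x)⁻¹ i j = (F.jj x).gi i j := by
  have hG := h.G_ge (ss x)
  have hA := mul_nonneg (ss_nonneg x) (h.A_ge (ss x))
  have hC := mul_nonneg (ss_nonneg x) (h.C_ge (ss x))
  have : (F.gm x)⁻¹ = Matrix.of (F.jj x).gi := by
    apply Matrix.inv_eq_right_inv
    ext i j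
    have e1 : ∑ k, x k * x k = ss x := rfl
    have e2 : ∑ k, Jv (fun k => x k) k * Jv (fun k => x k) k = ss x := by
      have := dJr (Jv fun k => x k) (fun k => x k)
      rw [dJJ, neg_neg] at this; exact this
    have e3 : ∑ k, Jv (fun k => x k) k * x k = 0 := dJs (fun k => x k)
    have key : ∀ k, F.gm x i k * (F.jj x).gi k j =
        (if i = k then F.G (ss x) * (F.jj x).gi k j else 0)
        + (if k = j then (F.A (ss x) * x i * x k
            + F.C (ss x) * Jv (fun k => x k) i * Jv (fun k => x k) k) * (F.par (ss x)).c else 0)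
        + (F.A (ss x) * x i * (F.par (ss x)).pa * x j) * (x k * x k)
        + (F.C (ss x) * Jv (fun k => x k) i * (F.par (ss x)).pb * Jv (fun k => x k) j)
          * (Jv (fun k => x k) k * Jv (fun k => x k) k)
        + (F.A (ss x) * x i * (F.par (ss x)).pb * Jv (fun k => x k) j
          + F.C (ss x) * Jv (fun k => x k) i * (F.par (ss x)).pa * x j)
          * (Jv (fun k => x k) k * x k) := by
      intro k
      simp only [gm, Matrix.of_apply, jj, mkJet, dl0_eq]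
      split_ifs <;> ring
    rw [Matrix.mul_apply]
    simp only [Matrix.of_apply, key, Finset.sum_add_distrib, ← Finset.mul_sum, e1, e2, e3,
      Finset.sum_ite_eq, Finset.sum_ite_eq', Finset.mem_univ, if_true]
    simp only [jj, mkJet, par, dl0_eq, Matrix.one_apply]
    have h1 : F.G (ss x) ≠ 0 := by linarith
    have h2 : F.G (ss x) + ss x * F.A (ss x) ≠ 0 := by linarith
    have h3 : F.G (ss x) + ss x * F.C (ss x) ≠ 0 := by linarith
    have h4 : F.G (ss x) + F.A (ss x) * ss x ≠ 0 := by linarith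
    have h5 : F.G (ss x) + F.C (ss x) * ss x ≠ 0 := by linarith
    split_ifs <;> field_simp <;> ring
  rw [this]; rfl

lemma Ok.jet_eq (h : F.Ok) {x : E 6} (hx : 0 < F.κ + ss x) : jet F.gm x = F.jj x := by
  unfold jet
  simp only [h.gi_eq, F.d1_eq hx, F.d2_eq hx]

lemma Ok.eval (h : F.Ok) (r : ℝ) (u : E 6) (hu : ‖u‖ = 1) (hx : 0 < F.κ + r ^ 2) :
    (jet F.gm (r • u)).L2 = (std (F.par (r ^ 2)) r).L2 ∧
    (jet F.gm (r • u)).scal = (std (F.par (r ^ 2)) r).scal ∧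
    (jet F.gm (r • u)).flux (fun i => u i) = (std (F.par (r ^ 2)) r).flux (dl0 0) := by
  have hs : ss (r • u) = r ^ 2 := by rw [ss_eq, norm_smul, hu]; simp
  have hu' : dot (fun i => u i) (fun i => u i) = 1 := by
    have := ss_eq u; rw [hu] at this; simpa [ss] using this
  rw [h.jet_eq (by rw [hs]; exact hx), jj, hs]
  exact eval_std (F.par (r ^ 2)) r (fun i => u i) hu'

lemma Ok.par_a (h : F.Ok) (r : ℝ) : (F.par (r ^ 2)).a r = (F.G (r ^ 2) + r ^ 2 * F.A (r ^ 2))⁻¹ := by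
  have hG := h.G_ge (r ^ 2)
  have hA := mul_nonneg (sq_nonneg r) (h.A_ge (r ^ 2))
  have h1 : F.G (r ^ 2) ≠ 0 := by linarith
  have h2 : F.G (r ^ 2) + r ^ 2 * F.A (r ^ 2) ≠ 0 := by linarith
  simp only [Par.a, par]; field_simp; ring

lemma Ok.par_b (h : F.Ok) (r : ℝ) : (F.par (r ^ 2)).b r = (F.G (r ^ 2) + r ^ 2 * F.C (r ^ 2))⁻¹ := by
  have hG := h.G_ge (r ^ 2)
  have hA := mul_nonneg (sq_nonneg r) (h.C_ge (r ^ 2))
  have h1 : F.G (r ^ 2) ≠ 0 := by linarith
  have h2 : F.G (r ^ 2) + r ^ 2 * F.C (r ^ 2) ≠ 0 := by linarith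
  simp only [Par.b, par]; field_simp; ring

end Fam

lemma exists_polar (x : E 6) : ∃ u : E 6, ‖u‖ = 1 ∧ x = ‖x‖ • u := by
  by_cases h : x = 0
  · exact ⟨EuclideanSpace.single 0 1, by simp, by simp [h]⟩
  · have : ‖x‖ ≠ 0 := norm_ne_zero_iff.2 h
    exact ⟨‖x‖⁻¹ • x, by rw [norm_smul]; simp [this], by rw [smul_smul]; simp [this]⟩

end H528GBC
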