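import Pool.Agent.H528Z.GbcDefs

set_option autoImplicit false

open scoped ContDiff
open Filter Topology

namespace H528GBC

variable {n : ℕ}

lemma pd_smooth {f : E n → ℝ} (hf : ContDiff ℝ ∞ f) (i : Fin n) : ContDiff ℝ ∞ (pd i f) := by
  unfold pd
  exact (hf.fderiv_right (m := ∞) (by simp)).clm_apply contDiff_const

lemma pd_mul {f g : E n → ℝ} (hf : ContDiff ℝ ∞ f) (hg : ContDiff ℝ ∞ g) (i : Fin n) :
    pd i (fun y => f y * g y) = fun x => pd i f x * g x + f x * pd i g x := by
  funext x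
  unfold pd
  rw [fderiv_fun_mul (hf.differentiable (by simp) x) (hg.differentiable (by simp) x)]
  simp; ring

lemma pd_add {f g : E n → ℝ} (hf : ContDiff ℝ ∞ f) (hg : ContDiff ℝ ∞ g) (i : Fin n) :
    pd i (fun y => f y + g y) = fun x => pd i f x + pd i g x := by
  funext x
  unfold pd
  rw [fderiv_fun_add (hf.differentiable (by simp) x) (hg.differentiable (by simp) x)]
  simp

lemma pd_sum {f : Fin n → E n → ℝ} (hf : ∀ a, ContDiff ℝ ∞ (f a)) (i : Fin n) :
    pd i (fun y => ∑ a, f a y) = fun x => ∑ a, pd i (f a) x := by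
  funext x
  unfold pd
  rw [fderiv_fun_sum (fun a _ => (hf a).differentiable (by simp) x)]
  simp

lemma pd_comm {f : E n → ℝ} (hf : ContDiff ℝ ∞ f) (i j : Fin n) :
    pd i (pd j f) = pd j (pd i f) := by
  funext x
  have hd : DifferentiableAt ℝ (fderiv ℝ f) x :=
    (hf.fderiv_right (m := ∞) (by simp)).differentiable (by simp) x
  have key : ∀ v w : E n, fderiv ℝ (fun y => fderiv ℝ f y w) x v = fderiv ℝ (fderiv ℝ f) x v w := by
    intro v w
    rw [fderiv_clm_apply hd (differentiableAt_const _)]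
    simp
  have hs : IsSymmSndFDerivAt ℝ f x :=
    hf.contDiffAt.isSymmSndFDerivAt (by simp; exact WithTop.coe_le_coe.2 le_top)
  change fderiv ℝ (fun y => fderiv ℝ f y _) x _ = fderiv ℝ (fun y => fderiv ℝ f y _) x _
  rw [key, key, hs.eq]

lemma form_single (g : E n → Matrix (Fin n) (Fin n) ℝ) (x : E n) (i j : Fin n) :
    form g x (EuclideanSpace.single i 1) (EuclideanSpace.single j 1) = g x i j := by
  simp [form]

lemma riem_zero_of_isometric {g : E n → Matrix (Fin n) (Fin n) ℝ} (h : IsometricToEuclidean g)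
    (x : E n) (hx : (g x).PosDef) (i j k l : Fin n) : (jet g x).riem i j k l = 0 := by
  obtain ⟨F, hF, -, hg⟩ := h
  let φ : Fin n → E n → ℝ := fun a y => F y a
  have hφ : ∀ a, ContDiff ℝ ∞ (φ a) := fun a =>
    (EuclideanSpace.proj a : E n →L[ℝ] ℝ).contDiff.comp hF
  have hpd : ∀ a i y, pd i (φ a) y = fderiv ℝ F y (EuclideanSpace.single i 1) a := by
    intro a i y
    have := ((EuclideanSpace.proj a : E n →L[ℝ] ℝ).hasFDerivAt.comp y
      (hF.differentiable (by simp) y).hasFDerivAt).fderiv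
    unfold pd
    erw [this]; rfl
  have hg' : ∀ i j, (fun y => g y i j) = fun y => ∑ a, pd i (φ a) y * pd j (φ a) y := by
    intro i j
    funext y
    rw [← form_single g y i j, hg]
    simp only [hpd, PiLp.inner_apply]
    exact Finset.sum_congr rfl fun a _ => by simp [mul_comm]
  have s1 : ∀ a i, ContDiff ℝ ∞ (pd i (φ a)) := fun a i => pd_smooth (hφ a) i
  have s2 : ∀ a i j, ContDiff ℝ ∞ (pd i (pd j (φ a))) := fun a i j => pd_smooth (s1 a j) i
  have hd1 : ∀ k i j, pd k (fun y => g y i j) = fun y =>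
      ∑ a, (pd k (pd i (φ a)) y * pd j (φ a) y + pd i (φ a) y * pd k (pd j (φ a)) y) := by
    intro k i j
    rw [hg', pd_sum (fun a => (s1 a i).mul (s1 a j))]
    funext y
    exact Finset.sum_congr rfl fun a _ => by rw [pd_mul (s1 a i) (s1 a j)]
  have hd2 : ∀ l k i j, pd l (pd k (fun y => g y i j)) x =
      ∑ a, (pd l (pd k (pd i (φ a))) x * pd j (φ a) x + pd k (pd i (φ a)) x * pd l (pd j (φ a)) x
        + (pd l (pd i (φ a)) x * pd k (pd j (φ a)) x
          + pd i (φ a) x * pd l (pd k (pd j (φ a))) x)) := by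
    intro l k i j
    rw [hd1, pd_sum (fun a => ((s2 a k i).mul (s1 a j)).add ((s1 a i).mul (s2 a k j)))]
    refine Finset.sum_congr rfl fun a _ => ?_
    rw [pd_add ((s2 a k i).mul (s1 a j)) ((s1 a i).mul (s2 a k j)), pd_mul (s2 a k i) (s1 a j),
      pd_mul (s1 a i) (s2 a k j)]
  have c2 : ∀ a i j, pd i (pd j (φ a)) = pd j (pd i (φ a)) := fun a i j => pd_comm (hφ a) i j
  have c3 : ∀ a i j k, pd i (pd j (pd k (φ a))) = pd j (pd i (pd k (φ a))) :=
    fun a i j k => pd_comm (s1 a k) i j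
  have hchr : ∀ m i j, (jet g x).chr m i j = ∑ a, pd i (pd j (φ a)) x * pd m (φ a) x := by
    intro m i j
    simp only [Jet.chr, jet, hd1, ← Finset.sum_add_distrib, ← Finset.sum_sub_distrib,
      Finset.sum_div]
    refine Finset.sum_congr rfl fun a _ => ?_
    rw [c2 a j i, c2 a m i, c2 a m j]; ring
  let Q : Matrix (Fin n) (Fin n) ℝ := Matrix.of fun a i => pd i (φ a) x
  have hQ : g x = Q.transpose * Q := by
    ext i j
    refine (congrFun (hg' i j) x).trans ?_
    rw [Matrix.mul_apply]; rfl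
  have hdet : IsUnit Q.det := by
    have := hx.det_pos.ne'
    rw [hQ, Matrix.det_mul, Matrix.det_transpose] at this
    exact isUnit_iff_ne_zero.2 (left_ne_zero_of_mul this)
  have hone : Q * (g x)⁻¹ * Q.transpose = 1 := by
    rw [hQ, Matrix.mul_inv_rev, ← Matrix.mul_assoc, Matrix.mul_nonsing_inv _ hdet, Matrix.one_mul,
      Matrix.nonsing_inv_mul _ (by rwa [Matrix.det_transpose])]
  have con : ∀ u v : Fin n → ℝ, ∑ a, ∑ b, (g x)⁻¹ a b * ((∑ c, u c * pd a (φ c) x) *
      ∑ d, v d * pd b (φ d) x) = ∑ c, u c * v c := by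
    intro u v
    have h1 : u ⬝ᵥ (Q * (g x)⁻¹ * Q.transpose).mulVec v = u ⬝ᵥ v := by rw [hone, Matrix.one_mulVec]
    rw [← Matrix.mulVec_mulVec, ← Matrix.mulVec_mulVec, Matrix.dotProduct_mulVec] at h1
    refine Eq.trans ?_ h1
    simp only [dotProduct, Matrix.mulVec, Matrix.vecMul, Finset.mul_sum, Q, Matrix.of_apply,
      Matrix.transpose_apply]
    refine Finset.sum_congr rfl fun a _ => Finset.sum_congr rfl fun b _ =>
      Finset.sum_congr rfl fun d _ => by ring
  unfold Jet.riem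
  simp only [hchr, mul_sub, Finset.sum_sub_distrib]
  have e1 := con (fun c => pd j (pd k (φ c)) x) (fun c => pd i (pd l (φ c)) x)
  have e2 := con (fun c => pd j (pd l (φ c)) x) (fun c => pd i (pd k (φ c)) x)
  simp only [jet] at *
  rw [e1, e2]
  simp only [hd2, ← Finset.sum_add_distrib, ← Finset.sum_sub_distrib, Finset.sum_div]
  refine Finset.sum_eq_zero fun a _ => ?_
  have t1 : pd j (pd k (pd i (φ a))) = pd i (pd k (pd j (φ a))) := by
    rw [c2 a k i, c3 a j i k, c2 a j k]
  have t2 : pd i (pd l (pd j (φ a))) = pd j (pd l (pd i (φ a))) := by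
    rw [c2 a l j, c3 a i j l, c2 a i l]
  have t3 : pd j (pd k (pd l (φ a))) = pd j (pd l (pd k (φ a))) := by rw [c2 a k l]
  have t4 : pd i (pd l (pd k (φ a))) = pd i (pd k (pd l (φ a))) := by rw [c2 a k l]
  rw [t1, t2, t3, t4, c2 a k i, c2 a l j, c2 a l i, c2 a k j, c2 a j i, c2 a k l]
  ring

lemma L2_zero_of_isometric {g : E n → Matrix (Fin n) (Fin n) ℝ} (h : IsometricToEuclidean g)
    (x : E n) (hx : (g x).PosDef) : (jet g x).L2 = 0 := by
  simp [Jet.L2, riem_zero_of_isometric h x hx]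

end H528GBC
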