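import Pool.Agent.H528Z.GbcGen

set_option autoImplicit false

namespace H528GBC

lemma flux5 (p : Par) (r : ℝ) : r ^ 5 * (std p r).flux (dl0 0) =
    (r ^ 2) ^ 3 * (-18*p.C*p.a r*p.b r*p.c^2*p.k6 r - 18*p.C*p.a r*p.b r*p.c^2*p.k5 r
      - 12*p.C*p.a r*p.b r*p.c^2*p.k4 r + 12*p.A*p.a r*p.c^3*p.k6 r + 12*p.A*p.a r*p.c^3*p.k5 r
      + 6*p.A*p.a r*p.b r*p.c^2*p.k6 r + 6*p.A*p.a r*p.b r*p.c^2*p.k5 r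
      + 12*p.A*p.a r*p.b r*p.c^2*p.k3 r - 24*p.G1*p.a r*p.c^3*p.k6 r - 24*p.G1*p.a r*p.c^3*p.k5 r
      - 12*p.G1*p.a r*p.b r*p.c^2*p.k6 r - 12*p.G1*p.a r*p.b r*p.c^2*p.k5 r
      - 24*p.G1*p.a r*p.b r*p.c^2*p.k3 r)
    - (r ^ 2) ^ 4 * (12*p.C1*p.a r*p.b r*p.c^2*p.k6 r + 12*p.C1*p.a r*p.b r*p.c^2*p.k5 r) := by
  rw [std_flux]; ring

end H528GBC
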