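import Pool.Agent.H528Z.GbcFam

set_option autoImplicit false
set_option linter.unusedSimpArgs false
set_option linter.unnecessarySeqFocus false
set_option linter.unusedTactic false
set_option linter.unreachableTactic false

open scoped ContDiff ENNReal
open Filter Topology MeasureTheory

namespace H528GBC

lemma abs_J_le (x : E 6) (i : Fin 6) : |Jv (fun k => x k) i| ≤ ‖x‖ := by
  have h : ∀ j, |x j| ≤ ‖x‖ := fun j => by simpa using PiLp.norm_apply_le x j
  obtain ⟨h0, h1, h2, h3, h4, h5⟩ := Jv_eq (fun k => x k)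
  fin_cases i <;> simp [h0, h1, h2, h3, h4, h5, h]

lemma abs_x_le (x : E 6) (j : Fin 6) : |x j| ≤ ‖x‖ := by simpa using PiLp.norm_apply_le x j

lemma norm_le_sqrt {κ : ℝ} (hκ : 0 ≤ κ) (x : E 6) : ‖x‖ ≤ √(κ + ss x) := by
  rw [ss_eq]; exact Real.le_sqrt_of_sq_le (by linarith)

namespace Fam
variable {F : Fam}

lemma form_eq (F : Fam) (x v w : E 6) : form F.gm x v w =
    F.G (ss x) * dot (fun i => v i) (fun i => w i)
    + F.A (ss x) * dot (fun i => x i) (fun i => v i) * dot (fun i => x i) (fun i => w i)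
    + F.C (ss x) * dot (Jv fun i => x i) (fun i => v i) * dot (Jv fun i => x i) (fun i => w i) := by
  simp only [form, gm, Matrix.of_apply, dot, Fin.sum_univ_six, tabd]
  ring

lemma Ok.form_ge (h : F.Ok) (x v : E 6) : ‖v‖ ^ 2 ≤ form F.gm x v v := by
  rw [form_eq, ← ss_eq]
  have h1 := h.G_ge (ss x)
  have h2 := mul_nonneg (h.A_ge (ss x)) (mul_self_nonneg (dot (fun i => x i) (fun i => v i)))
  have h3 := mul_nonneg (h.C_ge (ss x)) (mul_self_nonneg (dot (Jv fun i => x i) (fun i => v i)))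
  have h4 := mul_nonneg (sub_nonneg.2 h1) (ss_nonneg v)
  unfold ss at *
  nlinarith

lemma Ok.posDef (h : F.Ok) (x : E 6) : (F.gm x).PosDef := by
  refine Matrix.PosDef.of_dotProduct_mulVec_pos ?_ fun v hv => ?_
  · ext i j
    simp only [Matrix.conjTranspose_apply, gm, Matrix.of_apply, star_trivial, dl0_eq, eq_comm (a := j)]
    ring
  · have h1 := h.form_ge x (WithLp.toLp 2 v)
    have h2 : 0 < ‖(WithLp.toLp 2 v : E 6)‖ := norm_pos_iff.2 (by simpa using hv)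
    refine lt_of_lt_of_le (pow_pos h2 2) (h1.trans_eq ?_)
    simp only [form, dotProduct, Matrix.mulVec, star_trivial, Finset.mul_sum]
    exact Finset.sum_congr rfl fun i _ => Finset.sum_congr rfl fun j _ => by ring

lemma coord_smooth (i : Fin 6) : ContDiff ℝ ∞ (fun y : E 6 => y i) :=
  (EuclideanSpace.proj i : E 6 →L[ℝ] ℝ).contDiff

lemma J_smooth (i : Fin 6) : ContDiff ℝ ∞ (fun y : E 6 => Jv (fun k => y k) i) :=
  ContDiff.sum fun k _ => (coord_smooth k).mul contDiff_const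

lemma ss_smooth : ContDiff ℝ ∞ ss := by
  have : ContDiff ℝ ∞ (fun y : E 6 => ∑ k, y k * y k) :=
    ContDiff.sum fun k _ => (coord_smooth k).mul (coord_smooth k)
  exact this

lemma ph_smooth (κ : ℝ) (m : ℕ) : ContDiffOn ℝ ∞ (fun y => ph κ m (ss y)) {x | 0 < κ + ss x} := by
  intro x hx
  have hx' : 0 < κ + ss x := hx
  have h1 : ContDiffAt ℝ ∞ (fun y => κ + ss y) x := (contDiff_const.add ss_smooth).contDiffAt
  exact (((h1.sqrt hx'.ne').pow m).inv (pow_ne_zero m (Real.sqrt_pos.2 hx').ne')).contDiffWithinAt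

lemma Ok.isMetricOn (h : F.Ok) : IsMetricOn {x | 0 < F.κ + ss x} F.gm := by
  refine ⟨fun i j => ?_, fun x _ => h.posDef x⟩
  have t : ∀ c m, ContDiffOn ℝ ∞ (fun y => F.t0 c m (ss y)) {x | 0 < F.κ + ss x} :=
    fun c m => contDiffOn_const.mul (ph_smooth F.κ m)
  exact (((contDiffOn_const.add (t _ _)).mul contDiffOn_const).add
    (((t _ _).mul (coord_smooth i).contDiffOn).mul (coord_smooth j).contDiffOn)).add
    (((t _ _).mul (J_smooth i).contDiffOn).mul (J_smooth j).contDiffOn)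

lemma Ok.edist_le (h : F.Ok) (D : Set (E 6)) (x y : E 6) : edist x y ≤ rdist D F.gm x y := by
  refine le_iInf fun γ => le_iInf fun hγ => le_iInf fun _ => le_iInf fun h0 => le_iInf fun h1 => ?_
  rw [edist_comm, edist_eq_enorm_sub, ← h0, ← h1]
  refine (enorm_sub_le_lintegral_deriv_of_contDiffOn_Icc hγ zero_le_one).trans
    (lintegral_mono fun t => ?_)
  rw [← ofReal_norm]
  exact ENNReal.ofReal_le_ofReal (Real.le_sqrt_of_sq_le (h.form_ge _ _))

lemma Ok.completeOn (h : F.Ok) {D : Set (E 6)} (hD : IsClosed D) : CompleteOn D F.gm := by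
  intro u hu hc
  have : CauchySeq u := EMetric.cauchySeq_iff.2 fun ε hε => by
    obtain ⟨N, hN⟩ := hc ε hε
    exact ⟨N, fun k hk l hl => (h.edist_le D _ _).trans_lt (hN k hk l hl)⟩
  obtain ⟨x, hx⟩ := cauchySeq_tendsto_of_complete this
  exact ⟨x, hD.mem_of_tendsto hx (Eventually.of_forall hu), hx⟩

end Fam

/-! ### decay -/

abbrev I4 := Fin 6 × Fin 6 × Fin 6 × Fin 6

def Bd (f : I4 → E 6 → ℝ) (e : ℝ) : Prop :=
  ∃ C, 0 ≤ C ∧ ∀ x : E 6, 1 ≤ ‖x‖ → ∀ t, |f t x| ≤ C * ‖x‖ ^ e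

namespace Bd
variable {f g : I4 → E 6 → ℝ} {a b : ℝ}

lemma add (hf : Bd f a) (hg : Bd g a) : Bd (fun t x => f t x + g t x) a := by
  obtain ⟨C, hC, h⟩ := hf
  obtain ⟨C', hC', h'⟩ := hg
  refine ⟨C + C', by positivity, fun x hx t => (abs_add_le _ _).trans ?_⟩
  rw [add_mul]; exact add_le_add (h x hx t) (h' x hx t)

lemma mul (hf : Bd f a) (hg : Bd g b) : Bd (fun t x => f t x * g t x) (a + b) := by
  obtain ⟨C, hC, h⟩ := hf
  obtain ⟨C', hC', h'⟩ := hg
  refine ⟨C * C', by positivity, fun x hx t => ?_⟩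
  rw [abs_mul, Real.rpow_add (by linarith), mul_mul_mul_comm]
  exact mul_le_mul (h x hx t) (h' x hx t) (abs_nonneg _) (by positivity)

lemma mono (hf : Bd f a) (hab : a ≤ b) : Bd f b := by
  obtain ⟨C, hC, h⟩ := hf
  exact ⟨C, hC, fun x hx t => (h x hx t).trans
    (mul_le_mul_of_nonneg_left (Real.rpow_le_rpow_of_exponent_le hx hab) hC)⟩

lemma idx (c : I4 → ℝ) : Bd (fun t _ => c t) 0 :=
  ⟨∑ t, |c t|, by positivity, fun x _ t => by
    rw [Real.rpow_zero, mul_one]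
    exact Finset.single_le_sum (f := fun t => |c t|) (fun _ _ => abs_nonneg _) (Finset.mem_univ t)⟩

lemma coord (c : I4 → Fin 6) : Bd (fun t x => x (c t)) 1 :=
  ⟨1, zero_le_one, fun x _ t => by simpa using abs_x_le x _⟩

lemma J (c : I4 → Fin 6) : Bd (fun t x => Jv (fun k => x k) (c t)) 1 :=
  ⟨1, zero_le_one, fun x _ t => by simpa using abs_J_le x _⟩

lemma ph {κ : ℝ} (hκ : 0 ≤ κ) (m : ℕ) : Bd (fun _ x => ph κ m (ss x)) (-m) :=
  ⟨1, zero_le_one, fun x hx t => by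
    rw [abs_of_nonneg (Fam.ph_nonneg _ _ _), one_mul, Real.rpow_neg (norm_nonneg _),
      Real.rpow_natCast]
    exact inv_anti₀ (by positivity) (pow_le_pow_left₀ (norm_nonneg _) (norm_le_sqrt hκ x) m)⟩

lemma congr (hf : Bd f a) (h : ∀ x : E 6, 1 ≤ ‖x‖ → ∀ t, g t x = f t x) : Bd g a := by
  obtain ⟨C, hC, h'⟩ := hf
  exact ⟨C, hC, fun x hx t => by rw [h x hx t]; exact h' x hx t⟩

end Bd

namespace Fam
variable {F : Fam}

lemma Ok.bd0 (h : F.Ok) (c : ℝ) (m : ℕ) : Bd (fun _ x => F.t0 c m (ss x)) (-m) :=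
  ((Bd.idx fun _ => c).mul (Bd.ph h.hκ m)).mono (by simp)

lemma Ok.bd1 (h : F.Ok) (c : ℝ) (m : ℕ) : Bd (fun _ x => F.t1 c m (ss x)) (-m - 2) :=
  ((Bd.idx fun _ => c).mul ((Bd.idx fun _ => _).mul (Bd.ph h.hκ (m + 2)))).mono
    (by push_cast; linarith)

lemma Ok.bd2 (h : F.Ok) (c : ℝ) (m : ℕ) : Bd (fun _ x => F.t2 c m (ss x)) (-m - 4) :=
  ((Bd.idx fun _ => c).mul ((Bd.idx fun _ => _).mul ((Bd.idx fun _ => _).mul
    (Bd.ph h.hκ (m + 2 + 2))))).mono (by push_cast; linarith)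

lemma Ok.asympFlat (h : F.Ok) {τ : ℝ} (hG : τ ≤ F.mG) (hA : τ + 2 ≤ F.mA) (hC : τ + 2 ≤ F.mC) :
    AsympFlat F.gm τ := by
  have pos : ∀ x : E 6, 1 ≤ ‖x‖ → 0 < F.κ + ss x := fun x hx => by
    have := h.hκ
    rw [ss_eq]; nlinarith
  have b0 : Bd (fun t x => F.gm x t.1 t.2.1 - (1 : Matrix (Fin 6) (Fin 6) ℝ) t.1 t.2.1) (-τ) := by
    have : Bd (fun t x => F.t0 F.g0 F.mG (ss x) * dl0 t.1 t.2.1
        + F.t0 F.a0 F.mA (ss x) * x t.1 * x t.2.1
        + F.t0 F.c0 F.mC (ss x) * Jv (fun k => x k) t.1 * Jv (fun k => x k) t.2.1) (-τ) := by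
      repeat' apply Bd.add
      all_goals
        apply Bd.mono
        · repeat' (first | exact h.bd0 _ _ | exact Bd.idx _ | exact Bd.coord _ | exact Bd.J _ | apply Bd.mul)
        · linarith
    refine this.congr fun x _ t => ?_
    simp only [gm, Matrix.of_apply, G, A, C, Matrix.one_apply, ← dl0_eq]
    ring
  have b1 : Bd (fun t x => (jet F.gm x).d1 t.2.2.1 t.1 t.2.1) (-τ - 1) := by
    refine Bd.congr (f := fun t x => (F.jj x).d1 t.2.2.1 t.1 t.2.1) ?_
      fun x hx t => by rw [h.jet_eq (pos x hx)]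
    simp only [jj, mkJet, par, A, C, mul_add]
    repeat' apply Bd.add
    all_goals
      apply Bd.mono
      · repeat' (first | exact h.bd0 _ _ | exact h.bd1 _ _ | exact Bd.idx _ | exact Bd.coord _ | exact Bd.J _ | apply Bd.mul)
      · linarith
  have b2 : Bd (fun t x => (jet F.gm x).d2 t.2.2.2 t.2.2.1 t.1 t.2.1) (-τ - 2) := by
    refine Bd.congr (f := fun t x => (F.jj x).d2 t.2.2.2 t.2.2.1 t.1 t.2.1) ?_
      fun x hx t => by rw [h.jet_eq (pos x hx)]
    simp only [jj, mkJet, par, A, C, mul_add]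
    repeat' apply Bd.add
    all_goals
      apply Bd.mono
      · repeat' (first | exact h.bd0 _ _ | exact h.bd1 _ _ | exact h.bd2 _ _ | exact Bd.idx _ | exact Bd.coord _ | exact Bd.J _ | apply Bd.mul)
      · linarith
  obtain ⟨C0, hC0, b0⟩ := b0
  obtain ⟨C1, hC1, b1⟩ := b1
  obtain ⟨C2, hC2, b2⟩ := b2
  refine ⟨C0 + C1 + C2, 1, fun x hx i j k l => ⟨(b0 x hx (i, j, k, l)).trans ?_,
    (b1 x hx (i, j, k, l)).trans ?_, (b2 x hx (i, j, k, l)).trans ?_⟩⟩ <;>
  exact mul_le_mul_of_nonneg_right (by linarith) (by positivity)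

lemma ph_meas (κ : ℝ) (m : ℕ) : Measurable (fun y => ph κ m (ss y)) :=
  ((Real.continuous_sqrt.comp (continuous_const.add cont_ss)).pow m).measurable.inv

lemma gm_meas (F : Fam) (i j : Fin 6) : Measurable (fun y => F.gm y i j) := by
  have t : ∀ c m, Measurable (fun y => F.t0 c m (ss y)) :=
    fun c m => measurable_const.mul (ph_meas F.κ m)
  have c := fun i => (coord_smooth i).continuous.measurable
  have J := fun i => (J_smooth i).continuous.measurable
  exact (((measurable_const.add (t _ _)).mul measurable_const).add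
    (((t _ _).mul (c i)).mul (c j))).add (((t _ _).mul (J i)).mul (J j))

lemma Ok.gm_le (h : F.Ok) (hA : 2 ≤ F.mA) (hC : 2 ≤ F.mC) {x : E 6} (hx : 1 ≤ F.κ + ss x)
    (i j : Fin 6) : |F.gm x i j| ≤ 1 + F.g0 + F.a0 + F.c0 := by
  have h1 : 1 ≤ √(F.κ + ss x) := Real.one_le_sqrt.2 hx
  have p1 : ∀ m, ph F.κ m (ss x) ≤ 1 := fun m => inv_le_one_of_one_le₀ (one_le_pow₀ h1)
  have p2 : ∀ m, 2 ≤ m → ∀ u v : ℝ, |u| ≤ ‖x‖ → |v| ≤ ‖x‖ → ∀ c, 0 ≤ c →
      |F.t0 c m (ss x) * u * v| ≤ c := by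
    intro m hm u v hu hv c hc
    have h2 : |u| * |v| ≤ √(F.κ + ss x) ^ m :=
      calc |u| * |v| ≤ √(F.κ + ss x) * √(F.κ + ss x) :=
            mul_le_mul (hu.trans (norm_le_sqrt h.hκ x)) (hv.trans (norm_le_sqrt h.hκ x))
              (abs_nonneg _) (by positivity)
        _ = √(F.κ + ss x) ^ 2 := by ring
        _ ≤ _ := pow_le_pow_right₀ h1 hm
    have h3 : ph F.κ m (ss x) * (|u| * |v|) ≤ 1 := by
      unfold ph
      rw [inv_mul_le_iff₀ (by positivity), mul_one]; exact h2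
    rw [abs_mul, abs_mul, t0, abs_of_nonneg (mul_nonneg hc (ph_nonneg _ _ _))]
    calc _ = c * (ph F.κ m (ss x) * (|u| * |v|)) := by ring
      _ ≤ c * 1 := mul_le_mul_of_nonneg_left h3 hc
      _ = c := mul_one c
  have q1 : |F.G (ss x) * dl0 i j| ≤ 1 + F.g0 := by
    have := h.G_ge (ss x)
    have h3 : F.G (ss x) ≤ 1 + F.g0 := by
      have := mul_le_mul_of_nonneg_left (p1 F.mG) h.hg
      unfold G t0; linarith
    rw [dl0_eq]
    split_ifs
    · rw [mul_one, abs_of_nonneg (by linarith)]; exact h3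
    · rw [mul_zero, abs_zero]; linarith
  have q2 := p2 _ hA _ _ (abs_x_le x i) (abs_x_le x j) _ h.ha
  have q3 := p2 _ hC _ _ (abs_J_le x i) (abs_J_le x j) _ h.hc
  exact (abs_add_three _ _ _).trans (add_le_add (add_le_add q1 q2) q3)

lemma Ok.l2Integrable (h : F.Ok) (hA : 2 ≤ F.mA) (hC : 2 ≤ F.mC) {D : Set (E 6)}
    (hD : MeasurableSet D) (hD1 : ∀ x ∈ D, 1 ≤ F.κ + ss x) {Λ : ℝ → ℝ} (hΛ : Measurable Λ) {K : ℝ}
    (hb : ∀ σ, 1 ≤ σ → |Λ σ| * σ ^ 7 ≤ K) (he : ∀ x ∈ D, (jet F.gm x).L2 = Λ √(F.κ + ss x)) :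
    L2Integrable D F.gm := by
  have hdet : Measurable fun x => (F.gm x).det := by
    simp only [Matrix.det_apply']
    exact Finset.measurable_sum _ fun σ _ =>
      (Finset.measurable_prod _ fun i _ => gm_meas F _ _).const_mul _
  have hm : Measurable fun x => Λ √(F.κ + ss x) * √(F.gm x).det :=
    (hΛ.comp (Real.continuous_sqrt.comp (continuous_const.add cont_ss)).measurable).mul
      (Real.continuous_sqrt.measurable.comp hdet)
  refine IntegrableOn.congr_fun (f := fun x => Λ √(F.κ + ss x) * √(F.gm x).det) ?_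
    (fun x hx => by simp only [he x hx]) hD
  set B := √((Nat.factorial 6 : ℝ) * (1 + F.g0 + F.a0 + F.c0) ^ 6) with hB
  have hi : Integrable (fun x : E 6 => (K * 128 * B) * (1 + ‖x‖) ^ (-(7 : ℝ))) volume :=
    (integrable_one_add_norm (by simp; norm_num)).const_mul _
  refine Integrable.mono' hi.integrableOn hm.aestronglyMeasurable ?_
  refine (ae_restrict_iff' hD).2 (Eventually.of_forall fun x hx => ?_)
  have h1 : 1 ≤ √(F.κ + ss x) := Real.one_le_sqrt.2 (hD1 x hx)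
  have h2 := norm_le_sqrt h.hκ x
  have h3 : √(F.gm x).det ≤ B := by
    refine Real.sqrt_le_sqrt ((le_abs_self _).trans ?_)
    have := Matrix.det_le (abv := AbsoluteValue.abs) (h.gm_le hA hC (hD1 x hx))
    simpa using this
  have h4 := hb _ h1
  have h5 : (1 + ‖x‖) ^ 7 ≤ (2 * √(F.κ + ss x)) ^ 7 :=
    pow_le_pow_left₀ (by positivity) (by linarith) 7
  have h6 : |Λ √(F.κ + ss x)| ≤ K * 128 * (1 + ‖x‖) ^ (-(7 : ℝ)) := by
    rw [Real.rpow_neg (by positivity), ← div_eq_mul_inv, le_div_iff₀ (by positivity)]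
    have : (1 + ‖x‖) ^ (7 : ℝ) = (1 + ‖x‖) ^ 7 := by exact_mod_cast Real.rpow_natCast _ 7
    rw [this]
    calc _ ≤ |Λ √(F.κ + ss x)| * (2 * √(F.κ + ss x)) ^ 7 :=
          mul_le_mul_of_nonneg_left h5 (abs_nonneg _)
      _ = |Λ √(F.κ + ss x)| * √(F.κ + ss x) ^ 7 * 128 := by ring
      _ ≤ _ := by linarith
  rw [Real.norm_eq_abs, abs_mul, abs_of_nonneg (Real.sqrt_nonneg _)]
  calc _ ≤ (K * 128 * (1 + ‖x‖) ^ (-(7 : ℝ))) * B :=
        mul_le_mul h6 h3 (Real.sqrt_nonneg _) ((abs_nonneg _).trans h6)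
    _ = _ := by ring

lemma omega_pos : 0 < omega 6 := by
  unfold omega
  rw [Measure.toSphere_real_apply_univ]
  have : 0 < (volume : Measure (E 6)).real (Metric.ball 0 1) :=
    ENNReal.toReal_pos (Metric.measure_ball_pos _ _ one_pos).ne' measure_ball_lt_top.ne
  simp only [finrank_euclideanSpace, Fintype.card_fin]
  positivity

lemma Ok.hasMass (h : F.Ok) {Φ : ℝ → ℝ} (hΦ : ContinuousAt Φ 0)
    (he : ∀ r : ℝ, 1 ≤ r → r ^ 5 * (std (F.par (r ^ 2)) r).flux (dl0 0) = Φ (√(F.κ + r ^ 2))⁻¹) :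
    HasMass F.gm (Φ 0 / 120) := by
  have h1 : Tendsto (fun r : ℝ => (√(F.κ + r ^ 2))⁻¹) atTop (𝓝 0) :=
    tendsto_inv_atTop_zero.comp (Real.tendsto_sqrt_atTop.comp
      (tendsto_atTop_add_const_left _ _ (tendsto_pow_atTop two_ne_zero)))
  refine ((hΦ.tendsto.comp h1).div_const 120).congr' ?_
  filter_upwards [eventually_ge_atTop 1] with r hr
  have hx : 0 < F.κ + r ^ 2 := by have := h.hκ; positivity
  have : ∀ u : Metric.sphere (0 : E 6) 1, (jet F.gm (r • u.1)).flux (fun i => u.1 i) =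
      (std (F.par (r ^ 2)) r).flux (dl0 0) := fun u =>
    (h.eval r u.1 (by simp) hx).2.2
  simp only [this, integral_const, smul_eq_mul, Function.comp_apply, ← he r hr]
  have hω := omega_pos
  change _ = _ / (_ * _ * omega 6) * (_ * (omega 6 * _))
  simp only [Nat.factorial]
  field_simp
  norm_num
  ring

lemma Ok.eval' (h : F.Ok) {x : E 6} (hx : 0 < F.κ + ss x) :
    (jet F.gm x).L2 = (std (F.par (‖x‖ ^ 2)) ‖x‖).L2 ∧
    (jet F.gm x).scal = (std (F.par (‖x‖ ^ 2)) ‖x‖).scal := by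
  obtain ⟨u, hu, e⟩ := exists_polar x
  have := h.eval ‖x‖ u hu (by rwa [← ss_eq])
  rw [← e] at this
  exact ⟨this.1, this.2.1⟩

end Fam

end H528GBC
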