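import Pool.Agent.H528Z.GbcDefs

set_option autoImplicit false

namespace H528GBC

variable {n : ℕ}

abbrev V (n : ℕ) := Fin n → ℝ

def ee (a : Fin n) : V n := Pi.single a 1

def Lin (f : V n → ℝ) : Prop := ∀ u, f u = ∑ a, u a * f (ee a)

namespace Lin
variable {f g : V n → ℝ}

lemma add (hf : Lin f) (hg : Lin g) : Lin (fun u => f u + g u) := fun u => by
  simp only [mul_add, Finset.sum_add_distrib]; rw [← hf u, ← hg u]

lemma sub (hf : Lin f) (hg : Lin g) : Lin (fun u => f u - g u) := fun u => by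
  simp only [mul_sub, Finset.sum_sub_distrib]; rw [← hf u, ← hg u]

lemma mulr (hf : Lin f) (c : ℝ) : Lin (fun u => f u * c) := fun u => by
  simp only [← mul_assoc, ← Finset.sum_mul]; rw [← hf u]

lemma mull (hf : Lin f) (c : ℝ) : Lin (fun u => c * f u) := by
  simpa only [mul_comm c] using hf.mulr c

lemma div (hf : Lin f) (c : ℝ) : Lin (fun u => f u / c) := by
  simpa only [div_eq_mul_inv] using hf.mulr c⁻¹

lemma sum {F : Fin n → V n → ℝ} (hF : ∀ i, Lin (F i)) : Lin (fun u => ∑ i, F i u) := fun u => by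
  simp only [Finset.mul_sum]
  rw [Finset.sum_comm]
  exact Finset.sum_congr rfl fun i _ => hF i u

end Lin

def Frame (q : Fin n → V n) : Prop := ∀ a b, ∑ i, q i a * q i b = if a = b then 1 else 0

lemma frame_ee : Frame (ee : Fin n → V n) := by
  intro a b
  simp only [ee, Pi.single_apply]
  by_cases h : a = b
  · subst h; simp
  · simp [h]

lemma C1 {q : Fin n → V n} (hq : Frame q) {f g : V n → ℝ} (hf : Lin f) (hg : Lin g) :
    ∑ i, f (q i) * g (q i) = ∑ a, f (ee a) * g (ee a) := by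
  have h : ∀ i, f (q i) * g (q i) = ∑ a, ∑ b, (q i a * q i b) * (f (ee a) * g (ee b)) := by
    intro i
    rw [hf (q i), hg (q i), Finset.sum_mul_sum]
    refine Finset.sum_congr rfl fun a _ => Finset.sum_congr rfl fun b _ => by ring
  simp only [h]
  rw [Finset.sum_comm]
  refine Finset.sum_congr rfl fun a _ => ?_
  rw [Finset.sum_comm]
  simp only [← Finset.sum_mul, hq a]
  simp

structure Lin2 (X : V n → V n → ℝ) : Prop where
  h1 : ∀ v, Lin (fun u => X u v)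
  h2 : ∀ u, Lin (fun v => X u v)

structure Lin3 (X : V n → V n → V n → ℝ) : Prop where
  h1 : ∀ v w, Lin (fun u => X u v w)
  h2 : ∀ u w, Lin (fun v => X u v w)
  h3 : ∀ u v, Lin (fun w => X u v w)

structure Lin4 (X : V n → V n → V n → V n → ℝ) : Prop where
  h1 : ∀ v w z, Lin (fun u => X u v w z)
  h2 : ∀ u w z, Lin (fun v => X u v w z)
  h3 : ∀ u v z, Lin (fun w => X u v w z)
  h4 : ∀ u v w, Lin (fun z => X u v w z)

lemma C2 {q : Fin n → V n} (hq : Frame q) {X Y : V n → V n → ℝ} (hX : Lin2 X) (hY : Lin2 Y) :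
    ∑ i, ∑ j, X (q i) (q j) * Y (q i) (q j) = ∑ a, ∑ b, X (ee a) (ee b) * Y (ee a) (ee b) := by
  have h1 : ∀ i, ∑ j, X (q i) (q j) * Y (q i) (q j) = ∑ b, X (q i) (ee b) * Y (q i) (ee b) :=
    fun i => C1 hq (hX.h2 _) (hY.h2 _)
  simp only [h1]
  rw [Finset.sum_comm, Finset.sum_comm (f := fun a b => X (ee a) (ee b) * Y (ee a) (ee b))]
  exact Finset.sum_congr rfl fun b _ => C1 hq (hX.h1 _) (hY.h1 _)

lemma C4 {q : Fin n → V n} (hq : Frame q) {X Y : V n → V n → V n → V n → ℝ} (hX : Lin4 X)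
    (hY : Lin4 Y) :
    ∑ i, ∑ j, ∑ k, ∑ l, X (q i) (q j) (q k) (q l) * Y (q i) (q j) (q k) (q l) =
      ∑ a, ∑ b, ∑ c, ∑ d, X (ee a) (ee b) (ee c) (ee d) * Y (ee a) (ee b) (ee c) (ee d) := by
  have h1 : ∀ i j, ∑ k, ∑ l, X (q i) (q j) (q k) (q l) * Y (q i) (q j) (q k) (q l) =
      ∑ c, ∑ d, X (q i) (q j) (ee c) (ee d) * Y (q i) (q j) (ee c) (ee d) :=
    fun i j => C2 hq ⟨fun _ => hX.h3 _ _ _, fun _ => hX.h4 _ _ _⟩
      ⟨fun _ => hY.h3 _ _ _, fun _ => hY.h4 _ _ _⟩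
  simp only [h1]
  have sw : ∀ F : Fin n → Fin n → Fin n → Fin n → ℝ,
      ∑ i, ∑ j, ∑ c, ∑ d, F i j c d = ∑ c, ∑ d, ∑ i, ∑ j, F i j c d := by
    intro F
    calc ∑ i, ∑ j, ∑ c, ∑ d, F i j c d = ∑ i, ∑ c, ∑ d, ∑ j, F i j c d := by
          refine Finset.sum_congr rfl fun i _ => ?_
          rw [Finset.sum_comm]
          exact Finset.sum_congr rfl fun c _ => Finset.sum_comm
      _ = ∑ c, ∑ d, ∑ i, ∑ j, F i j c d := by
          rw [Finset.sum_comm]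
          exact Finset.sum_congr rfl fun c _ => Finset.sum_comm
  rw [sw, sw (fun a b c d => X (ee a) (ee b) (ee c) (ee d) * Y (ee a) (ee b) (ee c) (ee d))]
  refine Finset.sum_congr rfl fun c _ => Finset.sum_congr rfl fun d _ => ?_
  exact C2 hq (X := fun u v => X u v (ee c) (ee d)) (Y := fun u v => Y u v (ee c) (ee d))
    ⟨fun _ => hX.h1 _ _ _, fun _ => hX.h2 _ _ _⟩ ⟨fun _ => hY.h1 _ _ _, fun _ => hY.h2 _ _ _⟩

structure VJet (n : ℕ) where
  Gi : V n → V n → ℝ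
  D1 : V n → V n → V n → ℝ
  D2 : V n → V n → V n → V n → ℝ
  hG : Lin2 Gi
  h1 : Lin3 D1
  h2 : Lin4 D2

namespace VJet
variable (W : VJet n)

def fr (q : Fin n → V n) : Jet n where
  gi i j := W.Gi (q i) (q j)
  d1 k i j := W.D1 (q k) (q i) (q j)
  d2 l k i j := W.D2 (q l) (q k) (q i) (q j)

noncomputable def chr (m u v : V n) : ℝ := (W.D1 u v m + W.D1 v u m - W.D1 m u v) / 2

lemma chr_lin : Lin3 W.chr :=
  ⟨fun _ _ => (((W.h1.h3 _ _).add (W.h1.h3 _ _)).sub (W.h1.h1 _ _)).div 2,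
   fun _ _ => (((W.h1.h1 _ _).add (W.h1.h2 _ _)).sub (W.h1.h2 _ _)).div 2,
   fun _ _ => (((W.h1.h2 _ _).add (W.h1.h1 _ _)).sub (W.h1.h3 _ _)).div 2⟩

noncomputable def riem (u v w z : V n) : ℝ :=
  (W.D2 v w u z + W.D2 u z v w - W.D2 v z u w - W.D2 u w v z) / 2 +
    (∑ a, ∑ b, (W.Gi (ee a) (ee b)) * (W.chr (ee a) v w * W.chr (ee b) u z
      - W.chr (ee a) v z * W.chr (ee b) u w))

lemma riem_lin : Lin4 W.riem := by
  have c := W.chr_lin
  refine ⟨fun _ _ _ => ?_, fun _ _ _ => ?_, fun _ _ _ => ?_, fun _ _ _ => ?_⟩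
  · exact (((((W.h2.h3 _ _ _).add (W.h2.h1 _ _ _)).sub (W.h2.h3 _ _ _)).sub (W.h2.h1 _ _ _)).div 2).add
      (Lin.sum fun a => Lin.sum fun b => (((c.h2 _ _).mull _).sub ((c.h2 _ _).mull _)).mull _)
  · exact (((((W.h2.h1 _ _ _).add (W.h2.h3 _ _ _)).sub (W.h2.h1 _ _ _)).sub (W.h2.h3 _ _ _)).div 2).add
      (Lin.sum fun a => Lin.sum fun b => (((c.h2 _ _).mulr _).sub ((c.h2 _ _).mulr _)).mull _)
  · exact (((((W.h2.h2 _ _ _).add (W.h2.h4 _ _ _)).sub (W.h2.h4 _ _ _)).sub (W.h2.h2 _ _ _)).div 2).add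
      (Lin.sum fun a => Lin.sum fun b => (((c.h3 _ _).mulr _).sub ((c.h3 _ _).mull _)).mull _)
  · exact (((((W.h2.h4 _ _ _).add (W.h2.h2 _ _ _)).sub (W.h2.h2 _ _ _)).sub (W.h2.h4 _ _ _)).div 2).add
      (Lin.sum fun a => Lin.sum fun b => (((c.h3 _ _).mull _).sub ((c.h3 _ _).mulr _)).mull _)

variable {q : Fin n → V n}

lemma riem_fr (hq : Frame q) (i j k l : Fin n) :
    (W.fr q).riem i j k l = W.riem (q i) (q j) (q k) (q l) := by
  have c := W.chr_lin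
  unfold Jet.riem riem
  congr 1
  exact C2 hq W.hG (Y := fun u v => W.chr u (q j) (q k) * W.chr v (q i) (q l)
      - W.chr u (q j) (q l) * W.chr v (q i) (q k))
    ⟨fun _ => ((c.h1 _ _).mulr _).sub ((c.h1 _ _).mulr _),
     fun _ => ((c.h1 _ _).mull _).sub ((c.h1 _ _).mull _)⟩

noncomputable def ric (v z : V n) : ℝ := ∑ a, ∑ b, W.Gi (ee a) (ee b) * W.riem (ee a) v (ee b) z

lemma ric_lin : Lin2 W.ric :=
  ⟨fun _ => Lin.sum fun _ => Lin.sum fun _ => (W.riem_lin.h2 _ _ _).mull _,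
   fun _ => Lin.sum fun _ => Lin.sum fun _ => (W.riem_lin.h4 _ _ _).mull _⟩

lemma ric_fr (hq : Frame q) (j l : Fin n) : (W.fr q).ric j l = W.ric (q j) (q l) := by
  unfold Jet.ric ric
  simp only [W.riem_fr hq]
  exact C2 hq W.hG (Y := fun u v => W.riem u (q j) v (q l))
    ⟨fun _ => W.riem_lin.h1 _ _ _, fun _ => W.riem_lin.h3 _ _ _⟩

noncomputable def scal : ℝ := ∑ a, ∑ b, W.Gi (ee a) (ee b) * W.ric (ee a) (ee b)

lemma scal_fr (hq : Frame q) : (W.fr q).scal = W.scal := by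
  unfold Jet.scal scal
  simp only [W.ric_fr hq]
  exact C2 hq W.hG W.ric_lin

noncomputable def riemUp (u v w z : V n) : ℝ :=
  ∑ a, ∑ b, ∑ c, ∑ d, W.Gi u (ee a) * W.Gi v (ee b) * W.Gi w (ee c) * W.Gi z (ee d) *
    W.riem (ee a) (ee b) (ee c) (ee d)

lemma riemUp_fr (hq : Frame q) (i j k l : Fin n) :
    (W.fr q).riemUp i j k l = W.riemUp (q i) (q j) (q k) (q l) := by
  unfold Jet.riemUp riemUp
  simp only [W.riem_fr hq]
  exact C4 hq (X := fun a b c d => W.Gi (q i) a * W.Gi (q j) b * W.Gi (q k) c * W.Gi (q l) d)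
    ⟨fun _ _ _ => (((W.hG.h2 _).mulr _).mulr _).mulr _,
     fun _ _ _ => (((W.hG.h2 _).mull _).mulr _).mulr _,
     fun _ _ _ => ((W.hG.h2 _).mull _).mulr _,
     fun _ _ _ => (W.hG.h2 _).mull _⟩ W.riem_lin

lemma riemUp_lin : Lin4 W.riemUp :=
  ⟨fun _ _ _ => Lin.sum fun _ => Lin.sum fun _ => Lin.sum fun _ => Lin.sum fun _ =>
      ((((W.hG.h1 _).mulr _).mulr _).mulr _).mulr _,
   fun _ _ _ => Lin.sum fun _ => Lin.sum fun _ => Lin.sum fun _ => Lin.sum fun _ =>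
      ((((W.hG.h1 _).mull _).mulr _).mulr _).mulr _,
   fun _ _ _ => Lin.sum fun _ => Lin.sum fun _ => Lin.sum fun _ => Lin.sum fun _ =>
      (((W.hG.h1 _).mull _).mulr _).mulr _,
   fun _ _ _ => Lin.sum fun _ => Lin.sum fun _ => Lin.sum fun _ => Lin.sum fun _ =>
      ((W.hG.h1 _).mull _).mulr _⟩

noncomputable def ricUp (u v : V n) : ℝ :=
  ∑ a, ∑ b, W.Gi u (ee a) * W.Gi v (ee b) * W.ric (ee a) (ee b)

lemma ricUp_fr (hq : Frame q) (j k : Fin n) : (W.fr q).ricUp j k = W.ricUp (q j) (q k) := by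
  unfold Jet.ricUp ricUp
  simp only [W.ric_fr hq]
  exact C2 hq (X := fun a b => W.Gi (q j) a * W.Gi (q k) b)
    ⟨fun _ => (W.hG.h2 _).mulr _, fun _ => (W.hG.h2 _).mull _⟩ W.ric_lin

lemma ricUp_lin : Lin2 W.ricUp :=
  ⟨fun _ => Lin.sum fun _ => Lin.sum fun _ => ((W.hG.h1 _).mulr _).mulr _,
   fun _ => Lin.sum fun _ => Lin.sum fun _ => ((W.hG.h1 _).mull _).mulr _⟩

noncomputable def P (u v w z : V n) : ℝ :=
  W.riemUp u v w z + W.ricUp v w * W.Gi u z - W.ricUp v z * W.Gi u w - W.ricUp u w * W.Gi v z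
    + W.ricUp u z * W.Gi v w + W.scal / 2 * (W.Gi u w * W.Gi v z - W.Gi u z * W.Gi v w)

lemma P_fr (hq : Frame q) (i j k l : Fin n) :
    (W.fr q).P i j k l = W.P (q i) (q j) (q k) (q l) := by
  unfold Jet.P P
  simp only [W.riemUp_fr hq, W.ricUp_fr hq, W.scal_fr hq]
  rfl

lemma P_lin : Lin4 W.P := by
  have r := W.riemUp_lin
  have s := W.ricUp_lin
  have g := W.hG
  refine ⟨fun _ _ _ => ?_, fun _ _ _ => ?_, fun _ _ _ => ?_, fun _ _ _ => ?_⟩
  · exact ((((((r.h1 _ _ _).add ((g.h1 _).mull _)).sub ((g.h1 _).mull _)).sub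
      ((s.h1 _).mulr _)).add ((s.h1 _).mulr _))).add
      ((((g.h1 _).mulr _).sub ((g.h1 _).mulr _)).mull _)
  · exact ((((((r.h2 _ _ _).add ((s.h1 _).mulr _)).sub ((s.h1 _).mulr _)).sub
      ((g.h1 _).mull _)).add ((g.h1 _).mull _))).add
      ((((g.h1 _).mull _).sub ((g.h1 _).mull _)).mull _)
  · exact ((((((r.h3 _ _ _).add ((s.h2 _).mulr _)).sub ((g.h2 _).mull _)).sub
      ((s.h2 _).mulr _)).add ((g.h2 _).mull _))).add
      ((((g.h2 _).mulr _).sub ((g.h2 _).mull _)).mull _)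
  · exact ((((((r.h4 _ _ _).add ((g.h2 _).mull _)).sub ((s.h2 _).mulr _)).sub
      ((g.h2 _).mull _)).add ((s.h2 _).mulr _))).add
      ((((g.h2 _).mull _).sub ((g.h2 _).mulr _)).mull _)

lemma L2_fr (hq : Frame q) : (W.fr q).L2 = (W.fr ee).L2 := by
  unfold Jet.L2
  simp only [W.P_fr hq, W.riem_fr hq, W.P_fr frame_ee, W.riem_fr frame_ee]
  exact C4 hq W.P_lin W.riem_lin

lemma scal_fr' (hq : Frame q) : (W.fr q).scal = (W.fr ee).scal := by
  rw [W.scal_fr hq, W.scal_fr frame_ee]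

lemma flux_fr (hq : Frame q) {ν : V n → ℝ} (hν : Lin ν) :
    (W.fr q).flux (fun i => ν (q i)) = (W.fr ee).flux (fun i => ν (ee i)) := by
  unfold Jet.flux
  simp only [W.P_fr hq, W.P_fr frame_ee]
  exact C4 hq W.P_lin (Y := fun u v w z => W.D1 z v w * ν u)
    ⟨fun _ _ _ => hν.mull _, fun _ _ _ => (W.h1.h2 _ _).mulr _, fun _ _ _ => (W.h1.h3 _ _).mulr _,
     fun _ _ _ => (W.h1.h1 _ _).mulr _⟩

end VJet

end H528GBC
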