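import Pool.Agent.H528Z.GbcStd

set_option autoImplicit false
set_option linter.unusedSimpArgs false
set_option linter.unnecessarySeqFocus false
set_option linter.unusedTactic false
set_option linter.unreachableTactic false

namespace H528GBC

variable (p : Par) (r : ℝ)

lemma rm0101 : (std p r).riem 0 1 0 1 = p.k1 r := by
  rw [riem_diag _ _ (std_gi p r)]
  simp only [Fin.sum_univ_six, ch0, ch1, ch2, ch3, ch4, ch5, tabg]
  simp only [std, mkJet, tabx, tabd, tabj, mul_zero, zero_mul, add_zero, zero_add, mul_one, one_mul, sub_zero, sub_self, zero_div, neg_zero,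
    Par.c1, Par.c2, Par.c3, Par.c4, Par.c5, Par.c6, Par.k1, Par.k2, Par.k3, Par.k4, Par.k5, Par.k6]
  try ring

lemma rm0102 : (std p r).riem 0 1 0 2 = 0 := by
  rw [riem_diag _ _ (std_gi p r)]
  simp only [Fin.sum_univ_six, ch0, ch1, ch2, ch3, ch4, ch5, tabg]
  simp only [std, mkJet, tabx, tabd, tabj, mul_zero, zero_mul, add_zero, zero_add, mul_one, one_mul, sub_zero, sub_self, zero_div, neg_zero,
    Par.c1, Par.c2, Par.c3, Par.c4, Par.c5, Par.c6, Par.k1, Par.k2, Par.k3, Par.k4, Par.k5, Par.k6]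
  try ring

lemma rm0103 : (std p r).riem 0 1 0 3 = 0 := by
  rw [riem_diag _ _ (std_gi p r)]
  simp only [Fin.sum_univ_six, ch0, ch1, ch2, ch3, ch4, ch5, tabg]
  simp only [std, mkJet, tabx, tabd, tabj, mul_zero, zero_mul, add_zero, zero_add, mul_one, one_mul, sub_zero, sub_self, zero_div, neg_zero,
    Par.c1, Par.c2, Par.c3, Par.c4, Par.c5, Par.c6, Par.k1, Par.k2, Par.k3, Par.k4, Par.k5, Par.k6]
  try ring

lemma rm0104 : (std p r).riem 0 1 0 4 = 0 := by
  rw [riem_diag _ _ (std_gi p r)]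
  simp only [Fin.sum_univ_six, ch0, ch1, ch2, ch3, ch4, ch5, tabg]
  simp only [std, mkJet, tabx, tabd, tabj, mul_zero, zero_mul, add_zero, zero_add, mul_one, one_mul, sub_zero, sub_self, zero_div, neg_zero,
    Par.c1, Par.c2, Par.c3, Par.c4, Par.c5, Par.c6, Par.k1, Par.k2, Par.k3, Par.k4, Par.k5, Par.k6]
  try ring

lemma rm0105 : (std p r).riem 0 1 0 5 = 0 := by
  rw [riem_diag _ _ (std_gi p r)]
  simp only [Fin.sum_univ_six, ch0, ch1, ch2, ch3, ch4, ch5, tabg]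
  simp only [std, mkJet, tabx, tabd, tabj, mul_zero, zero_mul, add_zero, zero_add, mul_one, one_mul, sub_zero, sub_self, zero_div, neg_zero,
    Par.c1, Par.c2, Par.c3, Par.c4, Par.c5, Par.c6, Par.k1, Par.k2, Par.k3, Par.k4, Par.k5, Par.k6]
  try ring

lemma rm0112 : (std p r).riem 0 1 1 2 = 0 := by
  rw [riem_diag _ _ (std_gi p r)]
  simp only [Fin.sum_univ_six, ch0, ch1, ch2, ch3, ch4, ch5, tabg]
  simp only [std, mkJet, tabx, tabd, tabj, mul_zero, zero_mul, add_zero, zero_add, mul_one, one_mul, sub_zero, sub_self, zero_div, neg_zero,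
    Par.c1, Par.c2, Par.c3, Par.c4, Par.c5, Par.c6, Par.k1, Par.k2, Par.k3, Par.k4, Par.k5, Par.k6]
  try ring

lemma rm0113 : (std p r).riem 0 1 1 3 = 0 := by
  rw [riem_diag _ _ (std_gi p r)]
  simp only [Fin.sum_univ_six, ch0, ch1, ch2, ch3, ch4, ch5, tabg]
  simp only [std, mkJet, tabx, tabd, tabj, mul_zero, zero_mul, add_zero, zero_add, mul_one, one_mul, sub_zero, sub_self, zero_div, neg_zero,
    Par.c1, Par.c2, Par.c3, Par.c4, Par.c5, Par.c6, Par.k1, Par.k2, Par.k3, Par.k4, Par.k5, Par.k6]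
  try ring

lemma rm0114 : (std p r).riem 0 1 1 4 = 0 := by
  rw [riem_diag _ _ (std_gi p r)]
  simp only [Fin.sum_univ_six, ch0, ch1, ch2, ch3, ch4, ch5, tabg]
  simp only [std, mkJet, tabx, tabd, tabj, mul_zero, zero_mul, add_zero, zero_add, mul_one, one_mul, sub_zero, sub_self, zero_div, neg_zero,
    Par.c1, Par.c2, Par.c3, Par.c4, Par.c5, Par.c6, Par.k1, Par.k2, Par.k3, Par.k4, Par.k5, Par.k6]
  try ring

lemma rm0115 : (std p r).riem 0 1 1 5 = 0 := by
  rw [riem_diag _ _ (std_gi p r)]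
  simp only [Fin.sum_univ_six, ch0, ch1, ch2, ch3, ch4, ch5, tabg]
  simp only [std, mkJet, tabx, tabd, tabj, mul_zero, zero_mul, add_zero, zero_add, mul_one, one_mul, sub_zero, sub_self, zero_div, neg_zero,
    Par.c1, Par.c2, Par.c3, Par.c4, Par.c5, Par.c6, Par.k1, Par.k2, Par.k3, Par.k4, Par.k5, Par.k6]
  try ring

lemma rm0123 : (std p r).riem 0 1 2 3 = 2*p.k4 r := by
  rw [riem_diag _ _ (std_gi p r)]
  simp only [Fin.sum_univ_six, ch0, ch1, ch2, ch3, ch4, ch5, tabg]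
  simp only [std, mkJet, tabx, tabd, tabj, mul_zero, zero_mul, add_zero, zero_add, mul_one, one_mul, sub_zero, sub_self, zero_div, neg_zero,
    Par.c1, Par.c2, Par.c3, Par.c4, Par.c5, Par.c6, Par.k1, Par.k2, Par.k3, Par.k4, Par.k5, Par.k6]
  try ring

lemma rm0124 : (std p r).riem 0 1 2 4 = 0 := by
  rw [riem_diag _ _ (std_gi p r)]
  simp only [Fin.sum_univ_six, ch0, ch1, ch2, ch3, ch4, ch5, tabg]
  simp only [std, mkJet, tabx, tabd, tabj, mul_zero, zero_mul, add_zero, zero_add, mul_one, one_mul, sub_zero, sub_self, zero_div, neg_zero,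
    Par.c1, Par.c2, Par.c3, Par.c4, Par.c5, Par.c6, Par.k1, Par.k2, Par.k3, Par.k4, Par.k5, Par.k6]
  try ring

lemma rm0125 : (std p r).riem 0 1 2 5 = 0 := by
  rw [riem_diag _ _ (std_gi p r)]
  simp only [Fin.sum_univ_six, ch0, ch1, ch2, ch3, ch4, ch5, tabg]
  simp only [std, mkJet, tabx, tabd, tabj, mul_zero, zero_mul, add_zero, zero_add, mul_one, one_mul, sub_zero, sub_self, zero_div, neg_zero,
    Par.c1, Par.c2, Par.c3, Par.c4, Par.c5, Par.c6, Par.k1, Par.k2, Par.k3, Par.k4, Par.k5, Par.k6]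
  try ring

lemma rm0134 : (std p r).riem 0 1 3 4 = 0 := by
  rw [riem_diag _ _ (std_gi p r)]
  simp only [Fin.sum_univ_six, ch0, ch1, ch2, ch3, ch4, ch5, tabg]
  simp only [std, mkJet, tabx, tabd, tabj, mul_zero, zero_mul, add_zero, zero_add, mul_one, one_mul, sub_zero, sub_self, zero_div, neg_zero,
    Par.c1, Par.c2, Par.c3, Par.c4, Par.c5, Par.c6, Par.k1, Par.k2, Par.k3, Par.k4, Par.k5, Par.k6]
  try ring

lemma rm0135 : (std p r).riem 0 1 3 5 = 0 := by
  rw [riem_diag _ _ (std_gi p r)]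
  simp only [Fin.sum_univ_six, ch0, ch1, ch2, ch3, ch4, ch5, tabg]
  simp only [std, mkJet, tabx, tabd, tabj, mul_zero, zero_mul, add_zero, zero_add, mul_one, one_mul, sub_zero, sub_self, zero_div, neg_zero,
    Par.c1, Par.c2, Par.c3, Par.c4, Par.c5, Par.c6, Par.k1, Par.k2, Par.k3, Par.k4, Par.k5, Par.k6]
  try ring

lemma rm0145 : (std p r).riem 0 1 4 5 = 2*p.k4 r := by
  rw [riem_diag _ _ (std_gi p r)]
  simp only [Fin.sum_univ_six, ch0, ch1, ch2, ch3, ch4, ch5, tabg]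
  simp only [std, mkJet, tabx, tabd, tabj, mul_zero, zero_mul, add_zero, zero_add, mul_one, one_mul, sub_zero, sub_self, zero_div, neg_zero,
    Par.c1, Par.c2, Par.c3, Par.c4, Par.c5, Par.c6, Par.k1, Par.k2, Par.k3, Par.k4, Par.k5, Par.k6]
  try ring

lemma rm0201 : (std p r).riem 0 2 0 1 = 0 := by
  rw [riem_diag _ _ (std_gi p r)]
  simp only [Fin.sum_univ_six, ch0, ch1, ch2, ch3, ch4, ch5, tabg]
  simp only [std, mkJet, tabx, tabd, tabj, mul_zero, zero_mul, add_zero, zero_add, mul_one, one_mul, sub_zero, sub_self, zero_div, neg_zero,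
    Par.c1, Par.c2, Par.c3, Par.c4, Par.c5, Par.c6, Par.k1, Par.k2, Par.k3, Par.k4, Par.k5, Par.k6]
  try ring

lemma rm0202 : (std p r).riem 0 2 0 2 = p.k2 r := by
  rw [riem_diag _ _ (std_gi p r)]
  simp only [Fin.sum_univ_six, ch0, ch1, ch2, ch3, ch4, ch5, tabg]
  simp only [std, mkJet, tabx, tabd, tabj, mul_zero, zero_mul, add_zero, zero_add, mul_one, one_mul, sub_zero, sub_self, zero_div, neg_zero,
    Par.c1, Par.c2, Par.c3, Par.c4, Par.c5, Par.c6, Par.k1, Par.k2, Par.k3, Par.k4, Par.k5, Par.k6]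
  try ring

lemma rm0203 : (std p r).riem 0 2 0 3 = 0 := by
  rw [riem_diag _ _ (std_gi p r)]
  simp only [Fin.sum_univ_six, ch0, ch1, ch2, ch3, ch4, ch5, tabg]
  simp only [std, mkJet, tabx, tabd, tabj, mul_zero, zero_mul, add_zero, zero_add, mul_one, one_mul, sub_zero, sub_self, zero_div, neg_zero,
    Par.c1, Par.c2, Par.c3, Par.c4, Par.c5, Par.c6, Par.k1, Par.k2, Par.k3, Par.k4, Par.k5, Par.k6]
  try ring

lemma rm0204 : (std p r).riem 0 2 0 4 = 0 := by
  rw [riem_diag _ _ (std_gi p r)]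
  simp only [Fin.sum_univ_six, ch0, ch1, ch2, ch3, ch4, ch5, tabg]
  simp only [std, mkJet, tabx, tabd, tabj, mul_zero, zero_mul, add_zero, zero_add, mul_one, one_mul, sub_zero, sub_self, zero_div, neg_zero,
    Par.c1, Par.c2, Par.c3, Par.c4, Par.c5, Par.c6, Par.k1, Par.k2, Par.k3, Par.k4, Par.k5, Par.k6]
  try ring

lemma rm0205 : (std p r).riem 0 2 0 5 = 0 := by
  rw [riem_diag _ _ (std_gi p r)]
  simp only [Fin.sum_univ_six, ch0, ch1, ch2, ch3, ch4, ch5, tabg]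
  simp only [std, mkJet, tabx, tabd, tabj, mul_zero, zero_mul, add_zero, zero_add, mul_one, one_mul, sub_zero, sub_self, zero_div, neg_zero,
    Par.c1, Par.c2, Par.c3, Par.c4, Par.c5, Par.c6, Par.k1, Par.k2, Par.k3, Par.k4, Par.k5, Par.k6]
  try ring

lemma rm0212 : (std p r).riem 0 2 1 2 = 0 := by
  rw [riem_diag _ _ (std_gi p r)]
  simp only [Fin.sum_univ_six, ch0, ch1, ch2, ch3, ch4, ch5, tabg]
  simp only [std, mkJet, tabx, tabd, tabj, mul_zero, zero_mul, add_zero, zero_add, mul_one, one_mul, sub_zero, sub_self, zero_div, neg_zero,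
    Par.c1, Par.c2, Par.c3, Par.c4, Par.c5, Par.c6, Par.k1, Par.k2, Par.k3, Par.k4, Par.k5, Par.k6]
  try ring

lemma rm0213 : (std p r).riem 0 2 1 3 = p.k4 r := by
  rw [riem_diag _ _ (std_gi p r)]
  simp only [Fin.sum_univ_six, ch0, ch1, ch2, ch3, ch4, ch5, tabg]
  simp only [std, mkJet, tabx, tabd, tabj, mul_zero, zero_mul, add_zero, zero_add, mul_one, one_mul, sub_zero, sub_self, zero_div, neg_zero,
    Par.c1, Par.c2, Par.c3, Par.c4, Par.c5, Par.c6, Par.k1, Par.k2, Par.k3, Par.k4, Par.k5, Par.k6]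
  try ring

lemma rm0214 : (std p r).riem 0 2 1 4 = 0 := by
  rw [riem_diag _ _ (std_gi p r)]
  simp only [Fin.sum_univ_six, ch0, ch1, ch2, ch3, ch4, ch5, tabg]
  simp only [std, mkJet, tabx, tabd, tabj, mul_zero, zero_mul, add_zero, zero_add, mul_one, one_mul, sub_zero, sub_self, zero_div, neg_zero,
    Par.c1, Par.c2, Par.c3, Par.c4, Par.c5, Par.c6, Par.k1, Par.k2, Par.k3, Par.k4, Par.k5, Par.k6]
  try ring

lemma rm0215 : (std p r).riem 0 2 1 5 = 0 := by
  rw [riem_diag _ _ (std_gi p r)]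
  simp only [Fin.sum_univ_six, ch0, ch1, ch2, ch3, ch4, ch5, tabg]
  simp only [std, mkJet, tabx, tabd, tabj, mul_zero, zero_mul, add_zero, zero_add, mul_one, one_mul, sub_zero, sub_self, zero_div, neg_zero,
    Par.c1, Par.c2, Par.c3, Par.c4, Par.c5, Par.c6, Par.k1, Par.k2, Par.k3, Par.k4, Par.k5, Par.k6]
  try ring

lemma rm0223 : (std p r).riem 0 2 2 3 = 0 := by
  rw [riem_diag _ _ (std_gi p r)]
  simp only [Fin.sum_univ_six, ch0, ch1, ch2, ch3, ch4, ch5, tabg]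
  simp only [std, mkJet, tabx, tabd, tabj, mul_zero, zero_mul, add_zero, zero_add, mul_one, one_mul, sub_zero, sub_self, zero_div, neg_zero,
    Par.c1, Par.c2, Par.c3, Par.c4, Par.c5, Par.c6, Par.k1, Par.k2, Par.k3, Par.k4, Par.k5, Par.k6]
  try ring

lemma rm0224 : (std p r).riem 0 2 2 4 = 0 := by
  rw [riem_diag _ _ (std_gi p r)]
  simp only [Fin.sum_univ_six, ch0, ch1, ch2, ch3, ch4, ch5, tabg]
  simp only [std, mkJet, tabx, tabd, tabj, mul_zero, zero_mul, add_zero, zero_add, mul_one, one_mul, sub_zero, sub_self, zero_div, neg_zero,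
    Par.c1, Par.c2, Par.c3, Par.c4, Par.c5, Par.c6, Par.k1, Par.k2, Par.k3, Par.k4, Par.k5, Par.k6]
  try ring

lemma rm0225 : (std p r).riem 0 2 2 5 = 0 := by
  rw [riem_diag _ _ (std_gi p r)]
  simp only [Fin.sum_univ_six, ch0, ch1, ch2, ch3, ch4, ch5, tabg]
  simp only [std, mkJet, tabx, tabd, tabj, mul_zero, zero_mul, add_zero, zero_add, mul_one, one_mul, sub_zero, sub_self, zero_div, neg_zero,
    Par.c1, Par.c2, Par.c3, Par.c4, Par.c5, Par.c6, Par.k1, Par.k2, Par.k3, Par.k4, Par.k5, Par.k6]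
  try ring

lemma rm0234 : (std p r).riem 0 2 3 4 = 0 := by
  rw [riem_diag _ _ (std_gi p r)]
  simp only [Fin.sum_univ_six, ch0, ch1, ch2, ch3, ch4, ch5, tabg]
  simp only [std, mkJet, tabx, tabd, tabj, mul_zero, zero_mul, add_zero, zero_add, mul_one, one_mul, sub_zero, sub_self, zero_div, neg_zero,
    Par.c1, Par.c2, Par.c3, Par.c4, Par.c5, Par.c6, Par.k1, Par.k2, Par.k3, Par.k4, Par.k5, Par.k6]
  try ring

lemma rm0235 : (std p r).riem 0 2 3 5 = 0 := by
  rw [riem_diag _ _ (std_gi p r)]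
  simp only [Fin.sum_univ_six, ch0, ch1, ch2, ch3, ch4, ch5, tabg]
  simp only [std, mkJet, tabx, tabd, tabj, mul_zero, zero_mul, add_zero, zero_add, mul_one, one_mul, sub_zero, sub_self, zero_div, neg_zero,
    Par.c1, Par.c2, Par.c3, Par.c4, Par.c5, Par.c6, Par.k1, Par.k2, Par.k3, Par.k4, Par.k5, Par.k6]
  try ring

lemma rm0245 : (std p r).riem 0 2 4 5 = 0 := by
  rw [riem_diag _ _ (std_gi p r)]
  simp only [Fin.sum_univ_six, ch0, ch1, ch2, ch3, ch4, ch5, tabg]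
  simp only [std, mkJet, tabx, tabd, tabj, mul_zero, zero_mul, add_zero, zero_add, mul_one, one_mul, sub_zero, sub_self, zero_div, neg_zero,
    Par.c1, Par.c2, Par.c3, Par.c4, Par.c5, Par.c6, Par.k1, Par.k2, Par.k3, Par.k4, Par.k5, Par.k6]
  try ring

lemma rm0301 : (std p r).riem 0 3 0 1 = 0 := by
  rw [riem_diag _ _ (std_gi p r)]
  simp only [Fin.sum_univ_six, ch0, ch1, ch2, ch3, ch4, ch5, tabg]
  simp only [std, mkJet, tabx, tabd, tabj, mul_zero, zero_mul, add_zero, zero_add, mul_one, one_mul, sub_zero, sub_self, zero_div, neg_zero,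
    Par.c1, Par.c2, Par.c3, Par.c4, Par.c5, Par.c6, Par.k1, Par.k2, Par.k3, Par.k4, Par.k5, Par.k6]
  try ring

lemma rm0302 : (std p r).riem 0 3 0 2 = 0 := by
  rw [riem_diag _ _ (std_gi p r)]
  simp only [Fin.sum_univ_six, ch0, ch1, ch2, ch3, ch4, ch5, tabg]
  simp only [std, mkJet, tabx, tabd, tabj, mul_zero, zero_mul, add_zero, zero_add, mul_one, one_mul, sub_zero, sub_self, zero_div, neg_zero,
    Par.c1, Par.c2, Par.c3, Par.c4, Par.c5, Par.c6, Par.k1, Par.k2, Par.k3, Par.k4, Par.k5, Par.k6]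
  try ring

lemma rm0303 : (std p r).riem 0 3 0 3 = p.k2 r := by
  rw [riem_diag _ _ (std_gi p r)]
  simp only [Fin.sum_univ_six, ch0, ch1, ch2, ch3, ch4, ch5, tabg]
  simp only [std, mkJet, tabx, tabd, tabj, mul_zero, zero_mul, add_zero, zero_add, mul_one, one_mul, sub_zero, sub_self, zero_div, neg_zero,
    Par.c1, Par.c2, Par.c3, Par.c4, Par.c5, Par.c6, Par.k1, Par.k2, Par.k3, Par.k4, Par.k5, Par.k6]
  try ring

lemma rm0304 : (std p r).riem 0 3 0 4 = 0 := by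
  rw [riem_diag _ _ (std_gi p r)]
  simp only [Fin.sum_univ_six, ch0, ch1, ch2, ch3, ch4, ch5, tabg]
  simp only [std, mkJet, tabx, tabd, tabj, mul_zero, zero_mul, add_zero, zero_add, mul_one, one_mul, sub_zero, sub_self, zero_div, neg_zero,
    Par.c1, Par.c2, Par.c3, Par.c4, Par.c5, Par.c6, Par.k1, Par.k2, Par.k3, Par.k4, Par.k5, Par.k6]
  try ring

lemma rm0305 : (std p r).riem 0 3 0 5 = 0 := by
  rw [riem_diag _ _ (std_gi p r)]
  simp only [Fin.sum_univ_six, ch0, ch1, ch2, ch3, ch4, ch5, tabg]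
  simp only [std, mkJet, tabx, tabd, tabj, mul_zero, zero_mul, add_zero, zero_add, mul_one, one_mul, sub_zero, sub_self, zero_div, neg_zero,
    Par.c1, Par.c2, Par.c3, Par.c4, Par.c5, Par.c6, Par.k1, Par.k2, Par.k3, Par.k4, Par.k5, Par.k6]
  try ring

lemma rm0312 : (std p r).riem 0 3 1 2 = -p.k4 r := by
  rw [riem_diag _ _ (std_gi p r)]
  simp only [Fin.sum_univ_six, ch0, ch1, ch2, ch3, ch4, ch5, tabg]
  simp only [std, mkJet, tabx, tabd, tabj, mul_zero, zero_mul, add_zero, zero_add, mul_one, one_mul, sub_zero, sub_self, zero_div, neg_zero,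
    Par.c1, Par.c2, Par.c3, Par.c4, Par.c5, Par.c6, Par.k1, Par.k2, Par.k3, Par.k4, Par.k5, Par.k6]
  try ring

lemma rm0313 : (std p r).riem 0 3 1 3 = 0 := by
  rw [riem_diag _ _ (std_gi p r)]
  simp only [Fin.sum_univ_six, ch0, ch1, ch2, ch3, ch4, ch5, tabg]
  simp only [std, mkJet, tabx, tabd, tabj, mul_zero, zero_mul, add_zero, zero_add, mul_one, one_mul, sub_zero, sub_self, zero_div, neg_zero,
    Par.c1, Par.c2, Par.c3, Par.c4, Par.c5, Par.c6, Par.k1, Par.k2, Par.k3, Par.k4, Par.k5, Par.k6]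
  try ring

lemma rm0314 : (std p r).riem 0 3 1 4 = 0 := by
  rw [riem_diag _ _ (std_gi p r)]
  simp only [Fin.sum_univ_six, ch0, ch1, ch2, ch3, ch4, ch5, tabg]
  simp only [std, mkJet, tabx, tabd, tabj, mul_zero, zero_mul, add_zero, zero_add, mul_one, one_mul, sub_zero, sub_self, zero_div, neg_zero,
    Par.c1, Par.c2, Par.c3, Par.c4, Par.c5, Par.c6, Par.k1, Par.k2, Par.k3, Par.k4, Par.k5, Par.k6]
  try ring

lemma rm0315 : (std p r).riem 0 3 1 5 = 0 := by
  rw [riem_diag _ _ (std_gi p r)]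
  simp only [Fin.sum_univ_six, ch0, ch1, ch2, ch3, ch4, ch5, tabg]
  simp only [std, mkJet, tabx, tabd, tabj, mul_zero, zero_mul, add_zero, zero_add, mul_one, one_mul, sub_zero, sub_self, zero_div, neg_zero,
    Par.c1, Par.c2, Par.c3, Par.c4, Par.c5, Par.c6, Par.k1, Par.k2, Par.k3, Par.k4, Par.k5, Par.k6]
  try ring

lemma rm0323 : (std p r).riem 0 3 2 3 = 0 := by
  rw [riem_diag _ _ (std_gi p r)]
  simp only [Fin.sum_univ_six, ch0, ch1, ch2, ch3, ch4, ch5, tabg]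
  simp only [std, mkJet, tabx, tabd, tabj, mul_zero, zero_mul, add_zero, zero_add, mul_one, one_mul, sub_zero, sub_self, zero_div, neg_zero,
    Par.c1, Par.c2, Par.c3, Par.c4, Par.c5, Par.c6, Par.k1, Par.k2, Par.k3, Par.k4, Par.k5, Par.k6]
  try ring

lemma rm0324 : (std p r).riem 0 3 2 4 = 0 := by
  rw [riem_diag _ _ (std_gi p r)]
  simp only [Fin.sum_univ_six, ch0, ch1, ch2, ch3, ch4, ch5, tabg]
  simp only [std, mkJet, tabx, tabd, tabj, mul_zero, zero_mul, add_zero, zero_add, mul_one, one_mul, sub_zero, sub_self, zero_div, neg_zero,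
    Par.c1, Par.c2, Par.c3, Par.c4, Par.c5, Par.c6, Par.k1, Par.k2, Par.k3, Par.k4, Par.k5, Par.k6]
  try ring

lemma rm0325 : (std p r).riem 0 3 2 5 = 0 := by
  rw [riem_diag _ _ (std_gi p r)]
  simp only [Fin.sum_univ_six, ch0, ch1, ch2, ch3, ch4, ch5, tabg]
  simp only [std, mkJet, tabx, tabd, tabj, mul_zero, zero_mul, add_zero, zero_add, mul_one, one_mul, sub_zero, sub_self, zero_div, neg_zero,
    Par.c1, Par.c2, Par.c3, Par.c4, Par.c5, Par.c6, Par.k1, Par.k2, Par.k3, Par.k4, Par.k5, Par.k6]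
  try ring

lemma rm0334 : (std p r).riem 0 3 3 4 = 0 := by
  rw [riem_diag _ _ (std_gi p r)]
  simp only [Fin.sum_univ_six, ch0, ch1, ch2, ch3, ch4, ch5, tabg]
  simp only [std, mkJet, tabx, tabd, tabj, mul_zero, zero_mul, add_zero, zero_add, mul_one, one_mul, sub_zero, sub_self, zero_div, neg_zero,
    Par.c1, Par.c2, Par.c3, Par.c4, Par.c5, Par.c6, Par.k1, Par.k2, Par.k3, Par.k4, Par.k5, Par.k6]
  try ring

lemma rm0335 : (std p r).riem 0 3 3 5 = 0 := by
  rw [riem_diag _ _ (std_gi p r)]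
  simp only [Fin.sum_univ_six, ch0, ch1, ch2, ch3, ch4, ch5, tabg]
  simp only [std, mkJet, tabx, tabd, tabj, mul_zero, zero_mul, add_zero, zero_add, mul_one, one_mul, sub_zero, sub_self, zero_div, neg_zero,
    Par.c1, Par.c2, Par.c3, Par.c4, Par.c5, Par.c6, Par.k1, Par.k2, Par.k3, Par.k4, Par.k5, Par.k6]
  try ring

lemma rm0345 : (std p r).riem 0 3 4 5 = 0 := by
  rw [riem_diag _ _ (std_gi p r)]
  simp only [Fin.sum_univ_six, ch0, ch1, ch2, ch3, ch4, ch5, tabg]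
  simp only [std, mkJet, tabx, tabd, tabj, mul_zero, zero_mul, add_zero, zero_add, mul_one, one_mul, sub_zero, sub_self, zero_div, neg_zero,
    Par.c1, Par.c2, Par.c3, Par.c4, Par.c5, Par.c6, Par.k1, Par.k2, Par.k3, Par.k4, Par.k5, Par.k6]
  try ring

lemma rm0401 : (std p r).riem 0 4 0 1 = 0 := by
  rw [riem_diag _ _ (std_gi p r)]
  simp only [Fin.sum_univ_six, ch0, ch1, ch2, ch3, ch4, ch5, tabg]
  simp only [std, mkJet, tabx, tabd, tabj, mul_zero, zero_mul, add_zero, zero_add, mul_one, one_mul, sub_zero, sub_self, zero_div, neg_zero,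
    Par.c1, Par.c2, Par.c3, Par.c4, Par.c5, Par.c6, Par.k1, Par.k2, Par.k3, Par.k4, Par.k5, Par.k6]
  try ring

lemma rm0402 : (std p r).riem 0 4 0 2 = 0 := by
  rw [riem_diag _ _ (std_gi p r)]
  simp only [Fin.sum_univ_six, ch0, ch1, ch2, ch3, ch4, ch5, tabg]
  simp only [std, mkJet, tabx, tabd, tabj, mul_zero, zero_mul, add_zero, zero_add, mul_one, one_mul, sub_zero, sub_self, zero_div, neg_zero,
    Par.c1, Par.c2, Par.c3, Par.c4, Par.c5, Par.c6, Par.k1, Par.k2, Par.k3, Par.k4, Par.k5, Par.k6]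
  try ring

lemma rm0403 : (std p r).riem 0 4 0 3 = 0 := by
  rw [riem_diag _ _ (std_gi p r)]
  simp only [Fin.sum_univ_six, ch0, ch1, ch2, ch3, ch4, ch5, tabg]
  simp only [std, mkJet, tabx, tabd, tabj, mul_zero, zero_mul, add_zero, zero_add, mul_one, one_mul, sub_zero, sub_self, zero_div, neg_zero,
    Par.c1, Par.c2, Par.c3, Par.c4, Par.c5, Par.c6, Par.k1, Par.k2, Par.k3, Par.k4, Par.k5, Par.k6]
  try ring

lemma rm0404 : (std p r).riem 0 4 0 4 = p.k2 r := by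
  rw [riem_diag _ _ (std_gi p r)]
  simp only [Fin.sum_univ_six, ch0, ch1, ch2, ch3, ch4, ch5, tabg]
  simp only [std, mkJet, tabx, tabd, tabj, mul_zero, zero_mul, add_zero, zero_add, mul_one, one_mul, sub_zero, sub_self, zero_div, neg_zero,
    Par.c1, Par.c2, Par.c3, Par.c4, Par.c5, Par.c6, Par.k1, Par.k2, Par.k3, Par.k4, Par.k5, Par.k6]
  try ring

lemma rm0405 : (std p r).riem 0 4 0 5 = 0 := by
  rw [riem_diag _ _ (std_gi p r)]
  simp only [Fin.sum_univ_six, ch0, ch1, ch2, ch3, ch4, ch5, tabg]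
  simp only [std, mkJet, tabx, tabd, tabj, mul_zero, zero_mul, add_zero, zero_add, mul_one, one_mul, sub_zero, sub_self, zero_div, neg_zero,
    Par.c1, Par.c2, Par.c3, Par.c4, Par.c5, Par.c6, Par.k1, Par.k2, Par.k3, Par.k4, Par.k5, Par.k6]
  try ring

lemma rm0412 : (std p r).riem 0 4 1 2 = 0 := by
  rw [riem_diag _ _ (std_gi p r)]
  simp only [Fin.sum_univ_six, ch0, ch1, ch2, ch3, ch4, ch5, tabg]
  simp only [std, mkJet, tabx, tabd, tabj, mul_zero, zero_mul, add_zero, zero_add, mul_one, one_mul, sub_zero, sub_self, zero_div, neg_zero,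
    Par.c1, Par.c2, Par.c3, Par.c4, Par.c5, Par.c6, Par.k1, Par.k2, Par.k3, Par.k4, Par.k5, Par.k6]
  try ring

lemma rm0413 : (std p r).riem 0 4 1 3 = 0 := by
  rw [riem_diag _ _ (std_gi p r)]
  simp only [Fin.sum_univ_six, ch0, ch1, ch2, ch3, ch4, ch5, tabg]
  simp only [std, mkJet, tabx, tabd, tabj, mul_zero, zero_mul, add_zero, zero_add, mul_one, one_mul, sub_zero, sub_self, zero_div, neg_zero,
    Par.c1, Par.c2, Par.c3, Par.c4, Par.c5, Par.c6, Par.k1, Par.k2, Par.k3, Par.k4, Par.k5, Par.k6]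
  try ring

lemma rm0414 : (std p r).riem 0 4 1 4 = 0 := by
  rw [riem_diag _ _ (std_gi p r)]
  simp only [Fin.sum_univ_six, ch0, ch1, ch2, ch3, ch4, ch5, tabg]
  simp only [std, mkJet, tabx, tabd, tabj, mul_zero, zero_mul, add_zero, zero_add, mul_one, one_mul, sub_zero, sub_self, zero_div, neg_zero,
    Par.c1, Par.c2, Par.c3, Par.c4, Par.c5, Par.c6, Par.k1, Par.k2, Par.k3, Par.k4, Par.k5, Par.k6]
  try ring

lemma rm0415 : (std p r).riem 0 4 1 5 = p.k4 r := by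
  rw [riem_diag _ _ (std_gi p r)]
  simp only [Fin.sum_univ_six, ch0, ch1, ch2, ch3, ch4, ch5, tabg]
  simp only [std, mkJet, tabx, tabd, tabj, mul_zero, zero_mul, add_zero, zero_add, mul_one, one_mul, sub_zero, sub_self, zero_div, neg_zero,
    Par.c1, Par.c2, Par.c3, Par.c4, Par.c5, Par.c6, Par.k1, Par.k2, Par.k3, Par.k4, Par.k5, Par.k6]
  try ring

lemma rm0423 : (std p r).riem 0 4 2 3 = 0 := by
  rw [riem_diag _ _ (std_gi p r)]
  simp only [Fin.sum_univ_six, ch0, ch1, ch2, ch3, ch4, ch5, tabg]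
  simp only [std, mkJet, tabx, tabd, tabj, mul_zero, zero_mul, add_zero, zero_add, mul_one, one_mul, sub_zero, sub_self, zero_div, neg_zero,
    Par.c1, Par.c2, Par.c3, Par.c4, Par.c5, Par.c6, Par.k1, Par.k2, Par.k3, Par.k4, Par.k5, Par.k6]
  try ring

lemma rm0424 : (std p r).riem 0 4 2 4 = 0 := by
  rw [riem_diag _ _ (std_gi p r)]
  simp only [Fin.sum_univ_six, ch0, ch1, ch2, ch3, ch4, ch5, tabg]
  simp only [std, mkJet, tabx, tabd, tabj, mul_zero, zero_mul, add_zero, zero_add, mul_one, one_mul, sub_zero, sub_self, zero_div, neg_zero,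
    Par.c1, Par.c2, Par.c3, Par.c4, Par.c5, Par.c6, Par.k1, Par.k2, Par.k3, Par.k4, Par.k5, Par.k6]
  try ring

lemma rm0425 : (std p r).riem 0 4 2 5 = 0 := by
  rw [riem_diag _ _ (std_gi p r)]
  simp only [Fin.sum_univ_six, ch0, ch1, ch2, ch3, ch4, ch5, tabg]
  simp only [std, mkJet, tabx, tabd, tabj, mul_zero, zero_mul, add_zero, zero_add, mul_one, one_mul, sub_zero, sub_self, zero_div, neg_zero,
    Par.c1, Par.c2, Par.c3, Par.c4, Par.c5, Par.c6, Par.k1, Par.k2, Par.k3, Par.k4, Par.k5, Par.k6]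
  try ring

lemma rm0434 : (std p r).riem 0 4 3 4 = 0 := by
  rw [riem_diag _ _ (std_gi p r)]
  simp only [Fin.sum_univ_six, ch0, ch1, ch2, ch3, ch4, ch5, tabg]
  simp only [std, mkJet, tabx, tabd, tabj, mul_zero, zero_mul, add_zero, zero_add, mul_one, one_mul, sub_zero, sub_self, zero_div, neg_zero,
    Par.c1, Par.c2, Par.c3, Par.c4, Par.c5, Par.c6, Par.k1, Par.k2, Par.k3, Par.k4, Par.k5, Par.k6]
  try ring

lemma rm0435 : (std p r).riem 0 4 3 5 = 0 := by
  rw [riem_diag _ _ (std_gi p r)]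
  simp only [Fin.sum_univ_six, ch0, ch1, ch2, ch3, ch4, ch5, tabg]
  simp only [std, mkJet, tabx, tabd, tabj, mul_zero, zero_mul, add_zero, zero_add, mul_one, one_mul, sub_zero, sub_self, zero_div, neg_zero,
    Par.c1, Par.c2, Par.c3, Par.c4, Par.c5, Par.c6, Par.k1, Par.k2, Par.k3, Par.k4, Par.k5, Par.k6]
  try ring

lemma rm0445 : (std p r).riem 0 4 4 5 = 0 := by
  rw [riem_diag _ _ (std_gi p r)]
  simp only [Fin.sum_univ_six, ch0, ch1, ch2, ch3, ch4, ch5, tabg]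
  simp only [std, mkJet, tabx, tabd, tabj, mul_zero, zero_mul, add_zero, zero_add, mul_one, one_mul, sub_zero, sub_self, zero_div, neg_zero,
    Par.c1, Par.c2, Par.c3, Par.c4, Par.c5, Par.c6, Par.k1, Par.k2, Par.k3, Par.k4, Par.k5, Par.k6]
  try ring

lemma rm0501 : (std p r).riem 0 5 0 1 = 0 := by
  rw [riem_diag _ _ (std_gi p r)]
  simp only [Fin.sum_univ_six, ch0, ch1, ch2, ch3, ch4, ch5, tabg]
  simp only [std, mkJet, tabx, tabd, tabj, mul_zero, zero_mul, add_zero, zero_add, mul_one, one_mul, sub_zero, sub_self, zero_div, neg_zero,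
    Par.c1, Par.c2, Par.c3, Par.c4, Par.c5, Par.c6, Par.k1, Par.k2, Par.k3, Par.k4, Par.k5, Par.k6]
  try ring

lemma rm0502 : (std p r).riem 0 5 0 2 = 0 := by
  rw [riem_diag _ _ (std_gi p r)]
  simp only [Fin.sum_univ_six, ch0, ch1, ch2, ch3, ch4, ch5, tabg]
  simp only [std, mkJet, tabx, tabd, tabj, mul_zero, zero_mul, add_zero, zero_add, mul_one, one_mul, sub_zero, sub_self, zero_div, neg_zero,
    Par.c1, Par.c2, Par.c3, Par.c4, Par.c5, Par.c6, Par.k1, Par.k2, Par.k3, Par.k4, Par.k5, Par.k6]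
  try ring

lemma rm0503 : (std p r).riem 0 5 0 3 = 0 := by
  rw [riem_diag _ _ (std_gi p r)]
  simp only [Fin.sum_univ_six, ch0, ch1, ch2, ch3, ch4, ch5, tabg]
  simp only [std, mkJet, tabx, tabd, tabj, mul_zero, zero_mul, add_zero, zero_add, mul_one, one_mul, sub_zero, sub_self, zero_div, neg_zero,
    Par.c1, Par.c2, Par.c3, Par.c4, Par.c5, Par.c6, Par.k1, Par.k2, Par.k3, Par.k4, Par.k5, Par.k6]
  try ring

lemma rm0504 : (std p r).riem 0 5 0 4 = 0 := by
  rw [riem_diag _ _ (std_gi p r)]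
  simp only [Fin.sum_univ_six, ch0, ch1, ch2, ch3, ch4, ch5, tabg]
  simp only [std, mkJet, tabx, tabd, tabj, mul_zero, zero_mul, add_zero, zero_add, mul_one, one_mul, sub_zero, sub_self, zero_div, neg_zero,
    Par.c1, Par.c2, Par.c3, Par.c4, Par.c5, Par.c6, Par.k1, Par.k2, Par.k3, Par.k4, Par.k5, Par.k6]
  try ring

lemma rm0505 : (std p r).riem 0 5 0 5 = p.k2 r := by
  rw [riem_diag _ _ (std_gi p r)]
  simp only [Fin.sum_univ_six, ch0, ch1, ch2, ch3, ch4, ch5, tabg]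
  simp only [std, mkJet, tabx, tabd, tabj, mul_zero, zero_mul, add_zero, zero_add, mul_one, one_mul, sub_zero, sub_self, zero_div, neg_zero,
    Par.c1, Par.c2, Par.c3, Par.c4, Par.c5, Par.c6, Par.k1, Par.k2, Par.k3, Par.k4, Par.k5, Par.k6]
  try ring

lemma rm0512 : (std p r).riem 0 5 1 2 = 0 := by
  rw [riem_diag _ _ (std_gi p r)]
  simp only [Fin.sum_univ_six, ch0, ch1, ch2, ch3, ch4, ch5, tabg]
  simp only [std, mkJet, tabx, tabd, tabj, mul_zero, zero_mul, add_zero, zero_add, mul_one, one_mul, sub_zero, sub_self, zero_div, neg_zero,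
    Par.c1, Par.c2, Par.c3, Par.c4, Par.c5, Par.c6, Par.k1, Par.k2, Par.k3, Par.k4, Par.k5, Par.k6]
  try ring

lemma rm0513 : (std p r).riem 0 5 1 3 = 0 := by
  rw [riem_diag _ _ (std_gi p r)]
  simp only [Fin.sum_univ_six, ch0, ch1, ch2, ch3, ch4, ch5, tabg]
  simp only [std, mkJet, tabx, tabd, tabj, mul_zero, zero_mul, add_zero, zero_add, mul_one, one_mul, sub_zero, sub_self, zero_div, neg_zero,
    Par.c1, Par.c2, Par.c3, Par.c4, Par.c5, Par.c6, Par.k1, Par.k2, Par.k3, Par.k4, Par.k5, Par.k6]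
  try ring

lemma rm0514 : (std p r).riem 0 5 1 4 = -p.k4 r := by
  rw [riem_diag _ _ (std_gi p r)]
  simp only [Fin.sum_univ_six, ch0, ch1, ch2, ch3, ch4, ch5, tabg]
  simp only [std, mkJet, tabx, tabd, tabj, mul_zero, zero_mul, add_zero, zero_add, mul_one, one_mul, sub_zero, sub_self, zero_div, neg_zero,
    Par.c1, Par.c2, Par.c3, Par.c4, Par.c5, Par.c6, Par.k1, Par.k2, Par.k3, Par.k4, Par.k5, Par.k6]
  try ring

lemma rm0515 : (std p r).riem 0 5 1 5 = 0 := by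
  rw [riem_diag _ _ (std_gi p r)]
  simp only [Fin.sum_univ_six, ch0, ch1, ch2, ch3, ch4, ch5, tabg]
  simp only [std, mkJet, tabx, tabd, tabj, mul_zero, zero_mul, add_zero, zero_add, mul_one, one_mul, sub_zero, sub_self, zero_div, neg_zero,
    Par.c1, Par.c2, Par.c3, Par.c4, Par.c5, Par.c6, Par.k1, Par.k2, Par.k3, Par.k4, Par.k5, Par.k6]
  try ring

lemma rm0523 : (std p r).riem 0 5 2 3 = 0 := by
  rw [riem_diag _ _ (std_gi p r)]
  simp only [Fin.sum_univ_six, ch0, ch1, ch2, ch3, ch4, ch5, tabg]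
  simp only [std, mkJet, tabx, tabd, tabj, mul_zero, zero_mul, add_zero, zero_add, mul_one, one_mul, sub_zero, sub_self, zero_div, neg_zero,
    Par.c1, Par.c2, Par.c3, Par.c4, Par.c5, Par.c6, Par.k1, Par.k2, Par.k3, Par.k4, Par.k5, Par.k6]
  try ring

lemma rm0524 : (std p r).riem 0 5 2 4 = 0 := by
  rw [riem_diag _ _ (std_gi p r)]
  simp only [Fin.sum_univ_six, ch0, ch1, ch2, ch3, ch4, ch5, tabg]
  simp only [std, mkJet, tabx, tabd, tabj, mul_zero, zero_mul, add_zero, zero_add, mul_one, one_mul, sub_zero, sub_self, zero_div, neg_zero,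
    Par.c1, Par.c2, Par.c3, Par.c4, Par.c5, Par.c6, Par.k1, Par.k2, Par.k3, Par.k4, Par.k5, Par.k6]
  try ring

lemma rm0525 : (std p r).riem 0 5 2 5 = 0 := by
  rw [riem_diag _ _ (std_gi p r)]
  simp only [Fin.sum_univ_six, ch0, ch1, ch2, ch3, ch4, ch5, tabg]
  simp only [std, mkJet, tabx, tabd, tabj, mul_zero, zero_mul, add_zero, zero_add, mul_one, one_mul, sub_zero, sub_self, zero_div, neg_zero,
    Par.c1, Par.c2, Par.c3, Par.c4, Par.c5, Par.c6, Par.k1, Par.k2, Par.k3, Par.k4, Par.k5, Par.k6]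
  try ring

lemma rm0534 : (std p r).riem 0 5 3 4 = 0 := by
  rw [riem_diag _ _ (std_gi p r)]
  simp only [Fin.sum_univ_six, ch0, ch1, ch2, ch3, ch4, ch5, tabg]
  simp only [std, mkJet, tabx, tabd, tabj, mul_zero, zero_mul, add_zero, zero_add, mul_one, one_mul, sub_zero, sub_self, zero_div, neg_zero,
    Par.c1, Par.c2, Par.c3, Par.c4, Par.c5, Par.c6, Par.k1, Par.k2, Par.k3, Par.k4, Par.k5, Par.k6]
  try ring

lemma rm0535 : (std p r).riem 0 5 3 5 = 0 := by
  rw [riem_diag _ _ (std_gi p r)]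
  simp only [Fin.sum_univ_six, ch0, ch1, ch2, ch3, ch4, ch5, tabg]
  simp only [std, mkJet, tabx, tabd, tabj, mul_zero, zero_mul, add_zero, zero_add, mul_one, one_mul, sub_zero, sub_self, zero_div, neg_zero,
    Par.c1, Par.c2, Par.c3, Par.c4, Par.c5, Par.c6, Par.k1, Par.k2, Par.k3, Par.k4, Par.k5, Par.k6]
  try ring

lemma rm0545 : (std p r).riem 0 5 4 5 = 0 := by
  rw [riem_diag _ _ (std_gi p r)]
  simp only [Fin.sum_univ_six, ch0, ch1, ch2, ch3, ch4, ch5, tabg]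
  simp only [std, mkJet, tabx, tabd, tabj, mul_zero, zero_mul, add_zero, zero_add, mul_one, one_mul, sub_zero, sub_self, zero_div, neg_zero,
    Par.c1, Par.c2, Par.c3, Par.c4, Par.c5, Par.c6, Par.k1, Par.k2, Par.k3, Par.k4, Par.k5, Par.k6]
  try ring

end H528GBC
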