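import Pool.Agent.H528Z.GbcStd

set_option autoImplicit false
set_option linter.unusedSimpArgs false
set_option linter.unnecessarySeqFocus false
set_option linter.unusedTactic false
set_option linter.unreachableTactic false

namespace H528GBC

variable (p : Par) (r : ℝ)

lemma rm1201 : (std p r).riem 1 2 0 1 = 0 := by
  rw [riem_diag _ _ (std_gi p r)]
  simp only [Fin.sum_univ_six, ch0, ch1, ch2, ch3, ch4, ch5, tabg]
  simp only [std, mkJet, tabx, tabd, tabj, mul_zero, zero_mul, add_zero, zero_add, mul_one, one_mul, sub_zero, sub_self, zero_div, neg_zero,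
    Par.c1, Par.c2, Par.c3, Par.c4, Par.c5, Par.c6, Par.k1, Par.k2, Par.k3, Par.k4, Par.k5, Par.k6]
  try ring

lemma rm1202 : (std p r).riem 1 2 0 2 = 0 := by
  rw [riem_diag _ _ (std_gi p r)]
  simp only [Fin.sum_univ_six, ch0, ch1, ch2, ch3, ch4, ch5, tabg]
  simp only [std, mkJet, tabx, tabd, tabj, mul_zero, zero_mul, add_zero, zero_add, mul_one, one_mul, sub_zero, sub_self, zero_div, neg_zero,
    Par.c1, Par.c2, Par.c3, Par.c4, Par.c5, Par.c6, Par.k1, Par.k2, Par.k3, Par.k4, Par.k5, Par.k6]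
  try ring

lemma rm1203 : (std p r).riem 1 2 0 3 = -p.k4 r := by
  rw [riem_diag _ _ (std_gi p r)]
  simp only [Fin.sum_univ_six, ch0, ch1, ch2, ch3, ch4, ch5, tabg]
  simp only [std, mkJet, tabx, tabd, tabj, mul_zero, zero_mul, add_zero, zero_add, mul_one, one_mul, sub_zero, sub_self, zero_div, neg_zero,
    Par.c1, Par.c2, Par.c3, Par.c4, Par.c5, Par.c6, Par.k1, Par.k2, Par.k3, Par.k4, Par.k5, Par.k6]
  try ring

lemma rm1204 : (std p r).riem 1 2 0 4 = 0 := by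
  rw [riem_diag _ _ (std_gi p r)]
  simp only [Fin.sum_univ_six, ch0, ch1, ch2, ch3, ch4, ch5, tabg]
  simp only [std, mkJet, tabx, tabd, tabj, mul_zero, zero_mul, add_zero, zero_add, mul_one, one_mul, sub_zero, sub_self, zero_div, neg_zero,
    Par.c1, Par.c2, Par.c3, Par.c4, Par.c5, Par.c6, Par.k1, Par.k2, Par.k3, Par.k4, Par.k5, Par.k6]
  try ring

lemma rm1205 : (std p r).riem 1 2 0 5 = 0 := by
  rw [riem_diag _ _ (std_gi p r)]
  simp only [Fin.sum_univ_six, ch0, ch1, ch2, ch3, ch4, ch5, tabg]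
  simp only [std, mkJet, tabx, tabd, tabj, mul_zero, zero_mul, add_zero, zero_add, mul_one, one_mul, sub_zero, sub_self, zero_div, neg_zero,
    Par.c1, Par.c2, Par.c3, Par.c4, Par.c5, Par.c6, Par.k1, Par.k2, Par.k3, Par.k4, Par.k5, Par.k6]
  try ring

lemma rm1212 : (std p r).riem 1 2 1 2 = p.k3 r := by
  rw [riem_diag _ _ (std_gi p r)]
  simp only [Fin.sum_univ_six, ch0, ch1, ch2, ch3, ch4, ch5, tabg]
  simp only [std, mkJet, tabx, tabd, tabj, mul_zero, zero_mul, add_zero, zero_add, mul_one, one_mul, sub_zero, sub_self, zero_div, neg_zero,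
    Par.c1, Par.c2, Par.c3, Par.c4, Par.c5, Par.c6, Par.k1, Par.k2, Par.k3, Par.k4, Par.k5, Par.k6]
  try ring

lemma rm1213 : (std p r).riem 1 2 1 3 = 0 := by
  rw [riem_diag _ _ (std_gi p r)]
  simp only [Fin.sum_univ_six, ch0, ch1, ch2, ch3, ch4, ch5, tabg]
  simp only [std, mkJet, tabx, tabd, tabj, mul_zero, zero_mul, add_zero, zero_add, mul_one, one_mul, sub_zero, sub_self, zero_div, neg_zero,
    Par.c1, Par.c2, Par.c3, Par.c4, Par.c5, Par.c6, Par.k1, Par.k2, Par.k3, Par.k4, Par.k5, Par.k6]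
  try ring

lemma rm1214 : (std p r).riem 1 2 1 4 = 0 := by
  rw [riem_diag _ _ (std_gi p r)]
  simp only [Fin.sum_univ_six, ch0, ch1, ch2, ch3, ch4, ch5, tabg]
  simp only [std, mkJet, tabx, tabd, tabj, mul_zero, zero_mul, add_zero, zero_add, mul_one, one_mul, sub_zero, sub_self, zero_div, neg_zero,
    Par.c1, Par.c2, Par.c3, Par.c4, Par.c5, Par.c6, Par.k1, Par.k2, Par.k3, Par.k4, Par.k5, Par.k6]
  try ring

lemma rm1215 : (std p r).riem 1 2 1 5 = 0 := by
  rw [riem_diag _ _ (std_gi p r)]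
  simp only [Fin.sum_univ_six, ch0, ch1, ch2, ch3, ch4, ch5, tabg]
  simp only [std, mkJet, tabx, tabd, tabj, mul_zero, zero_mul, add_zero, zero_add, mul_one, one_mul, sub_zero, sub_self, zero_div, neg_zero,
    Par.c1, Par.c2, Par.c3, Par.c4, Par.c5, Par.c6, Par.k1, Par.k2, Par.k3, Par.k4, Par.k5, Par.k6]
  try ring

lemma rm1223 : (std p r).riem 1 2 2 3 = 0 := by
  rw [riem_diag _ _ (std_gi p r)]
  simp only [Fin.sum_univ_six, ch0, ch1, ch2, ch3, ch4, ch5, tabg]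
  simp only [std, mkJet, tabx, tabd, tabj, mul_zero, zero_mul, add_zero, zero_add, mul_one, one_mul, sub_zero, sub_self, zero_div, neg_zero,
    Par.c1, Par.c2, Par.c3, Par.c4, Par.c5, Par.c6, Par.k1, Par.k2, Par.k3, Par.k4, Par.k5, Par.k6]
  try ring

lemma rm1224 : (std p r).riem 1 2 2 4 = 0 := by
  rw [riem_diag _ _ (std_gi p r)]
  simp only [Fin.sum_univ_six, ch0, ch1, ch2, ch3, ch4, ch5, tabg]
  simp only [std, mkJet, tabx, tabd, tabj, mul_zero, zero_mul, add_zero, zero_add, mul_one, one_mul, sub_zero, sub_self, zero_div, neg_zero,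
    Par.c1, Par.c2, Par.c3, Par.c4, Par.c5, Par.c6, Par.k1, Par.k2, Par.k3, Par.k4, Par.k5, Par.k6]
  try ring

lemma rm1225 : (std p r).riem 1 2 2 5 = 0 := by
  rw [riem_diag _ _ (std_gi p r)]
  simp only [Fin.sum_univ_six, ch0, ch1, ch2, ch3, ch4, ch5, tabg]
  simp only [std, mkJet, tabx, tabd, tabj, mul_zero, zero_mul, add_zero, zero_add, mul_one, one_mul, sub_zero, sub_self, zero_div, neg_zero,
    Par.c1, Par.c2, Par.c3, Par.c4, Par.c5, Par.c6, Par.k1, Par.k2, Par.k3, Par.k4, Par.k5, Par.k6]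
  try ring

lemma rm1234 : (std p r).riem 1 2 3 4 = 0 := by
  rw [riem_diag _ _ (std_gi p r)]
  simp only [Fin.sum_univ_six, ch0, ch1, ch2, ch3, ch4, ch5, tabg]
  simp only [std, mkJet, tabx, tabd, tabj, mul_zero, zero_mul, add_zero, zero_add, mul_one, one_mul, sub_zero, sub_self, zero_div, neg_zero,
    Par.c1, Par.c2, Par.c3, Par.c4, Par.c5, Par.c6, Par.k1, Par.k2, Par.k3, Par.k4, Par.k5, Par.k6]
  try ring

lemma rm1235 : (std p r).riem 1 2 3 5 = 0 := by
  rw [riem_diag _ _ (std_gi p r)]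
  simp only [Fin.sum_univ_six, ch0, ch1, ch2, ch3, ch4, ch5, tabg]
  simp only [std, mkJet, tabx, tabd, tabj, mul_zero, zero_mul, add_zero, zero_add, mul_one, one_mul, sub_zero, sub_self, zero_div, neg_zero,
    Par.c1, Par.c2, Par.c3, Par.c4, Par.c5, Par.c6, Par.k1, Par.k2, Par.k3, Par.k4, Par.k5, Par.k6]
  try ring

lemma rm1245 : (std p r).riem 1 2 4 5 = 0 := by
  rw [riem_diag _ _ (std_gi p r)]
  simp only [Fin.sum_univ_six, ch0, ch1, ch2, ch3, ch4, ch5, tabg]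
  simp only [std, mkJet, tabx, tabd, tabj, mul_zero, zero_mul, add_zero, zero_add, mul_one, one_mul, sub_zero, sub_self, zero_div, neg_zero,
    Par.c1, Par.c2, Par.c3, Par.c4, Par.c5, Par.c6, Par.k1, Par.k2, Par.k3, Par.k4, Par.k5, Par.k6]
  try ring

lemma rm1301 : (std p r).riem 1 3 0 1 = 0 := by
  rw [riem_diag _ _ (std_gi p r)]
  simp only [Fin.sum_univ_six, ch0, ch1, ch2, ch3, ch4, ch5, tabg]
  simp only [std, mkJet, tabx, tabd, tabj, mul_zero, zero_mul, add_zero, zero_add, mul_one, one_mul, sub_zero, sub_self, zero_div, neg_zero,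
    Par.c1, Par.c2, Par.c3, Par.c4, Par.c5, Par.c6, Par.k1, Par.k2, Par.k3, Par.k4, Par.k5, Par.k6]
  try ring

lemma rm1302 : (std p r).riem 1 3 0 2 = p.k4 r := by
  rw [riem_diag _ _ (std_gi p r)]
  simp only [Fin.sum_univ_six, ch0, ch1, ch2, ch3, ch4, ch5, tabg]
  simp only [std, mkJet, tabx, tabd, tabj, mul_zero, zero_mul, add_zero, zero_add, mul_one, one_mul, sub_zero, sub_self, zero_div, neg_zero,
    Par.c1, Par.c2, Par.c3, Par.c4, Par.c5, Par.c6, Par.k1, Par.k2, Par.k3, Par.k4, Par.k5, Par.k6]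
  try ring

lemma rm1303 : (std p r).riem 1 3 0 3 = 0 := by
  rw [riem_diag _ _ (std_gi p r)]
  simp only [Fin.sum_univ_six, ch0, ch1, ch2, ch3, ch4, ch5, tabg]
  simp only [std, mkJet, tabx, tabd, tabj, mul_zero, zero_mul, add_zero, zero_add, mul_one, one_mul, sub_zero, sub_self, zero_div, neg_zero,
    Par.c1, Par.c2, Par.c3, Par.c4, Par.c5, Par.c6, Par.k1, Par.k2, Par.k3, Par.k4, Par.k5, Par.k6]
  try ring

lemma rm1304 : (std p r).riem 1 3 0 4 = 0 := by
  rw [riem_diag _ _ (std_gi p r)]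
  simp only [Fin.sum_univ_six, ch0, ch1, ch2, ch3, ch4, ch5, tabg]
  simp only [std, mkJet, tabx, tabd, tabj, mul_zero, zero_mul, add_zero, zero_add, mul_one, one_mul, sub_zero, sub_self, zero_div, neg_zero,
    Par.c1, Par.c2, Par.c3, Par.c4, Par.c5, Par.c6, Par.k1, Par.k2, Par.k3, Par.k4, Par.k5, Par.k6]
  try ring

lemma rm1305 : (std p r).riem 1 3 0 5 = 0 := by
  rw [riem_diag _ _ (std_gi p r)]
  simp only [Fin.sum_univ_six, ch0, ch1, ch2, ch3, ch4, ch5, tabg]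
  simp only [std, mkJet, tabx, tabd, tabj, mul_zero, zero_mul, add_zero, zero_add, mul_one, one_mul, sub_zero, sub_self, zero_div, neg_zero,
    Par.c1, Par.c2, Par.c3, Par.c4, Par.c5, Par.c6, Par.k1, Par.k2, Par.k3, Par.k4, Par.k5, Par.k6]
  try ring

lemma rm1312 : (std p r).riem 1 3 1 2 = 0 := by
  rw [riem_diag _ _ (std_gi p r)]
  simp only [Fin.sum_univ_six, ch0, ch1, ch2, ch3, ch4, ch5, tabg]
  simp only [std, mkJet, tabx, tabd, tabj, mul_zero, zero_mul, add_zero, zero_add, mul_one, one_mul, sub_zero, sub_self, zero_div, neg_zero,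
    Par.c1, Par.c2, Par.c3, Par.c4, Par.c5, Par.c6, Par.k1, Par.k2, Par.k3, Par.k4, Par.k5, Par.k6]
  try ring

lemma rm1313 : (std p r).riem 1 3 1 3 = p.k3 r := by
  rw [riem_diag _ _ (std_gi p r)]
  simp only [Fin.sum_univ_six, ch0, ch1, ch2, ch3, ch4, ch5, tabg]
  simp only [std, mkJet, tabx, tabd, tabj, mul_zero, zero_mul, add_zero, zero_add, mul_one, one_mul, sub_zero, sub_self, zero_div, neg_zero,
    Par.c1, Par.c2, Par.c3, Par.c4, Par.c5, Par.c6, Par.k1, Par.k2, Par.k3, Par.k4, Par.k5, Par.k6]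
  try ring

lemma rm1314 : (std p r).riem 1 3 1 4 = 0 := by
  rw [riem_diag _ _ (std_gi p r)]
  simp only [Fin.sum_univ_six, ch0, ch1, ch2, ch3, ch4, ch5, tabg]
  simp only [std, mkJet, tabx, tabd, tabj, mul_zero, zero_mul, add_zero, zero_add, mul_one, one_mul, sub_zero, sub_self, zero_div, neg_zero,
    Par.c1, Par.c2, Par.c3, Par.c4, Par.c5, Par.c6, Par.k1, Par.k2, Par.k3, Par.k4, Par.k5, Par.k6]
  try ring

lemma rm1315 : (std p r).riem 1 3 1 5 = 0 := by
  rw [riem_diag _ _ (std_gi p r)]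
  simp only [Fin.sum_univ_six, ch0, ch1, ch2, ch3, ch4, ch5, tabg]
  simp only [std, mkJet, tabx, tabd, tabj, mul_zero, zero_mul, add_zero, zero_add, mul_one, one_mul, sub_zero, sub_self, zero_div, neg_zero,
    Par.c1, Par.c2, Par.c3, Par.c4, Par.c5, Par.c6, Par.k1, Par.k2, Par.k3, Par.k4, Par.k5, Par.k6]
  try ring

lemma rm1323 : (std p r).riem 1 3 2 3 = 0 := by
  rw [riem_diag _ _ (std_gi p r)]
  simp only [Fin.sum_univ_six, ch0, ch1, ch2, ch3, ch4, ch5, tabg]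
  simp only [std, mkJet, tabx, tabd, tabj, mul_zero, zero_mul, add_zero, zero_add, mul_one, one_mul, sub_zero, sub_self, zero_div, neg_zero,
    Par.c1, Par.c2, Par.c3, Par.c4, Par.c5, Par.c6, Par.k1, Par.k2, Par.k3, Par.k4, Par.k5, Par.k6]
  try ring

lemma rm1324 : (std p r).riem 1 3 2 4 = 0 := by
  rw [riem_diag _ _ (std_gi p r)]
  simp only [Fin.sum_univ_six, ch0, ch1, ch2, ch3, ch4, ch5, tabg]
  simp only [std, mkJet, tabx, tabd, tabj, mul_zero, zero_mul, add_zero, zero_add, mul_one, one_mul, sub_zero, sub_self, zero_div, neg_zero,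
    Par.c1, Par.c2, Par.c3, Par.c4, Par.c5, Par.c6, Par.k1, Par.k2, Par.k3, Par.k4, Par.k5, Par.k6]
  try ring

lemma rm1325 : (std p r).riem 1 3 2 5 = 0 := by
  rw [riem_diag _ _ (std_gi p r)]
  simp only [Fin.sum_univ_six, ch0, ch1, ch2, ch3, ch4, ch5, tabg]
  simp only [std, mkJet, tabx, tabd, tabj, mul_zero, zero_mul, add_zero, zero_add, mul_one, one_mul, sub_zero, sub_self, zero_div, neg_zero,
    Par.c1, Par.c2, Par.c3, Par.c4, Par.c5, Par.c6, Par.k1, Par.k2, Par.k3, Par.k4, Par.k5, Par.k6]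
  try ring

lemma rm1334 : (std p r).riem 1 3 3 4 = 0 := by
  rw [riem_diag _ _ (std_gi p r)]
  simp only [Fin.sum_univ_six, ch0, ch1, ch2, ch3, ch4, ch5, tabg]
  simp only [std, mkJet, tabx, tabd, tabj, mul_zero, zero_mul, add_zero, zero_add, mul_one, one_mul, sub_zero, sub_self, zero_div, neg_zero,
    Par.c1, Par.c2, Par.c3, Par.c4, Par.c5, Par.c6, Par.k1, Par.k2, Par.k3, Par.k4, Par.k5, Par.k6]
  try ring

lemma rm1335 : (std p r).riem 1 3 3 5 = 0 := by
  rw [riem_diag _ _ (std_gi p r)]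
  simp only [Fin.sum_univ_six, ch0, ch1, ch2, ch3, ch4, ch5, tabg]
  simp only [std, mkJet, tabx, tabd, tabj, mul_zero, zero_mul, add_zero, zero_add, mul_one, one_mul, sub_zero, sub_self, zero_div, neg_zero,
    Par.c1, Par.c2, Par.c3, Par.c4, Par.c5, Par.c6, Par.k1, Par.k2, Par.k3, Par.k4, Par.k5, Par.k6]
  try ring

lemma rm1345 : (std p r).riem 1 3 4 5 = 0 := by
  rw [riem_diag _ _ (std_gi p r)]
  simp only [Fin.sum_univ_six, ch0, ch1, ch2, ch3, ch4, ch5, tabg]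
  simp only [std, mkJet, tabx, tabd, tabj, mul_zero, zero_mul, add_zero, zero_add, mul_one, one_mul, sub_zero, sub_self, zero_div, neg_zero,
    Par.c1, Par.c2, Par.c3, Par.c4, Par.c5, Par.c6, Par.k1, Par.k2, Par.k3, Par.k4, Par.k5, Par.k6]
  try ring

lemma rm1401 : (std p r).riem 1 4 0 1 = 0 := by
  rw [riem_diag _ _ (std_gi p r)]
  simp only [Fin.sum_univ_six, ch0, ch1, ch2, ch3, ch4, ch5, tabg]
  simp only [std, mkJet, tabx, tabd, tabj, mul_zero, zero_mul, add_zero, zero_add, mul_one, one_mul, sub_zero, sub_self, zero_div, neg_zero,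
    Par.c1, Par.c2, Par.c3, Par.c4, Par.c5, Par.c6, Par.k1, Par.k2, Par.k3, Par.k4, Par.k5, Par.k6]
  try ring

lemma rm1402 : (std p r).riem 1 4 0 2 = 0 := by
  rw [riem_diag _ _ (std_gi p r)]
  simp only [Fin.sum_univ_six, ch0, ch1, ch2, ch3, ch4, ch5, tabg]
  simp only [std, mkJet, tabx, tabd, tabj, mul_zero, zero_mul, add_zero, zero_add, mul_one, one_mul, sub_zero, sub_self, zero_div, neg_zero,
    Par.c1, Par.c2, Par.c3, Par.c4, Par.c5, Par.c6, Par.k1, Par.k2, Par.k3, Par.k4, Par.k5, Par.k6]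
  try ring

lemma rm1403 : (std p r).riem 1 4 0 3 = 0 := by
  rw [riem_diag _ _ (std_gi p r)]
  simp only [Fin.sum_univ_six, ch0, ch1, ch2, ch3, ch4, ch5, tabg]
  simp only [std, mkJet, tabx, tabd, tabj, mul_zero, zero_mul, add_zero, zero_add, mul_one, one_mul, sub_zero, sub_self, zero_div, neg_zero,
    Par.c1, Par.c2, Par.c3, Par.c4, Par.c5, Par.c6, Par.k1, Par.k2, Par.k3, Par.k4, Par.k5, Par.k6]
  try ring

lemma rm1404 : (std p r).riem 1 4 0 4 = 0 := by
  rw [riem_diag _ _ (std_gi p r)]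
  simp only [Fin.sum_univ_six, ch0, ch1, ch2, ch3, ch4, ch5, tabg]
  simp only [std, mkJet, tabx, tabd, tabj, mul_zero, zero_mul, add_zero, zero_add, mul_one, one_mul, sub_zero, sub_self, zero_div, neg_zero,
    Par.c1, Par.c2, Par.c3, Par.c4, Par.c5, Par.c6, Par.k1, Par.k2, Par.k3, Par.k4, Par.k5, Par.k6]
  try ring

lemma rm1405 : (std p r).riem 1 4 0 5 = -p.k4 r := by
  rw [riem_diag _ _ (std_gi p r)]
  simp only [Fin.sum_univ_six, ch0, ch1, ch2, ch3, ch4, ch5, tabg]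
  simp only [std, mkJet, tabx, tabd, tabj, mul_zero, zero_mul, add_zero, zero_add, mul_one, one_mul, sub_zero, sub_self, zero_div, neg_zero,
    Par.c1, Par.c2, Par.c3, Par.c4, Par.c5, Par.c6, Par.k1, Par.k2, Par.k3, Par.k4, Par.k5, Par.k6]
  try ring

lemma rm1412 : (std p r).riem 1 4 1 2 = 0 := by
  rw [riem_diag _ _ (std_gi p r)]
  simp only [Fin.sum_univ_six, ch0, ch1, ch2, ch3, ch4, ch5, tabg]
  simp only [std, mkJet, tabx, tabd, tabj, mul_zero, zero_mul, add_zero, zero_add, mul_one, one_mul, sub_zero, sub_self, zero_div, neg_zero,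
    Par.c1, Par.c2, Par.c3, Par.c4, Par.c5, Par.c6, Par.k1, Par.k2, Par.k3, Par.k4, Par.k5, Par.k6]
  try ring

lemma rm1413 : (std p r).riem 1 4 1 3 = 0 := by
  rw [riem_diag _ _ (std_gi p r)]
  simp only [Fin.sum_univ_six, ch0, ch1, ch2, ch3, ch4, ch5, tabg]
  simp only [std, mkJet, tabx, tabd, tabj, mul_zero, zero_mul, add_zero, zero_add, mul_one, one_mul, sub_zero, sub_self, zero_div, neg_zero,
    Par.c1, Par.c2, Par.c3, Par.c4, Par.c5, Par.c6, Par.k1, Par.k2, Par.k3, Par.k4, Par.k5, Par.k6]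
  try ring

lemma rm1414 : (std p r).riem 1 4 1 4 = p.k3 r := by
  rw [riem_diag _ _ (std_gi p r)]
  simp only [Fin.sum_univ_six, ch0, ch1, ch2, ch3, ch4, ch5, tabg]
  simp only [std, mkJet, tabx, tabd, tabj, mul_zero, zero_mul, add_zero, zero_add, mul_one, one_mul, sub_zero, sub_self, zero_div, neg_zero,
    Par.c1, Par.c2, Par.c3, Par.c4, Par.c5, Par.c6, Par.k1, Par.k2, Par.k3, Par.k4, Par.k5, Par.k6]
  try ring

lemma rm1415 : (std p r).riem 1 4 1 5 = 0 := by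
  rw [riem_diag _ _ (std_gi p r)]
  simp only [Fin.sum_univ_six, ch0, ch1, ch2, ch3, ch4, ch5, tabg]
  simp only [std, mkJet, tabx, tabd, tabj, mul_zero, zero_mul, add_zero, zero_add, mul_one, one_mul, sub_zero, sub_self, zero_div, neg_zero,
    Par.c1, Par.c2, Par.c3, Par.c4, Par.c5, Par.c6, Par.k1, Par.k2, Par.k3, Par.k4, Par.k5, Par.k6]
  try ring

lemma rm1423 : (std p r).riem 1 4 2 3 = 0 := by
  rw [riem_diag _ _ (std_gi p r)]
  simp only [Fin.sum_univ_six, ch0, ch1, ch2, ch3, ch4, ch5, tabg]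
  simp only [std, mkJet, tabx, tabd, tabj, mul_zero, zero_mul, add_zero, zero_add, mul_one, one_mul, sub_zero, sub_self, zero_div, neg_zero,
    Par.c1, Par.c2, Par.c3, Par.c4, Par.c5, Par.c6, Par.k1, Par.k2, Par.k3, Par.k4, Par.k5, Par.k6]
  try ring

lemma rm1424 : (std p r).riem 1 4 2 4 = 0 := by
  rw [riem_diag _ _ (std_gi p r)]
  simp only [Fin.sum_univ_six, ch0, ch1, ch2, ch3, ch4, ch5, tabg]
  simp only [std, mkJet, tabx, tabd, tabj, mul_zero, zero_mul, add_zero, zero_add, mul_one, one_mul, sub_zero, sub_self, zero_div, neg_zero,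
    Par.c1, Par.c2, Par.c3, Par.c4, Par.c5, Par.c6, Par.k1, Par.k2, Par.k3, Par.k4, Par.k5, Par.k6]
  try ring

lemma rm1425 : (std p r).riem 1 4 2 5 = 0 := by
  rw [riem_diag _ _ (std_gi p r)]
  simp only [Fin.sum_univ_six, ch0, ch1, ch2, ch3, ch4, ch5, tabg]
  simp only [std, mkJet, tabx, tabd, tabj, mul_zero, zero_mul, add_zero, zero_add, mul_one, one_mul, sub_zero, sub_self, zero_div, neg_zero,
    Par.c1, Par.c2, Par.c3, Par.c4, Par.c5, Par.c6, Par.k1, Par.k2, Par.k3, Par.k4, Par.k5, Par.k6]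
  try ring

lemma rm1434 : (std p r).riem 1 4 3 4 = 0 := by
  rw [riem_diag _ _ (std_gi p r)]
  simp only [Fin.sum_univ_six, ch0, ch1, ch2, ch3, ch4, ch5, tabg]
  simp only [std, mkJet, tabx, tabd, tabj, mul_zero, zero_mul, add_zero, zero_add, mul_one, one_mul, sub_zero, sub_self, zero_div, neg_zero,
    Par.c1, Par.c2, Par.c3, Par.c4, Par.c5, Par.c6, Par.k1, Par.k2, Par.k3, Par.k4, Par.k5, Par.k6]
  try ring

lemma rm1435 : (std p r).riem 1 4 3 5 = 0 := by
  rw [riem_diag _ _ (std_gi p r)]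
  simp only [Fin.sum_univ_six, ch0, ch1, ch2, ch3, ch4, ch5, tabg]
  simp only [std, mkJet, tabx, tabd, tabj, mul_zero, zero_mul, add_zero, zero_add, mul_one, one_mul, sub_zero, sub_self, zero_div, neg_zero,
    Par.c1, Par.c2, Par.c3, Par.c4, Par.c5, Par.c6, Par.k1, Par.k2, Par.k3, Par.k4, Par.k5, Par.k6]
  try ring

lemma rm1445 : (std p r).riem 1 4 4 5 = 0 := by
  rw [riem_diag _ _ (std_gi p r)]
  simp only [Fin.sum_univ_six, ch0, ch1, ch2, ch3, ch4, ch5, tabg]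
  simp only [std, mkJet, tabx, tabd, tabj, mul_zero, zero_mul, add_zero, zero_add, mul_one, one_mul, sub_zero, sub_self, zero_div, neg_zero,
    Par.c1, Par.c2, Par.c3, Par.c4, Par.c5, Par.c6, Par.k1, Par.k2, Par.k3, Par.k4, Par.k5, Par.k6]
  try ring

lemma rm1501 : (std p r).riem 1 5 0 1 = 0 := by
  rw [riem_diag _ _ (std_gi p r)]
  simp only [Fin.sum_univ_six, ch0, ch1, ch2, ch3, ch4, ch5, tabg]
  simp only [std, mkJet, tabx, tabd, tabj, mul_zero, zero_mul, add_zero, zero_add, mul_one, one_mul, sub_zero, sub_self, zero_div, neg_zero,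
    Par.c1, Par.c2, Par.c3, Par.c4, Par.c5, Par.c6, Par.k1, Par.k2, Par.k3, Par.k4, Par.k5, Par.k6]
  try ring

lemma rm1502 : (std p r).riem 1 5 0 2 = 0 := by
  rw [riem_diag _ _ (std_gi p r)]
  simp only [Fin.sum_univ_six, ch0, ch1, ch2, ch3, ch4, ch5, tabg]
  simp only [std, mkJet, tabx, tabd, tabj, mul_zero, zero_mul, add_zero, zero_add, mul_one, one_mul, sub_zero, sub_self, zero_div, neg_zero,
    Par.c1, Par.c2, Par.c3, Par.c4, Par.c5, Par.c6, Par.k1, Par.k2, Par.k3, Par.k4, Par.k5, Par.k6]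
  try ring

lemma rm1503 : (std p r).riem 1 5 0 3 = 0 := by
  rw [riem_diag _ _ (std_gi p r)]
  simp only [Fin.sum_univ_six, ch0, ch1, ch2, ch3, ch4, ch5, tabg]
  simp only [std, mkJet, tabx, tabd, tabj, mul_zero, zero_mul, add_zero, zero_add, mul_one, one_mul, sub_zero, sub_self, zero_div, neg_zero,
    Par.c1, Par.c2, Par.c3, Par.c4, Par.c5, Par.c6, Par.k1, Par.k2, Par.k3, Par.k4, Par.k5, Par.k6]
  try ring

lemma rm1504 : (std p r).riem 1 5 0 4 = p.k4 r := by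
  rw [riem_diag _ _ (std_gi p r)]
  simp only [Fin.sum_univ_six, ch0, ch1, ch2, ch3, ch4, ch5, tabg]
  simp only [std, mkJet, tabx, tabd, tabj, mul_zero, zero_mul, add_zero, zero_add, mul_one, one_mul, sub_zero, sub_self, zero_div, neg_zero,
    Par.c1, Par.c2, Par.c3, Par.c4, Par.c5, Par.c6, Par.k1, Par.k2, Par.k3, Par.k4, Par.k5, Par.k6]
  try ring

lemma rm1505 : (std p r).riem 1 5 0 5 = 0 := by
  rw [riem_diag _ _ (std_gi p r)]
  simp only [Fin.sum_univ_six, ch0, ch1, ch2, ch3, ch4, ch5, tabg]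
  simp only [std, mkJet, tabx, tabd, tabj, mul_zero, zero_mul, add_zero, zero_add, mul_one, one_mul, sub_zero, sub_self, zero_div, neg_zero,
    Par.c1, Par.c2, Par.c3, Par.c4, Par.c5, Par.c6, Par.k1, Par.k2, Par.k3, Par.k4, Par.k5, Par.k6]
  try ring

lemma rm1512 : (std p r).riem 1 5 1 2 = 0 := by
  rw [riem_diag _ _ (std_gi p r)]
  simp only [Fin.sum_univ_six, ch0, ch1, ch2, ch3, ch4, ch5, tabg]
  simp only [std, mkJet, tabx, tabd, tabj, mul_zero, zero_mul, add_zero, zero_add, mul_one, one_mul, sub_zero, sub_self, zero_div, neg_zero,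
    Par.c1, Par.c2, Par.c3, Par.c4, Par.c5, Par.c6, Par.k1, Par.k2, Par.k3, Par.k4, Par.k5, Par.k6]
  try ring

lemma rm1513 : (std p r).riem 1 5 1 3 = 0 := by
  rw [riem_diag _ _ (std_gi p r)]
  simp only [Fin.sum_univ_six, ch0, ch1, ch2, ch3, ch4, ch5, tabg]
  simp only [std, mkJet, tabx, tabd, tabj, mul_zero, zero_mul, add_zero, zero_add, mul_one, one_mul, sub_zero, sub_self, zero_div, neg_zero,
    Par.c1, Par.c2, Par.c3, Par.c4, Par.c5, Par.c6, Par.k1, Par.k2, Par.k3, Par.k4, Par.k5, Par.k6]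
  try ring

lemma rm1514 : (std p r).riem 1 5 1 4 = 0 := by
  rw [riem_diag _ _ (std_gi p r)]
  simp only [Fin.sum_univ_six, ch0, ch1, ch2, ch3, ch4, ch5, tabg]
  simp only [std, mkJet, tabx, tabd, tabj, mul_zero, zero_mul, add_zero, zero_add, mul_one, one_mul, sub_zero, sub_self, zero_div, neg_zero,
    Par.c1, Par.c2, Par.c3, Par.c4, Par.c5, Par.c6, Par.k1, Par.k2, Par.k3, Par.k4, Par.k5, Par.k6]
  try ring

lemma rm1515 : (std p r).riem 1 5 1 5 = p.k3 r := by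
  rw [riem_diag _ _ (std_gi p r)]
  simp only [Fin.sum_univ_six, ch0, ch1, ch2, ch3, ch4, ch5, tabg]
  simp only [std, mkJet, tabx, tabd, tabj, mul_zero, zero_mul, add_zero, zero_add, mul_one, one_mul, sub_zero, sub_self, zero_div, neg_zero,
    Par.c1, Par.c2, Par.c3, Par.c4, Par.c5, Par.c6, Par.k1, Par.k2, Par.k3, Par.k4, Par.k5, Par.k6]
  try ring

lemma rm1523 : (std p r).riem 1 5 2 3 = 0 := by
  rw [riem_diag _ _ (std_gi p r)]
  simp only [Fin.sum_univ_six, ch0, ch1, ch2, ch3, ch4, ch5, tabg]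
  simp only [std, mkJet, tabx, tabd, tabj, mul_zero, zero_mul, add_zero, zero_add, mul_one, one_mul, sub_zero, sub_self, zero_div, neg_zero,
    Par.c1, Par.c2, Par.c3, Par.c4, Par.c5, Par.c6, Par.k1, Par.k2, Par.k3, Par.k4, Par.k5, Par.k6]
  try ring

lemma rm1524 : (std p r).riem 1 5 2 4 = 0 := by
  rw [riem_diag _ _ (std_gi p r)]
  simp only [Fin.sum_univ_six, ch0, ch1, ch2, ch3, ch4, ch5, tabg]
  simp only [std, mkJet, tabx, tabd, tabj, mul_zero, zero_mul, add_zero, zero_add, mul_one, one_mul, sub_zero, sub_self, zero_div, neg_zero,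
    Par.c1, Par.c2, Par.c3, Par.c4, Par.c5, Par.c6, Par.k1, Par.k2, Par.k3, Par.k4, Par.k5, Par.k6]
  try ring

lemma rm1525 : (std p r).riem 1 5 2 5 = 0 := by
  rw [riem_diag _ _ (std_gi p r)]
  simp only [Fin.sum_univ_six, ch0, ch1, ch2, ch3, ch4, ch5, tabg]
  simp only [std, mkJet, tabx, tabd, tabj, mul_zero, zero_mul, add_zero, zero_add, mul_one, one_mul, sub_zero, sub_self, zero_div, neg_zero,
    Par.c1, Par.c2, Par.c3, Par.c4, Par.c5, Par.c6, Par.k1, Par.k2, Par.k3, Par.k4, Par.k5, Par.k6]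
  try ring

lemma rm1534 : (std p r).riem 1 5 3 4 = 0 := by
  rw [riem_diag _ _ (std_gi p r)]
  simp only [Fin.sum_univ_six, ch0, ch1, ch2, ch3, ch4, ch5, tabg]
  simp only [std, mkJet, tabx, tabd, tabj, mul_zero, zero_mul, add_zero, zero_add, mul_one, one_mul, sub_zero, sub_self, zero_div, neg_zero,
    Par.c1, Par.c2, Par.c3, Par.c4, Par.c5, Par.c6, Par.k1, Par.k2, Par.k3, Par.k4, Par.k5, Par.k6]
  try ring

lemma rm1535 : (std p r).riem 1 5 3 5 = 0 := by
  rw [riem_diag _ _ (std_gi p r)]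
  simp only [Fin.sum_univ_six, ch0, ch1, ch2, ch3, ch4, ch5, tabg]
  simp only [std, mkJet, tabx, tabd, tabj, mul_zero, zero_mul, add_zero, zero_add, mul_one, one_mul, sub_zero, sub_self, zero_div, neg_zero,
    Par.c1, Par.c2, Par.c3, Par.c4, Par.c5, Par.c6, Par.k1, Par.k2, Par.k3, Par.k4, Par.k5, Par.k6]
  try ring

lemma rm1545 : (std p r).riem 1 5 4 5 = 0 := by
  rw [riem_diag _ _ (std_gi p r)]
  simp only [Fin.sum_univ_six, ch0, ch1, ch2, ch3, ch4, ch5, tabg]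
  simp only [std, mkJet, tabx, tabd, tabj, mul_zero, zero_mul, add_zero, zero_add, mul_one, one_mul, sub_zero, sub_self, zero_div, neg_zero,
    Par.c1, Par.c2, Par.c3, Par.c4, Par.c5, Par.c6, Par.k1, Par.k2, Par.k3, Par.k4, Par.k5, Par.k6]
  try ring

lemma rm2301 : (std p r).riem 2 3 0 1 = 2*p.k4 r := by
  rw [riem_diag _ _ (std_gi p r)]
  simp only [Fin.sum_univ_six, ch0, ch1, ch2, ch3, ch4, ch5, tabg]
  simp only [std, mkJet, tabx, tabd, tabj, mul_zero, zero_mul, add_zero, zero_add, mul_one, one_mul, sub_zero, sub_self, zero_div, neg_zero,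
    Par.c1, Par.c2, Par.c3, Par.c4, Par.c5, Par.c6, Par.k1, Par.k2, Par.k3, Par.k4, Par.k5, Par.k6]
  try ring

lemma rm2302 : (std p r).riem 2 3 0 2 = 0 := by
  rw [riem_diag _ _ (std_gi p r)]
  simp only [Fin.sum_univ_six, ch0, ch1, ch2, ch3, ch4, ch5, tabg]
  simp only [std, mkJet, tabx, tabd, tabj, mul_zero, zero_mul, add_zero, zero_add, mul_one, one_mul, sub_zero, sub_self, zero_div, neg_zero,
    Par.c1, Par.c2, Par.c3, Par.c4, Par.c5, Par.c6, Par.k1, Par.k2, Par.k3, Par.k4, Par.k5, Par.k6]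
  try ring

lemma rm2303 : (std p r).riem 2 3 0 3 = 0 := by
  rw [riem_diag _ _ (std_gi p r)]
  simp only [Fin.sum_univ_six, ch0, ch1, ch2, ch3, ch4, ch5, tabg]
  simp only [std, mkJet, tabx, tabd, tabj, mul_zero, zero_mul, add_zero, zero_add, mul_one, one_mul, sub_zero, sub_self, zero_div, neg_zero,
    Par.c1, Par.c2, Par.c3, Par.c4, Par.c5, Par.c6, Par.k1, Par.k2, Par.k3, Par.k4, Par.k5, Par.k6]
  try ring

lemma rm2304 : (std p r).riem 2 3 0 4 = 0 := by
  rw [riem_diag _ _ (std_gi p r)]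
  simp only [Fin.sum_univ_six, ch0, ch1, ch2, ch3, ch4, ch5, tabg]
  simp only [std, mkJet, tabx, tabd, tabj, mul_zero, zero_mul, add_zero, zero_add, mul_one, one_mul, sub_zero, sub_self, zero_div, neg_zero,
    Par.c1, Par.c2, Par.c3, Par.c4, Par.c5, Par.c6, Par.k1, Par.k2, Par.k3, Par.k4, Par.k5, Par.k6]
  try ring

lemma rm2305 : (std p r).riem 2 3 0 5 = 0 := by
  rw [riem_diag _ _ (std_gi p r)]
  simp only [Fin.sum_univ_six, ch0, ch1, ch2, ch3, ch4, ch5, tabg]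
  simp only [std, mkJet, tabx, tabd, tabj, mul_zero, zero_mul, add_zero, zero_add, mul_one, one_mul, sub_zero, sub_self, zero_div, neg_zero,
    Par.c1, Par.c2, Par.c3, Par.c4, Par.c5, Par.c6, Par.k1, Par.k2, Par.k3, Par.k4, Par.k5, Par.k6]
  try ring

lemma rm2312 : (std p r).riem 2 3 1 2 = 0 := by
  rw [riem_diag _ _ (std_gi p r)]
  simp only [Fin.sum_univ_six, ch0, ch1, ch2, ch3, ch4, ch5, tabg]
  simp only [std, mkJet, tabx, tabd, tabj, mul_zero, zero_mul, add_zero, zero_add, mul_one, one_mul, sub_zero, sub_self, zero_div, neg_zero,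
    Par.c1, Par.c2, Par.c3, Par.c4, Par.c5, Par.c6, Par.k1, Par.k2, Par.k3, Par.k4, Par.k5, Par.k6]
  try ring

lemma rm2313 : (std p r).riem 2 3 1 3 = 0 := by
  rw [riem_diag _ _ (std_gi p r)]
  simp only [Fin.sum_univ_six, ch0, ch1, ch2, ch3, ch4, ch5, tabg]
  simp only [std, mkJet, tabx, tabd, tabj, mul_zero, zero_mul, add_zero, zero_add, mul_one, one_mul, sub_zero, sub_self, zero_div, neg_zero,
    Par.c1, Par.c2, Par.c3, Par.c4, Par.c5, Par.c6, Par.k1, Par.k2, Par.k3, Par.k4, Par.k5, Par.k6]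
  try ring

lemma rm2314 : (std p r).riem 2 3 1 4 = 0 := by
  rw [riem_diag _ _ (std_gi p r)]
  simp only [Fin.sum_univ_six, ch0, ch1, ch2, ch3, ch4, ch5, tabg]
  simp only [std, mkJet, tabx, tabd, tabj, mul_zero, zero_mul, add_zero, zero_add, mul_one, one_mul, sub_zero, sub_self, zero_div, neg_zero,
    Par.c1, Par.c2, Par.c3, Par.c4, Par.c5, Par.c6, Par.k1, Par.k2, Par.k3, Par.k4, Par.k5, Par.k6]
  try ring

lemma rm2315 : (std p r).riem 2 3 1 5 = 0 := by
  rw [riem_diag _ _ (std_gi p r)]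
  simp only [Fin.sum_univ_six, ch0, ch1, ch2, ch3, ch4, ch5, tabg]
  simp only [std, mkJet, tabx, tabd, tabj, mul_zero, zero_mul, add_zero, zero_add, mul_one, one_mul, sub_zero, sub_self, zero_div, neg_zero,
    Par.c1, Par.c2, Par.c3, Par.c4, Par.c5, Par.c6, Par.k1, Par.k2, Par.k3, Par.k4, Par.k5, Par.k6]
  try ring

lemma rm2323 : (std p r).riem 2 3 2 3 = (p.k5 r+3*p.k6 r) := by
  rw [riem_diag _ _ (std_gi p r)]
  simp only [Fin.sum_univ_six, ch0, ch1, ch2, ch3, ch4, ch5, tabg]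
  simp only [std, mkJet, tabx, tabd, tabj, mul_zero, zero_mul, add_zero, zero_add, mul_one, one_mul, sub_zero, sub_self, zero_div, neg_zero,
    Par.c1, Par.c2, Par.c3, Par.c4, Par.c5, Par.c6, Par.k1, Par.k2, Par.k3, Par.k4, Par.k5, Par.k6]
  try ring

lemma rm2324 : (std p r).riem 2 3 2 4 = 0 := by
  rw [riem_diag _ _ (std_gi p r)]
  simp only [Fin.sum_univ_six, ch0, ch1, ch2, ch3, ch4, ch5, tabg]
  simp only [std, mkJet, tabx, tabd, tabj, mul_zero, zero_mul, add_zero, zero_add, mul_one, one_mul, sub_zero, sub_self, zero_div, neg_zero,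
    Par.c1, Par.c2, Par.c3, Par.c4, Par.c5, Par.c6, Par.k1, Par.k2, Par.k3, Par.k4, Par.k5, Par.k6]
  try ring

lemma rm2325 : (std p r).riem 2 3 2 5 = 0 := by
  rw [riem_diag _ _ (std_gi p r)]
  simp only [Fin.sum_univ_six, ch0, ch1, ch2, ch3, ch4, ch5, tabg]
  simp only [std, mkJet, tabx, tabd, tabj, mul_zero, zero_mul, add_zero, zero_add, mul_one, one_mul, sub_zero, sub_self, zero_div, neg_zero,
    Par.c1, Par.c2, Par.c3, Par.c4, Par.c5, Par.c6, Par.k1, Par.k2, Par.k3, Par.k4, Par.k5, Par.k6]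
  try ring

lemma rm2334 : (std p r).riem 2 3 3 4 = 0 := by
  rw [riem_diag _ _ (std_gi p r)]
  simp only [Fin.sum_univ_six, ch0, ch1, ch2, ch3, ch4, ch5, tabg]
  simp only [std, mkJet, tabx, tabd, tabj, mul_zero, zero_mul, add_zero, zero_add, mul_one, one_mul, sub_zero, sub_self, zero_div, neg_zero,
    Par.c1, Par.c2, Par.c3, Par.c4, Par.c5, Par.c6, Par.k1, Par.k2, Par.k3, Par.k4, Par.k5, Par.k6]
  try ring

lemma rm2335 : (std p r).riem 2 3 3 5 = 0 := by
  rw [riem_diag _ _ (std_gi p r)]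
  simp only [Fin.sum_univ_six, ch0, ch1, ch2, ch3, ch4, ch5, tabg]
  simp only [std, mkJet, tabx, tabd, tabj, mul_zero, zero_mul, add_zero, zero_add, mul_one, one_mul, sub_zero, sub_self, zero_div, neg_zero,
    Par.c1, Par.c2, Par.c3, Par.c4, Par.c5, Par.c6, Par.k1, Par.k2, Par.k3, Par.k4, Par.k5, Par.k6]
  try ring

lemma rm2345 : (std p r).riem 2 3 4 5 = 2*p.k6 r := by
  rw [riem_diag _ _ (std_gi p r)]
  simp only [Fin.sum_univ_six, ch0, ch1, ch2, ch3, ch4, ch5, tabg]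
  simp only [std, mkJet, tabx, tabd, tabj, mul_zero, zero_mul, add_zero, zero_add, mul_one, one_mul, sub_zero, sub_self, zero_div, neg_zero,
    Par.c1, Par.c2, Par.c3, Par.c4, Par.c5, Par.c6, Par.k1, Par.k2, Par.k3, Par.k4, Par.k5, Par.k6]
  try ring

end H528GBC
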