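import Pool.Agent.H528Z.GbcStd

set_option autoImplicit false
set_option linter.unusedSimpArgs false
set_option linter.unnecessarySeqFocus false
set_option linter.unusedTactic false
set_option linter.unreachableTactic false

namespace H528GBC

variable (p : Par) (r : ℝ)

lemma rm2401 : (std p r).riem 2 4 0 1 = 0 := by
  rw [riem_diag _ _ (std_gi p r)]
  simp only [Fin.sum_univ_six, ch0, ch1, ch2, ch3, ch4, ch5, tabg]
  simp only [std, mkJet, tabx, tabd, tabj, mul_zero, zero_mul, add_zero, zero_add, mul_one, one_mul, sub_zero, sub_self, zero_div, neg_zero,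
    Par.c1, Par.c2, Par.c3, Par.c4, Par.c5, Par.c6, Par.k1, Par.k2, Par.k3, Par.k4, Par.k5, Par.k6]
  try ring

lemma rm2402 : (std p r).riem 2 4 0 2 = 0 := by
  rw [riem_diag _ _ (std_gi p r)]
  simp only [Fin.sum_univ_six, ch0, ch1, ch2, ch3, ch4, ch5, tabg]
  simp only [std, mkJet, tabx, tabd, tabj, mul_zero, zero_mul, add_zero, zero_add, mul_one, one_mul, sub_zero, sub_self, zero_div, neg_zero,
    Par.c1, Par.c2, Par.c3, Par.c4, Par.c5, Par.c6, Par.k1, Par.k2, Par.k3, Par.k4, Par.k5, Par.k6]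
  try ring

lemma rm2403 : (std p r).riem 2 4 0 3 = 0 := by
  rw [riem_diag _ _ (std_gi p r)]
  simp only [Fin.sum_univ_six, ch0, ch1, ch2, ch3, ch4, ch5, tabg]
  simp only [std, mkJet, tabx, tabd, tabj, mul_zero, zero_mul, add_zero, zero_add, mul_one, one_mul, sub_zero, sub_self, zero_div, neg_zero,
    Par.c1, Par.c2, Par.c3, Par.c4, Par.c5, Par.c6, Par.k1, Par.k2, Par.k3, Par.k4, Par.k5, Par.k6]
  try ring

lemma rm2404 : (std p r).riem 2 4 0 4 = 0 := by
  rw [riem_diag _ _ (std_gi p r)]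
  simp only [Fin.sum_univ_six, ch0, ch1, ch2, ch3, ch4, ch5, tabg]
  simp only [std, mkJet, tabx, tabd, tabj, mul_zero, zero_mul, add_zero, zero_add, mul_one, one_mul, sub_zero, sub_self, zero_div, neg_zero,
    Par.c1, Par.c2, Par.c3, Par.c4, Par.c5, Par.c6, Par.k1, Par.k2, Par.k3, Par.k4, Par.k5, Par.k6]
  try ring

lemma rm2405 : (std p r).riem 2 4 0 5 = 0 := by
  rw [riem_diag _ _ (std_gi p r)]
  simp only [Fin.sum_univ_six, ch0, ch1, ch2, ch3, ch4, ch5, tabg]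
  simp only [std, mkJet, tabx, tabd, tabj, mul_zero, zero_mul, add_zero, zero_add, mul_one, one_mul, sub_zero, sub_self, zero_div, neg_zero,
    Par.c1, Par.c2, Par.c3, Par.c4, Par.c5, Par.c6, Par.k1, Par.k2, Par.k3, Par.k4, Par.k5, Par.k6]
  try ring

lemma rm2412 : (std p r).riem 2 4 1 2 = 0 := by
  rw [riem_diag _ _ (std_gi p r)]
  simp only [Fin.sum_univ_six, ch0, ch1, ch2, ch3, ch4, ch5, tabg]
  simp only [std, mkJet, tabx, tabd, tabj, mul_zero, zero_mul, add_zero, zero_add, mul_one, one_mul, sub_zero, sub_self, zero_div, neg_zero,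
    Par.c1, Par.c2, Par.c3, Par.c4, Par.c5, Par.c6, Par.k1, Par.k2, Par.k3, Par.k4, Par.k5, Par.k6]
  try ring

lemma rm2413 : (std p r).riem 2 4 1 3 = 0 := by
  rw [riem_diag _ _ (std_gi p r)]
  simp only [Fin.sum_univ_six, ch0, ch1, ch2, ch3, ch4, ch5, tabg]
  simp only [std, mkJet, tabx, tabd, tabj, mul_zero, zero_mul, add_zero, zero_add, mul_one, one_mul, sub_zero, sub_self, zero_div, neg_zero,
    Par.c1, Par.c2, Par.c3, Par.c4, Par.c5, Par.c6, Par.k1, Par.k2, Par.k3, Par.k4, Par.k5, Par.k6]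
  try ring

lemma rm2414 : (std p r).riem 2 4 1 4 = 0 := by
  rw [riem_diag _ _ (std_gi p r)]
  simp only [Fin.sum_univ_six, ch0, ch1, ch2, ch3, ch4, ch5, tabg]
  simp only [std, mkJet, tabx, tabd, tabj, mul_zero, zero_mul, add_zero, zero_add, mul_one, one_mul, sub_zero, sub_self, zero_div, neg_zero,
    Par.c1, Par.c2, Par.c3, Par.c4, Par.c5, Par.c6, Par.k1, Par.k2, Par.k3, Par.k4, Par.k5, Par.k6]
  try ring

lemma rm2415 : (std p r).riem 2 4 1 5 = 0 := by
  rw [riem_diag _ _ (std_gi p r)]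
  simp only [Fin.sum_univ_six, ch0, ch1, ch2, ch3, ch4, ch5, tabg]
  simp only [std, mkJet, tabx, tabd, tabj, mul_zero, zero_mul, add_zero, zero_add, mul_one, one_mul, sub_zero, sub_self, zero_div, neg_zero,
    Par.c1, Par.c2, Par.c3, Par.c4, Par.c5, Par.c6, Par.k1, Par.k2, Par.k3, Par.k4, Par.k5, Par.k6]
  try ring

lemma rm2423 : (std p r).riem 2 4 2 3 = 0 := by
  rw [riem_diag _ _ (std_gi p r)]
  simp only [Fin.sum_univ_six, ch0, ch1, ch2, ch3, ch4, ch5, tabg]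
  simp only [std, mkJet, tabx, tabd, tabj, mul_zero, zero_mul, add_zero, zero_add, mul_one, one_mul, sub_zero, sub_self, zero_div, neg_zero,
    Par.c1, Par.c2, Par.c3, Par.c4, Par.c5, Par.c6, Par.k1, Par.k2, Par.k3, Par.k4, Par.k5, Par.k6]
  try ring

lemma rm2424 : (std p r).riem 2 4 2 4 = p.k5 r := by
  rw [riem_diag _ _ (std_gi p r)]
  simp only [Fin.sum_univ_six, ch0, ch1, ch2, ch3, ch4, ch5, tabg]
  simp only [std, mkJet, tabx, tabd, tabj, mul_zero, zero_mul, add_zero, zero_add, mul_one, one_mul, sub_zero, sub_self, zero_div, neg_zero,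
    Par.c1, Par.c2, Par.c3, Par.c4, Par.c5, Par.c6, Par.k1, Par.k2, Par.k3, Par.k4, Par.k5, Par.k6]
  try ring

lemma rm2425 : (std p r).riem 2 4 2 5 = 0 := by
  rw [riem_diag _ _ (std_gi p r)]
  simp only [Fin.sum_univ_six, ch0, ch1, ch2, ch3, ch4, ch5, tabg]
  simp only [std, mkJet, tabx, tabd, tabj, mul_zero, zero_mul, add_zero, zero_add, mul_one, one_mul, sub_zero, sub_self, zero_div, neg_zero,
    Par.c1, Par.c2, Par.c3, Par.c4, Par.c5, Par.c6, Par.k1, Par.k2, Par.k3, Par.k4, Par.k5, Par.k6]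
  try ring

lemma rm2434 : (std p r).riem 2 4 3 4 = 0 := by
  rw [riem_diag _ _ (std_gi p r)]
  simp only [Fin.sum_univ_six, ch0, ch1, ch2, ch3, ch4, ch5, tabg]
  simp only [std, mkJet, tabx, tabd, tabj, mul_zero, zero_mul, add_zero, zero_add, mul_one, one_mul, sub_zero, sub_self, zero_div, neg_zero,
    Par.c1, Par.c2, Par.c3, Par.c4, Par.c5, Par.c6, Par.k1, Par.k2, Par.k3, Par.k4, Par.k5, Par.k6]
  try ring

lemma rm2435 : (std p r).riem 2 4 3 5 = p.k6 r := by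
  rw [riem_diag _ _ (std_gi p r)]
  simp only [Fin.sum_univ_six, ch0, ch1, ch2, ch3, ch4, ch5, tabg]
  simp only [std, mkJet, tabx, tabd, tabj, mul_zero, zero_mul, add_zero, zero_add, mul_one, one_mul, sub_zero, sub_self, zero_div, neg_zero,
    Par.c1, Par.c2, Par.c3, Par.c4, Par.c5, Par.c6, Par.k1, Par.k2, Par.k3, Par.k4, Par.k5, Par.k6]
  try ring

lemma rm2445 : (std p r).riem 2 4 4 5 = 0 := by
  rw [riem_diag _ _ (std_gi p r)]
  simp only [Fin.sum_univ_six, ch0, ch1, ch2, ch3, ch4, ch5, tabg]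
  simp only [std, mkJet, tabx, tabd, tabj, mul_zero, zero_mul, add_zero, zero_add, mul_one, one_mul, sub_zero, sub_self, zero_div, neg_zero,
    Par.c1, Par.c2, Par.c3, Par.c4, Par.c5, Par.c6, Par.k1, Par.k2, Par.k3, Par.k4, Par.k5, Par.k6]
  try ring

lemma rm2501 : (std p r).riem 2 5 0 1 = 0 := by
  rw [riem_diag _ _ (std_gi p r)]
  simp only [Fin.sum_univ_six, ch0, ch1, ch2, ch3, ch4, ch5, tabg]
  simp only [std, mkJet, tabx, tabd, tabj, mul_zero, zero_mul, add_zero, zero_add, mul_one, one_mul, sub_zero, sub_self, zero_div, neg_zero,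
    Par.c1, Par.c2, Par.c3, Par.c4, Par.c5, Par.c6, Par.k1, Par.k2, Par.k3, Par.k4, Par.k5, Par.k6]
  try ring

lemma rm2502 : (std p r).riem 2 5 0 2 = 0 := by
  rw [riem_diag _ _ (std_gi p r)]
  simp only [Fin.sum_univ_six, ch0, ch1, ch2, ch3, ch4, ch5, tabg]
  simp only [std, mkJet, tabx, tabd, tabj, mul_zero, zero_mul, add_zero, zero_add, mul_one, one_mul, sub_zero, sub_self, zero_div, neg_zero,
    Par.c1, Par.c2, Par.c3, Par.c4, Par.c5, Par.c6, Par.k1, Par.k2, Par.k3, Par.k4, Par.k5, Par.k6]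
  try ring

lemma rm2503 : (std p r).riem 2 5 0 3 = 0 := by
  rw [riem_diag _ _ (std_gi p r)]
  simp only [Fin.sum_univ_six, ch0, ch1, ch2, ch3, ch4, ch5, tabg]
  simp only [std, mkJet, tabx, tabd, tabj, mul_zero, zero_mul, add_zero, zero_add, mul_one, one_mul, sub_zero, sub_self, zero_div, neg_zero,
    Par.c1, Par.c2, Par.c3, Par.c4, Par.c5, Par.c6, Par.k1, Par.k2, Par.k3, Par.k4, Par.k5, Par.k6]
  try ring

lemma rm2504 : (std p r).riem 2 5 0 4 = 0 := by
  rw [riem_diag _ _ (std_gi p r)]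
  simp only [Fin.sum_univ_six, ch0, ch1, ch2, ch3, ch4, ch5, tabg]
  simp only [std, mkJet, tabx, tabd, tabj, mul_zero, zero_mul, add_zero, zero_add, mul_one, one_mul, sub_zero, sub_self, zero_div, neg_zero,
    Par.c1, Par.c2, Par.c3, Par.c4, Par.c5, Par.c6, Par.k1, Par.k2, Par.k3, Par.k4, Par.k5, Par.k6]
  try ring

lemma rm2505 : (std p r).riem 2 5 0 5 = 0 := by
  rw [riem_diag _ _ (std_gi p r)]
  simp only [Fin.sum_univ_six, ch0, ch1, ch2, ch3, ch4, ch5, tabg]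
  simp only [std, mkJet, tabx, tabd, tabj, mul_zero, zero_mul, add_zero, zero_add, mul_one, one_mul, sub_zero, sub_self, zero_div, neg_zero,
    Par.c1, Par.c2, Par.c3, Par.c4, Par.c5, Par.c6, Par.k1, Par.k2, Par.k3, Par.k4, Par.k5, Par.k6]
  try ring

lemma rm2512 : (std p r).riem 2 5 1 2 = 0 := by
  rw [riem_diag _ _ (std_gi p r)]
  simp only [Fin.sum_univ_six, ch0, ch1, ch2, ch3, ch4, ch5, tabg]
  simp only [std, mkJet, tabx, tabd, tabj, mul_zero, zero_mul, add_zero, zero_add, mul_one, one_mul, sub_zero, sub_self, zero_div, neg_zero,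
    Par.c1, Par.c2, Par.c3, Par.c4, Par.c5, Par.c6, Par.k1, Par.k2, Par.k3, Par.k4, Par.k5, Par.k6]
  try ring

lemma rm2513 : (std p r).riem 2 5 1 3 = 0 := by
  rw [riem_diag _ _ (std_gi p r)]
  simp only [Fin.sum_univ_six, ch0, ch1, ch2, ch3, ch4, ch5, tabg]
  simp only [std, mkJet, tabx, tabd, tabj, mul_zero, zero_mul, add_zero, zero_add, mul_one, one_mul, sub_zero, sub_self, zero_div, neg_zero,
    Par.c1, Par.c2, Par.c3, Par.c4, Par.c5, Par.c6, Par.k1, Par.k2, Par.k3, Par.k4, Par.k5, Par.k6]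
  try ring

lemma rm2514 : (std p r).riem 2 5 1 4 = 0 := by
  rw [riem_diag _ _ (std_gi p r)]
  simp only [Fin.sum_univ_six, ch0, ch1, ch2, ch3, ch4, ch5, tabg]
  simp only [std, mkJet, tabx, tabd, tabj, mul_zero, zero_mul, add_zero, zero_add, mul_one, one_mul, sub_zero, sub_self, zero_div, neg_zero,
    Par.c1, Par.c2, Par.c3, Par.c4, Par.c5, Par.c6, Par.k1, Par.k2, Par.k3, Par.k4, Par.k5, Par.k6]
  try ring

lemma rm2515 : (std p r).riem 2 5 1 5 = 0 := by
  rw [riem_diag _ _ (std_gi p r)]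
  simp only [Fin.sum_univ_six, ch0, ch1, ch2, ch3, ch4, ch5, tabg]
  simp only [std, mkJet, tabx, tabd, tabj, mul_zero, zero_mul, add_zero, zero_add, mul_one, one_mul, sub_zero, sub_self, zero_div, neg_zero,
    Par.c1, Par.c2, Par.c3, Par.c4, Par.c5, Par.c6, Par.k1, Par.k2, Par.k3, Par.k4, Par.k5, Par.k6]
  try ring

lemma rm2523 : (std p r).riem 2 5 2 3 = 0 := by
  rw [riem_diag _ _ (std_gi p r)]
  simp only [Fin.sum_univ_six, ch0, ch1, ch2, ch3, ch4, ch5, tabg]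
  simp only [std, mkJet, tabx, tabd, tabj, mul_zero, zero_mul, add_zero, zero_add, mul_one, one_mul, sub_zero, sub_self, zero_div, neg_zero,
    Par.c1, Par.c2, Par.c3, Par.c4, Par.c5, Par.c6, Par.k1, Par.k2, Par.k3, Par.k4, Par.k5, Par.k6]
  try ring

lemma rm2524 : (std p r).riem 2 5 2 4 = 0 := by
  rw [riem_diag _ _ (std_gi p r)]
  simp only [Fin.sum_univ_six, ch0, ch1, ch2, ch3, ch4, ch5, tabg]
  simp only [std, mkJet, tabx, tabd, tabj, mul_zero, zero_mul, add_zero, zero_add, mul_one, one_mul, sub_zero, sub_self, zero_div, neg_zero,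
    Par.c1, Par.c2, Par.c3, Par.c4, Par.c5, Par.c6, Par.k1, Par.k2, Par.k3, Par.k4, Par.k5, Par.k6]
  try ring

lemma rm2525 : (std p r).riem 2 5 2 5 = p.k5 r := by
  rw [riem_diag _ _ (std_gi p r)]
  simp only [Fin.sum_univ_six, ch0, ch1, ch2, ch3, ch4, ch5, tabg]
  simp only [std, mkJet, tabx, tabd, tabj, mul_zero, zero_mul, add_zero, zero_add, mul_one, one_mul, sub_zero, sub_self, zero_div, neg_zero,
    Par.c1, Par.c2, Par.c3, Par.c4, Par.c5, Par.c6, Par.k1, Par.k2, Par.k3, Par.k4, Par.k5, Par.k6]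
  try ring

lemma rm2534 : (std p r).riem 2 5 3 4 = -p.k6 r := by
  rw [riem_diag _ _ (std_gi p r)]
  simp only [Fin.sum_univ_six, ch0, ch1, ch2, ch3, ch4, ch5, tabg]
  simp only [std, mkJet, tabx, tabd, tabj, mul_zero, zero_mul, add_zero, zero_add, mul_one, one_mul, sub_zero, sub_self, zero_div, neg_zero,
    Par.c1, Par.c2, Par.c3, Par.c4, Par.c5, Par.c6, Par.k1, Par.k2, Par.k3, Par.k4, Par.k5, Par.k6]
  try ring

lemma rm2535 : (std p r).riem 2 5 3 5 = 0 := by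
  rw [riem_diag _ _ (std_gi p r)]
  simp only [Fin.sum_univ_six, ch0, ch1, ch2, ch3, ch4, ch5, tabg]
  simp only [std, mkJet, tabx, tabd, tabj, mul_zero, zero_mul, add_zero, zero_add, mul_one, one_mul, sub_zero, sub_self, zero_div, neg_zero,
    Par.c1, Par.c2, Par.c3, Par.c4, Par.c5, Par.c6, Par.k1, Par.k2, Par.k3, Par.k4, Par.k5, Par.k6]
  try ring

lemma rm2545 : (std p r).riem 2 5 4 5 = 0 := by
  rw [riem_diag _ _ (std_gi p r)]
  simp only [Fin.sum_univ_six, ch0, ch1, ch2, ch3, ch4, ch5, tabg]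
  simp only [std, mkJet, tabx, tabd, tabj, mul_zero, zero_mul, add_zero, zero_add, mul_one, one_mul, sub_zero, sub_self, zero_div, neg_zero,
    Par.c1, Par.c2, Par.c3, Par.c4, Par.c5, Par.c6, Par.k1, Par.k2, Par.k3, Par.k4, Par.k5, Par.k6]
  try ring

lemma rm3401 : (std p r).riem 3 4 0 1 = 0 := by
  rw [riem_diag _ _ (std_gi p r)]
  simp only [Fin.sum_univ_six, ch0, ch1, ch2, ch3, ch4, ch5, tabg]
  simp only [std, mkJet, tabx, tabd, tabj, mul_zero, zero_mul, add_zero, zero_add, mul_one, one_mul, sub_zero, sub_self, zero_div, neg_zero,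
    Par.c1, Par.c2, Par.c3, Par.c4, Par.c5, Par.c6, Par.k1, Par.k2, Par.k3, Par.k4, Par.k5, Par.k6]
  try ring

lemma rm3402 : (std p r).riem 3 4 0 2 = 0 := by
  rw [riem_diag _ _ (std_gi p r)]
  simp only [Fin.sum_univ_six, ch0, ch1, ch2, ch3, ch4, ch5, tabg]
  simp only [std, mkJet, tabx, tabd, tabj, mul_zero, zero_mul, add_zero, zero_add, mul_one, one_mul, sub_zero, sub_self, zero_div, neg_zero,
    Par.c1, Par.c2, Par.c3, Par.c4, Par.c5, Par.c6, Par.k1, Par.k2, Par.k3, Par.k4, Par.k5, Par.k6]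
  try ring

lemma rm3403 : (std p r).riem 3 4 0 3 = 0 := by
  rw [riem_diag _ _ (std_gi p r)]
  simp only [Fin.sum_univ_six, ch0, ch1, ch2, ch3, ch4, ch5, tabg]
  simp only [std, mkJet, tabx, tabd, tabj, mul_zero, zero_mul, add_zero, zero_add, mul_one, one_mul, sub_zero, sub_self, zero_div, neg_zero,
    Par.c1, Par.c2, Par.c3, Par.c4, Par.c5, Par.c6, Par.k1, Par.k2, Par.k3, Par.k4, Par.k5, Par.k6]
  try ring

lemma rm3404 : (std p r).riem 3 4 0 4 = 0 := by
  rw [riem_diag _ _ (std_gi p r)]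
  simp only [Fin.sum_univ_six, ch0, ch1, ch2, ch3, ch4, ch5, tabg]
  simp only [std, mkJet, tabx, tabd, tabj, mul_zero, zero_mul, add_zero, zero_add, mul_one, one_mul, sub_zero, sub_self, zero_div, neg_zero,
    Par.c1, Par.c2, Par.c3, Par.c4, Par.c5, Par.c6, Par.k1, Par.k2, Par.k3, Par.k4, Par.k5, Par.k6]
  try ring

lemma rm3405 : (std p r).riem 3 4 0 5 = 0 := by
  rw [riem_diag _ _ (std_gi p r)]
  simp only [Fin.sum_univ_six, ch0, ch1, ch2, ch3, ch4, ch5, tabg]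
  simp only [std, mkJet, tabx, tabd, tabj, mul_zero, zero_mul, add_zero, zero_add, mul_one, one_mul, sub_zero, sub_self, zero_div, neg_zero,
    Par.c1, Par.c2, Par.c3, Par.c4, Par.c5, Par.c6, Par.k1, Par.k2, Par.k3, Par.k4, Par.k5, Par.k6]
  try ring

lemma rm3412 : (std p r).riem 3 4 1 2 = 0 := by
  rw [riem_diag _ _ (std_gi p r)]
  simp only [Fin.sum_univ_six, ch0, ch1, ch2, ch3, ch4, ch5, tabg]
  simp only [std, mkJet, tabx, tabd, tabj, mul_zero, zero_mul, add_zero, zero_add, mul_one, one_mul, sub_zero, sub_self, zero_div, neg_zero,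
    Par.c1, Par.c2, Par.c3, Par.c4, Par.c5, Par.c6, Par.k1, Par.k2, Par.k3, Par.k4, Par.k5, Par.k6]
  try ring

lemma rm3413 : (std p r).riem 3 4 1 3 = 0 := by
  rw [riem_diag _ _ (std_gi p r)]
  simp only [Fin.sum_univ_six, ch0, ch1, ch2, ch3, ch4, ch5, tabg]
  simp only [std, mkJet, tabx, tabd, tabj, mul_zero, zero_mul, add_zero, zero_add, mul_one, one_mul, sub_zero, sub_self, zero_div, neg_zero,
    Par.c1, Par.c2, Par.c3, Par.c4, Par.c5, Par.c6, Par.k1, Par.k2, Par.k3, Par.k4, Par.k5, Par.k6]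
  try ring

lemma rm3414 : (std p r).riem 3 4 1 4 = 0 := by
  rw [riem_diag _ _ (std_gi p r)]
  simp only [Fin.sum_univ_six, ch0, ch1, ch2, ch3, ch4, ch5, tabg]
  simp only [std, mkJet, tabx, tabd, tabj, mul_zero, zero_mul, add_zero, zero_add, mul_one, one_mul, sub_zero, sub_self, zero_div, neg_zero,
    Par.c1, Par.c2, Par.c3, Par.c4, Par.c5, Par.c6, Par.k1, Par.k2, Par.k3, Par.k4, Par.k5, Par.k6]
  try ring

lemma rm3415 : (std p r).riem 3 4 1 5 = 0 := by
  rw [riem_diag _ _ (std_gi p r)]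
  simp only [Fin.sum_univ_six, ch0, ch1, ch2, ch3, ch4, ch5, tabg]
  simp only [std, mkJet, tabx, tabd, tabj, mul_zero, zero_mul, add_zero, zero_add, mul_one, one_mul, sub_zero, sub_self, zero_div, neg_zero,
    Par.c1, Par.c2, Par.c3, Par.c4, Par.c5, Par.c6, Par.k1, Par.k2, Par.k3, Par.k4, Par.k5, Par.k6]
  try ring

lemma rm3423 : (std p r).riem 3 4 2 3 = 0 := by
  rw [riem_diag _ _ (std_gi p r)]
  simp only [Fin.sum_univ_six, ch0, ch1, ch2, ch3, ch4, ch5, tabg]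
  simp only [std, mkJet, tabx, tabd, tabj, mul_zero, zero_mul, add_zero, zero_add, mul_one, one_mul, sub_zero, sub_self, zero_div, neg_zero,
    Par.c1, Par.c2, Par.c3, Par.c4, Par.c5, Par.c6, Par.k1, Par.k2, Par.k3, Par.k4, Par.k5, Par.k6]
  try ring

lemma rm3424 : (std p r).riem 3 4 2 4 = 0 := by
  rw [riem_diag _ _ (std_gi p r)]
  simp only [Fin.sum_univ_six, ch0, ch1, ch2, ch3, ch4, ch5, tabg]
  simp only [std, mkJet, tabx, tabd, tabj, mul_zero, zero_mul, add_zero, zero_add, mul_one, one_mul, sub_zero, sub_self, zero_div, neg_zero,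
    Par.c1, Par.c2, Par.c3, Par.c4, Par.c5, Par.c6, Par.k1, Par.k2, Par.k3, Par.k4, Par.k5, Par.k6]
  try ring

lemma rm3425 : (std p r).riem 3 4 2 5 = -p.k6 r := by
  rw [riem_diag _ _ (std_gi p r)]
  simp only [Fin.sum_univ_six, ch0, ch1, ch2, ch3, ch4, ch5, tabg]
  simp only [std, mkJet, tabx, tabd, tabj, mul_zero, zero_mul, add_zero, zero_add, mul_one, one_mul, sub_zero, sub_self, zero_div, neg_zero,
    Par.c1, Par.c2, Par.c3, Par.c4, Par.c5, Par.c6, Par.k1, Par.k2, Par.k3, Par.k4, Par.k5, Par.k6]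
  try ring

lemma rm3434 : (std p r).riem 3 4 3 4 = p.k5 r := by
  rw [riem_diag _ _ (std_gi p r)]
  simp only [Fin.sum_univ_six, ch0, ch1, ch2, ch3, ch4, ch5, tabg]
  simp only [std, mkJet, tabx, tabd, tabj, mul_zero, zero_mul, add_zero, zero_add, mul_one, one_mul, sub_zero, sub_self, zero_div, neg_zero,
    Par.c1, Par.c2, Par.c3, Par.c4, Par.c5, Par.c6, Par.k1, Par.k2, Par.k3, Par.k4, Par.k5, Par.k6]
  try ring

lemma rm3435 : (std p r).riem 3 4 3 5 = 0 := by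
  rw [riem_diag _ _ (std_gi p r)]
  simp only [Fin.sum_univ_six, ch0, ch1, ch2, ch3, ch4, ch5, tabg]
  simp only [std, mkJet, tabx, tabd, tabj, mul_zero, zero_mul, add_zero, zero_add, mul_one, one_mul, sub_zero, sub_self, zero_div, neg_zero,
    Par.c1, Par.c2, Par.c3, Par.c4, Par.c5, Par.c6, Par.k1, Par.k2, Par.k3, Par.k4, Par.k5, Par.k6]
  try ring

lemma rm3445 : (std p r).riem 3 4 4 5 = 0 := by
  rw [riem_diag _ _ (std_gi p r)]
  simp only [Fin.sum_univ_six, ch0, ch1, ch2, ch3, ch4, ch5, tabg]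
  simp only [std, mkJet, tabx, tabd, tabj, mul_zero, zero_mul, add_zero, zero_add, mul_one, one_mul, sub_zero, sub_self, zero_div, neg_zero,
    Par.c1, Par.c2, Par.c3, Par.c4, Par.c5, Par.c6, Par.k1, Par.k2, Par.k3, Par.k4, Par.k5, Par.k6]
  try ring

lemma rm3501 : (std p r).riem 3 5 0 1 = 0 := by
  rw [riem_diag _ _ (std_gi p r)]
  simp only [Fin.sum_univ_six, ch0, ch1, ch2, ch3, ch4, ch5, tabg]
  simp only [std, mkJet, tabx, tabd, tabj, mul_zero, zero_mul, add_zero, zero_add, mul_one, one_mul, sub_zero, sub_self, zero_div, neg_zero,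
    Par.c1, Par.c2, Par.c3, Par.c4, Par.c5, Par.c6, Par.k1, Par.k2, Par.k3, Par.k4, Par.k5, Par.k6]
  try ring

lemma rm3502 : (std p r).riem 3 5 0 2 = 0 := by
  rw [riem_diag _ _ (std_gi p r)]
  simp only [Fin.sum_univ_six, ch0, ch1, ch2, ch3, ch4, ch5, tabg]
  simp only [std, mkJet, tabx, tabd, tabj, mul_zero, zero_mul, add_zero, zero_add, mul_one, one_mul, sub_zero, sub_self, zero_div, neg_zero,
    Par.c1, Par.c2, Par.c3, Par.c4, Par.c5, Par.c6, Par.k1, Par.k2, Par.k3, Par.k4, Par.k5, Par.k6]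
  try ring

lemma rm3503 : (std p r).riem 3 5 0 3 = 0 := by
  rw [riem_diag _ _ (std_gi p r)]
  simp only [Fin.sum_univ_six, ch0, ch1, ch2, ch3, ch4, ch5, tabg]
  simp only [std, mkJet, tabx, tabd, tabj, mul_zero, zero_mul, add_zero, zero_add, mul_one, one_mul, sub_zero, sub_self, zero_div, neg_zero,
    Par.c1, Par.c2, Par.c3, Par.c4, Par.c5, Par.c6, Par.k1, Par.k2, Par.k3, Par.k4, Par.k5, Par.k6]
  try ring

lemma rm3504 : (std p r).riem 3 5 0 4 = 0 := by
  rw [riem_diag _ _ (std_gi p r)]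
  simp only [Fin.sum_univ_six, ch0, ch1, ch2, ch3, ch4, ch5, tabg]
  simp only [std, mkJet, tabx, tabd, tabj, mul_zero, zero_mul, add_zero, zero_add, mul_one, one_mul, sub_zero, sub_self, zero_div, neg_zero,
    Par.c1, Par.c2, Par.c3, Par.c4, Par.c5, Par.c6, Par.k1, Par.k2, Par.k3, Par.k4, Par.k5, Par.k6]
  try ring

lemma rm3505 : (std p r).riem 3 5 0 5 = 0 := by
  rw [riem_diag _ _ (std_gi p r)]
  simp only [Fin.sum_univ_six, ch0, ch1, ch2, ch3, ch4, ch5, tabg]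
  simp only [std, mkJet, tabx, tabd, tabj, mul_zero, zero_mul, add_zero, zero_add, mul_one, one_mul, sub_zero, sub_self, zero_div, neg_zero,
    Par.c1, Par.c2, Par.c3, Par.c4, Par.c5, Par.c6, Par.k1, Par.k2, Par.k3, Par.k4, Par.k5, Par.k6]
  try ring

lemma rm3512 : (std p r).riem 3 5 1 2 = 0 := by
  rw [riem_diag _ _ (std_gi p r)]
  simp only [Fin.sum_univ_six, ch0, ch1, ch2, ch3, ch4, ch5, tabg]
  simp only [std, mkJet, tabx, tabd, tabj, mul_zero, zero_mul, add_zero, zero_add, mul_one, one_mul, sub_zero, sub_self, zero_div, neg_zero,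
    Par.c1, Par.c2, Par.c3, Par.c4, Par.c5, Par.c6, Par.k1, Par.k2, Par.k3, Par.k4, Par.k5, Par.k6]
  try ring

lemma rm3513 : (std p r).riem 3 5 1 3 = 0 := by
  rw [riem_diag _ _ (std_gi p r)]
  simp only [Fin.sum_univ_six, ch0, ch1, ch2, ch3, ch4, ch5, tabg]
  simp only [std, mkJet, tabx, tabd, tabj, mul_zero, zero_mul, add_zero, zero_add, mul_one, one_mul, sub_zero, sub_self, zero_div, neg_zero,
    Par.c1, Par.c2, Par.c3, Par.c4, Par.c5, Par.c6, Par.k1, Par.k2, Par.k3, Par.k4, Par.k5, Par.k6]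
  try ring

lemma rm3514 : (std p r).riem 3 5 1 4 = 0 := by
  rw [riem_diag _ _ (std_gi p r)]
  simp only [Fin.sum_univ_six, ch0, ch1, ch2, ch3, ch4, ch5, tabg]
  simp only [std, mkJet, tabx, tabd, tabj, mul_zero, zero_mul, add_zero, zero_add, mul_one, one_mul, sub_zero, sub_self, zero_div, neg_zero,
    Par.c1, Par.c2, Par.c3, Par.c4, Par.c5, Par.c6, Par.k1, Par.k2, Par.k3, Par.k4, Par.k5, Par.k6]
  try ring

lemma rm3515 : (std p r).riem 3 5 1 5 = 0 := by
  rw [riem_diag _ _ (std_gi p r)]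
  simp only [Fin.sum_univ_six, ch0, ch1, ch2, ch3, ch4, ch5, tabg]
  simp only [std, mkJet, tabx, tabd, tabj, mul_zero, zero_mul, add_zero, zero_add, mul_one, one_mul, sub_zero, sub_self, zero_div, neg_zero,
    Par.c1, Par.c2, Par.c3, Par.c4, Par.c5, Par.c6, Par.k1, Par.k2, Par.k3, Par.k4, Par.k5, Par.k6]
  try ring

lemma rm3523 : (std p r).riem 3 5 2 3 = 0 := by
  rw [riem_diag _ _ (std_gi p r)]
  simp only [Fin.sum_univ_six, ch0, ch1, ch2, ch3, ch4, ch5, tabg]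
  simp only [std, mkJet, tabx, tabd, tabj, mul_zero, zero_mul, add_zero, zero_add, mul_one, one_mul, sub_zero, sub_self, zero_div, neg_zero,
    Par.c1, Par.c2, Par.c3, Par.c4, Par.c5, Par.c6, Par.k1, Par.k2, Par.k3, Par.k4, Par.k5, Par.k6]
  try ring

lemma rm3524 : (std p r).riem 3 5 2 4 = p.k6 r := by
  rw [riem_diag _ _ (std_gi p r)]
  simp only [Fin.sum_univ_six, ch0, ch1, ch2, ch3, ch4, ch5, tabg]
  simp only [std, mkJet, tabx, tabd, tabj, mul_zero, zero_mul, add_zero, zero_add, mul_one, one_mul, sub_zero, sub_self, zero_div, neg_zero,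
    Par.c1, Par.c2, Par.c3, Par.c4, Par.c5, Par.c6, Par.k1, Par.k2, Par.k3, Par.k4, Par.k5, Par.k6]
  try ring

lemma rm3525 : (std p r).riem 3 5 2 5 = 0 := by
  rw [riem_diag _ _ (std_gi p r)]
  simp only [Fin.sum_univ_six, ch0, ch1, ch2, ch3, ch4, ch5, tabg]
  simp only [std, mkJet, tabx, tabd, tabj, mul_zero, zero_mul, add_zero, zero_add, mul_one, one_mul, sub_zero, sub_self, zero_div, neg_zero,
    Par.c1, Par.c2, Par.c3, Par.c4, Par.c5, Par.c6, Par.k1, Par.k2, Par.k3, Par.k4, Par.k5, Par.k6]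
  try ring

lemma rm3534 : (std p r).riem 3 5 3 4 = 0 := by
  rw [riem_diag _ _ (std_gi p r)]
  simp only [Fin.sum_univ_six, ch0, ch1, ch2, ch3, ch4, ch5, tabg]
  simp only [std, mkJet, tabx, tabd, tabj, mul_zero, zero_mul, add_zero, zero_add, mul_one, one_mul, sub_zero, sub_self, zero_div, neg_zero,
    Par.c1, Par.c2, Par.c3, Par.c4, Par.c5, Par.c6, Par.k1, Par.k2, Par.k3, Par.k4, Par.k5, Par.k6]
  try ring

lemma rm3535 : (std p r).riem 3 5 3 5 = p.k5 r := by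
  rw [riem_diag _ _ (std_gi p r)]
  simp only [Fin.sum_univ_six, ch0, ch1, ch2, ch3, ch4, ch5, tabg]
  simp only [std, mkJet, tabx, tabd, tabj, mul_zero, zero_mul, add_zero, zero_add, mul_one, one_mul, sub_zero, sub_self, zero_div, neg_zero,
    Par.c1, Par.c2, Par.c3, Par.c4, Par.c5, Par.c6, Par.k1, Par.k2, Par.k3, Par.k4, Par.k5, Par.k6]
  try ring

lemma rm3545 : (std p r).riem 3 5 4 5 = 0 := by
  rw [riem_diag _ _ (std_gi p r)]
  simp only [Fin.sum_univ_six, ch0, ch1, ch2, ch3, ch4, ch5, tabg]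
  simp only [std, mkJet, tabx, tabd, tabj, mul_zero, zero_mul, add_zero, zero_add, mul_one, one_mul, sub_zero, sub_self, zero_div, neg_zero,
    Par.c1, Par.c2, Par.c3, Par.c4, Par.c5, Par.c6, Par.k1, Par.k2, Par.k3, Par.k4, Par.k5, Par.k6]
  try ring

lemma rm4501 : (std p r).riem 4 5 0 1 = 2*p.k4 r := by
  rw [riem_diag _ _ (std_gi p r)]
  simp only [Fin.sum_univ_six, ch0, ch1, ch2, ch3, ch4, ch5, tabg]
  simp only [std, mkJet, tabx, tabd, tabj, mul_zero, zero_mul, add_zero, zero_add, mul_one, one_mul, sub_zero, sub_self, zero_div, neg_zero,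
    Par.c1, Par.c2, Par.c3, Par.c4, Par.c5, Par.c6, Par.k1, Par.k2, Par.k3, Par.k4, Par.k5, Par.k6]
  try ring

lemma rm4502 : (std p r).riem 4 5 0 2 = 0 := by
  rw [riem_diag _ _ (std_gi p r)]
  simp only [Fin.sum_univ_six, ch0, ch1, ch2, ch3, ch4, ch5, tabg]
  simp only [std, mkJet, tabx, tabd, tabj, mul_zero, zero_mul, add_zero, zero_add, mul_one, one_mul, sub_zero, sub_self, zero_div, neg_zero,
    Par.c1, Par.c2, Par.c3, Par.c4, Par.c5, Par.c6, Par.k1, Par.k2, Par.k3, Par.k4, Par.k5, Par.k6]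
  try ring

lemma rm4503 : (std p r).riem 4 5 0 3 = 0 := by
  rw [riem_diag _ _ (std_gi p r)]
  simp only [Fin.sum_univ_six, ch0, ch1, ch2, ch3, ch4, ch5, tabg]
  simp only [std, mkJet, tabx, tabd, tabj, mul_zero, zero_mul, add_zero, zero_add, mul_one, one_mul, sub_zero, sub_self, zero_div, neg_zero,
    Par.c1, Par.c2, Par.c3, Par.c4, Par.c5, Par.c6, Par.k1, Par.k2, Par.k3, Par.k4, Par.k5, Par.k6]
  try ring

lemma rm4504 : (std p r).riem 4 5 0 4 = 0 := by
  rw [riem_diag _ _ (std_gi p r)]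
  simp only [Fin.sum_univ_six, ch0, ch1, ch2, ch3, ch4, ch5, tabg]
  simp only [std, mkJet, tabx, tabd, tabj, mul_zero, zero_mul, add_zero, zero_add, mul_one, one_mul, sub_zero, sub_self, zero_div, neg_zero,
    Par.c1, Par.c2, Par.c3, Par.c4, Par.c5, Par.c6, Par.k1, Par.k2, Par.k3, Par.k4, Par.k5, Par.k6]
  try ring

lemma rm4505 : (std p r).riem 4 5 0 5 = 0 := by
  rw [riem_diag _ _ (std_gi p r)]
  simp only [Fin.sum_univ_six, ch0, ch1, ch2, ch3, ch4, ch5, tabg]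
  simp only [std, mkJet, tabx, tabd, tabj, mul_zero, zero_mul, add_zero, zero_add, mul_one, one_mul, sub_zero, sub_self, zero_div, neg_zero,
    Par.c1, Par.c2, Par.c3, Par.c4, Par.c5, Par.c6, Par.k1, Par.k2, Par.k3, Par.k4, Par.k5, Par.k6]
  try ring

lemma rm4512 : (std p r).riem 4 5 1 2 = 0 := by
  rw [riem_diag _ _ (std_gi p r)]
  simp only [Fin.sum_univ_six, ch0, ch1, ch2, ch3, ch4, ch5, tabg]
  simp only [std, mkJet, tabx, tabd, tabj, mul_zero, zero_mul, add_zero, zero_add, mul_one, one_mul, sub_zero, sub_self, zero_div, neg_zero,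
    Par.c1, Par.c2, Par.c3, Par.c4, Par.c5, Par.c6, Par.k1, Par.k2, Par.k3, Par.k4, Par.k5, Par.k6]
  try ring

lemma rm4513 : (std p r).riem 4 5 1 3 = 0 := by
  rw [riem_diag _ _ (std_gi p r)]
  simp only [Fin.sum_univ_six, ch0, ch1, ch2, ch3, ch4, ch5, tabg]
  simp only [std, mkJet, tabx, tabd, tabj, mul_zero, zero_mul, add_zero, zero_add, mul_one, one_mul, sub_zero, sub_self, zero_div, neg_zero,
    Par.c1, Par.c2, Par.c3, Par.c4, Par.c5, Par.c6, Par.k1, Par.k2, Par.k3, Par.k4, Par.k5, Par.k6]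
  try ring

lemma rm4514 : (std p r).riem 4 5 1 4 = 0 := by
  rw [riem_diag _ _ (std_gi p r)]
  simp only [Fin.sum_univ_six, ch0, ch1, ch2, ch3, ch4, ch5, tabg]
  simp only [std, mkJet, tabx, tabd, tabj, mul_zero, zero_mul, add_zero, zero_add, mul_one, one_mul, sub_zero, sub_self, zero_div, neg_zero,
    Par.c1, Par.c2, Par.c3, Par.c4, Par.c5, Par.c6, Par.k1, Par.k2, Par.k3, Par.k4, Par.k5, Par.k6]
  try ring

lemma rm4515 : (std p r).riem 4 5 1 5 = 0 := by
  rw [riem_diag _ _ (std_gi p r)]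
  simp only [Fin.sum_univ_six, ch0, ch1, ch2, ch3, ch4, ch5, tabg]
  simp only [std, mkJet, tabx, tabd, tabj, mul_zero, zero_mul, add_zero, zero_add, mul_one, one_mul, sub_zero, sub_self, zero_div, neg_zero,
    Par.c1, Par.c2, Par.c3, Par.c4, Par.c5, Par.c6, Par.k1, Par.k2, Par.k3, Par.k4, Par.k5, Par.k6]
  try ring

lemma rm4523 : (std p r).riem 4 5 2 3 = 2*p.k6 r := by
  rw [riem_diag _ _ (std_gi p r)]
  simp only [Fin.sum_univ_six, ch0, ch1, ch2, ch3, ch4, ch5, tabg]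
  simp only [std, mkJet, tabx, tabd, tabj, mul_zero, zero_mul, add_zero, zero_add, mul_one, one_mul, sub_zero, sub_self, zero_div, neg_zero,
    Par.c1, Par.c2, Par.c3, Par.c4, Par.c5, Par.c6, Par.k1, Par.k2, Par.k3, Par.k4, Par.k5, Par.k6]
  try ring

lemma rm4524 : (std p r).riem 4 5 2 4 = 0 := by
  rw [riem_diag _ _ (std_gi p r)]
  simp only [Fin.sum_univ_six, ch0, ch1, ch2, ch3, ch4, ch5, tabg]
  simp only [std, mkJet, tabx, tabd, tabj, mul_zero, zero_mul, add_zero, zero_add, mul_one, one_mul, sub_zero, sub_self, zero_div, neg_zero,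
    Par.c1, Par.c2, Par.c3, Par.c4, Par.c5, Par.c6, Par.k1, Par.k2, Par.k3, Par.k4, Par.k5, Par.k6]
  try ring

lemma rm4525 : (std p r).riem 4 5 2 5 = 0 := by
  rw [riem_diag _ _ (std_gi p r)]
  simp only [Fin.sum_univ_six, ch0, ch1, ch2, ch3, ch4, ch5, tabg]
  simp only [std, mkJet, tabx, tabd, tabj, mul_zero, zero_mul, add_zero, zero_add, mul_one, one_mul, sub_zero, sub_self, zero_div, neg_zero,
    Par.c1, Par.c2, Par.c3, Par.c4, Par.c5, Par.c6, Par.k1, Par.k2, Par.k3, Par.k4, Par.k5, Par.k6]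
  try ring

lemma rm4534 : (std p r).riem 4 5 3 4 = 0 := by
  rw [riem_diag _ _ (std_gi p r)]
  simp only [Fin.sum_univ_six, ch0, ch1, ch2, ch3, ch4, ch5, tabg]
  simp only [std, mkJet, tabx, tabd, tabj, mul_zero, zero_mul, add_zero, zero_add, mul_one, one_mul, sub_zero, sub_self, zero_div, neg_zero,
    Par.c1, Par.c2, Par.c3, Par.c4, Par.c5, Par.c6, Par.k1, Par.k2, Par.k3, Par.k4, Par.k5, Par.k6]
  try ring

lemma rm4535 : (std p r).riem 4 5 3 5 = 0 := by
  rw [riem_diag _ _ (std_gi p r)]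
  simp only [Fin.sum_univ_six, ch0, ch1, ch2, ch3, ch4, ch5, tabg]
  simp only [std, mkJet, tabx, tabd, tabj, mul_zero, zero_mul, add_zero, zero_add, mul_one, one_mul, sub_zero, sub_self, zero_div, neg_zero,
    Par.c1, Par.c2, Par.c3, Par.c4, Par.c5, Par.c6, Par.k1, Par.k2, Par.k3, Par.k4, Par.k5, Par.k6]
  try ring

lemma rm4545 : (std p r).riem 4 5 4 5 = (p.k5 r+3*p.k6 r) := by
  rw [riem_diag _ _ (std_gi p r)]
  simp only [Fin.sum_univ_six, ch0, ch1, ch2, ch3, ch4, ch5, tabg]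
  simp only [std, mkJet, tabx, tabd, tabj, mul_zero, zero_mul, add_zero, zero_add, mul_one, one_mul, sub_zero, sub_self, zero_div, neg_zero,
    Par.c1, Par.c2, Par.c3, Par.c4, Par.c5, Par.c6, Par.k1, Par.k2, Par.k3, Par.k4, Par.k5, Par.k6]
  try ring

end H528GBC
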