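import Pool.Agent.H528Z.GbcInv

set_option autoImplicit false
set_option linter.unusedSimpArgs false
set_option linter.unnecessarySeqFocus false
set_option linter.unusedTactic false
set_option linter.unreachableTactic false

namespace H528GBC

/-- values and derivatives of the three coefficient functions, and of the inverse metric -/
structure Par where
  G1 : ℝ
  G2 : ℝ
  A : ℝ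
  A1 : ℝ
  A2 : ℝ
  C : ℝ
  C1 : ℝ
  C2 : ℝ
  c : ℝ
  pa : ℝ
  pb : ℝ

def mkJet (p : Par) (x y : Fin 6 → ℝ) (dl jm : Fin 6 → Fin 6 → ℝ) : Jet 6 where
  gi i j := p.c * dl i j + p.pa * x i * x j + p.pb * y i * y j
  d1 k i j := 2 * p.G1 * x k * dl i j + 2 * p.A1 * x k * x i * x j
    + p.A * (dl k i * x j + x i * dl k j) + 2 * p.C1 * x k * y i * y j
    + p.C * (jm k i * y j + y i * jm k j)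
  d2 l k i j := 4 * p.G2 * x l * x k * dl i j + 2 * p.G1 * dl l k * dl i j
    + 4 * p.A2 * x l * x k * x i * x j
    + 2 * p.A1 * (dl l k * x i * x j + x k * dl l i * x j + x k * x i * dl l j)
    + 2 * p.A1 * x l * (dl k i * x j + x i * dl k j) + p.A * (dl k i * dl l j + dl l i * dl k j)
    + 4 * p.C2 * x l * x k * y i * y j
    + 2 * p.C1 * (dl l k * y i * y j + x k * jm l i * y j + x k * y i * jm l j)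
    + 2 * p.C1 * x l * (jm k i * y j + y i * jm k j) + p.C * (jm k i * jm l j + jm l i * jm k j)

def dl0 : Fin 6 → Fin 6 → ℝ :=
  ![![1, 0, 0, 0, 0, 0], ![0, 1, 0, 0, 0, 0], ![0, 0, 1, 0, 0, 0], ![0, 0, 0, 1, 0, 0],
    ![0, 0, 0, 0, 1, 0], ![0, 0, 0, 0, 0, 1]]

def jm0 : Fin 6 → Fin 6 → ℝ :=
  ![![0, 1, 0, 0, 0, 0], ![-1, 0, 0, 0, 0, 0], ![0, 0, 0, 1, 0, 0], ![0, 0, -1, 0, 0, 0],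
    ![0, 0, 0, 0, 0, 1], ![0, 0, 0, 0, -1, 0]]

def xs0 (r : ℝ) : Fin 6 → ℝ := ![r, 0, 0, 0, 0, 0]
def ys0 (r : ℝ) : Fin 6 → ℝ := ![0, r, 0, 0, 0, 0]

def std (p : Par) (r : ℝ) : Jet 6 := mkJet p (xs0 r) (ys0 r) dl0 jm0

lemma tabx (r : ℝ) :
  xs0 r 0 = r ∧ xs0 r 1 = 0 ∧ xs0 r 2 = 0 ∧ xs0 r 3 = 0 ∧ xs0 r 4 = 0 ∧ xs0 r 5 = 0 ∧ ys0 r 0 =
  0 ∧ ys0 r 1 = r ∧ ys0 r 2 = 0 ∧ ys0 r 3 = 0 ∧ ys0 r 4 = 0 ∧ ys0 r 5 = 0 :=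
  ⟨rfl, rfl, rfl, rfl, rfl, rfl, rfl, rfl, rfl, rfl, rfl, rfl⟩

lemma tabd :
  dl0 0 0 = 1 ∧ dl0 0 1 = 0 ∧ dl0 0 2 = 0 ∧ dl0 0 3 = 0 ∧ dl0 0 4 = 0 ∧ dl0 0 5 = 0 ∧ dl0 1 0 =
  0 ∧ dl0 1 1 = 1 ∧ dl0 1 2 = 0 ∧ dl0 1 3 = 0 ∧ dl0 1 4 = 0 ∧ dl0 1 5 = 0 ∧ dl0 2 0 = 0 ∧ dl0 2
  1 = 0 ∧ dl0 2 2 = 1 ∧ dl0 2 3 = 0 ∧ dl0 2 4 = 0 ∧ dl0 2 5 = 0 ∧ dl0 3 0 = 0 ∧ dl0 3 1 = 0 ∧
  dl0 3 2 = 0 ∧ dl0 3 3 = 1 ∧ dl0 3 4 = 0 ∧ dl0 3 5 = 0 ∧ dl0 4 0 = 0 ∧ dl0 4 1 = 0 ∧ dl0 4 2 =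
  0 ∧ dl0 4 3 = 0 ∧ dl0 4 4 = 1 ∧ dl0 4 5 = 0 ∧ dl0 5 0 = 0 ∧ dl0 5 1 = 0 ∧ dl0 5 2 = 0 ∧ dl0 5
  3 = 0 ∧ dl0 5 4 = 0 ∧ dl0 5 5 = 1 :=
  ⟨rfl, rfl, rfl, rfl, rfl, rfl, rfl, rfl, rfl, rfl, rfl, rfl, rfl, rfl, rfl, rfl, rfl, rfl,
  rfl, rfl, rfl, rfl, rfl, rfl, rfl, rfl, rfl, rfl, rfl, rfl, rfl, rfl, rfl, rfl, rfl, rfl⟩

lemma tabj :
  jm0 0 0 = 0 ∧ jm0 0 1 = 1 ∧ jm0 0 2 = 0 ∧ jm0 0 3 = 0 ∧ jm0 0 4 = 0 ∧ jm0 0 5 = 0 ∧ jm0 1 0 =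
  -1 ∧ jm0 1 1 = 0 ∧ jm0 1 2 = 0 ∧ jm0 1 3 = 0 ∧ jm0 1 4 = 0 ∧ jm0 1 5 = 0 ∧ jm0 2 0 = 0 ∧ jm0 2
  1 = 0 ∧ jm0 2 2 = 0 ∧ jm0 2 3 = 1 ∧ jm0 2 4 = 0 ∧ jm0 2 5 = 0 ∧ jm0 3 0 = 0 ∧ jm0 3 1 = 0 ∧
  jm0 3 2 = -1 ∧ jm0 3 3 = 0 ∧ jm0 3 4 = 0 ∧ jm0 3 5 = 0 ∧ jm0 4 0 = 0 ∧ jm0 4 1 = 0 ∧ jm0 4 2 =
  0 ∧ jm0 4 3 = 0 ∧ jm0 4 4 = 0 ∧ jm0 4 5 = 1 ∧ jm0 5 0 = 0 ∧ jm0 5 1 = 0 ∧ jm0 5 2 = 0 ∧ jm0 5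
  3 = 0 ∧ jm0 5 4 = -1 ∧ jm0 5 5 = 0 :=
  ⟨rfl, rfl, rfl, rfl, rfl, rfl, rfl, rfl, rfl, rfl, rfl, rfl, rfl, rfl, rfl, rfl, rfl, rfl,
  rfl, rfl, rfl, rfl, rfl, rfl, rfl, rfl, rfl, rfl, rfl, rfl, rfl, rfl, rfl, rfl, rfl, rfl⟩

namespace Par
variable (p : Par) (r : ℝ)
def a : ℝ := p.c + p.pa * r ^ 2
def b : ℝ := p.c + p.pb * r ^ 2
def c1 : ℝ := r*p.A + r*p.G1 + r^3*p.A1
def c2 : ℝ := -2*r*p.C + r*p.A - r*p.G1 - r^3*p.C1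
def c3 : ℝ := r*p.A - r*p.G1
def c4 : ℝ := r*p.C + r*p.G1 + r^3*p.C1
def c5 : ℝ := r*p.G1
def c6 : ℝ := r*p.C
def k1 : ℝ :=
  -3*p.C + p.A - 2*p.G1 - 7*r^2*p.C1 + r^2*p.C^2*p.b r + r^2*p.A1 + 2*r^2*p.A*p.C*p.a r -
  r^2*p.A^2*p.a r - 2*r^2*p.G2 + 2*r^2*p.G1*p.C*p.b r + 2*r^2*p.G1*p.C*p.a r + r^2*p.G1^2*p.b r
  + r^2*p.G1^2*p.a r - 2*r^4*p.C2 + 2*r^4*p.C*p.C1*p.b r + 2*r^4*p.A1*p.C*p.a r +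
  r^4*p.A*p.C1*p.a r - r^4*p.A*p.A1*p.a r + 2*r^4*p.G1*p.C1*p.b r + r^4*p.G1*p.C1*p.a r +
  r^4*p.G1*p.A1*p.a r + r^6*p.C1^2*p.b r + r^6*p.A1*p.C1*p.a r
def k2 : ℝ :=
  p.A - 2*p.G1 + r^2*p.A1 - r^2*p.A^2*p.a r - 2*r^2*p.G2 + r^2*p.G1^2*p.c + r^2*p.G1^2*p.a r -
  r^4*p.A*p.A1*p.a r + r^4*p.G1*p.A1*p.a r
def k3 : ℝ :=
  p.A - 2*p.G1 - r^2*p.C1 + r^2*p.C^2*p.c + 2*r^2*p.A*p.C*p.a r - r^2*p.A^2*p.a r -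
  2*r^2*p.G1*p.C*p.a r + 2*r^2*p.G1*p.A*p.a r - r^2*p.G1^2*p.a r + r^4*p.A*p.C1*p.a r -
  r^4*p.G1*p.C1*p.a r
def k4 : ℝ :=
  -p.C - r^2*p.C1 + r^2*p.G1*p.C*p.c
def k5 : ℝ :=
  p.A - 2*p.G1 - r^2*p.A^2*p.a r + 2*r^2*p.G1*p.A*p.a r - r^2*p.G1^2*p.a r
end Par
def Par.k6 (p : Par) (_ : ℝ) : ℝ := -p.C

def dg (a b c : ℝ) : Fin 6 → ℝ := ![a, b, c, c, c, c]

lemma tabg (a b c : ℝ) : dg a b c 0 = a ∧ dg a b c 1 = b ∧ dg a b c 2 = c ∧ dg a b c 3 = c ∧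
    dg a b c 4 = c ∧ dg a b c 5 = c := ⟨rfl, rfl, rfl, rfl, rfl, rfl⟩

lemma std_gi (p : Par) (r : ℝ) (i j : Fin 6) :
    (std p r).gi i j = if i = j then dg (p.a r) (p.b r) p.c i else 0 := by
  fin_cases i <;> fin_cases j <;> simp [std, mkJet, dl0, xs0, ys0, dg, Par.a, Par.b] <;> ring

lemma riem_diag (J : Jet 6) (d : Fin 6 → ℝ) (h : ∀ i j, J.gi i j = if i = j then d i else 0)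
    (i j k l : Fin 6) : J.riem i j k l =
    (J.d2 j k i l + J.d2 i l j k - J.d2 j l i k - J.d2 i k j l) / 2 +
    ∑ a, d a * (J.chr a j k * J.chr a i l - J.chr a j l * J.chr a i k) := by
  simp [Jet.riem, h]

lemma riem_anti2 (J : Jet 6) (h : ∀ i j, J.gi i j = J.gi j i) (i j k l : Fin 6) :
    J.riem i j l k = - J.riem i j k l := by
  unfold Jet.riem
  rw [neg_add, ← Finset.sum_neg_distrib]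
  congr 1
  · ring
  · refine Finset.sum_congr rfl fun a _ => ?_
    rw [← Finset.sum_neg_distrib]
    refine Finset.sum_congr rfl fun b _ => ?_
    ring

lemma riem_anti1 (J : Jet 6) (h : ∀ i j, J.gi i j = J.gi j i) (i j k l : Fin 6) :
    J.riem j i k l = - J.riem i j k l := by
  unfold Jet.riem
  rw [Finset.sum_comm, neg_add, ← Finset.sum_neg_distrib]
  congr 1
  · ring
  · refine Finset.sum_congr rfl fun a _ => ?_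
    rw [← Finset.sum_neg_distrib]
    refine Finset.sum_congr rfl fun b _ => ?_
    rw [h b a]; ring

variable (p : Par) (r : ℝ)

lemma ch0 :
  (std p r).chr 0 0 0 = p.c1 r ∧ (std p r).chr 0 0 1 = 0 ∧ (std p r).chr 0 0 2 = 0 ∧ (std p
  r).chr 0 0 3 = 0 ∧ (std p r).chr 0 0 4 = 0 ∧ (std p r).chr 0 0 5 = 0 ∧ (std p r).chr 0 1 0 = 0
  ∧ (std p r).chr 0 1 1 = p.c2 r ∧ (std p r).chr 0 1 2 = 0 ∧ (std p r).chr 0 1 3 = 0 ∧ (std p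
  r).chr 0 1 4 = 0 ∧ (std p r).chr 0 1 5 = 0 ∧ (std p r).chr 0 2 0 = 0 ∧ (std p r).chr 0 2 1 = 0
  ∧ (std p r).chr 0 2 2 = p.c3 r ∧ (std p r).chr 0 2 3 = 0 ∧ (std p r).chr 0 2 4 = 0 ∧ (std p
  r).chr 0 2 5 = 0 ∧ (std p r).chr 0 3 0 = 0 ∧ (std p r).chr 0 3 1 = 0 ∧ (std p r).chr 0 3 2 = 0
  ∧ (std p r).chr 0 3 3 = p.c3 r ∧ (std p r).chr 0 3 4 = 0 ∧ (std p r).chr 0 3 5 = 0 ∧ (std p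
  r).chr 0 4 0 = 0 ∧ (std p r).chr 0 4 1 = 0 ∧ (std p r).chr 0 4 2 = 0 ∧ (std p r).chr 0 4 3 = 0
  ∧ (std p r).chr 0 4 4 = p.c3 r ∧ (std p r).chr 0 4 5 = 0 ∧ (std p r).chr 0 5 0 = 0 ∧ (std p
  r).chr 0 5 1 = 0 ∧ (std p r).chr 0 5 2 = 0 ∧ (std p r).chr 0 5 3 = 0 ∧ (std p r).chr 0 5 4 = 0
  ∧ (std p r).chr 0 5 5 = p.c3 r := by
  simp only [Jet.chr, std, mkJet, tabx, tabd, tabj, mul_zero, zero_mul, add_zero, zero_add, mul_one, one_mul, sub_zero, sub_self, zero_div, neg_zero,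
    Par.c1, Par.c2, Par.c3, Par.c4, Par.c5, Par.c6, true_and, and_true]
  refine ⟨?_, ?_⟩ <;> (repeat' constructor) <;> ring

lemma ch1 :
  (std p r).chr 1 0 0 = 0 ∧ (std p r).chr 1 0 1 = p.c4 r ∧ (std p r).chr 1 0 2 = 0 ∧ (std p
  r).chr 1 0 3 = 0 ∧ (std p r).chr 1 0 4 = 0 ∧ (std p r).chr 1 0 5 = 0 ∧ (std p r).chr 1 1 0 =
  p.c4 r ∧ (std p r).chr 1 1 1 = 0 ∧ (std p r).chr 1 1 2 = 0 ∧ (std p r).chr 1 1 3 = 0 ∧ (std p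
  r).chr 1 1 4 = 0 ∧ (std p r).chr 1 1 5 = 0 ∧ (std p r).chr 1 2 0 = 0 ∧ (std p r).chr 1 2 1 = 0
  ∧ (std p r).chr 1 2 2 = 0 ∧ (std p r).chr 1 2 3 = 0 ∧ (std p r).chr 1 2 4 = 0 ∧ (std p r).chr
  1 2 5 = 0 ∧ (std p r).chr 1 3 0 = 0 ∧ (std p r).chr 1 3 1 = 0 ∧ (std p r).chr 1 3 2 = 0 ∧ (std
  p r).chr 1 3 3 = 0 ∧ (std p r).chr 1 3 4 = 0 ∧ (std p r).chr 1 3 5 = 0 ∧ (std p r).chr 1 4 0 =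
  0 ∧ (std p r).chr 1 4 1 = 0 ∧ (std p r).chr 1 4 2 = 0 ∧ (std p r).chr 1 4 3 = 0 ∧ (std p
  r).chr 1 4 4 = 0 ∧ (std p r).chr 1 4 5 = 0 ∧ (std p r).chr 1 5 0 = 0 ∧ (std p r).chr 1 5 1 = 0
  ∧ (std p r).chr 1 5 2 = 0 ∧ (std p r).chr 1 5 3 = 0 ∧ (std p r).chr 1 5 4 = 0 ∧ (std p r).chr
  1 5 5 = 0 := by
  simp only [Jet.chr, std, mkJet, tabx, tabd, tabj, mul_zero, zero_mul, add_zero, zero_add, mul_one, one_mul, sub_zero, sub_self, zero_div, neg_zero,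
    Par.c1, Par.c2, Par.c3, Par.c4, Par.c5, Par.c6, true_and, and_true]
  refine ⟨?_, ?_⟩ <;> (repeat' constructor) <;> ring

lemma ch2 :
  (std p r).chr 2 0 0 = 0 ∧ (std p r).chr 2 0 1 = 0 ∧ (std p r).chr 2 0 2 = p.c5 r ∧ (std p
  r).chr 2 0 3 = 0 ∧ (std p r).chr 2 0 4 = 0 ∧ (std p r).chr 2 0 5 = 0 ∧ (std p r).chr 2 1 0 = 0
  ∧ (std p r).chr 2 1 1 = 0 ∧ (std p r).chr 2 1 2 = 0 ∧ (std p r).chr 2 1 3 = -p.c6 r ∧ (std p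
  r).chr 2 1 4 = 0 ∧ (std p r).chr 2 1 5 = 0 ∧ (std p r).chr 2 2 0 = p.c5 r ∧ (std p r).chr 2 2
  1 = 0 ∧ (std p r).chr 2 2 2 = 0 ∧ (std p r).chr 2 2 3 = 0 ∧ (std p r).chr 2 2 4 = 0 ∧ (std p
  r).chr 2 2 5 = 0 ∧ (std p r).chr 2 3 0 = 0 ∧ (std p r).chr 2 3 1 = -p.c6 r ∧ (std p r).chr 2 3
  2 = 0 ∧ (std p r).chr 2 3 3 = 0 ∧ (std p r).chr 2 3 4 = 0 ∧ (std p r).chr 2 3 5 = 0 ∧ (std p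
  r).chr 2 4 0 = 0 ∧ (std p r).chr 2 4 1 = 0 ∧ (std p r).chr 2 4 2 = 0 ∧ (std p r).chr 2 4 3 = 0
  ∧ (std p r).chr 2 4 4 = 0 ∧ (std p r).chr 2 4 5 = 0 ∧ (std p r).chr 2 5 0 = 0 ∧ (std p r).chr
  2 5 1 = 0 ∧ (std p r).chr 2 5 2 = 0 ∧ (std p r).chr 2 5 3 = 0 ∧ (std p r).chr 2 5 4 = 0 ∧ (std
  p r).chr 2 5 5 = 0 := by
  simp only [Jet.chr, std, mkJet, tabx, tabd, tabj, mul_zero, zero_mul, add_zero, zero_add, mul_one, one_mul, sub_zero, sub_self, zero_div, neg_zero,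
    Par.c1, Par.c2, Par.c3, Par.c4, Par.c5, Par.c6, true_and, and_true]
  refine ⟨?_, ?_⟩ <;> (repeat' constructor) <;> ring

lemma ch3 :
  (std p r).chr 3 0 0 = 0 ∧ (std p r).chr 3 0 1 = 0 ∧ (std p r).chr 3 0 2 = 0 ∧ (std p r).chr 3
  0 3 = p.c5 r ∧ (std p r).chr 3 0 4 = 0 ∧ (std p r).chr 3 0 5 = 0 ∧ (std p r).chr 3 1 0 = 0 ∧
  (std p r).chr 3 1 1 = 0 ∧ (std p r).chr 3 1 2 = p.c6 r ∧ (std p r).chr 3 1 3 = 0 ∧ (std p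
  r).chr 3 1 4 = 0 ∧ (std p r).chr 3 1 5 = 0 ∧ (std p r).chr 3 2 0 = 0 ∧ (std p r).chr 3 2 1 =
  p.c6 r ∧ (std p r).chr 3 2 2 = 0 ∧ (std p r).chr 3 2 3 = 0 ∧ (std p r).chr 3 2 4 = 0 ∧ (std p
  r).chr 3 2 5 = 0 ∧ (std p r).chr 3 3 0 = p.c5 r ∧ (std p r).chr 3 3 1 = 0 ∧ (std p r).chr 3 3
  2 = 0 ∧ (std p r).chr 3 3 3 = 0 ∧ (std p r).chr 3 3 4 = 0 ∧ (std p r).chr 3 3 5 = 0 ∧ (std p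
  r).chr 3 4 0 = 0 ∧ (std p r).chr 3 4 1 = 0 ∧ (std p r).chr 3 4 2 = 0 ∧ (std p r).chr 3 4 3 = 0
  ∧ (std p r).chr 3 4 4 = 0 ∧ (std p r).chr 3 4 5 = 0 ∧ (std p r).chr 3 5 0 = 0 ∧ (std p r).chr
  3 5 1 = 0 ∧ (std p r).chr 3 5 2 = 0 ∧ (std p r).chr 3 5 3 = 0 ∧ (std p r).chr 3 5 4 = 0 ∧ (std
  p r).chr 3 5 5 = 0 := by
  simp only [Jet.chr, std, mkJet, tabx, tabd, tabj, mul_zero, zero_mul, add_zero, zero_add, mul_one, one_mul, sub_zero, sub_self, zero_div, neg_zero,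
    Par.c1, Par.c2, Par.c3, Par.c4, Par.c5, Par.c6, true_and, and_true]
  refine ⟨?_, ?_⟩ <;> (repeat' constructor) <;> ring

lemma ch4 :
  (std p r).chr 4 0 0 = 0 ∧ (std p r).chr 4 0 1 = 0 ∧ (std p r).chr 4 0 2 = 0 ∧ (std p r).chr 4
  0 3 = 0 ∧ (std p r).chr 4 0 4 = p.c5 r ∧ (std p r).chr 4 0 5 = 0 ∧ (std p r).chr 4 1 0 = 0 ∧
  (std p r).chr 4 1 1 = 0 ∧ (std p r).chr 4 1 2 = 0 ∧ (std p r).chr 4 1 3 = 0 ∧ (std p r).chr 4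
  1 4 = 0 ∧ (std p r).chr 4 1 5 = -p.c6 r ∧ (std p r).chr 4 2 0 = 0 ∧ (std p r).chr 4 2 1 = 0 ∧
  (std p r).chr 4 2 2 = 0 ∧ (std p r).chr 4 2 3 = 0 ∧ (std p r).chr 4 2 4 = 0 ∧ (std p r).chr 4
  2 5 = 0 ∧ (std p r).chr 4 3 0 = 0 ∧ (std p r).chr 4 3 1 = 0 ∧ (std p r).chr 4 3 2 = 0 ∧ (std p
  r).chr 4 3 3 = 0 ∧ (std p r).chr 4 3 4 = 0 ∧ (std p r).chr 4 3 5 = 0 ∧ (std p r).chr 4 4 0 =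
  p.c5 r ∧ (std p r).chr 4 4 1 = 0 ∧ (std p r).chr 4 4 2 = 0 ∧ (std p r).chr 4 4 3 = 0 ∧ (std p
  r).chr 4 4 4 = 0 ∧ (std p r).chr 4 4 5 = 0 ∧ (std p r).chr 4 5 0 = 0 ∧ (std p r).chr 4 5 1 =
  -p.c6 r ∧ (std p r).chr 4 5 2 = 0 ∧ (std p r).chr 4 5 3 = 0 ∧ (std p r).chr 4 5 4 = 0 ∧ (std p
  r).chr 4 5 5 = 0 := by
  simp only [Jet.chr, std, mkJet, tabx, tabd, tabj, mul_zero, zero_mul, add_zero, zero_add, mul_one, one_mul, sub_zero, sub_self, zero_div, neg_zero,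
    Par.c1, Par.c2, Par.c3, Par.c4, Par.c5, Par.c6, true_and, and_true]
  refine ⟨?_, ?_⟩ <;> (repeat' constructor) <;> ring

lemma ch5 :
  (std p r).chr 5 0 0 = 0 ∧ (std p r).chr 5 0 1 = 0 ∧ (std p r).chr 5 0 2 = 0 ∧ (std p r).chr 5
  0 3 = 0 ∧ (std p r).chr 5 0 4 = 0 ∧ (std p r).chr 5 0 5 = p.c5 r ∧ (std p r).chr 5 1 0 = 0 ∧
  (std p r).chr 5 1 1 = 0 ∧ (std p r).chr 5 1 2 = 0 ∧ (std p r).chr 5 1 3 = 0 ∧ (std p r).chr 5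
  1 4 = p.c6 r ∧ (std p r).chr 5 1 5 = 0 ∧ (std p r).chr 5 2 0 = 0 ∧ (std p r).chr 5 2 1 = 0 ∧
  (std p r).chr 5 2 2 = 0 ∧ (std p r).chr 5 2 3 = 0 ∧ (std p r).chr 5 2 4 = 0 ∧ (std p r).chr 5
  2 5 = 0 ∧ (std p r).chr 5 3 0 = 0 ∧ (std p r).chr 5 3 1 = 0 ∧ (std p r).chr 5 3 2 = 0 ∧ (std p
  r).chr 5 3 3 = 0 ∧ (std p r).chr 5 3 4 = 0 ∧ (std p r).chr 5 3 5 = 0 ∧ (std p r).chr 5 4 0 = 0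
  ∧ (std p r).chr 5 4 1 = p.c6 r ∧ (std p r).chr 5 4 2 = 0 ∧ (std p r).chr 5 4 3 = 0 ∧ (std p
  r).chr 5 4 4 = 0 ∧ (std p r).chr 5 4 5 = 0 ∧ (std p r).chr 5 5 0 = p.c5 r ∧ (std p r).chr 5 5
  1 = 0 ∧ (std p r).chr 5 5 2 = 0 ∧ (std p r).chr 5 5 3 = 0 ∧ (std p r).chr 5 5 4 = 0 ∧ (std p
  r).chr 5 5 5 = 0 := by
  simp only [Jet.chr, std, mkJet, tabx, tabd, tabj, mul_zero, zero_mul, add_zero, zero_add, mul_one, one_mul, sub_zero, sub_self, zero_div, neg_zero,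
    Par.c1, Par.c2, Par.c3, Par.c4, Par.c5, Par.c6, true_and, and_true]
  refine ⟨?_, ?_⟩ <;> (repeat' constructor) <;> ring

end H528GBC
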