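import Pool.Agent.H528Z.GbcRm0
import Pool.Agent.H528Z.GbcRm1
import Pool.Agent.H528Z.GbcRm2

set_option autoImplicit false
set_option linter.unusedSimpArgs false
set_option linter.unnecessarySeqFocus false
set_option linter.unusedTactic false
set_option linter.unreachableTactic false

namespace H528GBC

section diag
variable (J : Jet 6) (d : Fin 6 → ℝ) (h : ∀ i j, J.gi i j = if i = j then d i else 0)
include h

lemma ric_diag (j l : Fin 6) : J.ric j l = ∑ i, d i * J.riem i j i l := by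
  simp [Jet.ric, h]

lemma scal_diag : J.scal = ∑ j, d j * J.ric j j := by
  simp [Jet.scal, h]

lemma ricUp_diag (j k : Fin 6) : J.ricUp j k = d j * d k * J.ric j k := by
  simp [Jet.ricUp, h]

lemma riemUp_diag (i j k l : Fin 6) : J.riemUp i j k l = d i * d j * d k * d l * J.riem i j k l := by
  simp [Jet.riemUp, h]

end diag

variable (p : Par) (r : ℝ)

lemma std_symm (i j : Fin 6) : (std p r).gi i j = (std p r).gi j i := by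
  rw [std_gi, std_gi]
  by_cases h : i = j
  · subst h; rfl
  · rw [if_neg h, if_neg (Ne.symm h)]

lemma rz1 (i k l : Fin 6) : (std p r).riem i i k l = 0 := by
  have := riem_anti1 _ (std_symm p r) i i k l
  linarith

lemma rz2 (i j k : Fin 6) : (std p r).riem i j k k = 0 := by
  have := riem_anti2 _ (std_symm p r) i j k k
  linarith

lemma R01 :
  (std p r).riem 0 1 0 1 = p.k1 r ∧ (std p r).riem 0 1 0 2 = 0 ∧ (std p r).riem 0 1 0 3 = 0 ∧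
  (std p r).riem 0 1 0 4 = 0 ∧ (std p r).riem 0 1 0 5 = 0 ∧ (std p r).riem 0 1 1 0 = -p.k1 r ∧
  (std p r).riem 0 1 1 2 = 0 ∧ (std p r).riem 0 1 1 3 = 0 ∧ (std p r).riem 0 1 1 4 = 0 ∧ (std p
  r).riem 0 1 1 5 = 0 ∧ (std p r).riem 0 1 2 0 = 0 ∧ (std p r).riem 0 1 2 1 = 0 ∧ (std p r).riem
  0 1 2 3 = 2*p.k4 r ∧ (std p r).riem 0 1 2 4 = 0 ∧ (std p r).riem 0 1 2 5 = 0 ∧ (std p r).riem
  0 1 3 0 = 0 ∧ (std p r).riem 0 1 3 1 = 0 ∧ (std p r).riem 0 1 3 2 = -2*p.k4 r ∧ (std p r).riem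
  0 1 3 4 = 0 ∧ (std p r).riem 0 1 3 5 = 0 ∧ (std p r).riem 0 1 4 0 = 0 ∧ (std p r).riem 0 1 4 1
  = 0 ∧ (std p r).riem 0 1 4 2 = 0 ∧ (std p r).riem 0 1 4 3 = 0 ∧ (std p r).riem 0 1 4 5 =
  2*p.k4 r ∧ (std p r).riem 0 1 5 0 = 0 ∧ (std p r).riem 0 1 5 1 = 0 ∧ (std p r).riem 0 1 5 2 =
  0 ∧ (std p r).riem 0 1 5 3 = 0 ∧ (std p r).riem 0 1 5 4 = -2*p.k4 r :=
  ⟨rm0101 p r,
   rm0102 p r,
   rm0103 p r,
   rm0104 p r,
   rm0105 p r,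
   by (rw [riem_anti2 _ (std_symm p r) 0 1 0 1, rm0101]; try ring),
   rm0112 p r,
   rm0113 p r,
   rm0114 p r,
   rm0115 p r,
   by (rw [riem_anti2 _ (std_symm p r) 0 1 0 2, rm0102]; try ring),
   by (rw [riem_anti2 _ (std_symm p r) 0 1 1 2, rm0112]; try ring),
   rm0123 p r,
   rm0124 p r,
   rm0125 p r,
   by (rw [riem_anti2 _ (std_symm p r) 0 1 0 3, rm0103]; try ring),
   by (rw [riem_anti2 _ (std_symm p r) 0 1 1 3, rm0113]; try ring),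
   by (rw [riem_anti2 _ (std_symm p r) 0 1 2 3, rm0123]; try ring),
   rm0134 p r,
   rm0135 p r,
   by (rw [riem_anti2 _ (std_symm p r) 0 1 0 4, rm0104]; try ring),
   by (rw [riem_anti2 _ (std_symm p r) 0 1 1 4, rm0114]; try ring),
   by (rw [riem_anti2 _ (std_symm p r) 0 1 2 4, rm0124]; try ring),
   by (rw [riem_anti2 _ (std_symm p r) 0 1 3 4, rm0134]; try ring),
   rm0145 p r,
   by (rw [riem_anti2 _ (std_symm p r) 0 1 0 5, rm0105]; try ring),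
   by (rw [riem_anti2 _ (std_symm p r) 0 1 1 5, rm0115]; try ring),
   by (rw [riem_anti2 _ (std_symm p r) 0 1 2 5, rm0125]; try ring),
   by (rw [riem_anti2 _ (std_symm p r) 0 1 3 5, rm0135]; try ring),
   by (rw [riem_anti2 _ (std_symm p r) 0 1 4 5, rm0145]; try ring)⟩

lemma R02 :
  (std p r).riem 0 2 0 1 = 0 ∧ (std p r).riem 0 2 0 2 = p.k2 r ∧ (std p r).riem 0 2 0 3 = 0 ∧
  (std p r).riem 0 2 0 4 = 0 ∧ (std p r).riem 0 2 0 5 = 0 ∧ (std p r).riem 0 2 1 0 = 0 ∧ (std p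
  r).riem 0 2 1 2 = 0 ∧ (std p r).riem 0 2 1 3 = p.k4 r ∧ (std p r).riem 0 2 1 4 = 0 ∧ (std p
  r).riem 0 2 1 5 = 0 ∧ (std p r).riem 0 2 2 0 = -p.k2 r ∧ (std p r).riem 0 2 2 1 = 0 ∧ (std p
  r).riem 0 2 2 3 = 0 ∧ (std p r).riem 0 2 2 4 = 0 ∧ (std p r).riem 0 2 2 5 = 0 ∧ (std p r).riem
  0 2 3 0 = 0 ∧ (std p r).riem 0 2 3 1 = -p.k4 r ∧ (std p r).riem 0 2 3 2 = 0 ∧ (std p r).riem 0
  2 3 4 = 0 ∧ (std p r).riem 0 2 3 5 = 0 ∧ (std p r).riem 0 2 4 0 = 0 ∧ (std p r).riem 0 2 4 1 =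
  0 ∧ (std p r).riem 0 2 4 2 = 0 ∧ (std p r).riem 0 2 4 3 = 0 ∧ (std p r).riem 0 2 4 5 = 0 ∧
  (std p r).riem 0 2 5 0 = 0 ∧ (std p r).riem 0 2 5 1 = 0 ∧ (std p r).riem 0 2 5 2 = 0 ∧ (std p
  r).riem 0 2 5 3 = 0 ∧ (std p r).riem 0 2 5 4 = 0 :=
  ⟨rm0201 p r,
   rm0202 p r,
   rm0203 p r,
   rm0204 p r,
   rm0205 p r,
   by (rw [riem_anti2 _ (std_symm p r) 0 2 0 1, rm0201]; try ring),
   rm0212 p r,
   rm0213 p r,
   rm0214 p r,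
   rm0215 p r,
   by (rw [riem_anti2 _ (std_symm p r) 0 2 0 2, rm0202]; try ring),
   by (rw [riem_anti2 _ (std_symm p r) 0 2 1 2, rm0212]; try ring),
   rm0223 p r,
   rm0224 p r,
   rm0225 p r,
   by (rw [riem_anti2 _ (std_symm p r) 0 2 0 3, rm0203]; try ring),
   by (rw [riem_anti2 _ (std_symm p r) 0 2 1 3, rm0213]; try ring),
   by (rw [riem_anti2 _ (std_symm p r) 0 2 2 3, rm0223]; try ring),
   rm0234 p r,
   rm0235 p r,
   by (rw [riem_anti2 _ (std_symm p r) 0 2 0 4, rm0204]; try ring),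
   by (rw [riem_anti2 _ (std_symm p r) 0 2 1 4, rm0214]; try ring),
   by (rw [riem_anti2 _ (std_symm p r) 0 2 2 4, rm0224]; try ring),
   by (rw [riem_anti2 _ (std_symm p r) 0 2 3 4, rm0234]; try ring),
   rm0245 p r,
   by (rw [riem_anti2 _ (std_symm p r) 0 2 0 5, rm0205]; try ring),
   by (rw [riem_anti2 _ (std_symm p r) 0 2 1 5, rm0215]; try ring),
   by (rw [riem_anti2 _ (std_symm p r) 0 2 2 5, rm0225]; try ring),
   by (rw [riem_anti2 _ (std_symm p r) 0 2 3 5, rm0235]; try ring),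
   by (rw [riem_anti2 _ (std_symm p r) 0 2 4 5, rm0245]; try ring)⟩

lemma R03 :
  (std p r).riem 0 3 0 1 = 0 ∧ (std p r).riem 0 3 0 2 = 0 ∧ (std p r).riem 0 3 0 3 = p.k2 r ∧
  (std p r).riem 0 3 0 4 = 0 ∧ (std p r).riem 0 3 0 5 = 0 ∧ (std p r).riem 0 3 1 0 = 0 ∧ (std p
  r).riem 0 3 1 2 = -p.k4 r ∧ (std p r).riem 0 3 1 3 = 0 ∧ (std p r).riem 0 3 1 4 = 0 ∧ (std p
  r).riem 0 3 1 5 = 0 ∧ (std p r).riem 0 3 2 0 = 0 ∧ (std p r).riem 0 3 2 1 = p.k4 r ∧ (std p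
  r).riem 0 3 2 3 = 0 ∧ (std p r).riem 0 3 2 4 = 0 ∧ (std p r).riem 0 3 2 5 = 0 ∧ (std p r).riem
  0 3 3 0 = -p.k2 r ∧ (std p r).riem 0 3 3 1 = 0 ∧ (std p r).riem 0 3 3 2 = 0 ∧ (std p r).riem 0
  3 3 4 = 0 ∧ (std p r).riem 0 3 3 5 = 0 ∧ (std p r).riem 0 3 4 0 = 0 ∧ (std p r).riem 0 3 4 1 =
  0 ∧ (std p r).riem 0 3 4 2 = 0 ∧ (std p r).riem 0 3 4 3 = 0 ∧ (std p r).riem 0 3 4 5 = 0 ∧
  (std p r).riem 0 3 5 0 = 0 ∧ (std p r).riem 0 3 5 1 = 0 ∧ (std p r).riem 0 3 5 2 = 0 ∧ (std p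
  r).riem 0 3 5 3 = 0 ∧ (std p r).riem 0 3 5 4 = 0 :=
  ⟨rm0301 p r,
   rm0302 p r,
   rm0303 p r,
   rm0304 p r,
   rm0305 p r,
   by (rw [riem_anti2 _ (std_symm p r) 0 3 0 1, rm0301]; try ring),
   rm0312 p r,
   rm0313 p r,
   rm0314 p r,
   rm0315 p r,
   by (rw [riem_anti2 _ (std_symm p r) 0 3 0 2, rm0302]; try ring),
   by (rw [riem_anti2 _ (std_symm p r) 0 3 1 2, rm0312]; try ring),
   rm0323 p r,
   rm0324 p r,
   rm0325 p r,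
   by (rw [riem_anti2 _ (std_symm p r) 0 3 0 3, rm0303]; try ring),
   by (rw [riem_anti2 _ (std_symm p r) 0 3 1 3, rm0313]; try ring),
   by (rw [riem_anti2 _ (std_symm p r) 0 3 2 3, rm0323]; try ring),
   rm0334 p r,
   rm0335 p r,
   by (rw [riem_anti2 _ (std_symm p r) 0 3 0 4, rm0304]; try ring),
   by (rw [riem_anti2 _ (std_symm p r) 0 3 1 4, rm0314]; try ring),
   by (rw [riem_anti2 _ (std_symm p r) 0 3 2 4, rm0324]; try ring),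
   by (rw [riem_anti2 _ (std_symm p r) 0 3 3 4, rm0334]; try ring),
   rm0345 p r,
   by (rw [riem_anti2 _ (std_symm p r) 0 3 0 5, rm0305]; try ring),
   by (rw [riem_anti2 _ (std_symm p r) 0 3 1 5, rm0315]; try ring),
   by (rw [riem_anti2 _ (std_symm p r) 0 3 2 5, rm0325]; try ring),
   by (rw [riem_anti2 _ (std_symm p r) 0 3 3 5, rm0335]; try ring),
   by (rw [riem_anti2 _ (std_symm p r) 0 3 4 5, rm0345]; try ring)⟩

lemma R04 :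
  (std p r).riem 0 4 0 1 = 0 ∧ (std p r).riem 0 4 0 2 = 0 ∧ (std p r).riem 0 4 0 3 = 0 ∧ (std p
  r).riem 0 4 0 4 = p.k2 r ∧ (std p r).riem 0 4 0 5 = 0 ∧ (std p r).riem 0 4 1 0 = 0 ∧ (std p
  r).riem 0 4 1 2 = 0 ∧ (std p r).riem 0 4 1 3 = 0 ∧ (std p r).riem 0 4 1 4 = 0 ∧ (std p r).riem
  0 4 1 5 = p.k4 r ∧ (std p r).riem 0 4 2 0 = 0 ∧ (std p r).riem 0 4 2 1 = 0 ∧ (std p r).riem 0
  4 2 3 = 0 ∧ (std p r).riem 0 4 2 4 = 0 ∧ (std p r).riem 0 4 2 5 = 0 ∧ (std p r).riem 0 4 3 0 =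
  0 ∧ (std p r).riem 0 4 3 1 = 0 ∧ (std p r).riem 0 4 3 2 = 0 ∧ (std p r).riem 0 4 3 4 = 0 ∧
  (std p r).riem 0 4 3 5 = 0 ∧ (std p r).riem 0 4 4 0 = -p.k2 r ∧ (std p r).riem 0 4 4 1 = 0 ∧
  (std p r).riem 0 4 4 2 = 0 ∧ (std p r).riem 0 4 4 3 = 0 ∧ (std p r).riem 0 4 4 5 = 0 ∧ (std p
  r).riem 0 4 5 0 = 0 ∧ (std p r).riem 0 4 5 1 = -p.k4 r ∧ (std p r).riem 0 4 5 2 = 0 ∧ (std p
  r).riem 0 4 5 3 = 0 ∧ (std p r).riem 0 4 5 4 = 0 :=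
  ⟨rm0401 p r,
   rm0402 p r,
   rm0403 p r,
   rm0404 p r,
   rm0405 p r,
   by (rw [riem_anti2 _ (std_symm p r) 0 4 0 1, rm0401]; try ring),
   rm0412 p r,
   rm0413 p r,
   rm0414 p r,
   rm0415 p r,
   by (rw [riem_anti2 _ (std_symm p r) 0 4 0 2, rm0402]; try ring),
   by (rw [riem_anti2 _ (std_symm p r) 0 4 1 2, rm0412]; try ring),
   rm0423 p r,
   rm0424 p r,
   rm0425 p r,
   by (rw [riem_anti2 _ (std_symm p r) 0 4 0 3, rm0403]; try ring),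
   by (rw [riem_anti2 _ (std_symm p r) 0 4 1 3, rm0413]; try ring),
   by (rw [riem_anti2 _ (std_symm p r) 0 4 2 3, rm0423]; try ring),
   rm0434 p r,
   rm0435 p r,
   by (rw [riem_anti2 _ (std_symm p r) 0 4 0 4, rm0404]; try ring),
   by (rw [riem_anti2 _ (std_symm p r) 0 4 1 4, rm0414]; try ring),
   by (rw [riem_anti2 _ (std_symm p r) 0 4 2 4, rm0424]; try ring),
   by (rw [riem_anti2 _ (std_symm p r) 0 4 3 4, rm0434]; try ring),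
   rm0445 p r,
   by (rw [riem_anti2 _ (std_symm p r) 0 4 0 5, rm0405]; try ring),
   by (rw [riem_anti2 _ (std_symm p r) 0 4 1 5, rm0415]; try ring),
   by (rw [riem_anti2 _ (std_symm p r) 0 4 2 5, rm0425]; try ring),
   by (rw [riem_anti2 _ (std_symm p r) 0 4 3 5, rm0435]; try ring),
   by (rw [riem_anti2 _ (std_symm p r) 0 4 4 5, rm0445]; try ring)⟩

lemma R05 :
  (std p r).riem 0 5 0 1 = 0 ∧ (std p r).riem 0 5 0 2 = 0 ∧ (std p r).riem 0 5 0 3 = 0 ∧ (std p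
  r).riem 0 5 0 4 = 0 ∧ (std p r).riem 0 5 0 5 = p.k2 r ∧ (std p r).riem 0 5 1 0 = 0 ∧ (std p
  r).riem 0 5 1 2 = 0 ∧ (std p r).riem 0 5 1 3 = 0 ∧ (std p r).riem 0 5 1 4 = -p.k4 r ∧ (std p
  r).riem 0 5 1 5 = 0 ∧ (std p r).riem 0 5 2 0 = 0 ∧ (std p r).riem 0 5 2 1 = 0 ∧ (std p r).riem
  0 5 2 3 = 0 ∧ (std p r).riem 0 5 2 4 = 0 ∧ (std p r).riem 0 5 2 5 = 0 ∧ (std p r).riem 0 5 3 0
  = 0 ∧ (std p r).riem 0 5 3 1 = 0 ∧ (std p r).riem 0 5 3 2 = 0 ∧ (std p r).riem 0 5 3 4 = 0 ∧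
  (std p r).riem 0 5 3 5 = 0 ∧ (std p r).riem 0 5 4 0 = 0 ∧ (std p r).riem 0 5 4 1 = p.k4 r ∧
  (std p r).riem 0 5 4 2 = 0 ∧ (std p r).riem 0 5 4 3 = 0 ∧ (std p r).riem 0 5 4 5 = 0 ∧ (std p
  r).riem 0 5 5 0 = -p.k2 r ∧ (std p r).riem 0 5 5 1 = 0 ∧ (std p r).riem 0 5 5 2 = 0 ∧ (std p
  r).riem 0 5 5 3 = 0 ∧ (std p r).riem 0 5 5 4 = 0 :=
  ⟨rm0501 p r,
   rm0502 p r,
   rm0503 p r,
   rm0504 p r,
   rm0505 p r,
   by (rw [riem_anti2 _ (std_symm p r) 0 5 0 1, rm0501]; try ring),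
   rm0512 p r,
   rm0513 p r,
   rm0514 p r,
   rm0515 p r,
   by (rw [riem_anti2 _ (std_symm p r) 0 5 0 2, rm0502]; try ring),
   by (rw [riem_anti2 _ (std_symm p r) 0 5 1 2, rm0512]; try ring),
   rm0523 p r,
   rm0524 p r,
   rm0525 p r,
   by (rw [riem_anti2 _ (std_symm p r) 0 5 0 3, rm0503]; try ring),
   by (rw [riem_anti2 _ (std_symm p r) 0 5 1 3, rm0513]; try ring),
   by (rw [riem_anti2 _ (std_symm p r) 0 5 2 3, rm0523]; try ring),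
   rm0534 p r,
   rm0535 p r,
   by (rw [riem_anti2 _ (std_symm p r) 0 5 0 4, rm0504]; try ring),
   by (rw [riem_anti2 _ (std_symm p r) 0 5 1 4, rm0514]; try ring),
   by (rw [riem_anti2 _ (std_symm p r) 0 5 2 4, rm0524]; try ring),
   by (rw [riem_anti2 _ (std_symm p r) 0 5 3 4, rm0534]; try ring),
   rm0545 p r,
   by (rw [riem_anti2 _ (std_symm p r) 0 5 0 5, rm0505]; try ring),
   by (rw [riem_anti2 _ (std_symm p r) 0 5 1 5, rm0515]; try ring),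
   by (rw [riem_anti2 _ (std_symm p r) 0 5 2 5, rm0525]; try ring),
   by (rw [riem_anti2 _ (std_symm p r) 0 5 3 5, rm0535]; try ring),
   by (rw [riem_anti2 _ (std_symm p r) 0 5 4 5, rm0545]; try ring)⟩

lemma R10 :
  (std p r).riem 1 0 0 1 = -p.k1 r ∧ (std p r).riem 1 0 0 2 = 0 ∧ (std p r).riem 1 0 0 3 = 0 ∧
  (std p r).riem 1 0 0 4 = 0 ∧ (std p r).riem 1 0 0 5 = 0 ∧ (std p r).riem 1 0 1 0 = p.k1 r ∧
  (std p r).riem 1 0 1 2 = 0 ∧ (std p r).riem 1 0 1 3 = 0 ∧ (std p r).riem 1 0 1 4 = 0 ∧ (std p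
  r).riem 1 0 1 5 = 0 ∧ (std p r).riem 1 0 2 0 = 0 ∧ (std p r).riem 1 0 2 1 = 0 ∧ (std p r).riem
  1 0 2 3 = -2*p.k4 r ∧ (std p r).riem 1 0 2 4 = 0 ∧ (std p r).riem 1 0 2 5 = 0 ∧ (std p r).riem
  1 0 3 0 = 0 ∧ (std p r).riem 1 0 3 1 = 0 ∧ (std p r).riem 1 0 3 2 = 2*p.k4 r ∧ (std p r).riem
  1 0 3 4 = 0 ∧ (std p r).riem 1 0 3 5 = 0 ∧ (std p r).riem 1 0 4 0 = 0 ∧ (std p r).riem 1 0 4 1
  = 0 ∧ (std p r).riem 1 0 4 2 = 0 ∧ (std p r).riem 1 0 4 3 = 0 ∧ (std p r).riem 1 0 4 5 =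
  -2*p.k4 r ∧ (std p r).riem 1 0 5 0 = 0 ∧ (std p r).riem 1 0 5 1 = 0 ∧ (std p r).riem 1 0 5 2 =
  0 ∧ (std p r).riem 1 0 5 3 = 0 ∧ (std p r).riem 1 0 5 4 = 2*p.k4 r :=
  ⟨by (rw [riem_anti1 _ (std_symm p r) 0 1, rm0101]; try ring),
   by (rw [riem_anti1 _ (std_symm p r) 0 1, rm0102]; try ring),
   by (rw [riem_anti1 _ (std_symm p r) 0 1, rm0103]; try ring),
   by (rw [riem_anti1 _ (std_symm p r) 0 1, rm0104]; try ring),
   by (rw [riem_anti1 _ (std_symm p r) 0 1, rm0105]; try ring),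
   by (rw [riem_anti1 _ (std_symm p r) 0 1, riem_anti2 _ (std_symm p r) 0 1 0 1, rm0101]; try ring),
   by (rw [riem_anti1 _ (std_symm p r) 0 1, rm0112]; try ring),
   by (rw [riem_anti1 _ (std_symm p r) 0 1, rm0113]; try ring),
   by (rw [riem_anti1 _ (std_symm p r) 0 1, rm0114]; try ring),
   by (rw [riem_anti1 _ (std_symm p r) 0 1, rm0115]; try ring),
   by (rw [riem_anti1 _ (std_symm p r) 0 1, riem_anti2 _ (std_symm p r) 0 1 0 2, rm0102]; try ring),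
   by (rw [riem_anti1 _ (std_symm p r) 0 1, riem_anti2 _ (std_symm p r) 0 1 1 2, rm0112]; try ring),
   by (rw [riem_anti1 _ (std_symm p r) 0 1, rm0123]; try ring),
   by (rw [riem_anti1 _ (std_symm p r) 0 1, rm0124]; try ring),
   by (rw [riem_anti1 _ (std_symm p r) 0 1, rm0125]; try ring),
   by (rw [riem_anti1 _ (std_symm p r) 0 1, riem_anti2 _ (std_symm p r) 0 1 0 3, rm0103]; try ring),
   by (rw [riem_anti1 _ (std_symm p r) 0 1, riem_anti2 _ (std_symm p r) 0 1 1 3, rm0113]; try ring),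
   by (rw [riem_anti1 _ (std_symm p r) 0 1, riem_anti2 _ (std_symm p r) 0 1 2 3, rm0123]; try ring),
   by (rw [riem_anti1 _ (std_symm p r) 0 1, rm0134]; try ring),
   by (rw [riem_anti1 _ (std_symm p r) 0 1, rm0135]; try ring),
   by (rw [riem_anti1 _ (std_symm p r) 0 1, riem_anti2 _ (std_symm p r) 0 1 0 4, rm0104]; try ring),
   by (rw [riem_anti1 _ (std_symm p r) 0 1, riem_anti2 _ (std_symm p r) 0 1 1 4, rm0114]; try ring),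
   by (rw [riem_anti1 _ (std_symm p r) 0 1, riem_anti2 _ (std_symm p r) 0 1 2 4, rm0124]; try ring),
   by (rw [riem_anti1 _ (std_symm p r) 0 1, riem_anti2 _ (std_symm p r) 0 1 3 4, rm0134]; try ring),
   by (rw [riem_anti1 _ (std_symm p r) 0 1, rm0145]; try ring),
   by (rw [riem_anti1 _ (std_symm p r) 0 1, riem_anti2 _ (std_symm p r) 0 1 0 5, rm0105]; try ring),
   by (rw [riem_anti1 _ (std_symm p r) 0 1, riem_anti2 _ (std_symm p r) 0 1 1 5, rm0115]; try ring),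
   by (rw [riem_anti1 _ (std_symm p r) 0 1, riem_anti2 _ (std_symm p r) 0 1 2 5, rm0125]; try ring),
   by (rw [riem_anti1 _ (std_symm p r) 0 1, riem_anti2 _ (std_symm p r) 0 1 3 5, rm0135]; try ring),
   by (rw [riem_anti1 _ (std_symm p r) 0 1, riem_anti2 _ (std_symm p r) 0 1 4 5, rm0145]; try ring)⟩

lemma R12 :
  (std p r).riem 1 2 0 1 = 0 ∧ (std p r).riem 1 2 0 2 = 0 ∧ (std p r).riem 1 2 0 3 = -p.k4 r ∧
  (std p r).riem 1 2 0 4 = 0 ∧ (std p r).riem 1 2 0 5 = 0 ∧ (std p r).riem 1 2 1 0 = 0 ∧ (std p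
  r).riem 1 2 1 2 = p.k3 r ∧ (std p r).riem 1 2 1 3 = 0 ∧ (std p r).riem 1 2 1 4 = 0 ∧ (std p
  r).riem 1 2 1 5 = 0 ∧ (std p r).riem 1 2 2 0 = 0 ∧ (std p r).riem 1 2 2 1 = -p.k3 r ∧ (std p
  r).riem 1 2 2 3 = 0 ∧ (std p r).riem 1 2 2 4 = 0 ∧ (std p r).riem 1 2 2 5 = 0 ∧ (std p r).riem
  1 2 3 0 = p.k4 r ∧ (std p r).riem 1 2 3 1 = 0 ∧ (std p r).riem 1 2 3 2 = 0 ∧ (std p r).riem 1
  2 3 4 = 0 ∧ (std p r).riem 1 2 3 5 = 0 ∧ (std p r).riem 1 2 4 0 = 0 ∧ (std p r).riem 1 2 4 1 =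
  0 ∧ (std p r).riem 1 2 4 2 = 0 ∧ (std p r).riem 1 2 4 3 = 0 ∧ (std p r).riem 1 2 4 5 = 0 ∧
  (std p r).riem 1 2 5 0 = 0 ∧ (std p r).riem 1 2 5 1 = 0 ∧ (std p r).riem 1 2 5 2 = 0 ∧ (std p
  r).riem 1 2 5 3 = 0 ∧ (std p r).riem 1 2 5 4 = 0 :=
  ⟨rm1201 p r,
   rm1202 p r,
   rm1203 p r,
   rm1204 p r,
   rm1205 p r,
   by (rw [riem_anti2 _ (std_symm p r) 1 2 0 1, rm1201]; try ring),
   rm1212 p r,
   rm1213 p r,
   rm1214 p r,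
   rm1215 p r,
   by (rw [riem_anti2 _ (std_symm p r) 1 2 0 2, rm1202]; try ring),
   by (rw [riem_anti2 _ (std_symm p r) 1 2 1 2, rm1212]; try ring),
   rm1223 p r,
   rm1224 p r,
   rm1225 p r,
   by (rw [riem_anti2 _ (std_symm p r) 1 2 0 3, rm1203]; try ring),
   by (rw [riem_anti2 _ (std_symm p r) 1 2 1 3, rm1213]; try ring),
   by (rw [riem_anti2 _ (std_symm p r) 1 2 2 3, rm1223]; try ring),
   rm1234 p r,
   rm1235 p r,
   by (rw [riem_anti2 _ (std_symm p r) 1 2 0 4, rm1204]; try ring),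
   by (rw [riem_anti2 _ (std_symm p r) 1 2 1 4, rm1214]; try ring),
   by (rw [riem_anti2 _ (std_symm p r) 1 2 2 4, rm1224]; try ring),
   by (rw [riem_anti2 _ (std_symm p r) 1 2 3 4, rm1234]; try ring),
   rm1245 p r,
   by (rw [riem_anti2 _ (std_symm p r) 1 2 0 5, rm1205]; try ring),
   by (rw [riem_anti2 _ (std_symm p r) 1 2 1 5, rm1215]; try ring),
   by (rw [riem_anti2 _ (std_symm p r) 1 2 2 5, rm1225]; try ring),
   by (rw [riem_anti2 _ (std_symm p r) 1 2 3 5, rm1235]; try ring),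
   by (rw [riem_anti2 _ (std_symm p r) 1 2 4 5, rm1245]; try ring)⟩

lemma R13 :
  (std p r).riem 1 3 0 1 = 0 ∧ (std p r).riem 1 3 0 2 = p.k4 r ∧ (std p r).riem 1 3 0 3 = 0 ∧
  (std p r).riem 1 3 0 4 = 0 ∧ (std p r).riem 1 3 0 5 = 0 ∧ (std p r).riem 1 3 1 0 = 0 ∧ (std p
  r).riem 1 3 1 2 = 0 ∧ (std p r).riem 1 3 1 3 = p.k3 r ∧ (std p r).riem 1 3 1 4 = 0 ∧ (std p
  r).riem 1 3 1 5 = 0 ∧ (std p r).riem 1 3 2 0 = -p.k4 r ∧ (std p r).riem 1 3 2 1 = 0 ∧ (std p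
  r).riem 1 3 2 3 = 0 ∧ (std p r).riem 1 3 2 4 = 0 ∧ (std p r).riem 1 3 2 5 = 0 ∧ (std p r).riem
  1 3 3 0 = 0 ∧ (std p r).riem 1 3 3 1 = -p.k3 r ∧ (std p r).riem 1 3 3 2 = 0 ∧ (std p r).riem 1
  3 3 4 = 0 ∧ (std p r).riem 1 3 3 5 = 0 ∧ (std p r).riem 1 3 4 0 = 0 ∧ (std p r).riem 1 3 4 1 =
  0 ∧ (std p r).riem 1 3 4 2 = 0 ∧ (std p r).riem 1 3 4 3 = 0 ∧ (std p r).riem 1 3 4 5 = 0 ∧
  (std p r).riem 1 3 5 0 = 0 ∧ (std p r).riem 1 3 5 1 = 0 ∧ (std p r).riem 1 3 5 2 = 0 ∧ (std p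
  r).riem 1 3 5 3 = 0 ∧ (std p r).riem 1 3 5 4 = 0 :=
  ⟨rm1301 p r,
   rm1302 p r,
   rm1303 p r,
   rm1304 p r,
   rm1305 p r,
   by (rw [riem_anti2 _ (std_symm p r) 1 3 0 1, rm1301]; try ring),
   rm1312 p r,
   rm1313 p r,
   rm1314 p r,
   rm1315 p r,
   by (rw [riem_anti2 _ (std_symm p r) 1 3 0 2, rm1302]; try ring),
   by (rw [riem_anti2 _ (std_symm p r) 1 3 1 2, rm1312]; try ring),
   rm1323 p r,
   rm1324 p r,
   rm1325 p r,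
   by (rw [riem_anti2 _ (std_symm p r) 1 3 0 3, rm1303]; try ring),
   by (rw [riem_anti2 _ (std_symm p r) 1 3 1 3, rm1313]; try ring),
   by (rw [riem_anti2 _ (std_symm p r) 1 3 2 3, rm1323]; try ring),
   rm1334 p r,
   rm1335 p r,
   by (rw [riem_anti2 _ (std_symm p r) 1 3 0 4, rm1304]; try ring),
   by (rw [riem_anti2 _ (std_symm p r) 1 3 1 4, rm1314]; try ring),
   by (rw [riem_anti2 _ (std_symm p r) 1 3 2 4, rm1324]; try ring),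
   by (rw [riem_anti2 _ (std_symm p r) 1 3 3 4, rm1334]; try ring),
   rm1345 p r,
   by (rw [riem_anti2 _ (std_symm p r) 1 3 0 5, rm1305]; try ring),
   by (rw [riem_anti2 _ (std_symm p r) 1 3 1 5, rm1315]; try ring),
   by (rw [riem_anti2 _ (std_symm p r) 1 3 2 5, rm1325]; try ring),
   by (rw [riem_anti2 _ (std_symm p r) 1 3 3 5, rm1335]; try ring),
   by (rw [riem_anti2 _ (std_symm p r) 1 3 4 5, rm1345]; try ring)⟩

lemma R14 :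
  (std p r).riem 1 4 0 1 = 0 ∧ (std p r).riem 1 4 0 2 = 0 ∧ (std p r).riem 1 4 0 3 = 0 ∧ (std p
  r).riem 1 4 0 4 = 0 ∧ (std p r).riem 1 4 0 5 = -p.k4 r ∧ (std p r).riem 1 4 1 0 = 0 ∧ (std p
  r).riem 1 4 1 2 = 0 ∧ (std p r).riem 1 4 1 3 = 0 ∧ (std p r).riem 1 4 1 4 = p.k3 r ∧ (std p
  r).riem 1 4 1 5 = 0 ∧ (std p r).riem 1 4 2 0 = 0 ∧ (std p r).riem 1 4 2 1 = 0 ∧ (std p r).riem
  1 4 2 3 = 0 ∧ (std p r).riem 1 4 2 4 = 0 ∧ (std p r).riem 1 4 2 5 = 0 ∧ (std p r).riem 1 4 3 0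
  = 0 ∧ (std p r).riem 1 4 3 1 = 0 ∧ (std p r).riem 1 4 3 2 = 0 ∧ (std p r).riem 1 4 3 4 = 0 ∧
  (std p r).riem 1 4 3 5 = 0 ∧ (std p r).riem 1 4 4 0 = 0 ∧ (std p r).riem 1 4 4 1 = -p.k3 r ∧
  (std p r).riem 1 4 4 2 = 0 ∧ (std p r).riem 1 4 4 3 = 0 ∧ (std p r).riem 1 4 4 5 = 0 ∧ (std p
  r).riem 1 4 5 0 = p.k4 r ∧ (std p r).riem 1 4 5 1 = 0 ∧ (std p r).riem 1 4 5 2 = 0 ∧ (std p
  r).riem 1 4 5 3 = 0 ∧ (std p r).riem 1 4 5 4 = 0 :=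
  ⟨rm1401 p r,
   rm1402 p r,
   rm1403 p r,
   rm1404 p r,
   rm1405 p r,
   by (rw [riem_anti2 _ (std_symm p r) 1 4 0 1, rm1401]; try ring),
   rm1412 p r,
   rm1413 p r,
   rm1414 p r,
   rm1415 p r,
   by (rw [riem_anti2 _ (std_symm p r) 1 4 0 2, rm1402]; try ring),
   by (rw [riem_anti2 _ (std_symm p r) 1 4 1 2, rm1412]; try ring),
   rm1423 p r,
   rm1424 p r,
   rm1425 p r,
   by (rw [riem_anti2 _ (std_symm p r) 1 4 0 3, rm1403]; try ring),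
   by (rw [riem_anti2 _ (std_symm p r) 1 4 1 3, rm1413]; try ring),
   by (rw [riem_anti2 _ (std_symm p r) 1 4 2 3, rm1423]; try ring),
   rm1434 p r,
   rm1435 p r,
   by (rw [riem_anti2 _ (std_symm p r) 1 4 0 4, rm1404]; try ring),
   by (rw [riem_anti2 _ (std_symm p r) 1 4 1 4, rm1414]; try ring),
   by (rw [riem_anti2 _ (std_symm p r) 1 4 2 4, rm1424]; try ring),
   by (rw [riem_anti2 _ (std_symm p r) 1 4 3 4, rm1434]; try ring),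
   rm1445 p r,
   by (rw [riem_anti2 _ (std_symm p r) 1 4 0 5, rm1405]; try ring),
   by (rw [riem_anti2 _ (std_symm p r) 1 4 1 5, rm1415]; try ring),
   by (rw [riem_anti2 _ (std_symm p r) 1 4 2 5, rm1425]; try ring),
   by (rw [riem_anti2 _ (std_symm p r) 1 4 3 5, rm1435]; try ring),
   by (rw [riem_anti2 _ (std_symm p r) 1 4 4 5, rm1445]; try ring)⟩

lemma R15 :
  (std p r).riem 1 5 0 1 = 0 ∧ (std p r).riem 1 5 0 2 = 0 ∧ (std p r).riem 1 5 0 3 = 0 ∧ (std p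
  r).riem 1 5 0 4 = p.k4 r ∧ (std p r).riem 1 5 0 5 = 0 ∧ (std p r).riem 1 5 1 0 = 0 ∧ (std p
  r).riem 1 5 1 2 = 0 ∧ (std p r).riem 1 5 1 3 = 0 ∧ (std p r).riem 1 5 1 4 = 0 ∧ (std p r).riem
  1 5 1 5 = p.k3 r ∧ (std p r).riem 1 5 2 0 = 0 ∧ (std p r).riem 1 5 2 1 = 0 ∧ (std p r).riem 1
  5 2 3 = 0 ∧ (std p r).riem 1 5 2 4 = 0 ∧ (std p r).riem 1 5 2 5 = 0 ∧ (std p r).riem 1 5 3 0 =
  0 ∧ (std p r).riem 1 5 3 1 = 0 ∧ (std p r).riem 1 5 3 2 = 0 ∧ (std p r).riem 1 5 3 4 = 0 ∧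
  (std p r).riem 1 5 3 5 = 0 ∧ (std p r).riem 1 5 4 0 = -p.k4 r ∧ (std p r).riem 1 5 4 1 = 0 ∧
  (std p r).riem 1 5 4 2 = 0 ∧ (std p r).riem 1 5 4 3 = 0 ∧ (std p r).riem 1 5 4 5 = 0 ∧ (std p
  r).riem 1 5 5 0 = 0 ∧ (std p r).riem 1 5 5 1 = -p.k3 r ∧ (std p r).riem 1 5 5 2 = 0 ∧ (std p
  r).riem 1 5 5 3 = 0 ∧ (std p r).riem 1 5 5 4 = 0 :=
  ⟨rm1501 p r,
   rm1502 p r,
   rm1503 p r,
   rm1504 p r,
   rm1505 p r,
   by (rw [riem_anti2 _ (std_symm p r) 1 5 0 1, rm1501]; try ring),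
   rm1512 p r,
   rm1513 p r,
   rm1514 p r,
   rm1515 p r,
   by (rw [riem_anti2 _ (std_symm p r) 1 5 0 2, rm1502]; try ring),
   by (rw [riem_anti2 _ (std_symm p r) 1 5 1 2, rm1512]; try ring),
   rm1523 p r,
   rm1524 p r,
   rm1525 p r,
   by (rw [riem_anti2 _ (std_symm p r) 1 5 0 3, rm1503]; try ring),
   by (rw [riem_anti2 _ (std_symm p r) 1 5 1 3, rm1513]; try ring),
   by (rw [riem_anti2 _ (std_symm p r) 1 5 2 3, rm1523]; try ring),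
   rm1534 p r,
   rm1535 p r,
   by (rw [riem_anti2 _ (std_symm p r) 1 5 0 4, rm1504]; try ring),
   by (rw [riem_anti2 _ (std_symm p r) 1 5 1 4, rm1514]; try ring),
   by (rw [riem_anti2 _ (std_symm p r) 1 5 2 4, rm1524]; try ring),
   by (rw [riem_anti2 _ (std_symm p r) 1 5 3 4, rm1534]; try ring),
   rm1545 p r,
   by (rw [riem_anti2 _ (std_symm p r) 1 5 0 5, rm1505]; try ring),
   by (rw [riem_anti2 _ (std_symm p r) 1 5 1 5, rm1515]; try ring),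
   by (rw [riem_anti2 _ (std_symm p r) 1 5 2 5, rm1525]; try ring),
   by (rw [riem_anti2 _ (std_symm p r) 1 5 3 5, rm1535]; try ring),
   by (rw [riem_anti2 _ (std_symm p r) 1 5 4 5, rm1545]; try ring)⟩

lemma R20 :
  (std p r).riem 2 0 0 1 = 0 ∧ (std p r).riem 2 0 0 2 = -p.k2 r ∧ (std p r).riem 2 0 0 3 = 0 ∧
  (std p r).riem 2 0 0 4 = 0 ∧ (std p r).riem 2 0 0 5 = 0 ∧ (std p r).riem 2 0 1 0 = 0 ∧ (std p
  r).riem 2 0 1 2 = 0 ∧ (std p r).riem 2 0 1 3 = -p.k4 r ∧ (std p r).riem 2 0 1 4 = 0 ∧ (std p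
  r).riem 2 0 1 5 = 0 ∧ (std p r).riem 2 0 2 0 = p.k2 r ∧ (std p r).riem 2 0 2 1 = 0 ∧ (std p
  r).riem 2 0 2 3 = 0 ∧ (std p r).riem 2 0 2 4 = 0 ∧ (std p r).riem 2 0 2 5 = 0 ∧ (std p r).riem
  2 0 3 0 = 0 ∧ (std p r).riem 2 0 3 1 = p.k4 r ∧ (std p r).riem 2 0 3 2 = 0 ∧ (std p r).riem 2
  0 3 4 = 0 ∧ (std p r).riem 2 0 3 5 = 0 ∧ (std p r).riem 2 0 4 0 = 0 ∧ (std p r).riem 2 0 4 1 =
  0 ∧ (std p r).riem 2 0 4 2 = 0 ∧ (std p r).riem 2 0 4 3 = 0 ∧ (std p r).riem 2 0 4 5 = 0 ∧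
  (std p r).riem 2 0 5 0 = 0 ∧ (std p r).riem 2 0 5 1 = 0 ∧ (std p r).riem 2 0 5 2 = 0 ∧ (std p
  r).riem 2 0 5 3 = 0 ∧ (std p r).riem 2 0 5 4 = 0 :=
  ⟨by (rw [riem_anti1 _ (std_symm p r) 0 2, rm0201]; try ring),
   by (rw [riem_anti1 _ (std_symm p r) 0 2, rm0202]; try ring),
   by (rw [riem_anti1 _ (std_symm p r) 0 2, rm0203]; try ring),
   by (rw [riem_anti1 _ (std_symm p r) 0 2, rm0204]; try ring),
   by (rw [riem_anti1 _ (std_symm p r) 0 2, rm0205]; try ring),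
   by (rw [riem_anti1 _ (std_symm p r) 0 2, riem_anti2 _ (std_symm p r) 0 2 0 1, rm0201]; try ring),
   by (rw [riem_anti1 _ (std_symm p r) 0 2, rm0212]; try ring),
   by (rw [riem_anti1 _ (std_symm p r) 0 2, rm0213]; try ring),
   by (rw [riem_anti1 _ (std_symm p r) 0 2, rm0214]; try ring),
   by (rw [riem_anti1 _ (std_symm p r) 0 2, rm0215]; try ring),
   by (rw [riem_anti1 _ (std_symm p r) 0 2, riem_anti2 _ (std_symm p r) 0 2 0 2, rm0202]; try ring),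
   by (rw [riem_anti1 _ (std_symm p r) 0 2, riem_anti2 _ (std_symm p r) 0 2 1 2, rm0212]; try ring),
   by (rw [riem_anti1 _ (std_symm p r) 0 2, rm0223]; try ring),
   by (rw [riem_anti1 _ (std_symm p r) 0 2, rm0224]; try ring),
   by (rw [riem_anti1 _ (std_symm p r) 0 2, rm0225]; try ring),
   by (rw [riem_anti1 _ (std_symm p r) 0 2, riem_anti2 _ (std_symm p r) 0 2 0 3, rm0203]; try ring),
   by (rw [riem_anti1 _ (std_symm p r) 0 2, riem_anti2 _ (std_symm p r) 0 2 1 3, rm0213]; try ring),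
   by (rw [riem_anti1 _ (std_symm p r) 0 2, riem_anti2 _ (std_symm p r) 0 2 2 3, rm0223]; try ring),
   by (rw [riem_anti1 _ (std_symm p r) 0 2, rm0234]; try ring),
   by (rw [riem_anti1 _ (std_symm p r) 0 2, rm0235]; try ring),
   by (rw [riem_anti1 _ (std_symm p r) 0 2, riem_anti2 _ (std_symm p r) 0 2 0 4, rm0204]; try ring),
   by (rw [riem_anti1 _ (std_symm p r) 0 2, riem_anti2 _ (std_symm p r) 0 2 1 4, rm0214]; try ring),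
   by (rw [riem_anti1 _ (std_symm p r) 0 2, riem_anti2 _ (std_symm p r) 0 2 2 4, rm0224]; try ring),
   by (rw [riem_anti1 _ (std_symm p r) 0 2, riem_anti2 _ (std_symm p r) 0 2 3 4, rm0234]; try ring),
   by (rw [riem_anti1 _ (std_symm p r) 0 2, rm0245]; try ring),
   by (rw [riem_anti1 _ (std_symm p r) 0 2, riem_anti2 _ (std_symm p r) 0 2 0 5, rm0205]; try ring),
   by (rw [riem_anti1 _ (std_symm p r) 0 2, riem_anti2 _ (std_symm p r) 0 2 1 5, rm0215]; try ring),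
   by (rw [riem_anti1 _ (std_symm p r) 0 2, riem_anti2 _ (std_symm p r) 0 2 2 5, rm0225]; try ring),
   by (rw [riem_anti1 _ (std_symm p r) 0 2, riem_anti2 _ (std_symm p r) 0 2 3 5, rm0235]; try ring),
   by (rw [riem_anti1 _ (std_symm p r) 0 2, riem_anti2 _ (std_symm p r) 0 2 4 5, rm0245]; try ring)⟩

lemma R21 :
  (std p r).riem 2 1 0 1 = 0 ∧ (std p r).riem 2 1 0 2 = 0 ∧ (std p r).riem 2 1 0 3 = p.k4 r ∧
  (std p r).riem 2 1 0 4 = 0 ∧ (std p r).riem 2 1 0 5 = 0 ∧ (std p r).riem 2 1 1 0 = 0 ∧ (std p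
  r).riem 2 1 1 2 = -p.k3 r ∧ (std p r).riem 2 1 1 3 = 0 ∧ (std p r).riem 2 1 1 4 = 0 ∧ (std p
  r).riem 2 1 1 5 = 0 ∧ (std p r).riem 2 1 2 0 = 0 ∧ (std p r).riem 2 1 2 1 = p.k3 r ∧ (std p
  r).riem 2 1 2 3 = 0 ∧ (std p r).riem 2 1 2 4 = 0 ∧ (std p r).riem 2 1 2 5 = 0 ∧ (std p r).riem
  2 1 3 0 = -p.k4 r ∧ (std p r).riem 2 1 3 1 = 0 ∧ (std p r).riem 2 1 3 2 = 0 ∧ (std p r).riem 2
  1 3 4 = 0 ∧ (std p r).riem 2 1 3 5 = 0 ∧ (std p r).riem 2 1 4 0 = 0 ∧ (std p r).riem 2 1 4 1 =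
  0 ∧ (std p r).riem 2 1 4 2 = 0 ∧ (std p r).riem 2 1 4 3 = 0 ∧ (std p r).riem 2 1 4 5 = 0 ∧
  (std p r).riem 2 1 5 0 = 0 ∧ (std p r).riem 2 1 5 1 = 0 ∧ (std p r).riem 2 1 5 2 = 0 ∧ (std p
  r).riem 2 1 5 3 = 0 ∧ (std p r).riem 2 1 5 4 = 0 :=
  ⟨by (rw [riem_anti1 _ (std_symm p r) 1 2, rm1201]; try ring),
   by (rw [riem_anti1 _ (std_symm p r) 1 2, rm1202]; try ring),
   by (rw [riem_anti1 _ (std_symm p r) 1 2, rm1203]; try ring),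
   by (rw [riem_anti1 _ (std_symm p r) 1 2, rm1204]; try ring),
   by (rw [riem_anti1 _ (std_symm p r) 1 2, rm1205]; try ring),
   by (rw [riem_anti1 _ (std_symm p r) 1 2, riem_anti2 _ (std_symm p r) 1 2 0 1, rm1201]; try ring),
   by (rw [riem_anti1 _ (std_symm p r) 1 2, rm1212]; try ring),
   by (rw [riem_anti1 _ (std_symm p r) 1 2, rm1213]; try ring),
   by (rw [riem_anti1 _ (std_symm p r) 1 2, rm1214]; try ring),
   by (rw [riem_anti1 _ (std_symm p r) 1 2, rm1215]; try ring),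
   by (rw [riem_anti1 _ (std_symm p r) 1 2, riem_anti2 _ (std_symm p r) 1 2 0 2, rm1202]; try ring),
   by (rw [riem_anti1 _ (std_symm p r) 1 2, riem_anti2 _ (std_symm p r) 1 2 1 2, rm1212]; try ring),
   by (rw [riem_anti1 _ (std_symm p r) 1 2, rm1223]; try ring),
   by (rw [riem_anti1 _ (std_symm p r) 1 2, rm1224]; try ring),
   by (rw [riem_anti1 _ (std_symm p r) 1 2, rm1225]; try ring),
   by (rw [riem_anti1 _ (std_symm p r) 1 2, riem_anti2 _ (std_symm p r) 1 2 0 3, rm1203]; try ring),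
   by (rw [riem_anti1 _ (std_symm p r) 1 2, riem_anti2 _ (std_symm p r) 1 2 1 3, rm1213]; try ring),
   by (rw [riem_anti1 _ (std_symm p r) 1 2, riem_anti2 _ (std_symm p r) 1 2 2 3, rm1223]; try ring),
   by (rw [riem_anti1 _ (std_symm p r) 1 2, rm1234]; try ring),
   by (rw [riem_anti1 _ (std_symm p r) 1 2, rm1235]; try ring),
   by (rw [riem_anti1 _ (std_symm p r) 1 2, riem_anti2 _ (std_symm p r) 1 2 0 4, rm1204]; try ring),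
   by (rw [riem_anti1 _ (std_symm p r) 1 2, riem_anti2 _ (std_symm p r) 1 2 1 4, rm1214]; try ring),
   by (rw [riem_anti1 _ (std_symm p r) 1 2, riem_anti2 _ (std_symm p r) 1 2 2 4, rm1224]; try ring),
   by (rw [riem_anti1 _ (std_symm p r) 1 2, riem_anti2 _ (std_symm p r) 1 2 3 4, rm1234]; try ring),
   by (rw [riem_anti1 _ (std_symm p r) 1 2, rm1245]; try ring),
   by (rw [riem_anti1 _ (std_symm p r) 1 2, riem_anti2 _ (std_symm p r) 1 2 0 5, rm1205]; try ring),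
   by (rw [riem_anti1 _ (std_symm p r) 1 2, riem_anti2 _ (std_symm p r) 1 2 1 5, rm1215]; try ring),
   by (rw [riem_anti1 _ (std_symm p r) 1 2, riem_anti2 _ (std_symm p r) 1 2 2 5, rm1225]; try ring),
   by (rw [riem_anti1 _ (std_symm p r) 1 2, riem_anti2 _ (std_symm p r) 1 2 3 5, rm1235]; try ring),
   by (rw [riem_anti1 _ (std_symm p r) 1 2, riem_anti2 _ (std_symm p r) 1 2 4 5, rm1245]; try ring)⟩

lemma R23 :
  (std p r).riem 2 3 0 1 = 2*p.k4 r ∧ (std p r).riem 2 3 0 2 = 0 ∧ (std p r).riem 2 3 0 3 = 0 ∧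
  (std p r).riem 2 3 0 4 = 0 ∧ (std p r).riem 2 3 0 5 = 0 ∧ (std p r).riem 2 3 1 0 = -2*p.k4 r ∧
  (std p r).riem 2 3 1 2 = 0 ∧ (std p r).riem 2 3 1 3 = 0 ∧ (std p r).riem 2 3 1 4 = 0 ∧ (std p
  r).riem 2 3 1 5 = 0 ∧ (std p r).riem 2 3 2 0 = 0 ∧ (std p r).riem 2 3 2 1 = 0 ∧ (std p r).riem
  2 3 2 3 = (p.k5 r+3*p.k6 r) ∧ (std p r).riem 2 3 2 4 = 0 ∧ (std p r).riem 2 3 2 5 = 0 ∧ (std p
  r).riem 2 3 3 0 = 0 ∧ (std p r).riem 2 3 3 1 = 0 ∧ (std p r).riem 2 3 3 2 = -(p.k5 r+3*p.k6 r)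
  ∧ (std p r).riem 2 3 3 4 = 0 ∧ (std p r).riem 2 3 3 5 = 0 ∧ (std p r).riem 2 3 4 0 = 0 ∧ (std
  p r).riem 2 3 4 1 = 0 ∧ (std p r).riem 2 3 4 2 = 0 ∧ (std p r).riem 2 3 4 3 = 0 ∧ (std p
  r).riem 2 3 4 5 = 2*p.k6 r ∧ (std p r).riem 2 3 5 0 = 0 ∧ (std p r).riem 2 3 5 1 = 0 ∧ (std p
  r).riem 2 3 5 2 = 0 ∧ (std p r).riem 2 3 5 3 = 0 ∧ (std p r).riem 2 3 5 4 = -2*p.k6 r :=
  ⟨rm2301 p r,
   rm2302 p r,
   rm2303 p r,
   rm2304 p r,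
   rm2305 p r,
   by (rw [riem_anti2 _ (std_symm p r) 2 3 0 1, rm2301]; try ring),
   rm2312 p r,
   rm2313 p r,
   rm2314 p r,
   rm2315 p r,
   by (rw [riem_anti2 _ (std_symm p r) 2 3 0 2, rm2302]; try ring),
   by (rw [riem_anti2 _ (std_symm p r) 2 3 1 2, rm2312]; try ring),
   rm2323 p r,
   rm2324 p r,
   rm2325 p r,
   by (rw [riem_anti2 _ (std_symm p r) 2 3 0 3, rm2303]; try ring),
   by (rw [riem_anti2 _ (std_symm p r) 2 3 1 3, rm2313]; try ring),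
   by (rw [riem_anti2 _ (std_symm p r) 2 3 2 3, rm2323]; try ring),
   rm2334 p r,
   rm2335 p r,
   by (rw [riem_anti2 _ (std_symm p r) 2 3 0 4, rm2304]; try ring),
   by (rw [riem_anti2 _ (std_symm p r) 2 3 1 4, rm2314]; try ring),
   by (rw [riem_anti2 _ (std_symm p r) 2 3 2 4, rm2324]; try ring),
   by (rw [riem_anti2 _ (std_symm p r) 2 3 3 4, rm2334]; try ring),
   rm2345 p r,
   by (rw [riem_anti2 _ (std_symm p r) 2 3 0 5, rm2305]; try ring),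
   by (rw [riem_anti2 _ (std_symm p r) 2 3 1 5, rm2315]; try ring),
   by (rw [riem_anti2 _ (std_symm p r) 2 3 2 5, rm2325]; try ring),
   by (rw [riem_anti2 _ (std_symm p r) 2 3 3 5, rm2335]; try ring),
   by (rw [riem_anti2 _ (std_symm p r) 2 3 4 5, rm2345]; try ring)⟩

lemma R24 :
  (std p r).riem 2 4 0 1 = 0 ∧ (std p r).riem 2 4 0 2 = 0 ∧ (std p r).riem 2 4 0 3 = 0 ∧ (std p
  r).riem 2 4 0 4 = 0 ∧ (std p r).riem 2 4 0 5 = 0 ∧ (std p r).riem 2 4 1 0 = 0 ∧ (std p r).riem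
  2 4 1 2 = 0 ∧ (std p r).riem 2 4 1 3 = 0 ∧ (std p r).riem 2 4 1 4 = 0 ∧ (std p r).riem 2 4 1 5
  = 0 ∧ (std p r).riem 2 4 2 0 = 0 ∧ (std p r).riem 2 4 2 1 = 0 ∧ (std p r).riem 2 4 2 3 = 0 ∧
  (std p r).riem 2 4 2 4 = p.k5 r ∧ (std p r).riem 2 4 2 5 = 0 ∧ (std p r).riem 2 4 3 0 = 0 ∧
  (std p r).riem 2 4 3 1 = 0 ∧ (std p r).riem 2 4 3 2 = 0 ∧ (std p r).riem 2 4 3 4 = 0 ∧ (std p
  r).riem 2 4 3 5 = p.k6 r ∧ (std p r).riem 2 4 4 0 = 0 ∧ (std p r).riem 2 4 4 1 = 0 ∧ (std p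
  r).riem 2 4 4 2 = -p.k5 r ∧ (std p r).riem 2 4 4 3 = 0 ∧ (std p r).riem 2 4 4 5 = 0 ∧ (std p
  r).riem 2 4 5 0 = 0 ∧ (std p r).riem 2 4 5 1 = 0 ∧ (std p r).riem 2 4 5 2 = 0 ∧ (std p r).riem
  2 4 5 3 = -p.k6 r ∧ (std p r).riem 2 4 5 4 = 0 :=
  ⟨rm2401 p r,
   rm2402 p r,
   rm2403 p r,
   rm2404 p r,
   rm2405 p r,
   by (rw [riem_anti2 _ (std_symm p r) 2 4 0 1, rm2401]; try ring),
   rm2412 p r,
   rm2413 p r,
   rm2414 p r,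
   rm2415 p r,
   by (rw [riem_anti2 _ (std_symm p r) 2 4 0 2, rm2402]; try ring),
   by (rw [riem_anti2 _ (std_symm p r) 2 4 1 2, rm2412]; try ring),
   rm2423 p r,
   rm2424 p r,
   rm2425 p r,
   by (rw [riem_anti2 _ (std_symm p r) 2 4 0 3, rm2403]; try ring),
   by (rw [riem_anti2 _ (std_symm p r) 2 4 1 3, rm2413]; try ring),
   by (rw [riem_anti2 _ (std_symm p r) 2 4 2 3, rm2423]; try ring),
   rm2434 p r,
   rm2435 p r,
   by (rw [riem_anti2 _ (std_symm p r) 2 4 0 4, rm2404]; try ring),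
   by (rw [riem_anti2 _ (std_symm p r) 2 4 1 4, rm2414]; try ring),
   by (rw [riem_anti2 _ (std_symm p r) 2 4 2 4, rm2424]; try ring),
   by (rw [riem_anti2 _ (std_symm p r) 2 4 3 4, rm2434]; try ring),
   rm2445 p r,
   by (rw [riem_anti2 _ (std_symm p r) 2 4 0 5, rm2405]; try ring),
   by (rw [riem_anti2 _ (std_symm p r) 2 4 1 5, rm2415]; try ring),
   by (rw [riem_anti2 _ (std_symm p r) 2 4 2 5, rm2425]; try ring),
   by (rw [riem_anti2 _ (std_symm p r) 2 4 3 5, rm2435]; try ring),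
   by (rw [riem_anti2 _ (std_symm p r) 2 4 4 5, rm2445]; try ring)⟩

lemma R25 :
  (std p r).riem 2 5 0 1 = 0 ∧ (std p r).riem 2 5 0 2 = 0 ∧ (std p r).riem 2 5 0 3 = 0 ∧ (std p
  r).riem 2 5 0 4 = 0 ∧ (std p r).riem 2 5 0 5 = 0 ∧ (std p r).riem 2 5 1 0 = 0 ∧ (std p r).riem
  2 5 1 2 = 0 ∧ (std p r).riem 2 5 1 3 = 0 ∧ (std p r).riem 2 5 1 4 = 0 ∧ (std p r).riem 2 5 1 5
  = 0 ∧ (std p r).riem 2 5 2 0 = 0 ∧ (std p r).riem 2 5 2 1 = 0 ∧ (std p r).riem 2 5 2 3 = 0 ∧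
  (std p r).riem 2 5 2 4 = 0 ∧ (std p r).riem 2 5 2 5 = p.k5 r ∧ (std p r).riem 2 5 3 0 = 0 ∧
  (std p r).riem 2 5 3 1 = 0 ∧ (std p r).riem 2 5 3 2 = 0 ∧ (std p r).riem 2 5 3 4 = -p.k6 r ∧
  (std p r).riem 2 5 3 5 = 0 ∧ (std p r).riem 2 5 4 0 = 0 ∧ (std p r).riem 2 5 4 1 = 0 ∧ (std p
  r).riem 2 5 4 2 = 0 ∧ (std p r).riem 2 5 4 3 = p.k6 r ∧ (std p r).riem 2 5 4 5 = 0 ∧ (std p
  r).riem 2 5 5 0 = 0 ∧ (std p r).riem 2 5 5 1 = 0 ∧ (std p r).riem 2 5 5 2 = -p.k5 r ∧ (std p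
  r).riem 2 5 5 3 = 0 ∧ (std p r).riem 2 5 5 4 = 0 :=
  ⟨rm2501 p r,
   rm2502 p r,
   rm2503 p r,
   rm2504 p r,
   rm2505 p r,
   by (rw [riem_anti2 _ (std_symm p r) 2 5 0 1, rm2501]; try ring),
   rm2512 p r,
   rm2513 p r,
   rm2514 p r,
   rm2515 p r,
   by (rw [riem_anti2 _ (std_symm p r) 2 5 0 2, rm2502]; try ring),
   by (rw [riem_anti2 _ (std_symm p r) 2 5 1 2, rm2512]; try ring),
   rm2523 p r,
   rm2524 p r,
   rm2525 p r,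
   by (rw [riem_anti2 _ (std_symm p r) 2 5 0 3, rm2503]; try ring),
   by (rw [riem_anti2 _ (std_symm p r) 2 5 1 3, rm2513]; try ring),
   by (rw [riem_anti2 _ (std_symm p r) 2 5 2 3, rm2523]; try ring),
   rm2534 p r,
   rm2535 p r,
   by (rw [riem_anti2 _ (std_symm p r) 2 5 0 4, rm2504]; try ring),
   by (rw [riem_anti2 _ (std_symm p r) 2 5 1 4, rm2514]; try ring),
   by (rw [riem_anti2 _ (std_symm p r) 2 5 2 4, rm2524]; try ring),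
   by (rw [riem_anti2 _ (std_symm p r) 2 5 3 4, rm2534]; try ring),
   rm2545 p r,
   by (rw [riem_anti2 _ (std_symm p r) 2 5 0 5, rm2505]; try ring),
   by (rw [riem_anti2 _ (std_symm p r) 2 5 1 5, rm2515]; try ring),
   by (rw [riem_anti2 _ (std_symm p r) 2 5 2 5, rm2525]; try ring),
   by (rw [riem_anti2 _ (std_symm p r) 2 5 3 5, rm2535]; try ring),
   by (rw [riem_anti2 _ (std_symm p r) 2 5 4 5, rm2545]; try ring)⟩

lemma R30 :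
  (std p r).riem 3 0 0 1 = 0 ∧ (std p r).riem 3 0 0 2 = 0 ∧ (std p r).riem 3 0 0 3 = -p.k2 r ∧
  (std p r).riem 3 0 0 4 = 0 ∧ (std p r).riem 3 0 0 5 = 0 ∧ (std p r).riem 3 0 1 0 = 0 ∧ (std p
  r).riem 3 0 1 2 = p.k4 r ∧ (std p r).riem 3 0 1 3 = 0 ∧ (std p r).riem 3 0 1 4 = 0 ∧ (std p
  r).riem 3 0 1 5 = 0 ∧ (std p r).riem 3 0 2 0 = 0 ∧ (std p r).riem 3 0 2 1 = -p.k4 r ∧ (std p
  r).riem 3 0 2 3 = 0 ∧ (std p r).riem 3 0 2 4 = 0 ∧ (std p r).riem 3 0 2 5 = 0 ∧ (std p r).riem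
  3 0 3 0 = p.k2 r ∧ (std p r).riem 3 0 3 1 = 0 ∧ (std p r).riem 3 0 3 2 = 0 ∧ (std p r).riem 3
  0 3 4 = 0 ∧ (std p r).riem 3 0 3 5 = 0 ∧ (std p r).riem 3 0 4 0 = 0 ∧ (std p r).riem 3 0 4 1 =
  0 ∧ (std p r).riem 3 0 4 2 = 0 ∧ (std p r).riem 3 0 4 3 = 0 ∧ (std p r).riem 3 0 4 5 = 0 ∧
  (std p r).riem 3 0 5 0 = 0 ∧ (std p r).riem 3 0 5 1 = 0 ∧ (std p r).riem 3 0 5 2 = 0 ∧ (std p
  r).riem 3 0 5 3 = 0 ∧ (std p r).riem 3 0 5 4 = 0 :=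
  ⟨by (rw [riem_anti1 _ (std_symm p r) 0 3, rm0301]; try ring),
   by (rw [riem_anti1 _ (std_symm p r) 0 3, rm0302]; try ring),
   by (rw [riem_anti1 _ (std_symm p r) 0 3, rm0303]; try ring),
   by (rw [riem_anti1 _ (std_symm p r) 0 3, rm0304]; try ring),
   by (rw [riem_anti1 _ (std_symm p r) 0 3, rm0305]; try ring),
   by (rw [riem_anti1 _ (std_symm p r) 0 3, riem_anti2 _ (std_symm p r) 0 3 0 1, rm0301]; try ring),
   by (rw [riem_anti1 _ (std_symm p r) 0 3, rm0312]; try ring),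
   by (rw [riem_anti1 _ (std_symm p r) 0 3, rm0313]; try ring),
   by (rw [riem_anti1 _ (std_symm p r) 0 3, rm0314]; try ring),
   by (rw [riem_anti1 _ (std_symm p r) 0 3, rm0315]; try ring),
   by (rw [riem_anti1 _ (std_symm p r) 0 3, riem_anti2 _ (std_symm p r) 0 3 0 2, rm0302]; try ring),
   by (rw [riem_anti1 _ (std_symm p r) 0 3, riem_anti2 _ (std_symm p r) 0 3 1 2, rm0312]; try ring),
   by (rw [riem_anti1 _ (std_symm p r) 0 3, rm0323]; try ring),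
   by (rw [riem_anti1 _ (std_symm p r) 0 3, rm0324]; try ring),
   by (rw [riem_anti1 _ (std_symm p r) 0 3, rm0325]; try ring),
   by (rw [riem_anti1 _ (std_symm p r) 0 3, riem_anti2 _ (std_symm p r) 0 3 0 3, rm0303]; try ring),
   by (rw [riem_anti1 _ (std_symm p r) 0 3, riem_anti2 _ (std_symm p r) 0 3 1 3, rm0313]; try ring),
   by (rw [riem_anti1 _ (std_symm p r) 0 3, riem_anti2 _ (std_symm p r) 0 3 2 3, rm0323]; try ring),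
   by (rw [riem_anti1 _ (std_symm p r) 0 3, rm0334]; try ring),
   by (rw [riem_anti1 _ (std_symm p r) 0 3, rm0335]; try ring),
   by (rw [riem_anti1 _ (std_symm p r) 0 3, riem_anti2 _ (std_symm p r) 0 3 0 4, rm0304]; try ring),
   by (rw [riem_anti1 _ (std_symm p r) 0 3, riem_anti2 _ (std_symm p r) 0 3 1 4, rm0314]; try ring),
   by (rw [riem_anti1 _ (std_symm p r) 0 3, riem_anti2 _ (std_symm p r) 0 3 2 4, rm0324]; try ring),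
   by (rw [riem_anti1 _ (std_symm p r) 0 3, riem_anti2 _ (std_symm p r) 0 3 3 4, rm0334]; try ring),
   by (rw [riem_anti1 _ (std_symm p r) 0 3, rm0345]; try ring),
   by (rw [riem_anti1 _ (std_symm p r) 0 3, riem_anti2 _ (std_symm p r) 0 3 0 5, rm0305]; try ring),
   by (rw [riem_anti1 _ (std_symm p r) 0 3, riem_anti2 _ (std_symm p r) 0 3 1 5, rm0315]; try ring),
   by (rw [riem_anti1 _ (std_symm p r) 0 3, riem_anti2 _ (std_symm p r) 0 3 2 5, rm0325]; try ring),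
   by (rw [riem_anti1 _ (std_symm p r) 0 3, riem_anti2 _ (std_symm p r) 0 3 3 5, rm0335]; try ring),
   by (rw [riem_anti1 _ (std_symm p r) 0 3, riem_anti2 _ (std_symm p r) 0 3 4 5, rm0345]; try ring)⟩

lemma R31 :
  (std p r).riem 3 1 0 1 = 0 ∧ (std p r).riem 3 1 0 2 = -p.k4 r ∧ (std p r).riem 3 1 0 3 = 0 ∧
  (std p r).riem 3 1 0 4 = 0 ∧ (std p r).riem 3 1 0 5 = 0 ∧ (std p r).riem 3 1 1 0 = 0 ∧ (std p
  r).riem 3 1 1 2 = 0 ∧ (std p r).riem 3 1 1 3 = -p.k3 r ∧ (std p r).riem 3 1 1 4 = 0 ∧ (std p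
  r).riem 3 1 1 5 = 0 ∧ (std p r).riem 3 1 2 0 = p.k4 r ∧ (std p r).riem 3 1 2 1 = 0 ∧ (std p
  r).riem 3 1 2 3 = 0 ∧ (std p r).riem 3 1 2 4 = 0 ∧ (std p r).riem 3 1 2 5 = 0 ∧ (std p r).riem
  3 1 3 0 = 0 ∧ (std p r).riem 3 1 3 1 = p.k3 r ∧ (std p r).riem 3 1 3 2 = 0 ∧ (std p r).riem 3
  1 3 4 = 0 ∧ (std p r).riem 3 1 3 5 = 0 ∧ (std p r).riem 3 1 4 0 = 0 ∧ (std p r).riem 3 1 4 1 =
  0 ∧ (std p r).riem 3 1 4 2 = 0 ∧ (std p r).riem 3 1 4 3 = 0 ∧ (std p r).riem 3 1 4 5 = 0 ∧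
  (std p r).riem 3 1 5 0 = 0 ∧ (std p r).riem 3 1 5 1 = 0 ∧ (std p r).riem 3 1 5 2 = 0 ∧ (std p
  r).riem 3 1 5 3 = 0 ∧ (std p r).riem 3 1 5 4 = 0 :=
  ⟨by (rw [riem_anti1 _ (std_symm p r) 1 3, rm1301]; try ring),
   by (rw [riem_anti1 _ (std_symm p r) 1 3, rm1302]; try ring),
   by (rw [riem_anti1 _ (std_symm p r) 1 3, rm1303]; try ring),
   by (rw [riem_anti1 _ (std_symm p r) 1 3, rm1304]; try ring),
   by (rw [riem_anti1 _ (std_symm p r) 1 3, rm1305]; try ring),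
   by (rw [riem_anti1 _ (std_symm p r) 1 3, riem_anti2 _ (std_symm p r) 1 3 0 1, rm1301]; try ring),
   by (rw [riem_anti1 _ (std_symm p r) 1 3, rm1312]; try ring),
   by (rw [riem_anti1 _ (std_symm p r) 1 3, rm1313]; try ring),
   by (rw [riem_anti1 _ (std_symm p r) 1 3, rm1314]; try ring),
   by (rw [riem_anti1 _ (std_symm p r) 1 3, rm1315]; try ring),
   by (rw [riem_anti1 _ (std_symm p r) 1 3, riem_anti2 _ (std_symm p r) 1 3 0 2, rm1302]; try ring),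
   by (rw [riem_anti1 _ (std_symm p r) 1 3, riem_anti2 _ (std_symm p r) 1 3 1 2, rm1312]; try ring),
   by (rw [riem_anti1 _ (std_symm p r) 1 3, rm1323]; try ring),
   by (rw [riem_anti1 _ (std_symm p r) 1 3, rm1324]; try ring),
   by (rw [riem_anti1 _ (std_symm p r) 1 3, rm1325]; try ring),
   by (rw [riem_anti1 _ (std_symm p r) 1 3, riem_anti2 _ (std_symm p r) 1 3 0 3, rm1303]; try ring),
   by (rw [riem_anti1 _ (std_symm p r) 1 3, riem_anti2 _ (std_symm p r) 1 3 1 3, rm1313]; try ring),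
   by (rw [riem_anti1 _ (std_symm p r) 1 3, riem_anti2 _ (std_symm p r) 1 3 2 3, rm1323]; try ring),
   by (rw [riem_anti1 _ (std_symm p r) 1 3, rm1334]; try ring),
   by (rw [riem_anti1 _ (std_symm p r) 1 3, rm1335]; try ring),
   by (rw [riem_anti1 _ (std_symm p r) 1 3, riem_anti2 _ (std_symm p r) 1 3 0 4, rm1304]; try ring),
   by (rw [riem_anti1 _ (std_symm p r) 1 3, riem_anti2 _ (std_symm p r) 1 3 1 4, rm1314]; try ring),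
   by (rw [riem_anti1 _ (std_symm p r) 1 3, riem_anti2 _ (std_symm p r) 1 3 2 4, rm1324]; try ring),
   by (rw [riem_anti1 _ (std_symm p r) 1 3, riem_anti2 _ (std_symm p r) 1 3 3 4, rm1334]; try ring),
   by (rw [riem_anti1 _ (std_symm p r) 1 3, rm1345]; try ring),
   by (rw [riem_anti1 _ (std_symm p r) 1 3, riem_anti2 _ (std_symm p r) 1 3 0 5, rm1305]; try ring),
   by (rw [riem_anti1 _ (std_symm p r) 1 3, riem_anti2 _ (std_symm p r) 1 3 1 5, rm1315]; try ring),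
   by (rw [riem_anti1 _ (std_symm p r) 1 3, riem_anti2 _ (std_symm p r) 1 3 2 5, rm1325]; try ring),
   by (rw [riem_anti1 _ (std_symm p r) 1 3, riem_anti2 _ (std_symm p r) 1 3 3 5, rm1335]; try ring),
   by (rw [riem_anti1 _ (std_symm p r) 1 3, riem_anti2 _ (std_symm p r) 1 3 4 5, rm1345]; try ring)⟩

lemma R32 :
  (std p r).riem 3 2 0 1 = -2*p.k4 r ∧ (std p r).riem 3 2 0 2 = 0 ∧ (std p r).riem 3 2 0 3 = 0 ∧
  (std p r).riem 3 2 0 4 = 0 ∧ (std p r).riem 3 2 0 5 = 0 ∧ (std p r).riem 3 2 1 0 = 2*p.k4 r ∧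
  (std p r).riem 3 2 1 2 = 0 ∧ (std p r).riem 3 2 1 3 = 0 ∧ (std p r).riem 3 2 1 4 = 0 ∧ (std p
  r).riem 3 2 1 5 = 0 ∧ (std p r).riem 3 2 2 0 = 0 ∧ (std p r).riem 3 2 2 1 = 0 ∧ (std p r).riem
  3 2 2 3 = -(p.k5 r+3*p.k6 r) ∧ (std p r).riem 3 2 2 4 = 0 ∧ (std p r).riem 3 2 2 5 = 0 ∧ (std
  p r).riem 3 2 3 0 = 0 ∧ (std p r).riem 3 2 3 1 = 0 ∧ (std p r).riem 3 2 3 2 = (p.k5 r+3*p.k6
  r) ∧ (std p r).riem 3 2 3 4 = 0 ∧ (std p r).riem 3 2 3 5 = 0 ∧ (std p r).riem 3 2 4 0 = 0 ∧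
  (std p r).riem 3 2 4 1 = 0 ∧ (std p r).riem 3 2 4 2 = 0 ∧ (std p r).riem 3 2 4 3 = 0 ∧ (std p
  r).riem 3 2 4 5 = -2*p.k6 r ∧ (std p r).riem 3 2 5 0 = 0 ∧ (std p r).riem 3 2 5 1 = 0 ∧ (std p
  r).riem 3 2 5 2 = 0 ∧ (std p r).riem 3 2 5 3 = 0 ∧ (std p r).riem 3 2 5 4 = 2*p.k6 r :=
  ⟨by (rw [riem_anti1 _ (std_symm p r) 2 3, rm2301]; try ring),
   by (rw [riem_anti1 _ (std_symm p r) 2 3, rm2302]; try ring),
   by (rw [riem_anti1 _ (std_symm p r) 2 3, rm2303]; try ring),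
   by (rw [riem_anti1 _ (std_symm p r) 2 3, rm2304]; try ring),
   by (rw [riem_anti1 _ (std_symm p r) 2 3, rm2305]; try ring),
   by (rw [riem_anti1 _ (std_symm p r) 2 3, riem_anti2 _ (std_symm p r) 2 3 0 1, rm2301]; try ring),
   by (rw [riem_anti1 _ (std_symm p r) 2 3, rm2312]; try ring),
   by (rw [riem_anti1 _ (std_symm p r) 2 3, rm2313]; try ring),
   by (rw [riem_anti1 _ (std_symm p r) 2 3, rm2314]; try ring),
   by (rw [riem_anti1 _ (std_symm p r) 2 3, rm2315]; try ring),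
   by (rw [riem_anti1 _ (std_symm p r) 2 3, riem_anti2 _ (std_symm p r) 2 3 0 2, rm2302]; try ring),
   by (rw [riem_anti1 _ (std_symm p r) 2 3, riem_anti2 _ (std_symm p r) 2 3 1 2, rm2312]; try ring),
   by (rw [riem_anti1 _ (std_symm p r) 2 3, rm2323]; try ring),
   by (rw [riem_anti1 _ (std_symm p r) 2 3, rm2324]; try ring),
   by (rw [riem_anti1 _ (std_symm p r) 2 3, rm2325]; try ring),
   by (rw [riem_anti1 _ (std_symm p r) 2 3, riem_anti2 _ (std_symm p r) 2 3 0 3, rm2303]; try ring),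
   by (rw [riem_anti1 _ (std_symm p r) 2 3, riem_anti2 _ (std_symm p r) 2 3 1 3, rm2313]; try ring),
   by (rw [riem_anti1 _ (std_symm p r) 2 3, riem_anti2 _ (std_symm p r) 2 3 2 3, rm2323]; try ring),
   by (rw [riem_anti1 _ (std_symm p r) 2 3, rm2334]; try ring),
   by (rw [riem_anti1 _ (std_symm p r) 2 3, rm2335]; try ring),
   by (rw [riem_anti1 _ (std_symm p r) 2 3, riem_anti2 _ (std_symm p r) 2 3 0 4, rm2304]; try ring),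
   by (rw [riem_anti1 _ (std_symm p r) 2 3, riem_anti2 _ (std_symm p r) 2 3 1 4, rm2314]; try ring),
   by (rw [riem_anti1 _ (std_symm p r) 2 3, riem_anti2 _ (std_symm p r) 2 3 2 4, rm2324]; try ring),
   by (rw [riem_anti1 _ (std_symm p r) 2 3, riem_anti2 _ (std_symm p r) 2 3 3 4, rm2334]; try ring),
   by (rw [riem_anti1 _ (std_symm p r) 2 3, rm2345]; try ring),
   by (rw [riem_anti1 _ (std_symm p r) 2 3, riem_anti2 _ (std_symm p r) 2 3 0 5, rm2305]; try ring),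
   by (rw [riem_anti1 _ (std_symm p r) 2 3, riem_anti2 _ (std_symm p r) 2 3 1 5, rm2315]; try ring),
   by (rw [riem_anti1 _ (std_symm p r) 2 3, riem_anti2 _ (std_symm p r) 2 3 2 5, rm2325]; try ring),
   by (rw [riem_anti1 _ (std_symm p r) 2 3, riem_anti2 _ (std_symm p r) 2 3 3 5, rm2335]; try ring),
   by (rw [riem_anti1 _ (std_symm p r) 2 3, riem_anti2 _ (std_symm p r) 2 3 4 5, rm2345]; try ring)⟩

lemma R34 :
  (std p r).riem 3 4 0 1 = 0 ∧ (std p r).riem 3 4 0 2 = 0 ∧ (std p r).riem 3 4 0 3 = 0 ∧ (std p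
  r).riem 3 4 0 4 = 0 ∧ (std p r).riem 3 4 0 5 = 0 ∧ (std p r).riem 3 4 1 0 = 0 ∧ (std p r).riem
  3 4 1 2 = 0 ∧ (std p r).riem 3 4 1 3 = 0 ∧ (std p r).riem 3 4 1 4 = 0 ∧ (std p r).riem 3 4 1 5
  = 0 ∧ (std p r).riem 3 4 2 0 = 0 ∧ (std p r).riem 3 4 2 1 = 0 ∧ (std p r).riem 3 4 2 3 = 0 ∧
  (std p r).riem 3 4 2 4 = 0 ∧ (std p r).riem 3 4 2 5 = -p.k6 r ∧ (std p r).riem 3 4 3 0 = 0 ∧
  (std p r).riem 3 4 3 1 = 0 ∧ (std p r).riem 3 4 3 2 = 0 ∧ (std p r).riem 3 4 3 4 = p.k5 r ∧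
  (std p r).riem 3 4 3 5 = 0 ∧ (std p r).riem 3 4 4 0 = 0 ∧ (std p r).riem 3 4 4 1 = 0 ∧ (std p
  r).riem 3 4 4 2 = 0 ∧ (std p r).riem 3 4 4 3 = -p.k5 r ∧ (std p r).riem 3 4 4 5 = 0 ∧ (std p
  r).riem 3 4 5 0 = 0 ∧ (std p r).riem 3 4 5 1 = 0 ∧ (std p r).riem 3 4 5 2 = p.k6 r ∧ (std p
  r).riem 3 4 5 3 = 0 ∧ (std p r).riem 3 4 5 4 = 0 :=
  ⟨rm3401 p r,
   rm3402 p r,
   rm3403 p r,
   rm3404 p r,
   rm3405 p r,
   by (rw [riem_anti2 _ (std_symm p r) 3 4 0 1, rm3401]; try ring),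
   rm3412 p r,
   rm3413 p r,
   rm3414 p r,
   rm3415 p r,
   by (rw [riem_anti2 _ (std_symm p r) 3 4 0 2, rm3402]; try ring),
   by (rw [riem_anti2 _ (std_symm p r) 3 4 1 2, rm3412]; try ring),
   rm3423 p r,
   rm3424 p r,
   rm3425 p r,
   by (rw [riem_anti2 _ (std_symm p r) 3 4 0 3, rm3403]; try ring),
   by (rw [riem_anti2 _ (std_symm p r) 3 4 1 3, rm3413]; try ring),
   by (rw [riem_anti2 _ (std_symm p r) 3 4 2 3, rm3423]; try ring),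
   rm3434 p r,
   rm3435 p r,
   by (rw [riem_anti2 _ (std_symm p r) 3 4 0 4, rm3404]; try ring),
   by (rw [riem_anti2 _ (std_symm p r) 3 4 1 4, rm3414]; try ring),
   by (rw [riem_anti2 _ (std_symm p r) 3 4 2 4, rm3424]; try ring),
   by (rw [riem_anti2 _ (std_symm p r) 3 4 3 4, rm3434]; try ring),
   rm3445 p r,
   by (rw [riem_anti2 _ (std_symm p r) 3 4 0 5, rm3405]; try ring),
   by (rw [riem_anti2 _ (std_symm p r) 3 4 1 5, rm3415]; try ring),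
   by (rw [riem_anti2 _ (std_symm p r) 3 4 2 5, rm3425]; try ring),
   by (rw [riem_anti2 _ (std_symm p r) 3 4 3 5, rm3435]; try ring),
   by (rw [riem_anti2 _ (std_symm p r) 3 4 4 5, rm3445]; try ring)⟩

lemma R35 :
  (std p r).riem 3 5 0 1 = 0 ∧ (std p r).riem 3 5 0 2 = 0 ∧ (std p r).riem 3 5 0 3 = 0 ∧ (std p
  r).riem 3 5 0 4 = 0 ∧ (std p r).riem 3 5 0 5 = 0 ∧ (std p r).riem 3 5 1 0 = 0 ∧ (std p r).riem
  3 5 1 2 = 0 ∧ (std p r).riem 3 5 1 3 = 0 ∧ (std p r).riem 3 5 1 4 = 0 ∧ (std p r).riem 3 5 1 5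
  = 0 ∧ (std p r).riem 3 5 2 0 = 0 ∧ (std p r).riem 3 5 2 1 = 0 ∧ (std p r).riem 3 5 2 3 = 0 ∧
  (std p r).riem 3 5 2 4 = p.k6 r ∧ (std p r).riem 3 5 2 5 = 0 ∧ (std p r).riem 3 5 3 0 = 0 ∧
  (std p r).riem 3 5 3 1 = 0 ∧ (std p r).riem 3 5 3 2 = 0 ∧ (std p r).riem 3 5 3 4 = 0 ∧ (std p
  r).riem 3 5 3 5 = p.k5 r ∧ (std p r).riem 3 5 4 0 = 0 ∧ (std p r).riem 3 5 4 1 = 0 ∧ (std p
  r).riem 3 5 4 2 = -p.k6 r ∧ (std p r).riem 3 5 4 3 = 0 ∧ (std p r).riem 3 5 4 5 = 0 ∧ (std p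
  r).riem 3 5 5 0 = 0 ∧ (std p r).riem 3 5 5 1 = 0 ∧ (std p r).riem 3 5 5 2 = 0 ∧ (std p r).riem
  3 5 5 3 = -p.k5 r ∧ (std p r).riem 3 5 5 4 = 0 :=
  ⟨rm3501 p r,
   rm3502 p r,
   rm3503 p r,
   rm3504 p r,
   rm3505 p r,
   by (rw [riem_anti2 _ (std_symm p r) 3 5 0 1, rm3501]; try ring),
   rm3512 p r,
   rm3513 p r,
   rm3514 p r,
   rm3515 p r,
   by (rw [riem_anti2 _ (std_symm p r) 3 5 0 2, rm3502]; try ring),
   by (rw [riem_anti2 _ (std_symm p r) 3 5 1 2, rm3512]; try ring),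
   rm3523 p r,
   rm3524 p r,
   rm3525 p r,
   by (rw [riem_anti2 _ (std_symm p r) 3 5 0 3, rm3503]; try ring),
   by (rw [riem_anti2 _ (std_symm p r) 3 5 1 3, rm3513]; try ring),
   by (rw [riem_anti2 _ (std_symm p r) 3 5 2 3, rm3523]; try ring),
   rm3534 p r,
   rm3535 p r,
   by (rw [riem_anti2 _ (std_symm p r) 3 5 0 4, rm3504]; try ring),
   by (rw [riem_anti2 _ (std_symm p r) 3 5 1 4, rm3514]; try ring),
   by (rw [riem_anti2 _ (std_symm p r) 3 5 2 4, rm3524]; try ring),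
   by (rw [riem_anti2 _ (std_symm p r) 3 5 3 4, rm3534]; try ring),
   rm3545 p r,
   by (rw [riem_anti2 _ (std_symm p r) 3 5 0 5, rm3505]; try ring),
   by (rw [riem_anti2 _ (std_symm p r) 3 5 1 5, rm3515]; try ring),
   by (rw [riem_anti2 _ (std_symm p r) 3 5 2 5, rm3525]; try ring),
   by (rw [riem_anti2 _ (std_symm p r) 3 5 3 5, rm3535]; try ring),
   by (rw [riem_anti2 _ (std_symm p r) 3 5 4 5, rm3545]; try ring)⟩

lemma R40 :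
  (std p r).riem 4 0 0 1 = 0 ∧ (std p r).riem 4 0 0 2 = 0 ∧ (std p r).riem 4 0 0 3 = 0 ∧ (std p
  r).riem 4 0 0 4 = -p.k2 r ∧ (std p r).riem 4 0 0 5 = 0 ∧ (std p r).riem 4 0 1 0 = 0 ∧ (std p
  r).riem 4 0 1 2 = 0 ∧ (std p r).riem 4 0 1 3 = 0 ∧ (std p r).riem 4 0 1 4 = 0 ∧ (std p r).riem
  4 0 1 5 = -p.k4 r ∧ (std p r).riem 4 0 2 0 = 0 ∧ (std p r).riem 4 0 2 1 = 0 ∧ (std p r).riem 4
  0 2 3 = 0 ∧ (std p r).riem 4 0 2 4 = 0 ∧ (std p r).riem 4 0 2 5 = 0 ∧ (std p r).riem 4 0 3 0 =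
  0 ∧ (std p r).riem 4 0 3 1 = 0 ∧ (std p r).riem 4 0 3 2 = 0 ∧ (std p r).riem 4 0 3 4 = 0 ∧
  (std p r).riem 4 0 3 5 = 0 ∧ (std p r).riem 4 0 4 0 = p.k2 r ∧ (std p r).riem 4 0 4 1 = 0 ∧
  (std p r).riem 4 0 4 2 = 0 ∧ (std p r).riem 4 0 4 3 = 0 ∧ (std p r).riem 4 0 4 5 = 0 ∧ (std p
  r).riem 4 0 5 0 = 0 ∧ (std p r).riem 4 0 5 1 = p.k4 r ∧ (std p r).riem 4 0 5 2 = 0 ∧ (std p
  r).riem 4 0 5 3 = 0 ∧ (std p r).riem 4 0 5 4 = 0 :=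
  ⟨by (rw [riem_anti1 _ (std_symm p r) 0 4, rm0401]; try ring),
   by (rw [riem_anti1 _ (std_symm p r) 0 4, rm0402]; try ring),
   by (rw [riem_anti1 _ (std_symm p r) 0 4, rm0403]; try ring),
   by (rw [riem_anti1 _ (std_symm p r) 0 4, rm0404]; try ring),
   by (rw [riem_anti1 _ (std_symm p r) 0 4, rm0405]; try ring),
   by (rw [riem_anti1 _ (std_symm p r) 0 4, riem_anti2 _ (std_symm p r) 0 4 0 1, rm0401]; try ring),
   by (rw [riem_anti1 _ (std_symm p r) 0 4, rm0412]; try ring),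
   by (rw [riem_anti1 _ (std_symm p r) 0 4, rm0413]; try ring),
   by (rw [riem_anti1 _ (std_symm p r) 0 4, rm0414]; try ring),
   by (rw [riem_anti1 _ (std_symm p r) 0 4, rm0415]; try ring),
   by (rw [riem_anti1 _ (std_symm p r) 0 4, riem_anti2 _ (std_symm p r) 0 4 0 2, rm0402]; try ring),
   by (rw [riem_anti1 _ (std_symm p r) 0 4, riem_anti2 _ (std_symm p r) 0 4 1 2, rm0412]; try ring),
   by (rw [riem_anti1 _ (std_symm p r) 0 4, rm0423]; try ring),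
   by (rw [riem_anti1 _ (std_symm p r) 0 4, rm0424]; try ring),
   by (rw [riem_anti1 _ (std_symm p r) 0 4, rm0425]; try ring),
   by (rw [riem_anti1 _ (std_symm p r) 0 4, riem_anti2 _ (std_symm p r) 0 4 0 3, rm0403]; try ring),
   by (rw [riem_anti1 _ (std_symm p r) 0 4, riem_anti2 _ (std_symm p r) 0 4 1 3, rm0413]; try ring),
   by (rw [riem_anti1 _ (std_symm p r) 0 4, riem_anti2 _ (std_symm p r) 0 4 2 3, rm0423]; try ring),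
   by (rw [riem_anti1 _ (std_symm p r) 0 4, rm0434]; try ring),
   by (rw [riem_anti1 _ (std_symm p r) 0 4, rm0435]; try ring),
   by (rw [riem_anti1 _ (std_symm p r) 0 4, riem_anti2 _ (std_symm p r) 0 4 0 4, rm0404]; try ring),
   by (rw [riem_anti1 _ (std_symm p r) 0 4, riem_anti2 _ (std_symm p r) 0 4 1 4, rm0414]; try ring),
   by (rw [riem_anti1 _ (std_symm p r) 0 4, riem_anti2 _ (std_symm p r) 0 4 2 4, rm0424]; try ring),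
   by (rw [riem_anti1 _ (std_symm p r) 0 4, riem_anti2 _ (std_symm p r) 0 4 3 4, rm0434]; try ring),
   by (rw [riem_anti1 _ (std_symm p r) 0 4, rm0445]; try ring),
   by (rw [riem_anti1 _ (std_symm p r) 0 4, riem_anti2 _ (std_symm p r) 0 4 0 5, rm0405]; try ring),
   by (rw [riem_anti1 _ (std_symm p r) 0 4, riem_anti2 _ (std_symm p r) 0 4 1 5, rm0415]; try ring),
   by (rw [riem_anti1 _ (std_symm p r) 0 4, riem_anti2 _ (std_symm p r) 0 4 2 5, rm0425]; try ring),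
   by (rw [riem_anti1 _ (std_symm p r) 0 4, riem_anti2 _ (std_symm p r) 0 4 3 5, rm0435]; try ring),
   by (rw [riem_anti1 _ (std_symm p r) 0 4, riem_anti2 _ (std_symm p r) 0 4 4 5, rm0445]; try ring)⟩

lemma R41 :
  (std p r).riem 4 1 0 1 = 0 ∧ (std p r).riem 4 1 0 2 = 0 ∧ (std p r).riem 4 1 0 3 = 0 ∧ (std p
  r).riem 4 1 0 4 = 0 ∧ (std p r).riem 4 1 0 5 = p.k4 r ∧ (std p r).riem 4 1 1 0 = 0 ∧ (std p
  r).riem 4 1 1 2 = 0 ∧ (std p r).riem 4 1 1 3 = 0 ∧ (std p r).riem 4 1 1 4 = -p.k3 r ∧ (std p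
  r).riem 4 1 1 5 = 0 ∧ (std p r).riem 4 1 2 0 = 0 ∧ (std p r).riem 4 1 2 1 = 0 ∧ (std p r).riem
  4 1 2 3 = 0 ∧ (std p r).riem 4 1 2 4 = 0 ∧ (std p r).riem 4 1 2 5 = 0 ∧ (std p r).riem 4 1 3 0
  = 0 ∧ (std p r).riem 4 1 3 1 = 0 ∧ (std p r).riem 4 1 3 2 = 0 ∧ (std p r).riem 4 1 3 4 = 0 ∧
  (std p r).riem 4 1 3 5 = 0 ∧ (std p r).riem 4 1 4 0 = 0 ∧ (std p r).riem 4 1 4 1 = p.k3 r ∧
  (std p r).riem 4 1 4 2 = 0 ∧ (std p r).riem 4 1 4 3 = 0 ∧ (std p r).riem 4 1 4 5 = 0 ∧ (std p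
  r).riem 4 1 5 0 = -p.k4 r ∧ (std p r).riem 4 1 5 1 = 0 ∧ (std p r).riem 4 1 5 2 = 0 ∧ (std p
  r).riem 4 1 5 3 = 0 ∧ (std p r).riem 4 1 5 4 = 0 :=
  ⟨by (rw [riem_anti1 _ (std_symm p r) 1 4, rm1401]; try ring),
   by (rw [riem_anti1 _ (std_symm p r) 1 4, rm1402]; try ring),
   by (rw [riem_anti1 _ (std_symm p r) 1 4, rm1403]; try ring),
   by (rw [riem_anti1 _ (std_symm p r) 1 4, rm1404]; try ring),
   by (rw [riem_anti1 _ (std_symm p r) 1 4, rm1405]; try ring),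
   by (rw [riem_anti1 _ (std_symm p r) 1 4, riem_anti2 _ (std_symm p r) 1 4 0 1, rm1401]; try ring),
   by (rw [riem_anti1 _ (std_symm p r) 1 4, rm1412]; try ring),
   by (rw [riem_anti1 _ (std_symm p r) 1 4, rm1413]; try ring),
   by (rw [riem_anti1 _ (std_symm p r) 1 4, rm1414]; try ring),
   by (rw [riem_anti1 _ (std_symm p r) 1 4, rm1415]; try ring),
   by (rw [riem_anti1 _ (std_symm p r) 1 4, riem_anti2 _ (std_symm p r) 1 4 0 2, rm1402]; try ring),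
   by (rw [riem_anti1 _ (std_symm p r) 1 4, riem_anti2 _ (std_symm p r) 1 4 1 2, rm1412]; try ring),
   by (rw [riem_anti1 _ (std_symm p r) 1 4, rm1423]; try ring),
   by (rw [riem_anti1 _ (std_symm p r) 1 4, rm1424]; try ring),
   by (rw [riem_anti1 _ (std_symm p r) 1 4, rm1425]; try ring),
   by (rw [riem_anti1 _ (std_symm p r) 1 4, riem_anti2 _ (std_symm p r) 1 4 0 3, rm1403]; try ring),
   by (rw [riem_anti1 _ (std_symm p r) 1 4, riem_anti2 _ (std_symm p r) 1 4 1 3, rm1413]; try ring),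
   by (rw [riem_anti1 _ (std_symm p r) 1 4, riem_anti2 _ (std_symm p r) 1 4 2 3, rm1423]; try ring),
   by (rw [riem_anti1 _ (std_symm p r) 1 4, rm1434]; try ring),
   by (rw [riem_anti1 _ (std_symm p r) 1 4, rm1435]; try ring),
   by (rw [riem_anti1 _ (std_symm p r) 1 4, riem_anti2 _ (std_symm p r) 1 4 0 4, rm1404]; try ring),
   by (rw [riem_anti1 _ (std_symm p r) 1 4, riem_anti2 _ (std_symm p r) 1 4 1 4, rm1414]; try ring),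
   by (rw [riem_anti1 _ (std_symm p r) 1 4, riem_anti2 _ (std_symm p r) 1 4 2 4, rm1424]; try ring),
   by (rw [riem_anti1 _ (std_symm p r) 1 4, riem_anti2 _ (std_symm p r) 1 4 3 4, rm1434]; try ring),
   by (rw [riem_anti1 _ (std_symm p r) 1 4, rm1445]; try ring),
   by (rw [riem_anti1 _ (std_symm p r) 1 4, riem_anti2 _ (std_symm p r) 1 4 0 5, rm1405]; try ring),
   by (rw [riem_anti1 _ (std_symm p r) 1 4, riem_anti2 _ (std_symm p r) 1 4 1 5, rm1415]; try ring),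
   by (rw [riem_anti1 _ (std_symm p r) 1 4, riem_anti2 _ (std_symm p r) 1 4 2 5, rm1425]; try ring),
   by (rw [riem_anti1 _ (std_symm p r) 1 4, riem_anti2 _ (std_symm p r) 1 4 3 5, rm1435]; try ring),
   by (rw [riem_anti1 _ (std_symm p r) 1 4, riem_anti2 _ (std_symm p r) 1 4 4 5, rm1445]; try ring)⟩

lemma R42 :
  (std p r).riem 4 2 0 1 = 0 ∧ (std p r).riem 4 2 0 2 = 0 ∧ (std p r).riem 4 2 0 3 = 0 ∧ (std p
  r).riem 4 2 0 4 = 0 ∧ (std p r).riem 4 2 0 5 = 0 ∧ (std p r).riem 4 2 1 0 = 0 ∧ (std p r).riem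
  4 2 1 2 = 0 ∧ (std p r).riem 4 2 1 3 = 0 ∧ (std p r).riem 4 2 1 4 = 0 ∧ (std p r).riem 4 2 1 5
  = 0 ∧ (std p r).riem 4 2 2 0 = 0 ∧ (std p r).riem 4 2 2 1 = 0 ∧ (std p r).riem 4 2 2 3 = 0 ∧
  (std p r).riem 4 2 2 4 = -p.k5 r ∧ (std p r).riem 4 2 2 5 = 0 ∧ (std p r).riem 4 2 3 0 = 0 ∧
  (std p r).riem 4 2 3 1 = 0 ∧ (std p r).riem 4 2 3 2 = 0 ∧ (std p r).riem 4 2 3 4 = 0 ∧ (std p
  r).riem 4 2 3 5 = -p.k6 r ∧ (std p r).riem 4 2 4 0 = 0 ∧ (std p r).riem 4 2 4 1 = 0 ∧ (std p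
  r).riem 4 2 4 2 = p.k5 r ∧ (std p r).riem 4 2 4 3 = 0 ∧ (std p r).riem 4 2 4 5 = 0 ∧ (std p
  r).riem 4 2 5 0 = 0 ∧ (std p r).riem 4 2 5 1 = 0 ∧ (std p r).riem 4 2 5 2 = 0 ∧ (std p r).riem
  4 2 5 3 = p.k6 r ∧ (std p r).riem 4 2 5 4 = 0 :=
  ⟨by (rw [riem_anti1 _ (std_symm p r) 2 4, rm2401]; try ring),
   by (rw [riem_anti1 _ (std_symm p r) 2 4, rm2402]; try ring),
   by (rw [riem_anti1 _ (std_symm p r) 2 4, rm2403]; try ring),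
   by (rw [riem_anti1 _ (std_symm p r) 2 4, rm2404]; try ring),
   by (rw [riem_anti1 _ (std_symm p r) 2 4, rm2405]; try ring),
   by (rw [riem_anti1 _ (std_symm p r) 2 4, riem_anti2 _ (std_symm p r) 2 4 0 1, rm2401]; try ring),
   by (rw [riem_anti1 _ (std_symm p r) 2 4, rm2412]; try ring),
   by (rw [riem_anti1 _ (std_symm p r) 2 4, rm2413]; try ring),
   by (rw [riem_anti1 _ (std_symm p r) 2 4, rm2414]; try ring),
   by (rw [riem_anti1 _ (std_symm p r) 2 4, rm2415]; try ring),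
   by (rw [riem_anti1 _ (std_symm p r) 2 4, riem_anti2 _ (std_symm p r) 2 4 0 2, rm2402]; try ring),
   by (rw [riem_anti1 _ (std_symm p r) 2 4, riem_anti2 _ (std_symm p r) 2 4 1 2, rm2412]; try ring),
   by (rw [riem_anti1 _ (std_symm p r) 2 4, rm2423]; try ring),
   by (rw [riem_anti1 _ (std_symm p r) 2 4, rm2424]; try ring),
   by (rw [riem_anti1 _ (std_symm p r) 2 4, rm2425]; try ring),
   by (rw [riem_anti1 _ (std_symm p r) 2 4, riem_anti2 _ (std_symm p r) 2 4 0 3, rm2403]; try ring),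
   by (rw [riem_anti1 _ (std_symm p r) 2 4, riem_anti2 _ (std_symm p r) 2 4 1 3, rm2413]; try ring),
   by (rw [riem_anti1 _ (std_symm p r) 2 4, riem_anti2 _ (std_symm p r) 2 4 2 3, rm2423]; try ring),
   by (rw [riem_anti1 _ (std_symm p r) 2 4, rm2434]; try ring),
   by (rw [riem_anti1 _ (std_symm p r) 2 4, rm2435]; try ring),
   by (rw [riem_anti1 _ (std_symm p r) 2 4, riem_anti2 _ (std_symm p r) 2 4 0 4, rm2404]; try ring),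
   by (rw [riem_anti1 _ (std_symm p r) 2 4, riem_anti2 _ (std_symm p r) 2 4 1 4, rm2414]; try ring),
   by (rw [riem_anti1 _ (std_symm p r) 2 4, riem_anti2 _ (std_symm p r) 2 4 2 4, rm2424]; try ring),
   by (rw [riem_anti1 _ (std_symm p r) 2 4, riem_anti2 _ (std_symm p r) 2 4 3 4, rm2434]; try ring),
   by (rw [riem_anti1 _ (std_symm p r) 2 4, rm2445]; try ring),
   by (rw [riem_anti1 _ (std_symm p r) 2 4, riem_anti2 _ (std_symm p r) 2 4 0 5, rm2405]; try ring),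
   by (rw [riem_anti1 _ (std_symm p r) 2 4, riem_anti2 _ (std_symm p r) 2 4 1 5, rm2415]; try ring),
   by (rw [riem_anti1 _ (std_symm p r) 2 4, riem_anti2 _ (std_symm p r) 2 4 2 5, rm2425]; try ring),
   by (rw [riem_anti1 _ (std_symm p r) 2 4, riem_anti2 _ (std_symm p r) 2 4 3 5, rm2435]; try ring),
   by (rw [riem_anti1 _ (std_symm p r) 2 4, riem_anti2 _ (std_symm p r) 2 4 4 5, rm2445]; try ring)⟩

lemma R43 :
  (std p r).riem 4 3 0 1 = 0 ∧ (std p r).riem 4 3 0 2 = 0 ∧ (std p r).riem 4 3 0 3 = 0 ∧ (std p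
  r).riem 4 3 0 4 = 0 ∧ (std p r).riem 4 3 0 5 = 0 ∧ (std p r).riem 4 3 1 0 = 0 ∧ (std p r).riem
  4 3 1 2 = 0 ∧ (std p r).riem 4 3 1 3 = 0 ∧ (std p r).riem 4 3 1 4 = 0 ∧ (std p r).riem 4 3 1 5
  = 0 ∧ (std p r).riem 4 3 2 0 = 0 ∧ (std p r).riem 4 3 2 1 = 0 ∧ (std p r).riem 4 3 2 3 = 0 ∧
  (std p r).riem 4 3 2 4 = 0 ∧ (std p r).riem 4 3 2 5 = p.k6 r ∧ (std p r).riem 4 3 3 0 = 0 ∧
  (std p r).riem 4 3 3 1 = 0 ∧ (std p r).riem 4 3 3 2 = 0 ∧ (std p r).riem 4 3 3 4 = -p.k5 r ∧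
  (std p r).riem 4 3 3 5 = 0 ∧ (std p r).riem 4 3 4 0 = 0 ∧ (std p r).riem 4 3 4 1 = 0 ∧ (std p
  r).riem 4 3 4 2 = 0 ∧ (std p r).riem 4 3 4 3 = p.k5 r ∧ (std p r).riem 4 3 4 5 = 0 ∧ (std p
  r).riem 4 3 5 0 = 0 ∧ (std p r).riem 4 3 5 1 = 0 ∧ (std p r).riem 4 3 5 2 = -p.k6 r ∧ (std p
  r).riem 4 3 5 3 = 0 ∧ (std p r).riem 4 3 5 4 = 0 :=
  ⟨by (rw [riem_anti1 _ (std_symm p r) 3 4, rm3401]; try ring),
   by (rw [riem_anti1 _ (std_symm p r) 3 4, rm3402]; try ring),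
   by (rw [riem_anti1 _ (std_symm p r) 3 4, rm3403]; try ring),
   by (rw [riem_anti1 _ (std_symm p r) 3 4, rm3404]; try ring),
   by (rw [riem_anti1 _ (std_symm p r) 3 4, rm3405]; try ring),
   by (rw [riem_anti1 _ (std_symm p r) 3 4, riem_anti2 _ (std_symm p r) 3 4 0 1, rm3401]; try ring),
   by (rw [riem_anti1 _ (std_symm p r) 3 4, rm3412]; try ring),
   by (rw [riem_anti1 _ (std_symm p r) 3 4, rm3413]; try ring),
   by (rw [riem_anti1 _ (std_symm p r) 3 4, rm3414]; try ring),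
   by (rw [riem_anti1 _ (std_symm p r) 3 4, rm3415]; try ring),
   by (rw [riem_anti1 _ (std_symm p r) 3 4, riem_anti2 _ (std_symm p r) 3 4 0 2, rm3402]; try ring),
   by (rw [riem_anti1 _ (std_symm p r) 3 4, riem_anti2 _ (std_symm p r) 3 4 1 2, rm3412]; try ring),
   by (rw [riem_anti1 _ (std_symm p r) 3 4, rm3423]; try ring),
   by (rw [riem_anti1 _ (std_symm p r) 3 4, rm3424]; try ring),
   by (rw [riem_anti1 _ (std_symm p r) 3 4, rm3425]; try ring),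
   by (rw [riem_anti1 _ (std_symm p r) 3 4, riem_anti2 _ (std_symm p r) 3 4 0 3, rm3403]; try ring),
   by (rw [riem_anti1 _ (std_symm p r) 3 4, riem_anti2 _ (std_symm p r) 3 4 1 3, rm3413]; try ring),
   by (rw [riem_anti1 _ (std_symm p r) 3 4, riem_anti2 _ (std_symm p r) 3 4 2 3, rm3423]; try ring),
   by (rw [riem_anti1 _ (std_symm p r) 3 4, rm3434]; try ring),
   by (rw [riem_anti1 _ (std_symm p r) 3 4, rm3435]; try ring),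
   by (rw [riem_anti1 _ (std_symm p r) 3 4, riem_anti2 _ (std_symm p r) 3 4 0 4, rm3404]; try ring),
   by (rw [riem_anti1 _ (std_symm p r) 3 4, riem_anti2 _ (std_symm p r) 3 4 1 4, rm3414]; try ring),
   by (rw [riem_anti1 _ (std_symm p r) 3 4, riem_anti2 _ (std_symm p r) 3 4 2 4, rm3424]; try ring),
   by (rw [riem_anti1 _ (std_symm p r) 3 4, riem_anti2 _ (std_symm p r) 3 4 3 4, rm3434]; try ring),
   by (rw [riem_anti1 _ (std_symm p r) 3 4, rm3445]; try ring),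
   by (rw [riem_anti1 _ (std_symm p r) 3 4, riem_anti2 _ (std_symm p r) 3 4 0 5, rm3405]; try ring),
   by (rw [riem_anti1 _ (std_symm p r) 3 4, riem_anti2 _ (std_symm p r) 3 4 1 5, rm3415]; try ring),
   by (rw [riem_anti1 _ (std_symm p r) 3 4, riem_anti2 _ (std_symm p r) 3 4 2 5, rm3425]; try ring),
   by (rw [riem_anti1 _ (std_symm p r) 3 4, riem_anti2 _ (std_symm p r) 3 4 3 5, rm3435]; try ring),
   by (rw [riem_anti1 _ (std_symm p r) 3 4, riem_anti2 _ (std_symm p r) 3 4 4 5, rm3445]; try ring)⟩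

lemma R45 :
  (std p r).riem 4 5 0 1 = 2*p.k4 r ∧ (std p r).riem 4 5 0 2 = 0 ∧ (std p r).riem 4 5 0 3 = 0 ∧
  (std p r).riem 4 5 0 4 = 0 ∧ (std p r).riem 4 5 0 5 = 0 ∧ (std p r).riem 4 5 1 0 = -2*p.k4 r ∧
  (std p r).riem 4 5 1 2 = 0 ∧ (std p r).riem 4 5 1 3 = 0 ∧ (std p r).riem 4 5 1 4 = 0 ∧ (std p
  r).riem 4 5 1 5 = 0 ∧ (std p r).riem 4 5 2 0 = 0 ∧ (std p r).riem 4 5 2 1 = 0 ∧ (std p r).riem
  4 5 2 3 = 2*p.k6 r ∧ (std p r).riem 4 5 2 4 = 0 ∧ (std p r).riem 4 5 2 5 = 0 ∧ (std p r).riem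
  4 5 3 0 = 0 ∧ (std p r).riem 4 5 3 1 = 0 ∧ (std p r).riem 4 5 3 2 = -2*p.k6 r ∧ (std p r).riem
  4 5 3 4 = 0 ∧ (std p r).riem 4 5 3 5 = 0 ∧ (std p r).riem 4 5 4 0 = 0 ∧ (std p r).riem 4 5 4 1
  = 0 ∧ (std p r).riem 4 5 4 2 = 0 ∧ (std p r).riem 4 5 4 3 = 0 ∧ (std p r).riem 4 5 4 5 = (p.k5
  r+3*p.k6 r) ∧ (std p r).riem 4 5 5 0 = 0 ∧ (std p r).riem 4 5 5 1 = 0 ∧ (std p r).riem 4 5 5 2
  = 0 ∧ (std p r).riem 4 5 5 3 = 0 ∧ (std p r).riem 4 5 5 4 = -(p.k5 r+3*p.k6 r) :=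
  ⟨rm4501 p r,
   rm4502 p r,
   rm4503 p r,
   rm4504 p r,
   rm4505 p r,
   by (rw [riem_anti2 _ (std_symm p r) 4 5 0 1, rm4501]; try ring),
   rm4512 p r,
   rm4513 p r,
   rm4514 p r,
   rm4515 p r,
   by (rw [riem_anti2 _ (std_symm p r) 4 5 0 2, rm4502]; try ring),
   by (rw [riem_anti2 _ (std_symm p r) 4 5 1 2, rm4512]; try ring),
   rm4523 p r,
   rm4524 p r,
   rm4525 p r,
   by (rw [riem_anti2 _ (std_symm p r) 4 5 0 3, rm4503]; try ring),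
   by (rw [riem_anti2 _ (std_symm p r) 4 5 1 3, rm4513]; try ring),
   by (rw [riem_anti2 _ (std_symm p r) 4 5 2 3, rm4523]; try ring),
   rm4534 p r,
   rm4535 p r,
   by (rw [riem_anti2 _ (std_symm p r) 4 5 0 4, rm4504]; try ring),
   by (rw [riem_anti2 _ (std_symm p r) 4 5 1 4, rm4514]; try ring),
   by (rw [riem_anti2 _ (std_symm p r) 4 5 2 4, rm4524]; try ring),
   by (rw [riem_anti2 _ (std_symm p r) 4 5 3 4, rm4534]; try ring),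
   rm4545 p r,
   by (rw [riem_anti2 _ (std_symm p r) 4 5 0 5, rm4505]; try ring),
   by (rw [riem_anti2 _ (std_symm p r) 4 5 1 5, rm4515]; try ring),
   by (rw [riem_anti2 _ (std_symm p r) 4 5 2 5, rm4525]; try ring),
   by (rw [riem_anti2 _ (std_symm p r) 4 5 3 5, rm4535]; try ring),
   by (rw [riem_anti2 _ (std_symm p r) 4 5 4 5, rm4545]; try ring)⟩

lemma R50 :
  (std p r).riem 5 0 0 1 = 0 ∧ (std p r).riem 5 0 0 2 = 0 ∧ (std p r).riem 5 0 0 3 = 0 ∧ (std p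
  r).riem 5 0 0 4 = 0 ∧ (std p r).riem 5 0 0 5 = -p.k2 r ∧ (std p r).riem 5 0 1 0 = 0 ∧ (std p
  r).riem 5 0 1 2 = 0 ∧ (std p r).riem 5 0 1 3 = 0 ∧ (std p r).riem 5 0 1 4 = p.k4 r ∧ (std p
  r).riem 5 0 1 5 = 0 ∧ (std p r).riem 5 0 2 0 = 0 ∧ (std p r).riem 5 0 2 1 = 0 ∧ (std p r).riem
  5 0 2 3 = 0 ∧ (std p r).riem 5 0 2 4 = 0 ∧ (std p r).riem 5 0 2 5 = 0 ∧ (std p r).riem 5 0 3 0
  = 0 ∧ (std p r).riem 5 0 3 1 = 0 ∧ (std p r).riem 5 0 3 2 = 0 ∧ (std p r).riem 5 0 3 4 = 0 ∧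
  (std p r).riem 5 0 3 5 = 0 ∧ (std p r).riem 5 0 4 0 = 0 ∧ (std p r).riem 5 0 4 1 = -p.k4 r ∧
  (std p r).riem 5 0 4 2 = 0 ∧ (std p r).riem 5 0 4 3 = 0 ∧ (std p r).riem 5 0 4 5 = 0 ∧ (std p
  r).riem 5 0 5 0 = p.k2 r ∧ (std p r).riem 5 0 5 1 = 0 ∧ (std p r).riem 5 0 5 2 = 0 ∧ (std p
  r).riem 5 0 5 3 = 0 ∧ (std p r).riem 5 0 5 4 = 0 :=
  ⟨by (rw [riem_anti1 _ (std_symm p r) 0 5, rm0501]; try ring),
   by (rw [riem_anti1 _ (std_symm p r) 0 5, rm0502]; try ring),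
   by (rw [riem_anti1 _ (std_symm p r) 0 5, rm0503]; try ring),
   by (rw [riem_anti1 _ (std_symm p r) 0 5, rm0504]; try ring),
   by (rw [riem_anti1 _ (std_symm p r) 0 5, rm0505]; try ring),
   by (rw [riem_anti1 _ (std_symm p r) 0 5, riem_anti2 _ (std_symm p r) 0 5 0 1, rm0501]; try ring),
   by (rw [riem_anti1 _ (std_symm p r) 0 5, rm0512]; try ring),
   by (rw [riem_anti1 _ (std_symm p r) 0 5, rm0513]; try ring),
   by (rw [riem_anti1 _ (std_symm p r) 0 5, rm0514]; try ring),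
   by (rw [riem_anti1 _ (std_symm p r) 0 5, rm0515]; try ring),
   by (rw [riem_anti1 _ (std_symm p r) 0 5, riem_anti2 _ (std_symm p r) 0 5 0 2, rm0502]; try ring),
   by (rw [riem_anti1 _ (std_symm p r) 0 5, riem_anti2 _ (std_symm p r) 0 5 1 2, rm0512]; try ring),
   by (rw [riem_anti1 _ (std_symm p r) 0 5, rm0523]; try ring),
   by (rw [riem_anti1 _ (std_symm p r) 0 5, rm0524]; try ring),
   by (rw [riem_anti1 _ (std_symm p r) 0 5, rm0525]; try ring),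
   by (rw [riem_anti1 _ (std_symm p r) 0 5, riem_anti2 _ (std_symm p r) 0 5 0 3, rm0503]; try ring),
   by (rw [riem_anti1 _ (std_symm p r) 0 5, riem_anti2 _ (std_symm p r) 0 5 1 3, rm0513]; try ring),
   by (rw [riem_anti1 _ (std_symm p r) 0 5, riem_anti2 _ (std_symm p r) 0 5 2 3, rm0523]; try ring),
   by (rw [riem_anti1 _ (std_symm p r) 0 5, rm0534]; try ring),
   by (rw [riem_anti1 _ (std_symm p r) 0 5, rm0535]; try ring),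
   by (rw [riem_anti1 _ (std_symm p r) 0 5, riem_anti2 _ (std_symm p r) 0 5 0 4, rm0504]; try ring),
   by (rw [riem_anti1 _ (std_symm p r) 0 5, riem_anti2 _ (std_symm p r) 0 5 1 4, rm0514]; try ring),
   by (rw [riem_anti1 _ (std_symm p r) 0 5, riem_anti2 _ (std_symm p r) 0 5 2 4, rm0524]; try ring),
   by (rw [riem_anti1 _ (std_symm p r) 0 5, riem_anti2 _ (std_symm p r) 0 5 3 4, rm0534]; try ring),
   by (rw [riem_anti1 _ (std_symm p r) 0 5, rm0545]; try ring),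
   by (rw [riem_anti1 _ (std_symm p r) 0 5, riem_anti2 _ (std_symm p r) 0 5 0 5, rm0505]; try ring),
   by (rw [riem_anti1 _ (std_symm p r) 0 5, riem_anti2 _ (std_symm p r) 0 5 1 5, rm0515]; try ring),
   by (rw [riem_anti1 _ (std_symm p r) 0 5, riem_anti2 _ (std_symm p r) 0 5 2 5, rm0525]; try ring),
   by (rw [riem_anti1 _ (std_symm p r) 0 5, riem_anti2 _ (std_symm p r) 0 5 3 5, rm0535]; try ring),
   by (rw [riem_anti1 _ (std_symm p r) 0 5, riem_anti2 _ (std_symm p r) 0 5 4 5, rm0545]; try ring)⟩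

lemma R51 :
  (std p r).riem 5 1 0 1 = 0 ∧ (std p r).riem 5 1 0 2 = 0 ∧ (std p r).riem 5 1 0 3 = 0 ∧ (std p
  r).riem 5 1 0 4 = -p.k4 r ∧ (std p r).riem 5 1 0 5 = 0 ∧ (std p r).riem 5 1 1 0 = 0 ∧ (std p
  r).riem 5 1 1 2 = 0 ∧ (std p r).riem 5 1 1 3 = 0 ∧ (std p r).riem 5 1 1 4 = 0 ∧ (std p r).riem
  5 1 1 5 = -p.k3 r ∧ (std p r).riem 5 1 2 0 = 0 ∧ (std p r).riem 5 1 2 1 = 0 ∧ (std p r).riem 5
  1 2 3 = 0 ∧ (std p r).riem 5 1 2 4 = 0 ∧ (std p r).riem 5 1 2 5 = 0 ∧ (std p r).riem 5 1 3 0 =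
  0 ∧ (std p r).riem 5 1 3 1 = 0 ∧ (std p r).riem 5 1 3 2 = 0 ∧ (std p r).riem 5 1 3 4 = 0 ∧
  (std p r).riem 5 1 3 5 = 0 ∧ (std p r).riem 5 1 4 0 = p.k4 r ∧ (std p r).riem 5 1 4 1 = 0 ∧
  (std p r).riem 5 1 4 2 = 0 ∧ (std p r).riem 5 1 4 3 = 0 ∧ (std p r).riem 5 1 4 5 = 0 ∧ (std p
  r).riem 5 1 5 0 = 0 ∧ (std p r).riem 5 1 5 1 = p.k3 r ∧ (std p r).riem 5 1 5 2 = 0 ∧ (std p
  r).riem 5 1 5 3 = 0 ∧ (std p r).riem 5 1 5 4 = 0 :=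
  ⟨by (rw [riem_anti1 _ (std_symm p r) 1 5, rm1501]; try ring),
   by (rw [riem_anti1 _ (std_symm p r) 1 5, rm1502]; try ring),
   by (rw [riem_anti1 _ (std_symm p r) 1 5, rm1503]; try ring),
   by (rw [riem_anti1 _ (std_symm p r) 1 5, rm1504]; try ring),
   by (rw [riem_anti1 _ (std_symm p r) 1 5, rm1505]; try ring),
   by (rw [riem_anti1 _ (std_symm p r) 1 5, riem_anti2 _ (std_symm p r) 1 5 0 1, rm1501]; try ring),
   by (rw [riem_anti1 _ (std_symm p r) 1 5, rm1512]; try ring),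
   by (rw [riem_anti1 _ (std_symm p r) 1 5, rm1513]; try ring),
   by (rw [riem_anti1 _ (std_symm p r) 1 5, rm1514]; try ring),
   by (rw [riem_anti1 _ (std_symm p r) 1 5, rm1515]; try ring),
   by (rw [riem_anti1 _ (std_symm p r) 1 5, riem_anti2 _ (std_symm p r) 1 5 0 2, rm1502]; try ring),
   by (rw [riem_anti1 _ (std_symm p r) 1 5, riem_anti2 _ (std_symm p r) 1 5 1 2, rm1512]; try ring),
   by (rw [riem_anti1 _ (std_symm p r) 1 5, rm1523]; try ring),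
   by (rw [riem_anti1 _ (std_symm p r) 1 5, rm1524]; try ring),
   by (rw [riem_anti1 _ (std_symm p r) 1 5, rm1525]; try ring),
   by (rw [riem_anti1 _ (std_symm p r) 1 5, riem_anti2 _ (std_symm p r) 1 5 0 3, rm1503]; try ring),
   by (rw [riem_anti1 _ (std_symm p r) 1 5, riem_anti2 _ (std_symm p r) 1 5 1 3, rm1513]; try ring),
   by (rw [riem_anti1 _ (std_symm p r) 1 5, riem_anti2 _ (std_symm p r) 1 5 2 3, rm1523]; try ring),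
   by (rw [riem_anti1 _ (std_symm p r) 1 5, rm1534]; try ring),
   by (rw [riem_anti1 _ (std_symm p r) 1 5, rm1535]; try ring),
   by (rw [riem_anti1 _ (std_symm p r) 1 5, riem_anti2 _ (std_symm p r) 1 5 0 4, rm1504]; try ring),
   by (rw [riem_anti1 _ (std_symm p r) 1 5, riem_anti2 _ (std_symm p r) 1 5 1 4, rm1514]; try ring),
   by (rw [riem_anti1 _ (std_symm p r) 1 5, riem_anti2 _ (std_symm p r) 1 5 2 4, rm1524]; try ring),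
   by (rw [riem_anti1 _ (std_symm p r) 1 5, riem_anti2 _ (std_symm p r) 1 5 3 4, rm1534]; try ring),
   by (rw [riem_anti1 _ (std_symm p r) 1 5, rm1545]; try ring),
   by (rw [riem_anti1 _ (std_symm p r) 1 5, riem_anti2 _ (std_symm p r) 1 5 0 5, rm1505]; try ring),
   by (rw [riem_anti1 _ (std_symm p r) 1 5, riem_anti2 _ (std_symm p r) 1 5 1 5, rm1515]; try ring),
   by (rw [riem_anti1 _ (std_symm p r) 1 5, riem_anti2 _ (std_symm p r) 1 5 2 5, rm1525]; try ring),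
   by (rw [riem_anti1 _ (std_symm p r) 1 5, riem_anti2 _ (std_symm p r) 1 5 3 5, rm1535]; try ring),
   by (rw [riem_anti1 _ (std_symm p r) 1 5, riem_anti2 _ (std_symm p r) 1 5 4 5, rm1545]; try ring)⟩

lemma R52 :
  (std p r).riem 5 2 0 1 = 0 ∧ (std p r).riem 5 2 0 2 = 0 ∧ (std p r).riem 5 2 0 3 = 0 ∧ (std p
  r).riem 5 2 0 4 = 0 ∧ (std p r).riem 5 2 0 5 = 0 ∧ (std p r).riem 5 2 1 0 = 0 ∧ (std p r).riem
  5 2 1 2 = 0 ∧ (std p r).riem 5 2 1 3 = 0 ∧ (std p r).riem 5 2 1 4 = 0 ∧ (std p r).riem 5 2 1 5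
  = 0 ∧ (std p r).riem 5 2 2 0 = 0 ∧ (std p r).riem 5 2 2 1 = 0 ∧ (std p r).riem 5 2 2 3 = 0 ∧
  (std p r).riem 5 2 2 4 = 0 ∧ (std p r).riem 5 2 2 5 = -p.k5 r ∧ (std p r).riem 5 2 3 0 = 0 ∧
  (std p r).riem 5 2 3 1 = 0 ∧ (std p r).riem 5 2 3 2 = 0 ∧ (std p r).riem 5 2 3 4 = p.k6 r ∧
  (std p r).riem 5 2 3 5 = 0 ∧ (std p r).riem 5 2 4 0 = 0 ∧ (std p r).riem 5 2 4 1 = 0 ∧ (std p
  r).riem 5 2 4 2 = 0 ∧ (std p r).riem 5 2 4 3 = -p.k6 r ∧ (std p r).riem 5 2 4 5 = 0 ∧ (std p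
  r).riem 5 2 5 0 = 0 ∧ (std p r).riem 5 2 5 1 = 0 ∧ (std p r).riem 5 2 5 2 = p.k5 r ∧ (std p
  r).riem 5 2 5 3 = 0 ∧ (std p r).riem 5 2 5 4 = 0 :=
  ⟨by (rw [riem_anti1 _ (std_symm p r) 2 5, rm2501]; try ring),
   by (rw [riem_anti1 _ (std_symm p r) 2 5, rm2502]; try ring),
   by (rw [riem_anti1 _ (std_symm p r) 2 5, rm2503]; try ring),
   by (rw [riem_anti1 _ (std_symm p r) 2 5, rm2504]; try ring),
   by (rw [riem_anti1 _ (std_symm p r) 2 5, rm2505]; try ring),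
   by (rw [riem_anti1 _ (std_symm p r) 2 5, riem_anti2 _ (std_symm p r) 2 5 0 1, rm2501]; try ring),
   by (rw [riem_anti1 _ (std_symm p r) 2 5, rm2512]; try ring),
   by (rw [riem_anti1 _ (std_symm p r) 2 5, rm2513]; try ring),
   by (rw [riem_anti1 _ (std_symm p r) 2 5, rm2514]; try ring),
   by (rw [riem_anti1 _ (std_symm p r) 2 5, rm2515]; try ring),
   by (rw [riem_anti1 _ (std_symm p r) 2 5, riem_anti2 _ (std_symm p r) 2 5 0 2, rm2502]; try ring),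
   by (rw [riem_anti1 _ (std_symm p r) 2 5, riem_anti2 _ (std_symm p r) 2 5 1 2, rm2512]; try ring),
   by (rw [riem_anti1 _ (std_symm p r) 2 5, rm2523]; try ring),
   by (rw [riem_anti1 _ (std_symm p r) 2 5, rm2524]; try ring),
   by (rw [riem_anti1 _ (std_symm p r) 2 5, rm2525]; try ring),
   by (rw [riem_anti1 _ (std_symm p r) 2 5, riem_anti2 _ (std_symm p r) 2 5 0 3, rm2503]; try ring),
   by (rw [riem_anti1 _ (std_symm p r) 2 5, riem_anti2 _ (std_symm p r) 2 5 1 3, rm2513]; try ring),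
   by (rw [riem_anti1 _ (std_symm p r) 2 5, riem_anti2 _ (std_symm p r) 2 5 2 3, rm2523]; try ring),
   by (rw [riem_anti1 _ (std_symm p r) 2 5, rm2534]; try ring),
   by (rw [riem_anti1 _ (std_symm p r) 2 5, rm2535]; try ring),
   by (rw [riem_anti1 _ (std_symm p r) 2 5, riem_anti2 _ (std_symm p r) 2 5 0 4, rm2504]; try ring),
   by (rw [riem_anti1 _ (std_symm p r) 2 5, riem_anti2 _ (std_symm p r) 2 5 1 4, rm2514]; try ring),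
   by (rw [riem_anti1 _ (std_symm p r) 2 5, riem_anti2 _ (std_symm p r) 2 5 2 4, rm2524]; try ring),
   by (rw [riem_anti1 _ (std_symm p r) 2 5, riem_anti2 _ (std_symm p r) 2 5 3 4, rm2534]; try ring),
   by (rw [riem_anti1 _ (std_symm p r) 2 5, rm2545]; try ring),
   by (rw [riem_anti1 _ (std_symm p r) 2 5, riem_anti2 _ (std_symm p r) 2 5 0 5, rm2505]; try ring),
   by (rw [riem_anti1 _ (std_symm p r) 2 5, riem_anti2 _ (std_symm p r) 2 5 1 5, rm2515]; try ring),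
   by (rw [riem_anti1 _ (std_symm p r) 2 5, riem_anti2 _ (std_symm p r) 2 5 2 5, rm2525]; try ring),
   by (rw [riem_anti1 _ (std_symm p r) 2 5, riem_anti2 _ (std_symm p r) 2 5 3 5, rm2535]; try ring),
   by (rw [riem_anti1 _ (std_symm p r) 2 5, riem_anti2 _ (std_symm p r) 2 5 4 5, rm2545]; try ring)⟩

lemma R53 :
  (std p r).riem 5 3 0 1 = 0 ∧ (std p r).riem 5 3 0 2 = 0 ∧ (std p r).riem 5 3 0 3 = 0 ∧ (std p
  r).riem 5 3 0 4 = 0 ∧ (std p r).riem 5 3 0 5 = 0 ∧ (std p r).riem 5 3 1 0 = 0 ∧ (std p r).riem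
  5 3 1 2 = 0 ∧ (std p r).riem 5 3 1 3 = 0 ∧ (std p r).riem 5 3 1 4 = 0 ∧ (std p r).riem 5 3 1 5
  = 0 ∧ (std p r).riem 5 3 2 0 = 0 ∧ (std p r).riem 5 3 2 1 = 0 ∧ (std p r).riem 5 3 2 3 = 0 ∧
  (std p r).riem 5 3 2 4 = -p.k6 r ∧ (std p r).riem 5 3 2 5 = 0 ∧ (std p r).riem 5 3 3 0 = 0 ∧
  (std p r).riem 5 3 3 1 = 0 ∧ (std p r).riem 5 3 3 2 = 0 ∧ (std p r).riem 5 3 3 4 = 0 ∧ (std p
  r).riem 5 3 3 5 = -p.k5 r ∧ (std p r).riem 5 3 4 0 = 0 ∧ (std p r).riem 5 3 4 1 = 0 ∧ (std p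
  r).riem 5 3 4 2 = p.k6 r ∧ (std p r).riem 5 3 4 3 = 0 ∧ (std p r).riem 5 3 4 5 = 0 ∧ (std p
  r).riem 5 3 5 0 = 0 ∧ (std p r).riem 5 3 5 1 = 0 ∧ (std p r).riem 5 3 5 2 = 0 ∧ (std p r).riem
  5 3 5 3 = p.k5 r ∧ (std p r).riem 5 3 5 4 = 0 :=
  ⟨by (rw [riem_anti1 _ (std_symm p r) 3 5, rm3501]; try ring),
   by (rw [riem_anti1 _ (std_symm p r) 3 5, rm3502]; try ring),
   by (rw [riem_anti1 _ (std_symm p r) 3 5, rm3503]; try ring),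
   by (rw [riem_anti1 _ (std_symm p r) 3 5, rm3504]; try ring),
   by (rw [riem_anti1 _ (std_symm p r) 3 5, rm3505]; try ring),
   by (rw [riem_anti1 _ (std_symm p r) 3 5, riem_anti2 _ (std_symm p r) 3 5 0 1, rm3501]; try ring),
   by (rw [riem_anti1 _ (std_symm p r) 3 5, rm3512]; try ring),
   by (rw [riem_anti1 _ (std_symm p r) 3 5, rm3513]; try ring),
   by (rw [riem_anti1 _ (std_symm p r) 3 5, rm3514]; try ring),
   by (rw [riem_anti1 _ (std_symm p r) 3 5, rm3515]; try ring),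
   by (rw [riem_anti1 _ (std_symm p r) 3 5, riem_anti2 _ (std_symm p r) 3 5 0 2, rm3502]; try ring),
   by (rw [riem_anti1 _ (std_symm p r) 3 5, riem_anti2 _ (std_symm p r) 3 5 1 2, rm3512]; try ring),
   by (rw [riem_anti1 _ (std_symm p r) 3 5, rm3523]; try ring),
   by (rw [riem_anti1 _ (std_symm p r) 3 5, rm3524]; try ring),
   by (rw [riem_anti1 _ (std_symm p r) 3 5, rm3525]; try ring),
   by (rw [riem_anti1 _ (std_symm p r) 3 5, riem_anti2 _ (std_symm p r) 3 5 0 3, rm3503]; try ring),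
   by (rw [riem_anti1 _ (std_symm p r) 3 5, riem_anti2 _ (std_symm p r) 3 5 1 3, rm3513]; try ring),
   by (rw [riem_anti1 _ (std_symm p r) 3 5, riem_anti2 _ (std_symm p r) 3 5 2 3, rm3523]; try ring),
   by (rw [riem_anti1 _ (std_symm p r) 3 5, rm3534]; try ring),
   by (rw [riem_anti1 _ (std_symm p r) 3 5, rm3535]; try ring),
   by (rw [riem_anti1 _ (std_symm p r) 3 5, riem_anti2 _ (std_symm p r) 3 5 0 4, rm3504]; try ring),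
   by (rw [riem_anti1 _ (std_symm p r) 3 5, riem_anti2 _ (std_symm p r) 3 5 1 4, rm3514]; try ring),
   by (rw [riem_anti1 _ (std_symm p r) 3 5, riem_anti2 _ (std_symm p r) 3 5 2 4, rm3524]; try ring),
   by (rw [riem_anti1 _ (std_symm p r) 3 5, riem_anti2 _ (std_symm p r) 3 5 3 4, rm3534]; try ring),
   by (rw [riem_anti1 _ (std_symm p r) 3 5, rm3545]; try ring),
   by (rw [riem_anti1 _ (std_symm p r) 3 5, riem_anti2 _ (std_symm p r) 3 5 0 5, rm3505]; try ring),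
   by (rw [riem_anti1 _ (std_symm p r) 3 5, riem_anti2 _ (std_symm p r) 3 5 1 5, rm3515]; try ring),
   by (rw [riem_anti1 _ (std_symm p r) 3 5, riem_anti2 _ (std_symm p r) 3 5 2 5, rm3525]; try ring),
   by (rw [riem_anti1 _ (std_symm p r) 3 5, riem_anti2 _ (std_symm p r) 3 5 3 5, rm3535]; try ring),
   by (rw [riem_anti1 _ (std_symm p r) 3 5, riem_anti2 _ (std_symm p r) 3 5 4 5, rm3545]; try ring)⟩

lemma R54 :
  (std p r).riem 5 4 0 1 = -2*p.k4 r ∧ (std p r).riem 5 4 0 2 = 0 ∧ (std p r).riem 5 4 0 3 = 0 ∧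
  (std p r).riem 5 4 0 4 = 0 ∧ (std p r).riem 5 4 0 5 = 0 ∧ (std p r).riem 5 4 1 0 = 2*p.k4 r ∧
  (std p r).riem 5 4 1 2 = 0 ∧ (std p r).riem 5 4 1 3 = 0 ∧ (std p r).riem 5 4 1 4 = 0 ∧ (std p
  r).riem 5 4 1 5 = 0 ∧ (std p r).riem 5 4 2 0 = 0 ∧ (std p r).riem 5 4 2 1 = 0 ∧ (std p r).riem
  5 4 2 3 = -2*p.k6 r ∧ (std p r).riem 5 4 2 4 = 0 ∧ (std p r).riem 5 4 2 5 = 0 ∧ (std p r).riem
  5 4 3 0 = 0 ∧ (std p r).riem 5 4 3 1 = 0 ∧ (std p r).riem 5 4 3 2 = 2*p.k6 r ∧ (std p r).riem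
  5 4 3 4 = 0 ∧ (std p r).riem 5 4 3 5 = 0 ∧ (std p r).riem 5 4 4 0 = 0 ∧ (std p r).riem 5 4 4 1
  = 0 ∧ (std p r).riem 5 4 4 2 = 0 ∧ (std p r).riem 5 4 4 3 = 0 ∧ (std p r).riem 5 4 4 5 =
  -(p.k5 r+3*p.k6 r) ∧ (std p r).riem 5 4 5 0 = 0 ∧ (std p r).riem 5 4 5 1 = 0 ∧ (std p r).riem
  5 4 5 2 = 0 ∧ (std p r).riem 5 4 5 3 = 0 ∧ (std p r).riem 5 4 5 4 = (p.k5 r+3*p.k6 r) :=
  ⟨by (rw [riem_anti1 _ (std_symm p r) 4 5, rm4501]; try ring),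
   by (rw [riem_anti1 _ (std_symm p r) 4 5, rm4502]; try ring),
   by (rw [riem_anti1 _ (std_symm p r) 4 5, rm4503]; try ring),
   by (rw [riem_anti1 _ (std_symm p r) 4 5, rm4504]; try ring),
   by (rw [riem_anti1 _ (std_symm p r) 4 5, rm4505]; try ring),
   by (rw [riem_anti1 _ (std_symm p r) 4 5, riem_anti2 _ (std_symm p r) 4 5 0 1, rm4501]; try ring),
   by (rw [riem_anti1 _ (std_symm p r) 4 5, rm4512]; try ring),
   by (rw [riem_anti1 _ (std_symm p r) 4 5, rm4513]; try ring),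
   by (rw [riem_anti1 _ (std_symm p r) 4 5, rm4514]; try ring),
   by (rw [riem_anti1 _ (std_symm p r) 4 5, rm4515]; try ring),
   by (rw [riem_anti1 _ (std_symm p r) 4 5, riem_anti2 _ (std_symm p r) 4 5 0 2, rm4502]; try ring),
   by (rw [riem_anti1 _ (std_symm p r) 4 5, riem_anti2 _ (std_symm p r) 4 5 1 2, rm4512]; try ring),
   by (rw [riem_anti1 _ (std_symm p r) 4 5, rm4523]; try ring),
   by (rw [riem_anti1 _ (std_symm p r) 4 5, rm4524]; try ring),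
   by (rw [riem_anti1 _ (std_symm p r) 4 5, rm4525]; try ring),
   by (rw [riem_anti1 _ (std_symm p r) 4 5, riem_anti2 _ (std_symm p r) 4 5 0 3, rm4503]; try ring),
   by (rw [riem_anti1 _ (std_symm p r) 4 5, riem_anti2 _ (std_symm p r) 4 5 1 3, rm4513]; try ring),
   by (rw [riem_anti1 _ (std_symm p r) 4 5, riem_anti2 _ (std_symm p r) 4 5 2 3, rm4523]; try ring),
   by (rw [riem_anti1 _ (std_symm p r) 4 5, rm4534]; try ring),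
   by (rw [riem_anti1 _ (std_symm p r) 4 5, rm4535]; try ring),
   by (rw [riem_anti1 _ (std_symm p r) 4 5, riem_anti2 _ (std_symm p r) 4 5 0 4, rm4504]; try ring),
   by (rw [riem_anti1 _ (std_symm p r) 4 5, riem_anti2 _ (std_symm p r) 4 5 1 4, rm4514]; try ring),
   by (rw [riem_anti1 _ (std_symm p r) 4 5, riem_anti2 _ (std_symm p r) 4 5 2 4, rm4524]; try ring),
   by (rw [riem_anti1 _ (std_symm p r) 4 5, riem_anti2 _ (std_symm p r) 4 5 3 4, rm4534]; try ring),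
   by (rw [riem_anti1 _ (std_symm p r) 4 5, rm4545]; try ring),
   by (rw [riem_anti1 _ (std_symm p r) 4 5, riem_anti2 _ (std_symm p r) 4 5 0 5, rm4505]; try ring),
   by (rw [riem_anti1 _ (std_symm p r) 4 5, riem_anti2 _ (std_symm p r) 4 5 1 5, rm4515]; try ring),
   by (rw [riem_anti1 _ (std_symm p r) 4 5, riem_anti2 _ (std_symm p r) 4 5 2 5, rm4525]; try ring),
   by (rw [riem_anti1 _ (std_symm p r) 4 5, riem_anti2 _ (std_symm p r) 4 5 3 5, rm4535]; try ring),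
   by (rw [riem_anti1 _ (std_symm p r) 4 5, riem_anti2 _ (std_symm p r) 4 5 4 5, rm4545]; try ring)⟩

lemma ricT :
  (std p r).ric 0 0 = 4*p.c*p.k2 r + p.b r*p.k1 r ∧ (std p r).ric 0 1 = 0 ∧ (std p r).ric 0 2 =
  0 ∧ (std p r).ric 0 3 = 0 ∧ (std p r).ric 0 4 = 0 ∧ (std p r).ric 0 5 = 0 ∧ (std p r).ric 1 0
  = 0 ∧ (std p r).ric 1 1 = 4*p.c*p.k3 r + p.a r*p.k1 r ∧ (std p r).ric 1 2 = 0 ∧ (std p r).ric
  1 3 = 0 ∧ (std p r).ric 1 4 = 0 ∧ (std p r).ric 1 5 = 0 ∧ (std p r).ric 2 0 = 0 ∧ (std p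
  r).ric 2 1 = 0 ∧ (std p r).ric 2 2 = 3*p.c*p.k6 r + 3*p.c*p.k5 r + p.b r*p.k3 r + p.a r*p.k2 r
  ∧ (std p r).ric 2 3 = 0 ∧ (std p r).ric 2 4 = 0 ∧ (std p r).ric 2 5 = 0 ∧ (std p r).ric 3 0 =
  0 ∧ (std p r).ric 3 1 = 0 ∧ (std p r).ric 3 2 = 0 ∧ (std p r).ric 3 3 = 3*p.c*p.k6 r +
  3*p.c*p.k5 r + p.b r*p.k3 r + p.a r*p.k2 r ∧ (std p r).ric 3 4 = 0 ∧ (std p r).ric 3 5 = 0 ∧
  (std p r).ric 4 0 = 0 ∧ (std p r).ric 4 1 = 0 ∧ (std p r).ric 4 2 = 0 ∧ (std p r).ric 4 3 = 0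
  ∧ (std p r).ric 4 4 = 3*p.c*p.k6 r + 3*p.c*p.k5 r + p.b r*p.k3 r + p.a r*p.k2 r ∧ (std p
  r).ric 4 5 = 0 ∧ (std p r).ric 5 0 = 0 ∧ (std p r).ric 5 1 = 0 ∧ (std p r).ric 5 2 = 0 ∧ (std
  p r).ric 5 3 = 0 ∧ (std p r).ric 5 4 = 0 ∧ (std p r).ric 5 5 = 3*p.c*p.k6 r + 3*p.c*p.k5 r +
  p.b r*p.k3 r + p.a r*p.k2 r := by
  simp only [ric_diag _ _ (std_gi p r), Fin.sum_univ_six, tabg, rz1, rz2,
    R01, R02, R03, R04, R05, R10, R12, R13, R14, R15, R20, R21, R23, R24, R25, R30, R31, R32, R34,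
  R35, R40, R41, R42, R43, R45, R50, R51, R52, R53, R54,
    mul_zero, zero_mul, add_zero, zero_add, mul_one, one_mul, sub_zero, sub_self, zero_div, neg_zero, true_and, and_true]
  (repeat' constructor) <;> ring

lemma giT :
  (std p r).gi 0 0 = p.a r ∧ (std p r).gi 0 1 = 0 ∧ (std p r).gi 0 2 = 0 ∧ (std p r).gi 0 3 = 0
  ∧ (std p r).gi 0 4 = 0 ∧ (std p r).gi 0 5 = 0 ∧ (std p r).gi 1 0 = 0 ∧ (std p r).gi 1 1 = p.b
  r ∧ (std p r).gi 1 2 = 0 ∧ (std p r).gi 1 3 = 0 ∧ (std p r).gi 1 4 = 0 ∧ (std p r).gi 1 5 = 0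
  ∧ (std p r).gi 2 0 = 0 ∧ (std p r).gi 2 1 = 0 ∧ (std p r).gi 2 2 = p.c ∧ (std p r).gi 2 3 = 0
  ∧ (std p r).gi 2 4 = 0 ∧ (std p r).gi 2 5 = 0 ∧ (std p r).gi 3 0 = 0 ∧ (std p r).gi 3 1 = 0 ∧
  (std p r).gi 3 2 = 0 ∧ (std p r).gi 3 3 = p.c ∧ (std p r).gi 3 4 = 0 ∧ (std p r).gi 3 5 = 0 ∧
  (std p r).gi 4 0 = 0 ∧ (std p r).gi 4 1 = 0 ∧ (std p r).gi 4 2 = 0 ∧ (std p r).gi 4 3 = 0 ∧
  (std p r).gi 4 4 = p.c ∧ (std p r).gi 4 5 = 0 ∧ (std p r).gi 5 0 = 0 ∧ (std p r).gi 5 1 = 0 ∧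
  (std p r).gi 5 2 = 0 ∧ (std p r).gi 5 3 = 0 ∧ (std p r).gi 5 4 = 0 ∧ (std p r).gi 5 5 = p.c := by
  simp [std_gi, tabg]

lemma std_scal : (std p r).scal = 12*p.c^2*p.k6 r + 12*p.c^2*p.k5 r + 8*p.b r*p.c*p.k3 r + 8*p.a r*p.c*p.k2 r + 2*p.a r*p.b r*p.k1 r := by
  simp only [scal_diag _ _ (std_gi p r), Fin.sum_univ_six, tabg, ricT]
  ring

lemma std_L2 : (std p r).L2 =
  120*p.c^4*(p.k6 r)^2 + 48*p.c^4*p.k5 r*p.k6 r + 24*p.c^4*(p.k5 r)^2 + 96*p.b r*p.c^3*p.k3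
  r*p.k6 r + 96*p.b r*p.c^3*p.k3 r*p.k5 r + 96*p.a r*p.c^3*p.k2 r*p.k6 r + 96*p.a r*p.c^3*p.k2
  r*p.k5 r + 96*p.a r*p.b r*p.c^2*(p.k4 r)^2 + 96*p.a r*p.b r*p.c^2*p.k2 r*p.k3 r + 48*p.a r*p.b
  r*p.c^2*p.k1 r*p.k6 r + 48*p.a r*p.b r*p.c^2*p.k1 r*p.k5 r := by
  simp only [Jet.L2, Fin.sum_univ_six, rz1, rz2,
    R01, R02, R03, R04, R05, R10, R12, R13, R14, R15, R20, R21, R23, R24, R25, R30, R31, R32, R34,
  R35, R40, R41, R42, R43, R45, R50, R51, R52, R53, R54,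
    mul_zero, zero_mul, add_zero, zero_add, mul_one, one_mul, sub_zero, sub_self, zero_div, neg_zero]
  simp only [Jet.P, riemUp_diag _ _ (std_gi p r), ricUp_diag _ _ (std_gi p r), std_scal, giT, ricT, tabg,
    rz1, rz2,
    R01, R02, R03, R04, R05, R10, R12, R13, R14, R15, R20, R21, R23, R24, R25, R30, R31, R32, R34,
  R35, R40, R41, R42, R43, R45, R50, R51, R52, R53, R54,
    mul_zero, zero_mul, add_zero, zero_add, mul_one, one_mul, sub_zero, sub_self, zero_div, neg_zero]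
  ring

lemma std_flux : (std p r).flux (dl0 0) =
  -18*r*p.C*p.a r*p.b r*p.c^2*p.k6 r - 18*r*p.C*p.a r*p.b r*p.c^2*p.k5 r - 12*r*p.C*p.a r*p.b
  r*p.c^2*p.k4 r + 12*r*p.A*p.a r*p.c^3*p.k6 r + 12*r*p.A*p.a r*p.c^3*p.k5 r + 6*r*p.A*p.a r*p.b
  r*p.c^2*p.k6 r + 6*r*p.A*p.a r*p.b r*p.c^2*p.k5 r + 12*r*p.A*p.a r*p.b r*p.c^2*p.k3 r -
  24*r*p.G1*p.a r*p.c^3*p.k6 r - 24*r*p.G1*p.a r*p.c^3*p.k5 r - 12*r*p.G1*p.a r*p.b r*p.c^2*p.k6
  r - 12*r*p.G1*p.a r*p.b r*p.c^2*p.k5 r - 24*r*p.G1*p.a r*p.b r*p.c^2*p.k3 r - 12*r^3*p.C1*p.a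
  r*p.b r*p.c^2*p.k6 r - 12*r^3*p.C1*p.a r*p.b r*p.c^2*p.k5 r := by
  simp only [Jet.flux, Fin.sum_univ_six, tabd, mul_zero, zero_mul, add_zero, zero_add, mul_one, one_mul, sub_zero, sub_self, zero_div, neg_zero]
  simp only [Jet.P, riemUp_diag _ _ (std_gi p r), ricUp_diag _ _ (std_gi p r), std_scal, giT, ricT, tabg,
    rz1, rz2,
    R01, R02, R03, R04, R05, R10, R12, R13, R14, R15, R20, R21, R23, R24, R25, R30, R31, R32, R34,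
  R35, R40, R41, R42, R43, R45, R50, R51, R52, R53, R54,
    mul_zero, zero_mul, add_zero, zero_add, mul_one, one_mul, sub_zero, sub_self, zero_div, neg_zero]
  simp only [std, mkJet, tabx, tabd, tabj, mul_zero, zero_mul, add_zero, zero_add, mul_one, one_mul, sub_zero, sub_self, zero_div, neg_zero]
  ring

end H528GBC
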