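import Mathlib

set_option autoImplicit false

open MeasureTheory Set
open scoped ENNReal

namespace Pool.Agent.H528Z.Pois

/-- the plane -/
abbrev X := ℝ × ℝ

/-- strict comparability in both coordinates -/
def Cmp (p q : X) : Prop := (p.1 < q.1 ∧ p.2 < q.2) ∨ (q.1 < p.1 ∧ q.2 < p.2)

/-- chains with points in `A` -/
def Good {ι : Type} (A : Set X) (s : Finset ι) (x : ι → X) : Prop :=
  (∀ i ∈ s, x i ∈ A) ∧ ∀ i ∈ s, ∀ j ∈ s, i ≠ j → Cmp (x i) (x j)

open Classical in
/-- longest chain with points in `A` -/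
noncomputable def LE {ι : Type} (A : Set X) (x : ι → X) : ℝ≥0∞ :=
  ⨆ s : Finset ι, if Good A s x then (s.card : ℝ≥0∞) else 0

theorem le_LE {ι : Type} {A : Set X} {x : ι → X} {s : Finset ι} (h : Good A s x) :
    (s.card : ℝ≥0∞) ≤ LE A x := by
  classical
  unfold LE
  refine le_iSup_of_le s ?_
  rw [if_pos h]

theorem LE_le {ι : Type} {A : Set X} {x : ι → X} {c : ℝ≥0∞}
    (h : ∀ s, Good A s x → (s.card : ℝ≥0∞) ≤ c) : LE A x ≤ c := by
  classical
  unfold LE
  refine iSup_le fun s => ?_
  split_ifs with hs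
  · exact h s hs
  · exact zero_le

theorem good_empty {ι : Type} (A : Set X) (x : ι → X) : Good A (∅ : Finset ι) x := by
  constructor <;> simp

theorem measurableSet_cmp : MeasurableSet {p : X × X | Cmp p.1 p.2} := by
  have h1 : MeasurableSet {p : X × X | p.1.1 < p.2.1} :=
    measurableSet_lt (by fun_prop) (by fun_prop)
  have h2 : MeasurableSet {p : X × X | p.1.2 < p.2.2} :=
    measurableSet_lt (by fun_prop) (by fun_prop)
  have h3 : MeasurableSet {p : X × X | p.2.1 < p.1.1} :=
    measurableSet_lt (by fun_prop) (by fun_prop)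
  have h4 : MeasurableSet {p : X × X | p.2.2 < p.1.2} :=
    measurableSet_lt (by fun_prop) (by fun_prop)
  exact (h1.inter h2).union (h3.inter h4)

theorem measurableSet_good {ι : Type} [Fintype ι] {A : Set X} (hA : MeasurableSet A) (s : Finset ι) :
    MeasurableSet {x : ι → X | Good A s x} := by
  have e : {x : ι → X | Good A s x} = (⋂ i ∈ s, {x | x i ∈ A}) ∩
      ⋂ i ∈ s, ⋂ j ∈ s, ⋂ (_ : i ≠ j), {x | Cmp (x i) (x j)} := by
    ext x
    simp only [Good, Set.mem_ofPred_eq, mem_inter_iff, mem_iInter]
  rw [e]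
  refine MeasurableSet.inter ?_ ?_
  · exact Finset.measurableSet_biInter s fun i _ => measurable_pi_apply i hA
  · refine Finset.measurableSet_biInter s fun i _ => Finset.measurableSet_biInter s fun j _ => ?_
    refine MeasurableSet.iInter fun _ => ?_
    have hm : Measurable fun x : ι → X => (x i, x j) := by fun_prop
    exact hm measurableSet_cmp

theorem measurable_LE {ι : Type} [Fintype ι] {A : Set X} (hA : MeasurableSet A) :
    Measurable (LE (ι := ι) A) := by
  classical
  unfold LE
  refine Measurable.iSup fun s => ?_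
  exact Measurable.ite (measurableSet_good hA s) measurable_const measurable_const

theorem LE_le_card {ι : Type} [Fintype ι] (A : Set X) (x : ι → X) :
    LE A x ≤ (Fintype.card ι : ℝ≥0∞) :=
  LE_le fun s _ => by exact_mod_cast s.card_le_univ

theorem LE_add {ι : Type} {A B : Set X} (h : ∀ p ∈ A, ∀ q ∈ B, p.1 < q.1 ∧ p.2 < q.2)
    (x : ι → X) : LE A x + LE B x ≤ LE univ x := by
  classical
  have key : ∀ s t : Finset ι, Good A s x → Good B t x →
      (s.card : ℝ≥0∞) + t.card ≤ LE univ x := by
    intro s t hs ht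
    have hd : Disjoint s t := by
      rw [Finset.disjoint_left]
      intro i hi hi'
      exact lt_irrefl _ (h _ (hs.1 i hi) _ (ht.1 i hi')).1
    have hg : Good univ (s ∪ t) x := by
      refine ⟨fun _ _ => mem_univ _, ?_⟩
      intro i hi j hj hij
      rcases Finset.mem_union.1 hi with hi | hi <;> rcases Finset.mem_union.1 hj with hj | hj
      · exact hs.2 i hi j hj hij
      · exact Or.inl (h _ (hs.1 i hi) _ (ht.1 j hj))
      · exact Or.inr (h _ (hs.1 j hj) _ (ht.1 i hi))
      · exact ht.2 i hi j hj hij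
    have := le_LE hg
    rw [Finset.card_union_of_disjoint hd] at this
    exact_mod_cast this
  refine ENNReal.iSup_add_iSup_le fun s t => ?_
  split_ifs with hs ht ht
  · exact key s t hs ht
  · simpa using key s ∅ hs (good_empty _ _)
  · simpa using key ∅ t (good_empty _ _) ht
  · simp

theorem LE_comp {ι κ : Type} {A : Set X} (x : ι → X) (f : κ → ι) (hf : Function.Injective f)
    (h : ∀ k, x (f k) ∈ A) : LE univ (fun k => x (f k)) ≤ LE A x := by
  classical
  refine LE_le fun s hs => ?_
  have hg : Good A (s.image f) x := by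
    refine ⟨?_, ?_⟩
    · intro i hi
      obtain ⟨k, _, rfl⟩ := Finset.mem_image.1 hi
      exact h k
    · intro i hi j hj hij
      obtain ⟨k, hk, rfl⟩ := Finset.mem_image.1 hi
      obtain ⟨l, hl, rfl⟩ := Finset.mem_image.1 hj
      exact hs.2 k hk l hl fun e => hij (by rw [e])
  have := le_LE hg
  rwa [Finset.card_image_of_injective _ hf] at this

theorem LE_translate {ι : Type} (x : ι → X) (v : X) :
    LE univ (fun i => x i + v) = LE univ x := by
  have : ∀ s : Finset ι, Good univ s (fun i => x i + v) ↔ Good univ s x := by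
    intro s
    simp [Good, Cmp]
  apply le_antisymm
  · exact LE_le fun s hs => le_LE ((this s).1 hs)
  · exact LE_le fun s hs => le_LE ((this s).2 hs)

theorem sSup_eq {n : ℕ} (x : Fin n → X) :
    ((sSup {k : ℕ | ∃ s : Finset (Fin n), s.card = k ∧
      ∀ i ∈ s, ∀ j ∈ s, i ≠ j →
        (((x i).1 < (x j).1 ∧ (x i).2 < (x j).2) ∨
          ((x j).1 < (x i).1 ∧ (x j).2 < (x i).2))} : ℕ) : ℝ≥0∞) = LE univ x := by
  set K := {k : ℕ | ∃ s : Finset (Fin n), s.card = k ∧
      ∀ i ∈ s, ∀ j ∈ s, i ≠ j →
        (((x i).1 < (x j).1 ∧ (x i).2 < (x j).2) ∨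
          ((x j).1 < (x i).1 ∧ (x j).2 < (x i).2))} with hK
  have hb : BddAbove K := by
    refine ⟨n, ?_⟩
    rintro k ⟨s, rfl, _⟩
    simpa using s.card_le_univ
  have hne : K.Nonempty := ⟨0, ∅, rfl, by simp⟩
  apply le_antisymm
  · obtain ⟨s, hs, hs'⟩ := Nat.sSup_mem hne hb
    rw [← hs]
    exact le_LE ⟨fun _ _ => mem_univ _, hs'⟩
  · refine LE_le fun s hs => ?_
    have : s.card ∈ K := ⟨s, rfl, hs.2⟩
    exact_mod_cast le_csSup hb this

/-- the integral of the longest chain over `ι`-tuples -/
noncomputable def J (ι : Type) [Fintype ι] (μ : Measure X) : ℝ≥0∞ :=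
  ∫⁻ x, LE univ x ∂(Measure.pi fun _ : ι => μ)

theorem J_le (ι : Type) [Fintype ι] (μ : Measure X) [IsFiniteMeasure μ] :
    J ι μ ≤ (Fintype.card ι : ℝ≥0∞) * μ univ ^ Fintype.card ι := by
  unfold J
  calc _ ≤ ∫⁻ _x, (Fintype.card ι : ℝ≥0∞) ∂(Measure.pi fun _ : ι => μ) :=
        lintegral_mono fun x => LE_le_card _ x
    _ = _ := by
        rw [lintegral_const, ← Set.pi_univ univ, Measure.pi_pi]
        simp

theorem J_congr {ι κ : Type} [Fintype ι] [Fintype κ] (e : κ ≃ ι) (μ : Measure X)
    [IsFiniteMeasure μ] : J κ μ ≤ J ι μ := by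
  unfold J
  have hp := measurePreserving_piCongrLeft (fun _ : ι => μ) e
  rw [← hp.lintegral_comp (measurable_LE MeasurableSet.univ)]
  refine lintegral_mono fun x => ?_
  have := LE_comp (A := univ) (MeasurableEquiv.piCongrLeft (fun _ : ι => X) e x) e e.injective
    (fun _ => mem_univ _)
  refine le_trans (le_of_eq ?_) this
  congr 1
  funext k
  simp [MeasurableEquiv.piCongrLeft]

theorem pi_add {ι : Type} [Fintype ι] [DecidableEq ι] (α β : Measure X) [IsFiniteMeasure α]
    [IsFiniteMeasure β] :
    (Measure.pi fun _ : ι => α + β) =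
      ∑ S : Finset ι, Measure.pi fun i => if i ∈ S then α else β := by
  have : ∀ (S : Finset ι) (i : ι), IsFiniteMeasure (if i ∈ S then α else β) := by
    intro S i
    split_ifs <;> infer_instance
  refine Measure.pi_eq fun s _ => ?_
  rw [Measure.finsetSum_apply]
  simp only [Measure.pi_pi, Measure.add_apply]
  rw [Fintype.prod_add]
  refine Finset.sum_congr rfl fun S _ => ?_
  rw [← Finset.prod_mul_prod_compl S]
  congr 1
  · exact Finset.prod_congr rfl fun i hi => by rw [if_pos hi]
  · exact Finset.prod_congr rfl fun i hi => by rw [if_neg (Finset.mem_compl.1 hi)]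

theorem piece0 {ι : Type} [Fintype ι] (α β : Measure X) [IsFiniteMeasure α]
    [IsFiniteMeasure β] {A : Set X} (hα : α Aᶜ = 0) (p : ι → Prop) [DecidablePred p] :
    J {i // p i} α * β univ ^ (Fintype.card {i // ¬ p i}) ≤
      ∫⁻ x, LE A x ∂(Measure.pi fun i => if p i then α else β) := by
  have inst : ∀ (i : ι), IsFiniteMeasure (if p i then α else β) := by
    intro i
    split_ifs <;> infer_instance
  have hp := measurePreserving_piEquivPiSubtypeProd (fun i => if p i then α else β) p
  have e1 : (Measure.pi fun i : {i // p i} => if p (i : ι) then α else β) =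
      Measure.pi fun _ : {i // p i} => α := by
    congr 1
    funext i
    rw [if_pos i.2]
  have e2 : (Measure.pi fun i : {i // ¬ p i} => if p (i : ι) then α else β) =
      Measure.pi fun _ : {i // ¬ p i} => β := by
    congr 1
    funext i
    rw [if_neg i.2]
  rw [e1, e2] at hp
  have hm : Measurable fun z : ({i // p i} → X) × ({i // ¬ p i} → X) => LE univ z.1 :=
    (measurable_LE MeasurableSet.univ).comp measurable_fst
  have h1 := hp.lintegral_comp hm
  have h2 : ∫⁻ z : ({i // p i} → X) × ({i // ¬ p i} → X), LE univ z.1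
      ∂((Measure.pi fun _ : {i // p i} => α).prod (Measure.pi fun _ : {i // ¬ p i} => β))
      = J {i // p i} α * β univ ^ (Fintype.card {i // ¬ p i}) := by
    rw [lintegral_prod _ hm.aemeasurable]
    simp only [lintegral_const]
    rw [lintegral_mul_const _ (measurable_LE MeasurableSet.univ), ← Set.pi_univ univ,
      Measure.pi_pi]
    simp [J]
  rw [← h2, ← h1]
  refine lintegral_mono_ae ?_
  have hae : ∀ i, ∀ᵐ x ∂(Measure.pi fun i => if p i then α else β), p i → x i ∈ A := by
    intro i
    by_cases hi : p i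
    · have hq := Measure.quasiMeasurePreserving_eval (fun i => if p i then α else β) i
      have : ∀ᵐ q ∂(if p i then α else β), q ∈ A := by
        rw [if_pos hi]
        exact hα
      filter_upwards [hq.ae this] with x hx _ using hx
    · exact Filter.Eventually.of_forall fun x h => absurd h hi
  filter_upwards [ae_all_iff.2 hae] with x hx
  exact LE_comp x (fun k : {i // p i} => (k : ι)) Subtype.val_injective fun k => hx k k.2

theorem piece {ι : Type} [Fintype ι] [DecidableEq ι] (α β : Measure X) [IsFiniteMeasure α]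
    [IsFiniteMeasure β] {A : Set X} (hα : α Aᶜ = 0) (S : Finset ι) :
    J (Fin S.card) α * β univ ^ (Fintype.card ι - S.card) ≤
      ∫⁻ x, LE A x ∂(Measure.pi fun i => if i ∈ S then α else β) := by
  refine le_trans ?_ (piece0 α β hα (fun i => i ∈ S))
  have h3 := @J_congr {i // i ∈ S} (Fin S.card) (Subtype.fintype _) _ S.equivFin.symm α _
  have h4 : Fintype.card {i // ¬ i ∈ S} = Fintype.card ι - S.card := by
    simp [Fintype.card_subtype_compl]
  rw [h4]
  exact mul_le_mul_left h3 _

theorem lower {n : ℕ} (α β : Measure X) [IsFiniteMeasure α]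
    [IsFiniteMeasure β] {A : Set X} (hα : α Aᶜ = 0) :
    ∑ k ∈ Finset.range (n + 1), (n.choose k : ℝ≥0∞) * (J (Fin k) α * β univ ^ (n - k)) ≤
      ∫⁻ x, LE A x ∂(Measure.pi fun _ : Fin n => α + β) := by
  rw [pi_add, lintegral_finsetSum_measure]
  refine le_trans (le_of_eq ?_) (Finset.sum_le_sum fun S _ => piece α β hα S)
  have := Finset.sum_powerset_apply_card (α := ℝ≥0∞)
    (fun k => J (Fin k) α * β univ ^ (n - k)) (x := (Finset.univ : Finset (Fin n)))
  rw [Finset.powerset_univ] at this
  simp only [Fintype.card_fin]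
  rw [this]
  simp [nsmul_eq_mul]

end Pool.Agent.H528Z.Pois
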