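import Pool.Agent.H528Z.Pois1

set_option autoImplicit false

open MeasureTheory Set
open scoped ENNReal

namespace Pool.Agent.H528Z.Pois

/-- real version -/
noncomputable def j (μ : Measure X) (n : ℕ) : ℝ := (J (Fin n) μ).toReal

theorem J_ne_top (μ : Measure X) [IsFiniteMeasure μ] (n : ℕ) : J (Fin n) μ ≠ ⊤ :=
  ne_top_of_le_ne_top (ENNReal.mul_ne_top (by simp) (ENNReal.pow_ne_top (measure_ne_top _ _)))
    (J_le _ μ)

theorem j_nonneg (μ : Measure X) (n : ℕ) : 0 ≤ j μ n := ENNReal.toReal_nonneg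

theorem j_le (μ : Measure X) [IsFiniteMeasure μ] (n : ℕ) :
    j μ n ≤ (2 * (μ univ).toReal) ^ n := by
  have h := ENNReal.toReal_mono
    (ENNReal.mul_ne_top (by simp) (ENNReal.pow_ne_top (measure_ne_top _ _))) (J_le (Fin n) μ)
  rw [ENNReal.toReal_mul, ENNReal.toReal_pow] at h
  simp only [Fintype.card_fin, ENNReal.toReal_natCast] at h
  refine h.trans ?_
  rw [mul_pow]
  refine mul_le_mul_of_nonneg_right ?_ (by positivity)
  exact_mod_cast (Nat.lt_two_pow_self (n := n)).le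

theorem summable_j (μ : Measure X) [IsFiniteMeasure μ] :
    Summable fun n => j μ n / (n.factorial : ℝ) := by
  refine Summable.of_nonneg_of_le (fun n => div_nonneg (j_nonneg μ n) (by positivity))
    (fun n => ?_) (Real.summable_pow_div_factorial (2 * (μ univ).toReal))
  exact div_le_div_of_nonneg_right (j_le μ n) (by positivity)

/-- exponential generating sum -/
noncomputable def G (μ : Measure X) : ℝ := ∑' n, j μ n / (n.factorial : ℝ)

theorem abstract_main (μ α₁ β₁ α₂ β₂ : Measure X) [IsFiniteMeasure α₁] [IsFiniteMeasure β₁]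
    [IsFiniteMeasure α₂] [IsFiniteMeasure β₂] (h₁ : μ = α₁ + β₁) (h₂ : μ = α₂ + β₂)
    {A₁ A₂ : Set X} (hA₁ : MeasurableSet A₁) (hα₁ : α₁ A₁ᶜ = 0) (hα₂ : α₂ A₂ᶜ = 0)
    (hord : ∀ p ∈ A₁, ∀ q ∈ A₂, p.1 < q.1 ∧ p.2 < q.2)
    (hJ : ∀ n, J (Fin n) α₂ = J (Fin n) α₁) {b : ℝ} (hb : 0 ≤ b)
    (hβ₁ : β₁ univ = ENNReal.ofReal b) (hβ₂ : β₂ univ = ENNReal.ofReal b) :
    2 * (G α₁ * Real.exp b) ≤ G μ := by
  have hfin : IsFiniteMeasure μ := by rw [h₁]; infer_instance
  have step : ∀ n : ℕ, 2 * ∑ k ∈ Finset.range (n + 1),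
      j α₁ k / (k.factorial : ℝ) * (b ^ (n - k) / ((n - k).factorial : ℝ))
      ≤ j μ n / (n.factorial : ℝ) := by
    intro n
    have l1 := lower (n := n) α₁ β₁ hα₁
    have l2 := lower (n := n) α₂ β₂ hα₂
    rw [← h₁, hβ₁] at l1
    rw [← h₂, hβ₂] at l2
    simp only [hJ] at l2
    have l3 : ∫⁻ x, LE A₁ x ∂(Measure.pi fun _ : Fin n => μ) +
        ∫⁻ x, LE A₂ x ∂(Measure.pi fun _ : Fin n => μ) ≤ J (Fin n) μ := by
      rw [← lintegral_add_left (measurable_LE hA₁)]
      exact lintegral_mono fun x => LE_add hord x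
    have l4 := ENNReal.toReal_mono (J_ne_top μ n) ((add_le_add l1 l2).trans l3)
    have hne : ∀ k ∈ Finset.range (n + 1),
        (n.choose k : ℝ≥0∞) * (J (Fin k) α₁ * ENNReal.ofReal b ^ (n - k)) ≠ ⊤ := fun k _ =>
      ENNReal.mul_ne_top (by simp)
        (ENNReal.mul_ne_top (J_ne_top _ _) (ENNReal.pow_ne_top ENNReal.ofReal_ne_top))
    rw [← two_mul, ENNReal.toReal_mul, ENNReal.toReal_sum hne] at l4
    simp only [ENNReal.toReal_mul, ENNReal.toReal_pow, ENNReal.toReal_natCast,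
      ENNReal.toReal_ofReal hb, ENNReal.toReal_ofNat] at l4
    rw [le_div_iff₀ (by positivity), mul_assoc, Finset.sum_mul]
    refine le_trans (le_of_eq ?_) l4
    congr 1
    refine Finset.sum_congr rfl fun k hk => ?_
    have hk' : k ≤ n := Nat.lt_succ_iff.1 (Finset.mem_range.1 hk)
    rw [Nat.cast_choose ℝ hk']
    unfold j
    field_simp
  have s1 : Summable fun n => ‖j α₁ n / (n.factorial : ℝ)‖ := (summable_j α₁).norm
  have s2 : Summable fun n : ℕ => ‖b ^ n / (n.factorial : ℝ)‖ :=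
    (Real.summable_pow_div_factorial b).norm
  have e : Real.exp b = ∑' n : ℕ, b ^ n / (n.factorial : ℝ) := by
    rw [Real.exp_eq_exp_ℝ, NormedSpace.exp_eq_tsum_div]
  unfold G
  rw [e, tsum_mul_tsum_eq_tsum_sum_range_of_summable_norm s1 s2, ← tsum_mul_left]
  refine Summable.tsum_le_tsum step ?_ (summable_j μ)
  exact ((summable_norm_sum_mul_range_of_summable_norm s1 s2).of_norm).mul_left 2

/-- diagonal rectangle -/
def R (a b c : ℝ) : Set X := {p | a ≤ p.1 + p.2 ∧ p.1 + p.2 ≤ b ∧ |p.1 - p.2| ≤ c}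

theorem measurableSet_R (a b c : ℝ) : MeasurableSet (R a b c) := by
  have h1 : MeasurableSet {p : X | a ≤ p.1 + p.2} :=
    measurableSet_le (by fun_prop) (by fun_prop)
  have h2 : MeasurableSet {p : X | p.1 + p.2 ≤ b} :=
    measurableSet_le (by fun_prop) (by fun_prop)
  have h3 : MeasurableSet {p : X | |p.1 - p.2| ≤ c} :=
    measurableSet_le (by fun_prop) (by fun_prop)
  exact h1.inter (h2.inter h3)

theorem volume_R {a b c : ℝ} (hab : a ≤ b) (hc : 0 ≤ c) :
    volume (R a b c) = ENNReal.ofReal ((b - a) * c) := by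
  let f : X →ₗ[ℝ] X := Matrix.toLin (Module.Basis.finTwoProd ℝ) (Module.Basis.finTwoProd ℝ)
    !![1, 1; 1, -1]
  have hdet : LinearMap.det f = -2 := by
    rw [LinearMap.det_toLin, Matrix.det_fin_two_of]
    norm_num
  have hf : ∀ p : X, f p = (p.1 + p.2, p.1 - p.2) := by
    intro p
    have := Matrix.toLin_finTwoProd_apply (R := ℝ) 1 1 1 (-1) p
    rw [this]
    ext <;> simp
    ring
  have e : R a b c = f ⁻¹' (Icc a b ×ˢ Icc (-c) c) := by
    ext p
    simp only [R, mem_preimage, hf, mem_prod, mem_Icc, Set.mem_ofPred_eq, abs_le]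
    tauto
  rw [e, Measure.addHaar_preimage_linearMap volume (by rw [hdet]; norm_num), hdet,
    Measure.volume_eq_prod, Measure.prod_prod, Real.volume_Icc, Real.volume_Icc,
    ← ENNReal.ofReal_mul (by linarith), ← ENNReal.ofReal_mul (by positivity)]
  congr 1
  rw [abs_of_neg (by norm_num)]
  ring

theorem finite_R {a b c : ℝ} (hab : a ≤ b) (hc : 0 ≤ c) :
    IsFiniteMeasure (volume.restrict (R a b c)) := by
  rw [isFiniteMeasure_restrict, volume_R hab hc]
  exact ENNReal.ofReal_ne_top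

theorem J_translate (n : ℕ) (a b c d : ℝ) :
    J (Fin n) (volume.restrict (R (a + 2 * d) (b + 2 * d) c)) =
      J (Fin n) (volume.restrict (R a b c)) := by
  have h0 : MeasurePreserving (fun p : X => p + (d, d)) volume volume :=
    measurePreserving_add_right volume _
  have h1 := h0.restrict_preimage (measurableSet_R (a + 2 * d) (b + 2 * d) c)
  have e : (fun p : X => p + (d, d)) ⁻¹' R (a + 2 * d) (b + 2 * d) c = R a b c := by
    ext p
    simp only [R, mem_preimage, Set.mem_ofPred_eq, Prod.fst_add, Prod.snd_add]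
    have : p.1 + d - (p.2 + d) = p.1 - p.2 := by ring
    rw [this]
    constructor <;> rintro ⟨h1, h2, h3⟩ <;> exact ⟨by linarith, by linarith, h3⟩
  rw [e] at h1
  have h2 := measurePreserving_pi (fun _ : Fin n => volume.restrict (R a b c))
    (fun _ : Fin n => volume.restrict (R (a + 2 * d) (b + 2 * d) c)) (fun _ => h1)
  unfold J
  rw [← h2.lintegral_comp (measurable_LE MeasurableSet.univ)]
  congr 1
  funext x
  exact LE_translate x (d, d)

theorem split {A B : Set X} (hA : MeasurableSet A) (hAB : A ⊆ B) :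
    volume.restrict B = volume.restrict A + volume.restrict (B \ A) := by
  rw [← Measure.restrict_union' disjoint_sdiff_right hA, union_sdiff_cancel hAB]

/-- superadditivity -/
theorem super {u c : ℝ} (hu : 0 ≤ u) (hc : 0 < c) :
    2 * (G (volume.restrict (R 0 u c)) * Real.exp ((u + 4 * c) * c)) ≤
      G (volume.restrict (R 0 (2 * u + 4 * c) c)) := by
  have f1 := finite_R (a := 0) (b := u) hu hc.le
  have f2 := finite_R (a := 0 + 2 * (u / 2 + 2 * c)) (b := u + 2 * (u / 2 + 2 * c))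
    (by linarith) hc.le
  have f0 := finite_R (a := 0) (b := 2 * u + 4 * c) (by linarith) hc.le
  have s1 : R 0 u c ⊆ R 0 (2 * u + 4 * c) c := by
    rintro p ⟨h1, h2, h3⟩
    exact ⟨h1, by linarith, h3⟩
  have s2 : R (0 + 2 * (u / 2 + 2 * c)) (u + 2 * (u / 2 + 2 * c)) c ⊆ R 0 (2 * u + 4 * c) c := by
    rintro p ⟨h1, h2, h3⟩
    exact ⟨by linarith, by linarith, h3⟩
  have vd : ∀ A : Set X, MeasurableSet A → A ⊆ R 0 (2 * u + 4 * c) c →
      volume A = ENNReal.ofReal (u * c) →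
      volume.restrict (R 0 (2 * u + 4 * c) c \ A) univ = ENNReal.ofReal ((u + 4 * c) * c) := by
    intro A hA hs hv
    rw [Measure.restrict_apply_univ, measure_sdiff hs hA.nullMeasurableSet
      (by rw [hv]; exact ENNReal.ofReal_ne_top), hv, volume_R (by linarith) hc.le,
      ← ENNReal.ofReal_sub _ (by positivity)]
    congr 1
    ring
  have v1 := vd _ (measurableSet_R _ _ _) s1 (by rw [volume_R hu hc.le]; simp)
  have v2 := vd _ (measurableSet_R _ _ _) s2 (by
    rw [volume_R (by linarith) hc.le]; congr 1; ring)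
  have g1 : IsFiniteMeasure (volume.restrict (R 0 (2 * u + 4 * c) c \ R 0 u c)) :=
    ⟨by rw [v1]; exact ENNReal.ofReal_lt_top⟩
  have g2 : IsFiniteMeasure (volume.restrict (R 0 (2 * u + 4 * c) c \
      R (0 + 2 * (u / 2 + 2 * c)) (u + 2 * (u / 2 + 2 * c)) c)) :=
    ⟨by rw [v2]; exact ENNReal.ofReal_lt_top⟩
  refine abstract_main _ _ _ _ _ (split (measurableSet_R _ _ _) s1)
    (split (measurableSet_R _ _ _) s2) (measurableSet_R 0 u c)
    (A₂ := R (0 + 2 * (u / 2 + 2 * c)) (u + 2 * (u / 2 + 2 * c)) c) ?_ ?_ ?_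
    (fun n => J_translate n _ _ _ _) (by positivity) v1 v2
  · rw [Measure.restrict_apply (measurableSet_R _ _ _).compl]
    simp
  · rw [Measure.restrict_apply (measurableSet_R _ _ _).compl]
    simp
  · rintro p ⟨h1, h2, h3⟩ q ⟨h4, h5, h6⟩
    rw [abs_le] at h3 h6
    constructor <;> linarith [h3.1, h3.2, h6.1, h6.2]

/-- the expectation in the statement -/
noncomputable def F (l w : ℝ) : ℝ :=
  ∑' n : ℕ, Real.exp (-(l * w)) / (n.factorial : ℝ) *
    ∫ x in Set.univ.pi (fun _ : Fin n =>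
        {p : ℝ × ℝ | 0 ≤ p.1 + p.2 ∧ p.1 + p.2 ≤ Real.sqrt 2 * l ∧
          |p.1 - p.2| ≤ Real.sqrt 2 * w / 2}),
      (((sSup {k : ℕ | ∃ s : Finset (Fin n), s.card = k ∧
          ∀ i ∈ s, ∀ j ∈ s, i ≠ j →
            (((x i).1 < (x j).1 ∧ (x i).2 < (x j).2) ∨
             ((x j).1 < (x i).1 ∧ (x j).2 < (x i).2))}) : ℕ) : ℝ)

theorem F_eq (l w : ℝ) :
    F l w = Real.exp (-(l * w)) * G (volume.restrict (R 0 (√2 * l) (√2 * w / 2))) := by
  unfold F G
  rw [← tsum_mul_left]
  congr 1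
  funext n
  have e : ∀ x : Fin n → X, (((sSup {k : ℕ | ∃ s : Finset (Fin n), s.card = k ∧
          ∀ i ∈ s, ∀ j ∈ s, i ≠ j →
            (((x i).1 < (x j).1 ∧ (x i).2 < (x j).2) ∨
             ((x j).1 < (x i).1 ∧ (x j).2 < (x i).2))}) : ℕ) : ℝ) = (LE univ x).toReal := by
    intro x
    rw [← sSup_eq x, ENNReal.toReal_natCast]
  simp only [e]
  rw [integral_toReal (measurable_LE MeasurableSet.univ).aemeasurable
    (Filter.Eventually.of_forall fun x => lt_of_le_of_lt (LE_le_card _ x) (by simp)),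
    volume_pi, Measure.restrict_pi_pi]
  unfold j J R
  ring

theorem F_super {l w : ℝ} (hl : 0 ≤ l) (hw : 0 < w) : 2 * F l w ≤ F (2 * l + 2 * w) w := by
  have h2 : √2 * √2 = 2 := Real.mul_self_sqrt (by norm_num)
  have h := super (u := √2 * l) (c := √2 * w / 2) (by positivity) (by positivity)
  have e1 : 2 * (√2 * l) + 4 * (√2 * w / 2) = √2 * (2 * l + 2 * w) := by ring
  have e2 : (√2 * l + 4 * (√2 * w / 2)) * (√2 * w / 2) = (l + 2 * w) * w := by
    linear_combination (l * w / 2 + w * w) * h2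
  rw [e1, e2] at h
  rw [F_eq, F_eq]
  have e3 : Real.exp (-(l * w)) =
      Real.exp (-((2 * l + 2 * w) * w)) * Real.exp ((l + 2 * w) * w) := by
    rw [← Real.exp_add]
    congr 1
    ring
  rw [e3]
  have := mul_le_mul_of_nonneg_left h (Real.exp_pos (-((2 * l + 2 * w) * w))).le
  linarith

end Pool.Agent.H528Z.Pois
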