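import Pool.Agent.H528Z.Pois2

set_option autoImplicit false

open Filter Topology

namespace Pool.Agent.H528Z.Pois

/-- the width function -/
noncomputable def W (a l : ℝ) : ℝ := (⌊(a * l) ^ ((1 : ℝ) / 4)⌋₊ : ℝ)

theorem W_tendsto {a : ℝ} (ha : 0 < a) : Tendsto (W a) atTop atTop := by
  unfold W
  refine tendsto_natCast_atTop_atTop.comp (tendsto_nat_floor_atTop.comp ?_)
  exact (tendsto_rpow_atTop (by norm_num)).comp (tendsto_id.const_mul_atTop ha)

theorem W_small {a : ℝ} (ha : 0 < a) (ha1 : a ≤ 1) :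
    Tendsto (fun l : ℝ => W a l / l ^ ((2 : ℝ) / 3)) atTop (𝓝 0) := by
  have h := tendsto_rpow_neg_atTop (y := (5 : ℝ) / 12) (by norm_num)
  refine tendsto_of_tendsto_of_tendsto_of_le_of_le' tendsto_const_nhds h ?_ ?_
  · filter_upwards [eventually_gt_atTop 0] with l hl
    unfold W
    positivity
  · filter_upwards [eventually_gt_atTop 0] with l hl
    rw [div_le_iff₀ (by positivity), ← Real.rpow_add hl]
    unfold W
    refine (Nat.floor_le (by positivity)).trans ?_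
    have : -((5 : ℝ) / 12) + 2 / 3 = 1 / 4 := by norm_num
    rw [this]
    exact Real.rpow_le_rpow (by positivity) (by nlinarith) (by norm_num)

theorem pow4 {m : ℝ} (hm : 0 ≤ m) : (m ^ 4) ^ ((1 : ℝ) / 4) = m := by
  have := Real.pow_rpow_inv_natCast hm (n := 4) (by norm_num)
  simpa using this

theorem W1 (m : ℕ) : W 1 ((m : ℝ) ^ 4) = m := by
  unfold W
  rw [one_mul, pow4 (by positivity), Nat.floor_natCast]

theorem W2 (m : ℕ) : W (1 / 2) (2 * (m : ℝ) ^ 4 + 2 * m) = m := by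
  unfold W
  have hm : (0 : ℝ) ≤ m := by positivity
  have e : (1 / 2 : ℝ) * (2 * (m : ℝ) ^ 4 + 2 * m) = m ^ 4 + m := by ring
  rw [e]
  congr 1
  rw [Nat.floor_eq_iff (by positivity)]
  constructor
  · calc (m : ℝ) = ((m : ℝ) ^ 4) ^ ((1 : ℝ) / 4) := (pow4 hm).symm
      _ ≤ _ := Real.rpow_le_rpow (by positivity) (by linarith) (by norm_num)
  · calc ((m : ℝ) ^ 4 + m) ^ ((1 : ℝ) / 4) < (((m : ℝ) + 1) ^ 4) ^ ((1 : ℝ) / 4) := by
          refine Real.rpow_lt_rpow (by positivity) ?_ (by norm_num)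
          have h2 : 0 ≤ (m : ℝ) ^ 2 := by positivity
          have h3 : 0 ≤ (m : ℝ) ^ 3 := by positivity
          nlinarith
      _ = (m : ℝ) + 1 := pow4 (by positivity)

theorem final (c₁ c₂ : ℝ) (h₁ : 0 < c₁) (h₂ : 0 < c₂)
    (H : ∀ w : ℝ → ℝ, Tendsto w atTop atTop →
        Tendsto (fun l : ℝ => w l / l ^ ((2 : ℝ) / 3)) atTop (𝓝 0) →
        Tendsto (fun l : ℝ => (F l (w l) - Real.sqrt 2 * l + c₁ * l / w l)
          / (c₂ * l ^ ((1 : ℝ) / 2) / (w l) ^ ((1 : ℝ) / 4))) atTop (𝓝 1)) : False := by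
  have t0 : Tendsto (fun m : ℕ => (m : ℝ)) atTop atTop := tendsto_natCast_atTop_atTop
  have t1 : Tendsto (fun m : ℕ => (m : ℝ) ^ 4) atTop atTop :=
    (tendsto_pow_atTop (by norm_num)).comp t0
  have t2 : Tendsto (fun m : ℕ => 2 * (m : ℝ) ^ 4 + 2 * m) atTop atTop :=
    Tendsto.atTop_add_atTop (t1.const_mul_atTop (by norm_num)) (t0.const_mul_atTop (by norm_num))
  have H1 := (H (W 1) (W_tendsto one_pos) (W_small one_pos le_rfl)).comp t1
  have H2 := (H (W (1 / 2)) (W_tendsto (by norm_num))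
    (W_small (by norm_num) (by norm_num))).comp t2
  have t3 : Tendsto (fun m : ℕ => (m : ℝ) ^ ((1 : ℝ) / 4)) atTop atTop :=
    (tendsto_rpow_atTop (by norm_num)).comp t0
  have E1 := H1.eventually (lt_mem_nhds (show (0.9 : ℝ) < 1 by norm_num))
  have E2 := H2.eventually (gt_mem_nhds (show (1 : ℝ) < 1.1 by norm_num))
  obtain ⟨m, e1, e2, e3, e4, e5⟩ := (E1.and (E2.and ((t0.eventually_ge_atTop 2).and
    ((t3.eventually_ge_atTop 1).and (t3.eventually_ge_atTop (40 / c₂)))))).exists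
  simp only [Function.comp, W1, W2] at e1 e2
  set t : ℝ := (m : ℝ) ^ ((1 : ℝ) / 4) with ht
  have hm : (0 : ℝ) < m := by linarith
  have ht0 : 0 < t := by linarith
  have ht4 : t ^ 4 = m := by
    have := Real.rpow_inv_natCast_pow hm.le (n := 4) (by norm_num)
    rw [ht]
    simpa using this
  have s1 : ((m : ℝ) ^ 4) ^ ((1 : ℝ) / 2) = m ^ 2 := by
    rw [← Real.sqrt_eq_rpow, show (m : ℝ) ^ 4 = (m ^ 2) ^ 2 by ring, Real.sqrt_sq (by positivity)]
  have s2 : (2 * (m : ℝ) ^ 4 + 2 * m) ^ ((1 : ℝ) / 2) ≤ 1.5 * m ^ 2 := by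
    rw [← Real.sqrt_eq_rpow]
    refine Real.sqrt_le_iff.2 ⟨by positivity, ?_⟩
    have h3 : (8 : ℝ) ≤ m ^ 3 := by
      calc (8 : ℝ) = 2 ^ 3 := by norm_num
        _ ≤ _ := pow_le_pow_left₀ (by norm_num) e3 3
    nlinarith
  have s3 : 0 < (2 * (m : ℝ) ^ 4 + 2 * m) ^ ((1 : ℝ) / 2) := by positivity
  rw [s1, lt_div_iff₀ (by positivity)] at e1
  rw [div_lt_iff₀ (by positivity)] at e2
  have sup := F_super (l := (m : ℝ) ^ 4) (w := m) (by positivity) hm
  have d2 : c₂ * (2 * (m : ℝ) ^ 4 + 2 * m) ^ ((1 : ℝ) / 2) / t ≤ 1.5 * (c₂ * m ^ 2 / t) := by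
    rw [← mul_div_assoc]
    refine div_le_div_of_nonneg_right ?_ ht0.le
    nlinarith
  have q1 : c₁ * (2 * (m : ℝ) ^ 4 + 2 * m) / m = 2 * (c₁ * m ^ 4 / m) + 2 * c₁ := by
    field_simp
  have hs : √2 ≤ 1.5 := Real.sqrt_le_iff.2 ⟨by norm_num, by norm_num⟩
  have k1 : 0.15 * (c₂ * m ^ 2 / t) ≤ 3 * m := by
    rw [q1] at e2
    nlinarith
  have k2 : c₂ * m ^ 2 / t = c₂ * t ^ 3 * m := by
    rw [← ht4]
    field_simp
  rw [k2] at k1
  have k3 : 40 ≤ c₂ * t := by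
    rw [div_le_iff₀ h₂] at e5
    linarith
  have k4 : 1 ≤ t ^ 2 := one_le_pow₀ e4
  have k5 : 40 ≤ c₂ * t ^ 3 := by nlinarith
  nlinarith

end Pool.Agent.H528Z.Pois
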